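import Pool.Agent.Lib_MP_3ea2ac_kq.W

/-! The logarithm is a fundamental solution; mean value inequality. -/

open MeasureTheory Complex Set Topology Filter
open scoped ComplexConjugate ContDiff ComplexOrder

namespace KQ

private theorem logP_integrable_ind (R : ℝ) :
    Integrable (fun w : ℂ => (Iio R).indicator Real.log ‖w‖) := by
  apply (integrable_fun_norm_addHaar (volume : Measure ℂ) (f := (Iio R).indicator Real.log)).2
  simp only [finrank_real_complex]
  have h1 : IntegrableOn (fun x : ℝ => x * Real.log x) (Icc 0 R) :=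
    Real.continuous_mul_log.integrableOn_Icc
  have h2 : IntegrableOn ((Iio R).indicator fun x : ℝ => x * Real.log x) (Ioi 0) := by
    rw [IntegrableOn, integrable_indicator_iff measurableSet_Iio, IntegrableOn,
      Measure.restrict_restrict measurableSet_Iio]
    apply h1.mono_set
    rintro x ⟨hx, hx'⟩
    exact ⟨le_of_lt hx', le_of_lt hx⟩
  apply h2.congr
  apply Eventually.of_forall
  intro x
  by_cases hx : x ∈ Iio R
  · simp [hx]
  · simp [hx]

/-- `log|w|` is locally integrable. -/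
theorem locallyIntegrable_log (p : ℂ) : LocallyIntegrable (fun w : ℂ => Real.log ‖w - p‖) := by
  rw [locallyIntegrable_iff]
  intro k hk
  obtain ⟨R, hR⟩ := hk.isBounded.subset_ball p
  have h1 := (logP_integrable_ind R).comp_sub_right p
  have h2 : IntegrableOn (fun w : ℂ => Real.log ‖w - p‖) (Metric.ball p R) := by
    have h3 : IntegrableOn (fun w : ℂ => (Iio R).indicator Real.log ‖w - p‖) (Metric.ball p R) :=
      h1.integrableOn
    apply h3.congr_fun _ Metric.isOpen_ball.measurableSet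
    intro w hw
    have : ‖w - p‖ ∈ Iio R := by
      rw [Metric.mem_ball, dist_eq_norm] at hw
      exact hw
    simp [indicator_of_mem this]
  exact h2.mono_set hR

private theorem logP_dw_sub (p w : ℂ) : dw (fun x => x - p) w = 1 := by
  have h : DifferentiableAt ℂ (fun x : ℂ => x - p) w := by fun_prop
  rw [dw_eq_deriv h]; simp

private theorem logP_dwb_sub (p w : ℂ) : dwb (fun x => x - p) w = 0 :=
  dwb_eq_zero (by fun_prop)

private theorem logP_dw_conj (p w : ℂ) : dw (fun x => conj (x - p)) w = 0 := by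
  have h1 : dw (fun x => conj (x - p)) w = conj (dwb (fun x => x - p) w) := wd_conj
  rw [h1, logP_dwb_sub, map_zero]

private theorem logP_dwb_conj (p w : ℂ) : dwb (fun x => conj (x - p)) w = 1 := by
  have h1 : dwb (fun x => conj (x - p)) w = conj (dw (fun x => x - p) w) := wdb_conj
  rw [h1, logP_dw_sub, map_one]

private theorem logP_nsq (p x : ℂ) : ((‖x - p‖ ^ 2 : ℝ) : ℂ) = (x - p) * conj (x - p) := by
  rw [Complex.mul_conj']; push_cast; rfl

private theorem logP_diff_sub (p w : ℂ) : DifferentiableAt ℝ (fun x : ℂ => x - p) w := by fun_prop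

private theorem logP_diff_conj (p w : ℂ) :
    DifferentiableAt ℝ (fun x : ℂ => conj (x - p)) w := by
  have h : (fun x : ℂ => conj (x - p)) = fun x => Complex.conjCLE (x - p) := by
    funext x; simp
  rw [h]; fun_prop

private theorem logP_diff_nsq (p w : ℂ) : DifferentiableAt ℝ (fun x : ℂ => ‖x - p‖ ^ 2) w :=
  (logP_diff_sub p w).norm_sq ℝ

private theorem logP_dw_nsq (p w : ℂ) :
    dw (fun x => ((‖x - p‖ ^ 2 : ℝ) : ℂ)) w = conj (w - p) := by
  have h0 : (fun x => ((‖x - p‖ ^ 2 : ℝ) : ℂ)) = fun x => (x - p) * conj (x - p) := by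
    funext x; exact logP_nsq p x
  have h1 : dw (fun x => (x - p) * conj (x - p)) w
      = dw (fun x => x - p) w * conj (w - p) + (w - p) * dw (fun x => conj (x - p)) w :=
    wd_mul (logP_diff_sub p w) (logP_diff_conj p w)
  rw [h0, h1, logP_dw_sub, logP_dw_conj]; ring

private theorem logP_dwb_nsq (p w : ℂ) :
    dwb (fun x => ((‖x - p‖ ^ 2 : ℝ) : ℂ)) w = w - p := by
  have h0 : (fun x => ((‖x - p‖ ^ 2 : ℝ) : ℂ)) = fun x => (x - p) * conj (x - p) := by
    funext x; exact logP_nsq p x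
  have h1 : dwb (fun x => (x - p) * conj (x - p)) w
      = dwb (fun x => x - p) w * conj (w - p) + (w - p) * dwb (fun x => conj (x - p)) w :=
    wdb_mul (logP_diff_sub p w) (logP_diff_conj p w)
  rw [h0, h1, logP_dwb_sub, logP_dwb_conj]; ring

/-- The regularised logarithm. -/
private noncomputable def logPL (e : ℝ) (p w : ℂ) : ℝ := 1 / 2 * Real.log (‖w - p‖ ^ 2 + e ^ 2)

private theorem logP_pos {e : ℝ} (he : 0 < e) (p w : ℂ) : 0 < ‖w - p‖ ^ 2 + e ^ 2 := by positivity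

private theorem logP_contDiff_nsq (p : ℂ) : ContDiff ℝ ∞ (fun x : ℂ => ‖x - p‖ ^ 2) := by
  have h : ContDiff ℝ ∞ (fun x : ℂ => x - p) := by fun_prop
  exact h.norm_sq ℝ

private theorem logP_contDiff_L {e : ℝ} (he : 0 < e) (p : ℂ) : ContDiff ℝ ∞ (logPL e p) := by
  unfold logPL
  apply ContDiff.mul contDiff_const
  apply ContDiff.log
  · exact (logP_contDiff_nsq p).add contDiff_const
  · intro x; exact (logP_pos he p x).ne'

private theorem logP_dw_L {e : ℝ} {p w : ℂ} (hpos : 0 < ‖w - p‖ ^ 2 + e ^ 2) :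
    dw (fun x => ((logPL e p x : ℝ) : ℂ)) w
      = ((1 / 2 / (‖w - p‖ ^ 2 + e ^ 2) : ℝ) : ℂ) * conj (w - p) := by
  have h1 : HasDerivAt (fun t : ℝ => 1 / 2 * Real.log (t + e ^ 2))
      (1 / 2 / (‖w - p‖ ^ 2 + e ^ 2)) (‖w - p‖ ^ 2) := by
    have h2 : HasDerivAt (fun t : ℝ => t + e ^ 2) 1 (‖w - p‖ ^ 2) :=
      (hasDerivAt_id _).add_const _
    have h3 := (h2.log hpos.ne').const_mul (1 / 2 : ℝ)
    have h3' : (1 / 2 / (‖w - p‖ ^ 2 + e ^ 2) : ℝ) = 1 / 2 * (1 / (‖w - p‖ ^ 2 + e ^ 2)) := by ring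
    rw [h3']
    exact h3
  have h4 : dw (fun x => (((fun t : ℝ => 1 / 2 * Real.log (t + e ^ 2)) (‖x - p‖ ^ 2) : ℝ) : ℂ)) w
      = ((1 / 2 / (‖w - p‖ ^ 2 + e ^ 2) : ℝ) : ℂ) * dw (fun x => ((‖x - p‖ ^ 2 : ℝ) : ℂ)) w :=
    wd_ofReal_comp (logP_diff_nsq p w) h1
  rw [logP_dw_nsq] at h4
  exact h4

private theorem logP_dwb_dw_L {e : ℝ} {p w : ℂ} (hpos : 0 < ‖w - p‖ ^ 2 + e ^ 2) :
    dwb (dw (fun x => ((logPL e p x : ℝ) : ℂ))) w
      = ((1 / 2 * e ^ 2 / (‖w - p‖ ^ 2 + e ^ 2) ^ 2 : ℝ) : ℂ) := by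
  have h0 : dw (fun x => ((logPL e p x : ℝ) : ℂ))
      =ᶠ[𝓝 w] fun x => ((1 / 2 / (‖x - p‖ ^ 2 + e ^ 2) : ℝ) : ℂ) * conj (x - p) := by
    have hcont : Continuous (fun x : ℂ => ‖x - p‖ ^ 2 + e ^ 2) := by fun_prop
    filter_upwards [hcont.continuousAt.eventually (lt_mem_nhds hpos)] with x hx
    exact logP_dw_L hx
  have h0' : dwb (dw (fun x => ((logPL e p x : ℝ) : ℂ))) w
      = dwb (fun x => ((1 / 2 / (‖x - p‖ ^ 2 + e ^ 2) : ℝ) : ℂ) * conj (x - p)) w :=
    wdb_congr h0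
  rw [h0']
  have h1 : HasDerivAt (fun t : ℝ => 1 / 2 / (t + e ^ 2))
      (- (1 / 2) / (‖w - p‖ ^ 2 + e ^ 2) ^ 2) (‖w - p‖ ^ 2) := by
    have h2 : HasDerivAt (fun t : ℝ => t + e ^ 2) 1 (‖w - p‖ ^ 2) :=
      (hasDerivAt_id _).add_const _
    have h3 := (hasDerivAt_const (‖w - p‖ ^ 2) (1 / 2 : ℝ)).fun_div h2 hpos.ne'
    have h3' : (- (1 / 2) / (‖w - p‖ ^ 2 + e ^ 2) ^ 2 : ℝ)
        = (0 * (‖w - p‖ ^ 2 + e ^ 2) - 1 / 2 * 1) / (‖w - p‖ ^ 2 + e ^ 2) ^ 2 := by ring
    rw [h3']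
    exact h3
  have h4 : dwb (fun x => (((fun t : ℝ => 1 / 2 / (t + e ^ 2)) (‖x - p‖ ^ 2) : ℝ) : ℂ)) w
      = ((- (1 / 2) / (‖w - p‖ ^ 2 + e ^ 2) ^ 2 : ℝ) : ℂ) *
        dwb (fun x => ((‖x - p‖ ^ 2 : ℝ) : ℂ)) w :=
    wdb_ofReal_comp (logP_diff_nsq p w) h1
  rw [logP_dwb_nsq] at h4
  have h5 : DifferentiableAt ℝ (fun x : ℂ => ((1 / 2 / (‖x - p‖ ^ 2 + e ^ 2) : ℝ) : ℂ)) w := by
    have h6 : DifferentiableAt ℝ (fun x : ℂ => (1 / 2 / (‖x - p‖ ^ 2 + e ^ 2) : ℝ)) w :=
      DifferentiableAt.comp (g := fun t : ℝ => 1 / 2 / (t + e ^ 2)) (f := fun x : ℂ => ‖x - p‖ ^ 2)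
        w h1.differentiableAt (logP_diff_nsq p w)
    exact Complex.ofRealCLM.differentiableAt.comp w h6
  have h7 : dwb (fun x => ((1 / 2 / (‖x - p‖ ^ 2 + e ^ 2) : ℝ) : ℂ) * conj (x - p)) w
      = dwb (fun x => ((1 / 2 / (‖x - p‖ ^ 2 + e ^ 2) : ℝ) : ℂ)) w * conj (w - p)
        + ((1 / 2 / (‖w - p‖ ^ 2 + e ^ 2) : ℝ) : ℂ) * dwb (fun x => conj (x - p)) w :=
    wdb_mul h5 (logP_diff_conj p w)
  rw [h7, h4, logP_dwb_conj, mul_one, mul_assoc, ← logP_nsq, ← ofReal_mul, ← ofReal_add]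
  congr 1
  field_simp
  ring

/-- Integration by parts twice. -/
private theorem logP_ibp_gen {f L : ℂ → ℂ} (hf : ContDiff ℝ ∞ f) (hc : HasCompactSupport f)
    (hL : ContDiff ℝ ∞ L) :
    ∫ w, L w * dw (dwb f) w = ∫ w, f w * dwb (dw L) w := by
  have hdb : ContDiff ℝ ∞ (dwb f) := contDiff_wdb hf
  have hcb : HasCompactSupport (dwb f) :=
    IsCompact.of_isClosed_subset hc (isClosed_tsupport _) tsupport_wdb_subset
  have hle : (1 : WithTop ℕ∞) ≤ ∞ := by exact_mod_cast le_top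
  have h1 : ∫ x, dwb f x * dw L x = - ∫ x, dw (dwb f) x * L x :=
    ibp_wd (volume : Measure ℂ) isOpen_univ (hdb.of_le hle) hcb (subset_univ _)
      (contDiffOn_univ.2 (hL.of_le hle))
  have h2 : ∫ x, f x * dwb (dw L) x = - ∫ x, dwb f x * dw L x :=
    ibp_wdb (volume : Measure ℂ) isOpen_univ (hf.of_le hle) hc (subset_univ _)
      (contDiffOn_univ.2 ((contDiff_wd hL).of_le hle))
  rw [h2, h1, neg_neg]
  apply integral_congr_ae
  apply Eventually.of_forall
  intro w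
  exact mul_comm _ _

private theorem logP_ibp {f : ℂ → ℂ} (hf : ContDiff ℝ ∞ f) (hc : HasCompactSupport f) (p : ℂ)
    {e : ℝ} (he : 0 < e) :
    ∫ w, ((logPL e p w : ℝ) : ℂ) * dw (dwb f) w
      = ∫ w, f w * ((1 / 2 * e ^ 2 / (‖w - p‖ ^ 2 + e ^ 2) ^ 2 : ℝ) : ℂ) := by
  have hL : ContDiff ℝ ∞ (fun x => ((logPL e p x : ℝ) : ℂ)) :=
    Complex.ofRealCLM.contDiff.comp (logP_contDiff_L he p)
  have h1 := logP_ibp_gen hf hc hL
  simp only [logP_dwb_dw_L (logP_pos he p _)] at h1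
  exact h1

private theorem logP_cov (f : ℂ → ℂ) (p : ℂ) {e : ℝ} (he : 0 < e) :
    ∫ w, f w * ((1 / 2 * e ^ 2 / (‖w - p‖ ^ 2 + e ^ 2) ^ 2 : ℝ) : ℂ)
      = ∫ u, f (p + e • u) * ((1 / 2 / (1 + ‖u‖ ^ 2) ^ 2 : ℝ) : ℂ) := by
  have h1 := Measure.integral_comp_smul (volume : Measure ℂ)
    (fun w => f (p + w) * ((1 / 2 * e ^ 2 / (‖w‖ ^ 2 + e ^ 2) ^ 2 : ℝ) : ℂ)) e
  rw [finrank_real_complex] at h1
  have h2 := integral_add_left_eq_self (μ := (volume : Measure ℂ))
    (fun w => f w * ((1 / 2 * e ^ 2 / (‖w - p‖ ^ 2 + e ^ 2) ^ 2 : ℝ) : ℂ)) p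
  simp only [add_sub_cancel_left] at h2
  have he2 : |(e ^ 2)⁻¹| = (e ^ 2)⁻¹ := abs_of_pos (by positivity)
  have h3 : ∫ w, f (p + w) * ((1 / 2 * e ^ 2 / (‖w‖ ^ 2 + e ^ 2) ^ 2 : ℝ) : ℂ)
      = (e ^ 2) • ∫ u, f (p + e • u) * ((1 / 2 * e ^ 2 / (‖e • u‖ ^ 2 + e ^ 2) ^ 2 : ℝ) : ℂ) := by
    rw [h1, he2, smul_smul, mul_inv_cancel₀ (by positivity), one_smul]
  rw [← h2, h3, ← integral_smul]
  apply integral_congr_ae
  apply Eventually.of_forall
  intro u
  simp only
  rw [real_smul, mul_left_comm, ← ofReal_mul]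
  congr 2
  have hpos : (0 : ℝ) < 1 + ‖u‖ ^ 2 := by positivity
  rw [norm_smul, Real.norm_of_nonneg he.le]
  have h4 : (e * ‖u‖) ^ 2 + e ^ 2 = e ^ 2 * (1 + ‖u‖ ^ 2) := by ring
  rw [h4]
  field_simp

private theorem logP_mass : ∫ u : ℂ, (1 / (1 + ‖u‖ ^ 2) ^ 2 : ℝ) = Real.pi := by
  rw [integral_fun_norm_addHaar (volume : Measure ℂ) (fun y => 1 / (1 + y ^ 2) ^ 2),
    finrank_real_complex]
  have hv : (volume : Measure ℂ).real (Metric.ball 0 1) = Real.pi := by
    rw [Measure.real, Complex.volume_ball]; simp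
  have hi : ∫ y in Ioi (0 : ℝ), y ^ (2 - 1) • (1 / (1 + y ^ 2) ^ 2) = 0 - (- (1 / 2) / (1 + 0 ^ 2)) := by
    apply integral_Ioi_of_hasDerivAt_of_nonneg' (g := fun y : ℝ => - (1 / 2) / (1 + y ^ 2))
    · intro x _
      have hpos : (0 : ℝ) < 1 + x ^ 2 := by positivity
      have h2 : HasDerivAt (fun t : ℝ => 1 + t ^ 2) (2 * x) x := by
        have := (hasDerivAt_pow 2 x).const_add 1
        simpa using this
      have h3 := (hasDerivAt_const x (- (1 / 2) : ℝ)).fun_div h2 hpos.ne'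
      have h4 : (x ^ (2 - 1) • (1 / (1 + x ^ 2) ^ 2) : ℝ)
          = (0 * (1 + x ^ 2) - - (1 / 2) * (2 * x)) / (1 + x ^ 2) ^ 2 := by
        rw [smul_eq_mul]; ring
      rw [h4]
      exact h3
    · intro x hx
      have hx0 : (0 : ℝ) < x := hx
      rw [smul_eq_mul]
      positivity
    · have h5 : Tendsto (fun y : ℝ => 1 + y ^ 2) atTop atTop :=
        tendsto_atTop_add_const_left _ _ (tendsto_pow_atTop two_ne_zero)
      exact h5.const_div_atTop _
  rw [hv, hi]
  simp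
  ring

private theorem logP_integrable_mass : Integrable (fun u : ℂ => (1 / (1 + ‖u‖ ^ 2) ^ 2 : ℝ)) := by
  have h := integrable_rpow_neg_one_add_norm_sq (E := ℂ) (μ := volume) (r := 4)
    (by rw [finrank_real_complex]; norm_num)
  apply h.congr
  apply Eventually.of_forall
  intro u
  simp only
  have hpos : (0 : ℝ) < 1 + ‖u‖ ^ 2 := by positivity
  have h2 : (-4 / 2 : ℝ) = - ((2 : ℕ) : ℝ) := by norm_num
  rw [h2, Real.rpow_neg hpos.le, Real.rpow_natCast, one_div]

private theorem logP_tendsto_right {f : ℂ → ℂ} (hf : Continuous f) (hc : HasCompactSupport f)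
    (p : ℂ) :
    Tendsto (fun n : ℕ => ∫ u, f (p + ((1 : ℝ) / (n + 1)) • u) *
      ((1 / 2 / (1 + ‖u‖ ^ 2) ^ 2 : ℝ) : ℂ)) atTop (𝓝 ((Real.pi / 2 : ℝ) * f p)) := by
  obtain ⟨C, hC⟩ := hf.bounded_above_of_compact_support hc
  have hlim : ((Real.pi / 2 : ℝ) : ℂ) * f p
      = ∫ u : ℂ, f p * ((1 / 2 / (1 + ‖u‖ ^ 2) ^ 2 : ℝ) : ℂ) := by
    rw [integral_const_mul]
    have h1 : ∫ u : ℂ, ((1 / 2 / (1 + ‖u‖ ^ 2) ^ 2 : ℝ) : ℂ)
        = ((∫ u : ℂ, (1 / 2 / (1 + ‖u‖ ^ 2) ^ 2 : ℝ) : ℝ) : ℂ) := integral_ofReal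
    have h2 : ∫ u : ℂ, (1 / 2 / (1 + ‖u‖ ^ 2) ^ 2 : ℝ) = Real.pi / 2 := by
      have h3 : (fun u : ℂ => (1 / 2 / (1 + ‖u‖ ^ 2) ^ 2 : ℝ))
          = fun u : ℂ => 1 / 2 * (1 / (1 + ‖u‖ ^ 2) ^ 2 : ℝ) := by
        funext u; ring
      rw [h3, integral_const_mul, logP_mass]; ring
    rw [h1, h2, mul_comm]
  rw [hlim]
  apply tendsto_integral_of_dominated_convergence
    (fun u : ℂ => C * (1 / 2 * (1 / (1 + ‖u‖ ^ 2) ^ 2 : ℝ)))
  · intro n
    apply Continuous.aestronglyMeasurable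
    apply Continuous.mul
    · exact hf.comp (by fun_prop)
    · apply continuous_ofReal.comp
      apply Continuous.div (by fun_prop) (by fun_prop)
      intro u
      positivity
  · exact (logP_integrable_mass.const_mul _).const_mul _
  · intro n
    apply Eventually.of_forall
    intro u
    rw [norm_mul]
    apply mul_le_mul (hC _) _ (norm_nonneg _) (le_trans (norm_nonneg _) (hC 0))
    rw [norm_real, Real.norm_of_nonneg (by positivity)]
    apply le_of_eq
    ring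
  · apply Eventually.of_forall
    intro u
    apply Tendsto.mul _ tendsto_const_nhds
    apply (hf.tendsto p).comp
    have h1 : Tendsto (fun n : ℕ => (1 : ℝ) / (n + 1)) atTop (𝓝 0) :=
      tendsto_one_div_add_atTop_nhds_zero_nat
    have h2 : Tendsto (fun n : ℕ => p + ((1 : ℝ) / (n + 1)) • u) atTop (𝓝 (p + (0 : ℝ) • u)) :=
      (h1.smul_const u).const_add p
    simpa using h2

private theorem logP_tendsto_left {g : ℂ → ℂ} (hg : Continuous g) (hc : HasCompactSupport g)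
    (hlog : ∀ p : ℂ, LocallyIntegrable (fun w : ℂ => Real.log ‖w - p‖)) (p : ℂ) :
    Tendsto (fun n : ℕ => ∫ w, ((logPL ((1 : ℝ) / (n + 1)) p w : ℝ) : ℂ) * g w) atTop
      (𝓝 (∫ w, (Real.log ‖w - p‖ : ℂ) * g w)) := by
  have hLc : ∀ n : ℕ, Continuous (logPL ((1 : ℝ) / (n + 1)) p) := fun n =>
    (logP_contDiff_L (by positivity) p).continuous
  have hB : LocallyIntegrable (fun w : ℂ => |Real.log ‖w - p‖| + logPL 1 p w) := by
    apply LocallyIntegrable.add
    · exact fun x => (hlog p x).norm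
    · exact (logP_contDiff_L one_pos p).continuous.locallyIntegrable
  have hB2 : Integrable (fun w : ℂ => ‖g w‖ • (|Real.log ‖w - p‖| + logPL 1 p w)) :=
    hB.integrable_smul_left_of_hasCompactSupport hg.norm hc.norm
  apply tendsto_integral_of_dominated_convergence
    (fun w : ℂ => ‖g w‖ • (|Real.log ‖w - p‖| + logPL 1 p w))
  · intro n
    exact ((continuous_ofReal.comp (hLc n)).mul hg).aestronglyMeasurable
  · exact hB2
  · intro n
    have hne : ∀ᵐ w : ℂ, w ≠ p := compl_mem_ae_iff.2 (measure_singleton p)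
    filter_upwards [hne] with w hw
    rw [norm_mul, mul_comm, smul_eq_mul, norm_real, Real.norm_eq_abs]
    apply mul_le_mul_of_nonneg_left _ (norm_nonneg _)
    have hN : 0 < ‖w - p‖ := norm_pos_iff.2 (sub_ne_zero.2 hw)
    have hN2 : 0 < ‖w - p‖ ^ 2 := by positivity
    have he0 : (0 : ℝ) < 1 / (n + 1) := by positivity
    have he1 : (1 : ℝ) / (n + 1) ≤ 1 := by
      rw [div_le_one (by positivity)]
      linarith [(Nat.cast_nonneg n : (0 : ℝ) ≤ n)]
    have he2 : ((1 : ℝ) / (n + 1)) ^ 2 ≤ 1 := by nlinarith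
    have h1 : Real.log (‖w - p‖ ^ 2) ≤ Real.log (‖w - p‖ ^ 2 + ((1 : ℝ) / (n + 1)) ^ 2) :=
      Real.log_le_log hN2 (by nlinarith [sq_nonneg ((1 : ℝ) / (n + 1))])
    have h2 : Real.log (‖w - p‖ ^ 2 + ((1 : ℝ) / (n + 1)) ^ 2)
        ≤ Real.log (‖w - p‖ ^ 2 + 1 ^ 2) :=
      Real.log_le_log (by positivity) (by linarith)
    have h3 : Real.log (‖w - p‖ ^ 2) = 2 * Real.log ‖w - p‖ := by
      rw [Real.log_pow]; norm_num
    have h4 : 0 ≤ Real.log (‖w - p‖ ^ 2 + 1 ^ 2) := Real.log_nonneg (by nlinarith)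
    have h5 := neg_abs_le (Real.log ‖w - p‖)
    have h6 := abs_nonneg (Real.log ‖w - p‖)
    have h7 : logPL ((1 : ℝ) / (n + 1)) p w
      = 1 / 2 * Real.log (‖w - p‖ ^ 2 + ((1 : ℝ) / (n + 1)) ^ 2) := rfl
    have h8 : logPL 1 p w = 1 / 2 * Real.log (‖w - p‖ ^ 2 + 1 ^ 2) := rfl
    rw [h7, h8]
    generalize Real.log (‖w - p‖ ^ 2 + ((1 : ℝ) / (n + 1)) ^ 2) = A at *
    generalize Real.log (‖w - p‖ ^ 2 + 1 ^ 2) = B at *
    generalize Real.log ‖w - p‖ = D at *
    rw [abs_le]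
    constructor
    · linarith
    · linarith
  · have hne : ∀ᵐ w : ℂ, w ≠ p := compl_mem_ae_iff.2 (measure_singleton p)
    filter_upwards [hne] with w hw
    apply Tendsto.mul _ tendsto_const_nhds
    apply (continuous_ofReal.tendsto _).comp
    have hN : 0 < ‖w - p‖ := norm_pos_iff.2 (sub_ne_zero.2 hw)
    have hN2 : 0 < ‖w - p‖ ^ 2 := by positivity
    have h1 : Tendsto (fun n : ℕ => (1 : ℝ) / (n + 1)) atTop (𝓝 0) :=
      tendsto_one_div_add_atTop_nhds_zero_nat
    have h2 : Tendsto (fun n : ℕ => ‖w - p‖ ^ 2 + ((1 : ℝ) / (n + 1)) ^ 2) atTop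
        (𝓝 (‖w - p‖ ^ 2 + 0 ^ 2)) := (h1.pow 2).const_add _
    have h3 : ‖w - p‖ ^ 2 + (0 : ℝ) ^ 2 ≠ 0 := by positivity
    have h4 := ((Real.continuousAt_log h3).tendsto.comp h2).const_mul (1 / 2 : ℝ)
    have h5 : 1 / 2 * Real.log (‖w - p‖ ^ 2 + 0 ^ 2) = Real.log ‖w - p‖ := by
      rw [zero_pow two_ne_zero, add_zero, Real.log_pow]; push_cast; ring
    rw [h5] at h4
    exact h4


/-- `∫ log|w-p| ∂∂̄f = (π/2) f(p)` for `f` smooth of compact support. Regularise by
`½ log(|w-p|²+ε²)`, whose `∂∂̄` is `½ ε²/(|w-p|²+ε²)²`, an approximate identity of mass `π/2`. -/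
theorem log_fundamental {f : ℂ → ℂ} (hf : ContDiff ℝ ∞ f) (hc : HasCompactSupport f) (p : ℂ) :
    ∫ w, (Real.log ‖w - p‖ : ℂ) * dw (dwb f) w = (Real.pi / 2 : ℝ) * f p := by
  have hcg : HasCompactSupport (dw (dwb f)) :=
    IsCompact.of_isClosed_subset hc (isClosed_tsupport _)
      (tsupport_wd_subset.trans tsupport_wdb_subset)
  have h1 := logP_tendsto_left (contDiff_wd (contDiff_wdb hf)).continuous hcg
    locallyIntegrable_log p
  have h2 := logP_tendsto_right hf.continuous hc p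
  have h3 : ∀ n : ℕ, ∫ w, ((logPL ((1 : ℝ) / (n + 1)) p w : ℝ) : ℂ) * dw (dwb f) w
      = ∫ u, f (p + ((1 : ℝ) / (n + 1)) • u) * ((1 / 2 / (1 + ‖u‖ ^ 2) ^ 2 : ℝ) : ℂ) := fun n =>
    (logP_ibp hf hc p (by positivity)).trans (logP_cov f p (by positivity))
  apply tendsto_nhds_unique h1
  have h4 : (fun n : ℕ => ∫ w, ((logPL ((1 : ℝ) / (n + 1)) p w : ℝ) : ℂ) * dw (dwb f) w)
      = fun n : ℕ => ∫ u, f (p + ((1 : ℝ) / (n + 1)) • u) *
        ((1 / 2 / (1 + ‖u‖ ^ 2) ^ 2 : ℝ) : ℂ) := funext h3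
  have h5 : Tendsto (fun n : ℕ => ∫ w, ((logPL ((1 : ℝ) / (n + 1)) p w : ℝ) : ℂ) *
      dw (dwb f) w) atTop (𝓝 ((Real.pi / 2 : ℝ) * f p)) := by
    rw [h4]; exact h2
  exact h5

private theorem logPL_zero (w : ℂ) : logPL 0 0 w = Real.log ‖w‖ := by
  unfold logPL
  rw [sub_zero, zero_pow two_ne_zero, add_zero, Real.log_pow]; push_cast; ring

/-- The mean value inequality on the unit ball. -/
private theorem logP_unit : ∃ K : ℝ, 0 < K ∧ ∀ h : ℂ → ℝ, ContDiff ℝ ∞ h → HasCompactSupport h →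
    (∀ w ∈ Metric.closedBall (0 : ℂ) 1, 0 ≤ h w) →
    (∀ w ∈ Metric.closedBall (0 : ℂ) 1, 0 ≤ lev h w) →
    h 0 ≤ K * ∫ y in Metric.closedBall (0 : ℂ) 1, h y := by
  let χ : ContDiffBump (0 : ℂ) := ⟨1 / 4, 1 / 2, by norm_num, by norm_num⟩
  obtain ⟨T, hT⟩ : ∃ T : ℂ → ℝ, T = fun w => logPL 0 0 w * (1 - χ w) := ⟨_, rfl⟩
  have hTs : ContDiff ℝ ∞ T := by
    rw [contDiff_iff_contDiffAt]
    intro w
    by_cases hw : w = 0
    · have h1 : T =ᶠ[𝓝 w] fun _ => 0 := by
        rw [hw]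
        filter_upwards [χ.eventuallyEq_one] with x hx
        rw [hT]
        simp only [hx, Pi.one_apply, sub_self, mul_zero]
      exact contDiffAt_const.congr_of_eventuallyEq h1
    · rw [hT]
      apply ContDiffAt.mul
      · unfold logPL
        apply ContDiffAt.mul contDiffAt_const
        apply ContDiffAt.log
        · exact ((logP_contDiff_nsq 0).add contDiff_const).contDiffAt
        · have hN : 0 < ‖w - 0‖ := norm_pos_iff.2 (sub_ne_zero.2 hw)
          positivity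
      · exact contDiffAt_const.sub χ.contDiffAt
  have hTc : ContDiff ℝ ∞ (fun x => ((T x : ℝ) : ℂ)) := Complex.ofRealCLM.contDiff.comp hTs
  have hkc : Continuous (dwb (dw (fun x => ((T x : ℝ) : ℂ)))) :=
    (contDiff_wdb (contDiff_wd hTc)).continuous
  have hkz : ∀ w : ℂ, 1 / 2 < ‖w‖ → dwb (dw (fun x => ((T x : ℝ) : ℂ))) w = 0 := by
    intro w hw
    have hU : IsOpen {x : ℂ | 1 / 2 < ‖x‖} := isOpen_lt continuous_const continuous_norm
    have h1 : ∀ x : ℂ, 1 / 2 < ‖x‖ → T x = logPL 0 0 x := by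
      intro x hx
      have h2 : χ x = 0 := by
        apply χ.zero_of_le_dist
        rw [dist_zero_right]
        exact hx.le
      rw [hT]
      simp only [h2, sub_zero, mul_one]
    have h2 : dw (fun x => ((T x : ℝ) : ℂ)) =ᶠ[𝓝 w] dw (fun x => ((logPL 0 0 x : ℝ) : ℂ)) := by
      filter_upwards [hU.mem_nhds hw] with x hx
      apply wd_congr
      filter_upwards [hU.mem_nhds hx] with y hy
      rw [h1 y hy]
    have h3 : 0 < ‖w - 0‖ ^ 2 + (0 : ℝ) ^ 2 := by
      have : 0 < ‖w - 0‖ := by rw [sub_zero]; linarith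
      positivity
    rw [dwb, wdb_congr h2]
    have h4 := logP_dwb_dw_L h3
    rw [dwb] at h4
    rw [h4]
    simp
  have hkcs : HasCompactSupport (dwb (dw (fun x => ((T x : ℝ) : ℂ)))) := by
    apply HasCompactSupport.intro (isCompact_closedBall (0 : ℂ) 1)
    intro x hx
    apply hkz
    rw [Metric.mem_closedBall, dist_zero_right, not_le] at hx
    linarith
  obtain ⟨C, hC⟩ := hkc.bounded_above_of_compact_support hkcs
  have hC1 : ∀ x, ‖dwb (dw (fun x => ((T x : ℝ) : ℂ))) x‖ ≤ max C 1 := fun x =>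
    (hC x).trans (le_max_left _ _)
  have hCpos : 0 < max C 1 := lt_of_lt_of_le one_pos (le_max_right _ _)
  have hpi := Real.pi_pos
  refine ⟨2 / Real.pi * max C 1, by positivity, ?_⟩
  intro h hh hhc hpos hlev
  generalize max C 1 = D at *
  have hf : ContDiff ℝ ∞ (fun x => ((h x : ℝ) : ℂ)) := Complex.ofRealCLM.contDiff.comp hh
  have hfc : HasCompactSupport (fun x => ((h x : ℝ) : ℂ)) := by
    apply HasCompactSupport.intro hhc
    intro x hx
    rw [image_eq_zero_of_notMem_tsupport hx, ofReal_zero]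
  have hlevc : ∀ w, ((lev h w : ℝ) : ℂ) = dw (dwb (fun x => ((h x : ℝ) : ℂ))) w := fun w =>
    lev_coe isOpen_univ (contDiffOn_univ.2 hh) (mem_univ w)
  have hlevcont : Continuous (lev h) := by
    unfold lev
    exact continuous_re.comp (contDiff_wd (contDiff_wdb hf)).continuous
  have hgcs : HasCompactSupport (fun w => χ w * lev h w) := χ.hasCompactSupport.mul_right
  have hI1 : Integrable (fun w : ℂ => (χ w * lev h w) • Real.log ‖w - 0‖) :=
    (locallyIntegrable_log 0).integrable_smul_left_of_hasCompactSupport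
      (χ.continuous.mul hlevcont) hgcs
  have hI1' : Integrable (fun w : ℂ => (((χ w * lev h w) • Real.log ‖w - 0‖ : ℝ) : ℂ)) :=
    hI1.ofReal
  have hcs2 : HasCompactSupport (dw (dwb (fun x => ((h x : ℝ) : ℂ)))) :=
    IsCompact.of_isClosed_subset hfc (isClosed_tsupport _)
      (tsupport_wd_subset.trans tsupport_wdb_subset)
  have hI2 : Integrable (fun w : ℂ => ((T w : ℝ) : ℂ) * dw (dwb (fun x => ((h x : ℝ) : ℂ))) w) :=
    (hTc.continuous.mul (contDiff_wd (contDiff_wdb hf)).continuous).integrable_of_hasCompactSupport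
      hcs2.mul_left
  have E1 := log_fundamental hf hfc 0
  have E2 := logP_ibp_gen hf hfc hTc
  have E3 : ∫ w, (Real.log ‖w - 0‖ : ℂ) * dw (dwb (fun x => ((h x : ℝ) : ℂ))) w
      = ∫ w, (((((χ w * lev h w) • Real.log ‖w - 0‖ : ℝ) : ℂ))
        + ((T w : ℝ) : ℂ) * dw (dwb (fun x => ((h x : ℝ) : ℂ))) w) := by
    apply integral_congr_ae
    apply Eventually.of_forall
    intro w
    simp only
    rw [← hlevc w, hT]
    simp only [logPL_zero, sub_zero, smul_eq_mul]
    push_cast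
    ring
  have E3' : ∫ w : ℂ, (((χ w * lev h w) • Real.log ‖w - 0‖ : ℝ) : ℂ)
      = ((∫ w : ℂ, (χ w * lev h w) • Real.log ‖w - 0‖ : ℝ) : ℂ) := integral_ofReal
  rw [integral_add hI1' hI2, E2, E3'] at E3
  have E4 : ∫ w : ℂ, (χ w * lev h w) • Real.log ‖w - 0‖ ≤ 0 := by
    apply integral_nonpos
    intro w
    simp only [Pi.zero_apply, smul_eq_mul, sub_zero]
    by_cases hw : ‖w‖ ≤ 1
    · apply mul_nonpos_of_nonneg_of_nonpos
      · apply mul_nonneg χ.nonneg
        apply hlev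
        rw [Metric.mem_closedBall, dist_zero_right]
        exact hw
      · exact Real.log_nonpos (norm_nonneg _) hw
    · have h2 : χ w = 0 := by
        apply χ.zero_of_le_dist
        rw [dist_zero_right]
        show (1 / 2 : ℝ) ≤ ‖w‖
        linarith
      rw [h2]
      simp
  rw [E1] at E3
  have E5 := congrArg Complex.re E3
  rw [← ofReal_mul, ofReal_re, add_re, ofReal_re] at E5
  have E6 : (∫ w, ((h w : ℝ) : ℂ) * dwb (dw (fun x => ((T x : ℝ) : ℂ))) w).re
      ≤ D * ∫ y in Metric.closedBall (0 : ℂ) 1, h y := by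
    apply (re_le_norm _).trans
    apply (norm_integral_le_integral_norm _).trans
    have hz : ∀ x ∉ Metric.closedBall (0 : ℂ) 1,
        ‖((h x : ℝ) : ℂ) * dwb (dw (fun x => ((T x : ℝ) : ℂ))) x‖ = 0 := by
      intro x hx
      rw [Metric.mem_closedBall, dist_zero_right, not_le] at hx
      rw [hkz x (by linarith), mul_zero, norm_zero]
    rw [← setIntegral_eq_integral_of_forall_compl_eq_zero hz, ← integral_const_mul]
    apply setIntegral_mono_on
    · apply Integrable.integrableOn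
      apply Integrable.norm
      exact (hf.continuous.mul hkc).integrable_of_hasCompactSupport hkcs.mul_left
    · exact ((hh.continuous.integrable_of_hasCompactSupport hhc).const_mul D).integrableOn
    · exact Metric.isClosed_closedBall.measurableSet
    · intro x hx
      rw [norm_mul, norm_real, Real.norm_of_nonneg (hpos x hx), mul_comm]
      exact mul_le_mul_of_nonneg_right (hC1 x) (hpos x hx)
  have E7 : Real.pi / 2 * h 0 ≤ D * ∫ y in Metric.closedBall (0 : ℂ) 1, h y := by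
    rw [E5]; linarith
  have E8 : h 0 = 2 / Real.pi * (Real.pi / 2 * h 0) := by field_simp
  rw [E8, mul_assoc]
  exact mul_le_mul_of_nonneg_left E7 (by positivity)


private theorem logP_comp_diff {F : ℂ → ℂ} (w : ℂ) (r : ℝ) (u : ℂ)
    (hF : DifferentiableAt ℝ F (w + r • u)) :
    HasFDerivAt (fun u : ℂ => F (w + r • u)) (r • fderiv ℝ F (w + r • u)) u := by
  have h1 : HasFDerivAt (fun u : ℂ => w + r • u) (r • ContinuousLinearMap.id ℝ ℂ) u :=
    ((hasFDerivAt_id u).const_smul r).const_add w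
  have h2 := hF.hasFDerivAt.comp u h1
  have h3 : (fderiv ℝ F (w + r • u)).comp (r • ContinuousLinearMap.id ℝ ℂ)
      = r • fderiv ℝ F (w + r • u) := by
    ext v
    simp
  rw [← h3]
  exact h2

private theorem logP_comp_dw {F : ℂ → ℂ} (w : ℂ) (r : ℝ) (u : ℂ)
    (hF : DifferentiableAt ℝ F (w + r • u)) :
    dw (fun u : ℂ => F (w + r • u)) u = r * dw F (w + r • u) := by
  have h := (logP_comp_diff w r u hF).fderiv
  simp only [dw, wd]
  rw [h]
  simp only [smul_apply, real_smul]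
  ring

private theorem logP_comp_dwb {F : ℂ → ℂ} (w : ℂ) (r : ℝ) (u : ℂ)
    (hF : DifferentiableAt ℝ F (w + r • u)) :
    dwb (fun u : ℂ => F (w + r • u)) u = r * dwb F (w + r • u) := by
  have h := (logP_comp_diff w r u hF).fderiv
  simp only [dwb, wdb]
  rw [h]
  simp only [smul_apply, real_smul]
  ring

private theorem logP_comp_lev {h : ℂ → ℝ} (hh : ContDiff ℝ ∞ h) (w : ℂ) (r : ℝ) (u : ℂ) :
    lev (fun u : ℂ => h (w + r • u)) u = r ^ 2 * lev h (w + r • u) := by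
  have hf : ContDiff ℝ ∞ (fun x => ((h x : ℝ) : ℂ)) := Complex.ofRealCLM.contDiff.comp hh
  have hne : (∞ : WithTop ℕ∞) ≠ 0 := by simp
  have h1 : dwb (fun u : ℂ => ((h (w + r • u) : ℝ) : ℂ))
      = fun u => r * dwb (fun x => ((h x : ℝ) : ℂ)) (w + r • u) := by
    funext v
    exact logP_comp_dwb (F := fun x => ((h x : ℝ) : ℂ)) w r v (hf.differentiable hne _)
  have hd : ∀ x, DifferentiableAt ℝ (dwb (fun x => ((h x : ℝ) : ℂ))) x := fun x =>
    (contDiff_wdb hf).differentiable hne x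
  have h2 : dw (fun u => r * dwb (fun x => ((h x : ℝ) : ℂ)) (w + r • u)) u
      = r * dw (fun u => dwb (fun x => ((h x : ℝ) : ℂ)) (w + r • u)) u :=
    wd_const_mul _ (logP_comp_diff w r u (hd _)).differentiableAt
  unfold lev
  rw [h1, h2, logP_comp_dw w r u (hd _), ← mul_assoc, ← ofReal_mul, re_ofReal_mul]
  ring

/-- Mean value inequality for smooth `h ≥ 0` with `∂∂̄ h ≥ 0` near the closed disc: apply
`log_fundamental` to `χ h` with a cutoff of the disc; the log is `≤ 0` after scaling. -/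
theorem submean : ∃ C₀ > 0, ∀ (S : Set ℂ), IsOpen S → ∀ h : ℂ → ℝ, ContDiffOn ℝ ∞ h S →
    (∀ w ∈ S, 0 ≤ h w) → (∀ w ∈ S, 0 ≤ lev h w) → ∀ w r, 0 < r → Metric.closedBall w r ⊆ S →
    h w ≤ C₀ / r ^ 2 * ∫ y in Metric.closedBall w r, h y := by
  obtain ⟨K, hK, hunit⟩ := logP_unit
  refine ⟨K, hK, ?_⟩
  intro S hS h hh hpos hlev w r hr hball
  obtain ⟨δ, hδ, hδS⟩ := (isCompact_closedBall w r).exists_cthickening_subset_open hS hball
  rw [cthickening_closedBall hδ.le hr.le] at hδS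
  let χ : ContDiffBump w := ⟨r + δ / 2, δ + r, by linarith, by linarith⟩
  obtain ⟨g, hg⟩ : ∃ g : ℂ → ℝ, g = fun y => χ y * h y := ⟨_, rfl⟩
  have hts : tsupport χ ⊆ S := by
    rw [χ.tsupport_eq]
    exact hδS
  have hgs : ContDiff ℝ ∞ g := by
    rw [contDiff_iff_contDiffAt]
    intro y
    by_cases hy : y ∈ S
    · rw [hg]
      exact χ.contDiffAt.mul (hh.contDiffAt (hS.mem_nhds hy))
    · have h1 : g =ᶠ[𝓝 y] fun _ => 0 := by
        have h2 : y ∉ tsupport χ := fun h3 => hy (hts h3)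
        filter_upwards [notMem_tsupport_iff_eventuallyEq.1 h2] with x hx
        rw [hg]
        simp only [hx, Pi.zero_apply, zero_mul]
      exact contDiffAt_const.congr_of_eventuallyEq h1
  have hgc : HasCompactSupport g := by
    rw [hg]
    exact χ.hasCompactSupport.mul_right
  have hgeq : ∀ y ∈ Metric.ball w (r + δ / 2), g y = h y := by
    intro y hy
    have h1 : χ y = 1 := χ.one_of_mem_closedBall (Metric.ball_subset_closedBall hy)
    rw [hg]
    simp only [h1, one_mul]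
  have hsub : Metric.closedBall w r ⊆ Metric.ball w (r + δ / 2) :=
    Metric.closedBall_subset_ball (by linarith)
  have hglev : ∀ y ∈ Metric.closedBall w r, 0 ≤ lev g y := by
    intro y hy
    have hU : IsOpen (Metric.ball w (r + δ / 2)) := Metric.isOpen_ball
    have h1 : dwb (fun x => ((g x : ℝ) : ℂ)) =ᶠ[𝓝 y] dwb (fun x => ((h x : ℝ) : ℂ)) := by
      filter_upwards [hU.mem_nhds (hsub hy)] with x hx
      apply wdb_congr
      filter_upwards [hU.mem_nhds hx] with z hz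
      rw [hgeq z hz]
    have h2 : lev g y = lev h y := by
      unfold lev
      rw [dw, wd_congr h1]
    rw [h2]
    exact hlev y (hball hy)
  obtain ⟨H, hH⟩ : ∃ H : ℂ → ℝ, H = fun u => g (w + r • u) := ⟨_, rfl⟩
  have hmem : ∀ u : ℂ, w + r • u ∈ Metric.closedBall w r ↔ u ∈ Metric.closedBall (0 : ℂ) 1 := by
    intro u
    rw [Metric.mem_closedBall, Metric.mem_closedBall, dist_eq_norm, add_sub_cancel_left,
      dist_zero_right, norm_smul, Real.norm_of_nonneg hr.le]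
    constructor
    · intro h1; nlinarith
    · intro h1; nlinarith
  have hHs : ContDiff ℝ ∞ H := by
    rw [hH]
    exact hgs.comp (by fun_prop)
  have hHc : HasCompactSupport H := by
    apply HasCompactSupport.intro
      (isCompact_closedBall (0 : ℂ) ((r + δ) / r))
    intro u hu
    rw [hH, hg]
    simp only
    have h1 : χ (w + r • u) = 0 := by
      apply χ.zero_of_le_dist
      rw [dist_eq_norm, add_sub_cancel_left, norm_smul, Real.norm_of_nonneg hr.le]
      rw [Metric.mem_closedBall, dist_zero_right, not_le, div_lt_iff₀ hr] at hu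
      show δ + r ≤ r * ‖u‖
      linarith
    rw [h1, zero_mul]
  have key := hunit H hHs hHc (by
    intro u hu
    rw [hH]
    simp only
    rw [hgeq _ (hsub ((hmem u).2 hu))]
    exact hpos _ (hball ((hmem u).2 hu))) (by
    intro u hu
    rw [hH, logP_comp_lev hgs]
    exact mul_nonneg (by positivity) (hglev _ ((hmem u).2 hu)))
  have hH0 : H 0 = h w := by
    rw [hH]
    simp only [smul_zero, add_zero]
    exact hgeq w (hsub (Metric.mem_closedBall_self hr.le))
  have hInt : ∫ y in Metric.closedBall (0 : ℂ) 1, H y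
      = (r ^ 2)⁻¹ * ∫ y in Metric.closedBall w r, h y := by
    have h1 : ∫ y in Metric.closedBall w r, h y = ∫ y in Metric.closedBall w r, g y :=
      setIntegral_congr_fun Metric.isClosed_closedBall.measurableSet
        (fun y hy => (hgeq y (hsub hy)).symm)
    rw [h1, ← integral_indicator Metric.isClosed_closedBall.measurableSet,
      ← integral_indicator Metric.isClosed_closedBall.measurableSet]
    have h2 := Measure.integral_comp_smul (volume : Measure ℂ)
      (fun y => (Metric.closedBall w r).indicator g (w + y)) r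
    rw [finrank_real_complex, abs_of_pos (by positivity : (0 : ℝ) < (r ^ 2)⁻¹), smul_eq_mul] at h2
    have h3 := integral_add_left_eq_self (μ := (volume : Measure ℂ))
      ((Metric.closedBall w r).indicator g) w
    rw [h3] at h2
    rw [← h2]
    apply integral_congr_ae
    apply Eventually.of_forall
    intro u
    simp only
    by_cases hu : u ∈ Metric.closedBall (0 : ℂ) 1
    · rw [indicator_of_mem hu, indicator_of_mem ((hmem u).2 hu), hH]
    · rw [indicator_of_notMem hu, indicator_of_notMem (fun h4 => hu ((hmem u).1 h4))]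
  rw [hH0, hInt, ← mul_assoc, ← div_eq_mul_inv] at key
  exact key

end KQ
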