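import Pool.Agent.Lib_MP_3ea2ac_kq.Defs

/-! Wirtinger calculus (generic). -/

open MeasureTheory Complex Set Topology
open scoped ComplexConjugate ContDiff ComplexOrder

namespace KQ

variable {E : Type*} [NormedAddCommGroup E] [NormedSpace ℝ E] {e e' a a' b b' : E}
  {f h : E → ℂ} {x : E} {M : Set E}

theorem wd_congr (H : f =ᶠ[𝓝 x] h) : wd e e' f x = wd e e' h x := by
  simp only [wd, H.fderiv_eq]

theorem wdb_congr (H : f =ᶠ[𝓝 x] h) : wdb e e' f x = wdb e e' h x := by
  simp only [wdb, H.fderiv_eq]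

theorem wd_add (hf : DifferentiableAt ℝ f x) (hh : DifferentiableAt ℝ h x) :
    wd e e' (fun y => f y + h y) x = wd e e' f x + wd e e' h x := by
  simp only [wd, fderiv_fun_add hf hh, add_apply]; ring

theorem wdb_add (hf : DifferentiableAt ℝ f x) (hh : DifferentiableAt ℝ h x) :
    wdb e e' (fun y => f y + h y) x = wdb e e' f x + wdb e e' h x := by
  simp only [wdb, fderiv_fun_add hf hh, add_apply]; ring

theorem wd_sub (hf : DifferentiableAt ℝ f x) (hh : DifferentiableAt ℝ h x) :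
    wd e e' (fun y => f y - h y) x = wd e e' f x - wd e e' h x := by
  simp only [wd, fderiv_fun_sub hf hh, sub_apply]; ring

theorem wdb_sub (hf : DifferentiableAt ℝ f x) (hh : DifferentiableAt ℝ h x) :
    wdb e e' (fun y => f y - h y) x = wdb e e' f x - wdb e e' h x := by
  simp only [wdb, fderiv_fun_sub hf hh, sub_apply]; ring

theorem wd_neg : wd e e' (fun y => - f y) x = - wd e e' f x := by
  simp only [wd, fderiv_fun_neg, neg_apply]; ring

theorem wdb_neg : wdb e e' (fun y => - f y) x = - wdb e e' f x := by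
  simp only [wdb, fderiv_fun_neg, neg_apply]; ring

theorem wd_const (c : ℂ) : wd e e' (fun _ => c) x = 0 := by
  simp [wd]

theorem wdb_const (c : ℂ) : wdb e e' (fun _ => c) x = 0 := by
  simp [wdb]

theorem wd_mul (hf : DifferentiableAt ℝ f x) (hh : DifferentiableAt ℝ h x) :
    wd e e' (fun y => f y * h y) x = wd e e' f x * h x + f x * wd e e' h x := by
  simp only [wd, fderiv_fun_mul hf hh, add_apply,
    smul_apply, smul_eq_mul]; ring

theorem wdb_mul (hf : DifferentiableAt ℝ f x) (hh : DifferentiableAt ℝ h x) :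
    wdb e e' (fun y => f y * h y) x = wdb e e' f x * h x + f x * wdb e e' h x := by
  simp only [wdb, fderiv_fun_mul hf hh, add_apply,
    smul_apply, smul_eq_mul]; ring

theorem wd_const_mul (c : ℂ) (hf : DifferentiableAt ℝ f x) :
    wd e e' (fun y => c * f y) x = c * wd e e' f x := by
  rw [wd_mul (differentiableAt_const c) hf, wd_const]; ring

theorem wdb_const_mul (c : ℂ) (hf : DifferentiableAt ℝ f x) :
    wdb e e' (fun y => c * f y) x = c * wdb e e' f x := by
  rw [wdb_mul (differentiableAt_const c) hf, wdb_const]; ring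

private theorem W_fconj (v : E) :
    fderiv ℝ (fun y => conj (f y)) x v = conj (fderiv ℝ f x v) := by
  have h1 : fderiv ℝ (fun y => conj (f y)) x
      = (conjCLE : ℂ →L[ℝ] ℂ).comp (fderiv ℝ f x) := by
    exact ContinuousLinearEquiv.comp_fderiv (conjCLE : ℂ ≃L[ℝ] ℂ)
  rw [h1]
  simp

/-- Conjugation exchanges the two operators. -/
theorem wd_conj : wd e e' (fun y => conj (f y)) x = conj (wdb e e' f x) := by
  simp only [wd, wdb, W_fconj, map_div₀, map_add, map_mul, conj_I]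
  have : (starRingEnd ℂ) 2 = 2 := Complex.conj_ofNat 2
  rw [this]
  ring

theorem wdb_conj : wdb e e' (fun y => conj (f y)) x = conj (wd e e' f x) := by
  simp only [wd, wdb, W_fconj, map_div₀, map_sub, map_mul, conj_I]
  have : (starRingEnd ℂ) 2 = 2 := Complex.conj_ofNat 2
  rw [this]
  ring

private theorem W_fofReal {u : E → ℝ} (hu : DifferentiableAt ℝ u x) (v : E) :
    fderiv ℝ (fun y => ((u y : ℝ) : ℂ)) x v = ((fderiv ℝ u x v : ℝ) : ℂ) := by
  have h1 : HasFDerivAt (fun y => ((u y : ℝ) : ℂ)) (ofRealCLM.comp (fderiv ℝ u x)) x :=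
    ofRealCLM.hasFDerivAt.comp x hu.hasFDerivAt
  rw [h1.fderiv]
  simp

private theorem W_fcomp {u : E → ℝ} {φ : ℝ → ℝ} {c : ℝ} (hu : DifferentiableAt ℝ u x)
    (hφ : HasDerivAt φ c (u x)) (v : E) :
    fderiv ℝ (fun y => ((φ (u y) : ℝ) : ℂ)) x v
      = c * fderiv ℝ (fun y => ((u y : ℝ) : ℂ)) x v := by
  have h1 : HasFDerivAt (fun y => φ (u y)) (c • fderiv ℝ u x) x :=
    hφ.comp_hasFDerivAt x hu.hasFDerivAt
  rw [W_fofReal hu, W_fofReal (u := fun y => φ (u y)) h1.differentiableAt, h1.fderiv]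
  simp

/-- Chain rule for a real function of a real function. -/
theorem wd_ofReal_comp {u : E → ℝ} {φ : ℝ → ℝ} {c : ℝ} (hu : DifferentiableAt ℝ u x)
    (hφ : HasDerivAt φ c (u x)) :
    wd e e' (fun y => ((φ (u y) : ℝ) : ℂ)) x = c * wd e e' (fun y => ((u y : ℝ) : ℂ)) x := by
  simp only [wd, W_fcomp hu hφ]
  ring

theorem wdb_ofReal_comp {u : E → ℝ} {φ : ℝ → ℝ} {c : ℝ} (hu : DifferentiableAt ℝ u x)
    (hφ : HasDerivAt φ c (u x)) :
    wdb e e' (fun y => ((φ (u y) : ℝ) : ℂ)) x = c * wdb e e' (fun y => ((u y : ℝ) : ℂ)) x := by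
  simp only [wdb, W_fcomp hu hφ]
  ring

/-- For a real function, in terms of the real derivative. -/
theorem wd_ofReal {u : E → ℝ} (hu : DifferentiableAt ℝ u x) :
    wd e e' (fun y => ((u y : ℝ) : ℂ)) x
      = ((fderiv ℝ u x e : ℝ) - I * (fderiv ℝ u x e' : ℝ)) / 2 := by
  simp only [wd, W_fofReal hu]

theorem wdb_ofReal {u : E → ℝ} (hu : DifferentiableAt ℝ u x) :
    wdb e e' (fun y => ((u y : ℝ) : ℂ)) x
      = ((fderiv ℝ u x e : ℝ) + I * (fderiv ℝ u x e' : ℝ)) / 2 := by
  simp only [wdb, W_fofReal hu]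

private theorem W_contDiffOn_fderiv (hM : IsOpen M) (hf : ContDiffOn ℝ ∞ f M) :
    ContDiffOn ℝ ∞ (fderiv ℝ f) M :=
  hf.fderiv_of_isOpen hM (by simp)

private theorem W_contDiffOn_fderiv_apply (hM : IsOpen M) (hf : ContDiffOn ℝ ∞ f M) (v : E) :
    ContDiffOn ℝ ∞ (fun y => fderiv ℝ f y v) M :=
  (W_contDiffOn_fderiv hM hf).clm_apply contDiffOn_const

theorem contDiffOn_wd (hM : IsOpen M) (hf : ContDiffOn ℝ ∞ f M) :
    ContDiffOn ℝ ∞ (wd e e' f) M := by
  have h1 := W_contDiffOn_fderiv_apply hM hf e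
  have h2 := W_contDiffOn_fderiv_apply hM hf e'
  exact (h1.sub (contDiffOn_const.mul h2)).div_const 2

theorem contDiffOn_wdb (hM : IsOpen M) (hf : ContDiffOn ℝ ∞ f M) :
    ContDiffOn ℝ ∞ (wdb e e' f) M := by
  have h1 := W_contDiffOn_fderiv_apply hM hf e
  have h2 := W_contDiffOn_fderiv_apply hM hf e'
  exact (h1.add (contDiffOn_const.mul h2)).div_const 2

theorem contDiff_wd (hf : ContDiff ℝ ∞ f) : ContDiff ℝ ∞ (wd e e' f) := by
  rw [← contDiffOn_univ] at *
  exact contDiffOn_wd isOpen_univ hf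

theorem contDiff_wdb (hf : ContDiff ℝ ∞ f) : ContDiff ℝ ∞ (wdb e e' f) := by
  rw [← contDiffOn_univ] at *
  exact contDiffOn_wdb isOpen_univ hf

theorem tsupport_wd_subset : tsupport (wd e e' f) ⊆ tsupport f := by
  apply closure_minimal _ (isClosed_tsupport f)
  intro y hy
  apply support_fderiv_subset ℝ
  rw [Function.mem_support] at hy ⊢
  intro h0
  apply hy
  simp [wd, h0]

theorem tsupport_wdb_subset : tsupport (wdb e e' f) ⊆ tsupport f := by
  apply closure_minimal _ (isClosed_tsupport f)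
  intro y hy
  apply support_fderiv_subset ℝ
  rw [Function.mem_support] at hy ⊢
  intro h0
  apply hy
  simp [wdb, h0]

private theorem W_fderiv_fderiv (hM : IsOpen M) (hf : ContDiffOn ℝ ∞ f M) (hx : x ∈ M) (v : E) :
    HasFDerivAt (fun y => fderiv ℝ f y v) ((fderiv ℝ (fderiv ℝ f) x).flip v) x := by
  have h1 : DifferentiableAt ℝ (fderiv ℝ f) x :=
    ((W_contDiffOn_fderiv hM hf).contDiffAt (hM.mem_nhds hx)).differentiableAt (by simp)
  have h2 := h1.hasFDerivAt.clm_apply (hasFDerivAt_const v x)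
  refine h2.congr_fderiv ?_
  ext y
  simp

private theorem W_symm (hM : IsOpen M) (hf : ContDiffOn ℝ ∞ f M) (hx : x ∈ M) (v w : E) :
    fderiv ℝ (fderiv ℝ f) x v w = fderiv ℝ (fderiv ℝ f) x w v := by
  have h1 : ContDiffAt ℝ ∞ f x := hf.contDiffAt (hM.mem_nhds hx)
  have h2 : minSmoothness ℝ 2 ≤ (∞ : WithTop ℕ∞) := by
    rw [minSmoothness_of_isRCLikeNormedField]
    exact WithTop.coe_le_coe.2 le_top
  exact (h1.isSymmSndFDerivAt h2) v w

private theorem W_fderiv_wd (hM : IsOpen M) (hf : ContDiffOn ℝ ∞ f M) (hx : x ∈ M) (a : E) :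
    fderiv ℝ (wd b b' f) x a
      = (fderiv ℝ (fderiv ℝ f) x a b - I * fderiv ℝ (fderiv ℝ f) x a b') / 2 := by
  have h1 := W_fderiv_fderiv hM hf hx b
  have h2 := W_fderiv_fderiv hM hf hx b'
  have h3 : HasFDerivAt (wd b b' f) ((1 / 2 : ℂ) • ((fderiv ℝ (fderiv ℝ f) x).flip b
      - I • (fderiv ℝ (fderiv ℝ f) x).flip b')) x := by
    have h4 := (h1.sub (h2.const_mul I)).const_mul (1 / 2 : ℂ)
    have h5 : wd b b' f = fun y => 1 / 2 * (((fun y => (fderiv ℝ f y) b)
        - fun y => I * (fderiv ℝ f y) b') y) := by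
      funext y
      simp only [wd, Pi.sub_apply]
      ring
    rw [h5]
    exact h4
  rw [h3.fderiv]
  simp
  ring

private theorem W_fderiv_wdb (hM : IsOpen M) (hf : ContDiffOn ℝ ∞ f M) (hx : x ∈ M) (a : E) :
    fderiv ℝ (wdb b b' f) x a
      = (fderiv ℝ (fderiv ℝ f) x a b + I * fderiv ℝ (fderiv ℝ f) x a b') / 2 := by
  have h1 := W_fderiv_fderiv hM hf hx b
  have h2 := W_fderiv_fderiv hM hf hx b'
  have h3 : HasFDerivAt (wdb b b' f) ((1 / 2 : ℂ) • ((fderiv ℝ (fderiv ℝ f) x).flip b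
      + I • (fderiv ℝ (fderiv ℝ f) x).flip b')) x := by
    have h4 := (h1.add (h2.const_mul I)).const_mul (1 / 2 : ℂ)
    have h5 : wdb b b' f = fun y => 1 / 2 * (((fun y => (fderiv ℝ f y) b)
        + fun y => I * (fderiv ℝ f y) b') y) := by
      funext y
      simp only [wdb, Pi.add_apply]
      ring
    rw [h5]
    exact h4
  rw [h3.fderiv]
  simp
  ring

/-- The operators commute on smooth functions. -/
theorem wd_wd_comm (hM : IsOpen M) (hf : ContDiffOn ℝ ∞ f M) (hx : x ∈ M) :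
    wd a a' (wd b b' f) x = wd b b' (wd a a' f) x := by
  rw [wd, wd, W_fderiv_wd hM hf hx, W_fderiv_wd hM hf hx, W_fderiv_wd hM hf hx,
    W_fderiv_wd hM hf hx, W_symm hM hf hx a b, W_symm hM hf hx a b', W_symm hM hf hx a' b,
    W_symm hM hf hx a' b']
  ring

theorem wd_wdb_comm (hM : IsOpen M) (hf : ContDiffOn ℝ ∞ f M) (hx : x ∈ M) :
    wd a a' (wdb b b' f) x = wdb b b' (wd a a' f) x := by
  rw [wd, wdb, W_fderiv_wd hM hf hx, W_fderiv_wd hM hf hx, W_fderiv_wdb hM hf hx,
    W_fderiv_wdb hM hf hx, W_symm hM hf hx a b, W_symm hM hf hx a b', W_symm hM hf hx a' b,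
    W_symm hM hf hx a' b']
  ring

theorem wdb_wdb_comm (hM : IsOpen M) (hf : ContDiffOn ℝ ∞ f M) (hx : x ∈ M) :
    wdb a a' (wdb b b' f) x = wdb b b' (wdb a a' f) x := by
  rw [wdb, wdb, W_fderiv_wdb hM hf hx, W_fderiv_wdb hM hf hx, W_fderiv_wdb hM hf hx,
    W_fderiv_wdb hM hf hx, W_symm hM hf hx a b, W_symm hM hf hx a b', W_symm hM hf hx a' b,
    W_symm hM hf hx a' b']
  ring

/-- `∂ ∂̄ u` is real for a real function `u` (same directions). -/
theorem wd_wdb_real {u : E → ℝ} (hM : IsOpen M) (hu : ContDiffOn ℝ ∞ u M) (hx : x ∈ M) :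
    (wd e e' (wdb e e' (fun y => ((u y : ℝ) : ℂ))) x).im = 0 := by
  rw [← conj_eq_iff_im]
  have hU : ContDiffOn ℝ ∞ (fun y => ((u y : ℝ) : ℂ)) M := ofRealCLM.contDiff.comp_contDiffOn hu
  rw [← wdb_conj]
  have h1 : (fun y => conj (wdb e e' (fun y => ((u y : ℝ) : ℂ)) y))
      = wd e e' (fun y => ((u y : ℝ) : ℂ)) := by
    funext y
    rw [← wd_conj]
    simp only [conj_ofReal]
  rw [h1, wd_wdb_comm hM hU hx]

private theorem W_int [MeasurableSpace E] [BorelSpace E] [FiniteDimensional ℝ E] (μ : Measure E)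
    [μ.IsAddHaarMeasure] (hc : HasCompactSupport f) {p q : E → ℂ}
    (hs : tsupport f ⊆ M) (hp : ContinuousOn p M) (hq : ContinuousOn q M)
    (hps : Function.support p ⊆ tsupport f) : Integrable (fun x => p x * q x) μ := by
  have h1 : IntegrableOn (fun x => p x * q x) (tsupport f) μ := by
    apply ContinuousOn.integrableOn_compact hc
    exact (hp.mul hq).mono hs
  rw [← integrableOn_iff_integrable_of_support_subset (s := tsupport f)]
  · exact h1
  · intro y hy
    apply hps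
    rw [Function.mem_support] at hy ⊢
    exact fun h0 => hy (by simp [h0])

private theorem W_ibp [MeasurableSpace E] [BorelSpace E] [FiniteDimensional ℝ E] (μ : Measure E)
    [μ.IsAddHaarMeasure] (hM : IsOpen M) (hf : ContDiff ℝ 1 f) (hc : HasCompactSupport f)
    (hs : tsupport f ⊆ M) (hh : ContDiffOn ℝ 1 h M) (v : E) :
    Integrable (fun x => f x * fderiv ℝ h x v) μ ∧ Integrable (fun x => fderiv ℝ f x v * h x) μ ∧
    ∫ x, f x * fderiv ℝ h x v ∂μ = - ∫ x, fderiv ℝ f x v * h x ∂μ := by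
  have hfv : Continuous (fun x => fderiv ℝ f x v) :=
    (hf.continuous_fderiv (by simp)).clm_apply continuous_const
  have hhv : ContinuousOn (fun x => fderiv ℝ h x v) M :=
    (hh.continuousOn_fderiv_of_isOpen hM (by simp)).clm_apply continuousOn_const
  have i1 : Integrable (fun x => f x * fderiv ℝ h x v) μ :=
    W_int μ hc hs hf.continuous.continuousOn hhv subset_closure
  have i2 : Integrable (fun x => fderiv ℝ f x v * h x) μ := by
    refine W_int μ hc hs hfv.continuousOn hh.continuousOn ?_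
    intro y hy
    apply support_fderiv_subset ℝ
    rw [Function.mem_support] at hy ⊢
    exact fun h0 => hy (by simp [h0])
  have i3 : Integrable (fun x => f x * h x) μ :=
    W_int μ hc hs hf.continuous.continuousOn hh.continuousOn subset_closure
  refine ⟨i1, i2, ?_⟩
  apply integral_mul_fderiv_eq_neg_fderiv_mul_of_integrable i2 i1 i3
  · intro y _
    exact hf.differentiable (by simp) y
  · intro y hy
    exact (hh.contDiffAt (hM.mem_nhds (hs hy))).differentiableAt (by simp)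

/-- Integration by parts: `f` has compact support in `M`. -/
theorem ibp_wd [MeasurableSpace E] [BorelSpace E] [FiniteDimensional ℝ E] (μ : Measure E)
    [μ.IsAddHaarMeasure] (hM : IsOpen M) (hf : ContDiff ℝ 1 f) (hc : HasCompactSupport f)
    (hs : tsupport f ⊆ M) (hh : ContDiffOn ℝ 1 h M) :
    ∫ x, f x * wd e e' h x ∂μ = - ∫ x, wd e e' f x * h x ∂μ := by
  obtain ⟨i1, j1, k1⟩ := W_ibp μ hM hf hc hs hh e
  obtain ⟨i2, j2, k2⟩ := W_ibp μ hM hf hc hs hh e'
  have h1 : ∀ x, f x * wd e e' h x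
      = (1 / 2 : ℂ) * (f x * fderiv ℝ h x e - I * (f x * fderiv ℝ h x e')) := by
    intro x
    simp only [wd]
    ring
  have h2 : ∀ x, wd e e' f x * h x
      = (1 / 2 : ℂ) * (fderiv ℝ f x e * h x - I * (fderiv ℝ f x e' * h x)) := by
    intro x
    simp only [wd]
    ring
  simp_rw [h1, h2]
  rw [integral_const_mul, integral_const_mul, integral_sub i1 (i2.const_mul I),
    integral_sub j1 (j2.const_mul I), integral_const_mul, integral_const_mul, k1, k2]
  ring

theorem ibp_wdb [MeasurableSpace E] [BorelSpace E] [FiniteDimensional ℝ E] (μ : Measure E)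
    [μ.IsAddHaarMeasure] (hM : IsOpen M) (hf : ContDiff ℝ 1 f) (hc : HasCompactSupport f)
    (hs : tsupport f ⊆ M) (hh : ContDiffOn ℝ 1 h M) :
    ∫ x, f x * wdb e e' h x ∂μ = - ∫ x, wdb e e' f x * h x ∂μ := by
  obtain ⟨i1, j1, k1⟩ := W_ibp μ hM hf hc hs hh e
  obtain ⟨i2, j2, k2⟩ := W_ibp μ hM hf hc hs hh e'
  have h1 : ∀ x, f x * wdb e e' h x
      = (1 / 2 : ℂ) * (f x * fderiv ℝ h x e + I * (f x * fderiv ℝ h x e')) := by
    intro x
    simp only [wdb]
    ring
  have h2 : ∀ x, wdb e e' f x * h x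
      = (1 / 2 : ℂ) * (fderiv ℝ f x e * h x + I * (fderiv ℝ f x e' * h x)) := by
    intro x
    simp only [wdb]
    ring
  simp_rw [h1, h2]
  rw [integral_const_mul, integral_const_mul, integral_add i1 (i2.const_mul I),
    integral_add j1 (j2.const_mul I), integral_const_mul, integral_const_mul, k1, k2]
  ring

/-! ### One complex variable -/

/-- `∂f/∂w` for a function of one complex variable. -/
noncomputable abbrev dw (f : ℂ → ℂ) : ℂ → ℂ := wd (1 : ℂ) I f

/-- `∂f/∂\bar w` for a function of one complex variable. -/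
noncomputable abbrev dwb (f : ℂ → ℂ) : ℂ → ℂ := wdb (1 : ℂ) I f

/-- `∂²u/∂w∂\bar w` for a real function (a quarter of the Laplacian). -/
noncomputable def lev (u : ℂ → ℝ) (w : ℂ) : ℝ := (dw (dwb (fun x => ((u x : ℝ) : ℂ))) w).re

theorem lev_coe {u : ℂ → ℝ} {S : Set ℂ} (hS : IsOpen S) (hu : ContDiffOn ℝ ∞ u S) {w : ℂ}
    (hw : w ∈ S) : ((lev u w : ℝ) : ℂ) = dw (dwb (fun x => ((u x : ℝ) : ℂ))) w := by
  apply Complex.ext
  · simp [lev]
  · simp only [ofReal_im]
    exact (wd_wdb_real hS hu hw).symm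

private theorem W_hol {f : ℂ → ℂ} {w : ℂ} (hf : DifferentiableAt ℂ f w) (v : ℂ) :
    fderiv ℝ f w v = v * deriv f w := by
  rw [(hf.hasFDerivAt.restrictScalars ℝ).fderiv]
  simp only [ContinuousLinearMap.coe_restrictScalars']
  rw [← fderiv_apply_one_eq_deriv]
  have := (fderiv ℂ f w).map_smul v 1
  simpa using this

theorem dwb_eq_zero {f : ℂ → ℂ} {w : ℂ} (hf : DifferentiableAt ℂ f w) : dwb f w = 0 := by
  simp only [dwb, wdb, W_hol hf]
  linear_combination (deriv f w / 2) * I_mul_I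

theorem dw_eq_deriv {f : ℂ → ℂ} {w : ℂ} (hf : DifferentiableAt ℂ f w) : dw f w = deriv f w := by
  simp only [dw, wd, W_hol hf]
  linear_combination (- deriv f w / 2) * I_mul_I

theorem differentiableAt_of_dwb {f : ℂ → ℂ} {w : ℂ} (hf : DifferentiableAt ℝ f w)
    (h : dwb f w = 0) : DifferentiableAt ℂ f w := by
  have h1 : fderiv ℝ f w I = I * fderiv ℝ f w 1 := by
    have h2 : (fderiv ℝ f w 1 + I * fderiv ℝ f w I) / 2 = 0 := h
    linear_combination (-2 * I) * h2 + fderiv ℝ f w I * I_mul_I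
  have h3 : ((ContinuousLinearMap.toSpanSingleton ℂ (fderiv ℝ f w 1)).restrictScalars ℝ)
      = fderiv ℝ f w := by
    ext v
    have h4 : v = v.re • (1 : ℂ) + v.im • I := by
      apply Complex.ext <;> simp
    have h5 : fderiv ℝ f w v = v.re • fderiv ℝ f w 1 + v.im • (I * fderiv ℝ f w 1) := by
      conv_lhs => rw [h4]
      rw [map_add, map_smul, map_smul, h1]
    rw [h5]
    simp only [ContinuousLinearMap.coe_restrictScalars',
      ContinuousLinearMap.toSpanSingleton_apply, smul_eq_mul, real_smul]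
    conv_lhs => rw [← re_add_im v]
    ring
  exact (hasFDerivAt_of_restrictScalars ℝ hf.hasFDerivAt h3).differentiableAt

/-! ### Slices -/

variable {N : Set (ℂ × ℂ)} {F : ℂ × ℂ → ℂ} {z w : ℂ}

private theorem W_slice1 (hF : DifferentiableAt ℝ F (z, w)) (v : ℂ) :
    fderiv ℝ (fun w' => F (z, w')) w v = fderiv ℝ F (z, w) (0, v) := by
  have h1 : HasFDerivAt (fun w' => F (z, w'))
      ((fderiv ℝ F (z, w)).comp (ContinuousLinearMap.inr ℝ ℂ ℂ)) w :=
    hF.hasFDerivAt.comp w (hasFDerivAt_prodMk_right z w)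
  rw [h1.fderiv]
  simp

private theorem W_slice0 (hF : DifferentiableAt ℝ F (z, w)) (v : ℂ) :
    fderiv ℝ (fun z' => F (z', w)) z v = fderiv ℝ F (z, w) (v, 0) := by
  have h1 : HasFDerivAt (fun z' => F (z', w))
      ((fderiv ℝ F (z, w)).comp (ContinuousLinearMap.inl ℝ ℂ ℂ)) z :=
    hF.hasFDerivAt.comp z (hasFDerivAt_prodMk_left z w)
  rw [h1.fderiv]
  simp

theorem pd_one_slice (hF : DifferentiableAt ℝ F (z, w)) :
    dw (fun w' => F (z, w')) w = pd 1 F (z, w) := by
  simp only [dw, wd, pd, W_slice1 hF, ex, ey, one_ne_zero, if_false]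

theorem pdb_one_slice (hF : DifferentiableAt ℝ F (z, w)) :
    dwb (fun w' => F (z, w')) w = pdb 1 F (z, w) := by
  simp only [dwb, wdb, pdb, W_slice1 hF, ex, ey, one_ne_zero, if_false]

theorem pd_zero_slice (hF : DifferentiableAt ℝ F (z, w)) :
    dw (fun z' => F (z', w)) z = pd 0 F (z, w) := by
  simp only [dw, wd, pd, W_slice0 hF, ex, ey, if_true]

theorem pdb_zero_slice (hF : DifferentiableAt ℝ F (z, w)) :
    dwb (fun z' => F (z', w)) z = pdb 0 F (z, w) := by
  simp only [dwb, wdb, pdb, W_slice0 hF, ex, ey, if_true]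

theorem pd_pdb_one_slice (hN : IsOpen N) (hF : ContDiffOn ℝ ∞ F N) (h : (z, w) ∈ N) :
    dw (dwb (fun w' => F (z, w'))) w = pd 1 (pdb 1 F) (z, w) := by
  have hG : DifferentiableAt ℝ (pdb 1 F) (z, w) :=
    ((contDiffOn_wdb hN hF).contDiffAt (hN.mem_nhds h)).differentiableAt (by simp)
  rw [← pd_one_slice hG]
  apply wd_congr
  have h1 : ∀ᶠ w' in 𝓝 w, (z, w') ∈ N :=
    (Continuous.prodMk_right z).continuousAt.preimage_mem_nhds (hN.mem_nhds h)
  filter_upwards [h1] with w' hw'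
  exact pdb_one_slice ((hF.contDiffAt (hN.mem_nhds hw')).differentiableAt (by simp))

theorem pd_pdb_zero_slice (hN : IsOpen N) (hF : ContDiffOn ℝ ∞ F N) (h : (z, w) ∈ N) :
    dw (dwb (fun z' => F (z', w))) z = pd 0 (pdb 0 F) (z, w) := by
  have hG : DifferentiableAt ℝ (pdb 0 F) (z, w) :=
    ((contDiffOn_wdb hN hF).contDiffAt (hN.mem_nhds h)).differentiableAt (by simp)
  rw [← pd_zero_slice hG]
  apply wd_congr
  have h1 : ∀ᶠ z' in 𝓝 z, (z', w) ∈ N :=
    (Continuous.prodMk_left w).continuousAt.preimage_mem_nhds (hN.mem_nhds h)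
  filter_upwards [h1] with z' hz'
  exact pdb_zero_slice ((hF.contDiffAt (hN.mem_nhds hz')).differentiableAt (by simp))

end KQ
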