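import Pool.Agent.Lib_MP_3ea2ac_kq.SD4

/-! The residue formula on a slice. -/

open MeasureTheory Complex Set Topology Filter
open scoped ComplexConjugate ContDiff ComplexOrder

namespace KQ

private theorem Res_cv {v : ℂ → ℝ} {M : Set ℂ} (hv : ContDiffOn ℝ ∞ v M) :
    ContDiffOn ℝ ∞ (fun x => ((v x : ℝ) : ℂ)) M :=
  Complex.ofRealCLM.contDiff.comp_contDiffOn hv

private theorem Res_zero {M : Set ℂ} {F : ℂ → ℂ} (hs : tsupport F ⊆ M) {w : ℂ} (hw : w ∉ M) :
    F w = 0 := image_eq_zero_of_notMem_tsupport fun h => hw (hs h)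

/-- Two integrations by parts. -/
private theorem Res_ibp {M : Set ℂ} (hM : IsOpen M) {F : ℂ → ℂ} (hF : ContDiff ℝ ∞ F)
    (hc : HasCompactSupport F) (hs : tsupport F ⊆ M) {v : ℂ → ℝ} (hv : ContDiffOn ℝ ∞ v M) :
    ∫ w in M, F w * (lev v w : ℂ) = ∫ w in M, (v w : ℂ) * dw (dwb F) w := by
  have hv' := Res_cv hv
  have h1 : ∫ w in M, F w * (lev v w : ℂ) =
      ∫ w in M, F w * dw (dwb (fun x => ((v x : ℝ) : ℂ))) w :=
    setIntegral_congr_fun hM.measurableSet fun w hw => by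
      show F w * (lev v w : ℂ) = F w * dw (dwb (fun x => ((v x : ℝ) : ℂ))) w
      rw [lev_coe hM hv hw]
  have h2 : ∫ w in M, F w * dw (dwb (fun x => ((v x : ℝ) : ℂ))) w =
      ∫ w, F w * dw (dwb (fun x => ((v x : ℝ) : ℂ))) w :=
    setIntegral_eq_integral_of_forall_compl_eq_zero fun w hw => by
      rw [Res_zero hs hw, zero_mul]
  have hdF : ContDiff ℝ ∞ (dw F) := contDiff_wd hF
  have hts : tsupport (dw F) ⊆ tsupport F := tsupport_wd_subset
  have hts' : tsupport (dwb F) ⊆ tsupport F := tsupport_wdb_subset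
  have hcd : HasCompactSupport (dw F) := hc.of_isClosed_subset (isClosed_tsupport _) hts
  have h3 : ∫ w, F w * dw (dwb (fun x => ((v x : ℝ) : ℂ))) w =
      - ∫ w, dw F w * dwb (fun x => ((v x : ℝ) : ℂ)) w :=
    ibp_wd volume hM (hF.of_le (by exact_mod_cast le_top)) hc hs
      ((contDiffOn_wdb hM hv').of_le (by exact_mod_cast le_top))
  have h4 : ∫ w, dw F w * dwb (fun x => ((v x : ℝ) : ℂ)) w =
      - ∫ w, dwb (dw F) w * ((v w : ℝ) : ℂ) :=
    ibp_wdb volume hM (hdF.of_le (by exact_mod_cast le_top)) hcd (hts.trans hs)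
      (hv'.of_le (by exact_mod_cast le_top))
  have h5 : ∫ w, dwb (dw F) w * ((v w : ℝ) : ℂ) = ∫ w, (v w : ℂ) * dw (dwb F) w := by
    refine integral_congr_ae (Eventually.of_forall fun w => ?_)
    show dwb (dw F) w * ((v w : ℝ) : ℂ) = (v w : ℂ) * dw (dwb F) w
    rw [mul_comm]
    congr 1
    exact (wd_wdb_comm isOpen_univ hF.contDiffOn (mem_univ w)).symm
  have h6 : ∫ w in M, (v w : ℂ) * dw (dwb F) w = ∫ w, (v w : ℂ) * dw (dwb F) w :=
    setIntegral_eq_integral_of_forall_compl_eq_zero fun w hw => by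
      rw [Res_zero (F := dw (dwb F)) ((tsupport_wd_subset.trans hts').trans hs) hw, mul_zero]
  rw [h1, h2, h3, h4, h5, h6, neg_neg]

/-- Second derivative of a product. -/
private theorem Res_prod {f u : ℂ → ℂ} (hf : ContDiff ℝ ∞ f) (hu : ContDiff ℝ ∞ u) (w : ℂ) :
    dw (dwb (fun x => f x * u x)) w = dw (dwb f) w * u w +
      (dwb f w * dw u w + dw f w * dwb u w + f w * dw (dwb u) w) := by
  have hd : ∀ {g : ℂ → ℂ}, ContDiff ℝ ∞ g → Differentiable ℝ g := fun hg =>
    hg.differentiable (by simp)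
  have e : dwb (fun x => f x * u x) = fun x => dwb f x * u x + f x * dwb u x := by
    funext x
    exact wdb_mul (hd hf x) (hd hu x)
  rw [e]
  have h1 : Differentiable ℝ (fun x => dwb f x * u x) := (hd (contDiff_wdb hf)).mul (hd hu)
  have h2 : Differentiable ℝ (fun x => f x * dwb u x) := (hd hf).mul (hd (contDiff_wdb hu))
  have e1 : dw (fun x => dwb f x * u x + f x * dwb u x) w =
      dw (fun x => dwb f x * u x) w + dw (fun x => f x * dwb u x) w := wd_add (h1 w) (h2 w)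
  have e2 : dw (fun x => dwb f x * u x) w = dw (dwb f) w * u w + dwb f w * dw u w :=
    wd_mul (hd (contDiff_wdb hf) w) (hd hu w)
  have e3 : dw (fun x => f x * dwb u x) w = dw f w * dwb u w + f w * dw (dwb u) w :=
    wd_mul (hd hf w) (hd (contDiff_wdb hu) w)
  rw [e1, e2, e3]
  ring

/-- The logarithm of the squared distance. -/
private noncomputable def Res_L (p w : ℂ) : ℝ := Real.log (‖w - p‖ ^ 2)

private theorem Res_L_fderiv {p w : ℂ} (h : w ≠ p) :
    HasFDerivAt (Res_L p) ((‖w - p‖ ^ 2)⁻¹ • (2 : ℕ) • innerSL ℝ (w - p)) w := by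
  have h0 : ‖w - p‖ ^ 2 ≠ 0 := by
    have : w - p ≠ 0 := sub_ne_zero.mpr h
    positivity
  have h1 : HasFDerivAt (fun x : ℂ => x - p) (ContinuousLinearMap.id ℝ ℂ) w :=
    (hasFDerivAt_id w).sub_const p
  have h2 := (h1.norm_sq).log h0
  rw [ContinuousLinearMap.comp_id] at h2
  exact h2

private theorem Res_L_smooth {p : ℂ} : ContDiffOn ℝ ∞ (Res_L p) {p}ᶜ := by
  intro w hw
  have h0 : ‖w - p‖ ^ 2 ≠ 0 := by
    have : w - p ≠ 0 := sub_ne_zero.mpr hw
    positivity
  exact (((contDiffAt_id.sub contDiffAt_const).norm_sq ℝ).log h0).contDiffWithinAt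

private theorem Res_L_dw {p w : ℂ} (h : w ≠ p) :
    dw (fun x => ((Res_L p x : ℝ) : ℂ)) w = (w - p)⁻¹ := by
  have h1 := Res_L_fderiv h
  have h2 : dw (fun x => ((Res_L p x : ℝ) : ℂ)) w =
      ((fderiv ℝ (Res_L p) w 1 : ℝ) - I * (fderiv ℝ (Res_L p) w I : ℝ)) / 2 :=
    wd_ofReal h1.differentiableAt
  have hz : w - p ≠ 0 := sub_ne_zero.mpr h
  have hn : ((‖w - p‖ : ℝ) : ℂ) ^ 2 = (w - p) * conj (w - p) := by
    rw [Complex.mul_conj, Complex.normSq_eq_norm_sq]
    push_cast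
    rfl
  have hc : conj (w - p) ≠ 0 := (map_ne_zero _).mpr hz
  have f1 : fderiv ℝ (Res_L p) w 1 = (‖w - p‖ ^ 2)⁻¹ * (2 * (w - p).re) := by
    rw [h1.fderiv]
    simp [Complex.inner]
  have f2 : fderiv ℝ (Res_L p) w I = (‖w - p‖ ^ 2)⁻¹ * (2 * (w - p).im) := by
    rw [h1.fderiv]
    simp [Complex.inner]
  have e1 : (((w - p).re : ℝ) : ℂ) - I * (((w - p).im : ℝ) : ℂ) = conj (w - p) := by
    apply Complex.ext <;> (simp; try ring)
  rw [h2, f1, f2]
  push_cast
  rw [hn]
  have e2 : (((w - p) * conj (w - p))⁻¹ * (2 * (((w - p).re : ℝ) : ℂ)) -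
      I * (((w - p) * conj (w - p))⁻¹ * (2 * (((w - p).im : ℝ) : ℂ)))) / 2 =
      ((w - p) * conj (w - p))⁻¹ * ((((w - p).re : ℝ) : ℂ) - I * (((w - p).im : ℝ) : ℂ)) := by
    ring
  rw [e2, e1, mul_inv, mul_assoc, inv_mul_cancel₀ hc, mul_one]

private theorem Res_L_dwb {p w : ℂ} (h : w ≠ p) :
    dwb (fun x => ((Res_L p x : ℝ) : ℂ)) w = conj ((w - p)⁻¹) := by
  have h1 : dw (fun x => conj (((Res_L p x : ℝ) : ℂ))) w =
      conj (dwb (fun x => ((Res_L p x : ℝ) : ℂ)) w) := wd_conj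
  have h2 : (fun x => conj (((Res_L p x : ℝ) : ℂ))) = fun x => ((Res_L p x : ℝ) : ℂ) := by
    funext x
    exact Complex.conj_ofReal _
  rw [h2, Res_L_dw h] at h1
  rw [h1, Complex.conj_conj]


/-- The profile of the cutoff. -/
private noncomputable def Res_Th (t : ℝ) : ℝ := Real.smoothTransition (t + 2)

private theorem Res_Th_smooth : ContDiff ℝ ∞ Res_Th :=
  Real.smoothTransition.contDiff.comp (contDiff_id.add contDiff_const)

private theorem Res_Th_zero {t : ℝ} (h : t ≤ -2) : Res_Th t = 0 :=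
  Real.smoothTransition.zero_of_nonpos (by linarith)

private theorem Res_Th_one {t : ℝ} (h : -1 ≤ t) : Res_Th t = 1 :=
  Real.smoothTransition.one_of_one_le (by linarith)

private theorem Res_Th_out {t : ℝ} (h : t ∉ Icc (-2 : ℝ) (-1)) :
    deriv Res_Th =ᶠ[𝓝 t] fun _ => 0 := by
  have h1 : ∃ c : ℝ, Res_Th =ᶠ[𝓝 t] fun _ => c := by
    rw [mem_Icc, not_and_or, not_le, not_le] at h
    rcases h with h | h
    · refine ⟨0, ?_⟩
      filter_upwards [gt_mem_nhds h] with y hy
      exact Res_Th_zero hy.le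
    · refine ⟨1, ?_⟩
      filter_upwards [lt_mem_nhds h] with y hy
      exact Res_Th_one hy.le
  obtain ⟨c, hc⟩ := h1
  refine hc.deriv.trans ?_
  filter_upwards with y
  simp

private theorem Res_Th_bound : ∃ B : ℝ, 0 ≤ B ∧
    ∀ t, |deriv Res_Th t| ≤ B ∧ |deriv (deriv Res_Th) t| ≤ B := by
  have h1 : ContDiff ℝ ∞ (deriv Res_Th) := (contDiff_infty_iff_deriv.1 Res_Th_smooth).2
  have h2 : Continuous (deriv (deriv Res_Th)) := (contDiff_infty_iff_deriv.1 h1).2.continuous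
  have c1 : HasCompactSupport (deriv Res_Th) :=
    HasCompactSupport.intro (isCompact_Icc (a := (-2 : ℝ)) (b := -1)) fun t ht =>
      (Res_Th_out ht).self_of_nhds
  have c2 : HasCompactSupport (deriv (deriv Res_Th)) := c1.deriv
  obtain ⟨B1, hB1⟩ := h1.continuous.bounded_above_of_compact_support c1
  obtain ⟨B2, hB2⟩ := h2.bounded_above_of_compact_support c2
  refine ⟨max B1 B2, ?_, fun t => ⟨(hB1 t).trans (le_max_left _ _),
    (hB2 t).trans (le_max_right _ _)⟩⟩
  exact ((norm_nonneg _).trans (hB1 0)).trans (le_max_left _ _)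

/-- The cutoff. -/
private noncomputable def Res_U (p : ℂ) (N : ℝ) (w : ℂ) : ℝ :=
  open scoped Classical in if w = p then 0 else Res_Th (Res_L p w / N)

private theorem Res_U_near {p : ℂ} {N : ℝ} (hN : 0 < N) :
    (fun w => ((Res_U p N w : ℝ) : ℂ)) =ᶠ[𝓝 p] fun _ => 0 := by
  filter_upwards [Metric.ball_mem_nhds p (Real.exp_pos (-N))] with w hw
  rw [Metric.mem_ball, dist_eq_norm] at hw
  unfold Res_U
  split_ifs with h
  · simp
  · have h0 : 0 < ‖w - p‖ := norm_pos_iff.2 (sub_ne_zero.2 h)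
    have h1 : Real.log ‖w - p‖ < -N := by
      rw [Real.log_lt_iff_lt_exp h0]
      exact hw
    have h2 : Res_L p w / N ≤ -2 := by
      rw [div_le_iff₀ hN, Res_L, Real.log_pow]
      push_cast
      linarith
    rw [Res_Th_zero h2]
    simp

private theorem Res_U_eq {p : ℂ} {N : ℝ} {w : ℂ} (hw : w ≠ p) :
    (fun w => ((Res_U p N w : ℝ) : ℂ)) =ᶠ[𝓝 w]
      fun w => ((Res_Th (Res_L p w / N) : ℝ) : ℂ) := by
  filter_upwards [isOpen_ne.mem_nhds hw] with x hx
  unfold Res_U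
  rw [if_neg hx]

private theorem Res_U_smooth {p : ℂ} {N : ℝ} (hN : 0 < N) :
    ContDiff ℝ ∞ (fun w => ((Res_U p N w : ℝ) : ℂ)) := by
  rw [contDiff_iff_contDiffAt]
  intro w
  by_cases h : w = p
  · rw [h]
    exact contDiffAt_const.congr_of_eventuallyEq (Res_U_near hN)
  · refine ContDiffAt.congr_of_eventuallyEq ?_ (Res_U_eq h)
    have h1 : ContDiffAt ℝ ∞ (Res_L p) w :=
      Res_L_smooth.contDiffAt (isOpen_compl_singleton.mem_nhds h)
    exact Complex.ofRealCLM.contDiff.contDiffAt.comp w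
      (Res_Th_smooth.contDiffAt.comp w (h1.div_const N))

private theorem Res_phi (N t : ℝ) :
    HasDerivAt (fun s => Res_Th (s / N)) (deriv Res_Th (t / N) / N) t := by
  have h1 : HasDerivAt Res_Th (deriv Res_Th (t / N)) (t / N) :=
    (Res_Th_smooth.differentiable (by simp) _).hasDerivAt
  have h2 : HasDerivAt (fun s : ℝ => s / N) (1 / N) t := (hasDerivAt_id t).div_const N
  have h3 := h1.comp t h2
  rwa [mul_one_div] at h3

private theorem Res_phi2 (N t : ℝ) :
    HasDerivAt (fun s => deriv Res_Th (s / N) / N) (deriv (deriv Res_Th) (t / N) / N / N) t := by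
  have h0 : ContDiff ℝ ∞ (deriv Res_Th) := (contDiff_infty_iff_deriv.1 Res_Th_smooth).2
  have h1 : HasDerivAt (deriv Res_Th) (deriv (deriv Res_Th) (t / N)) (t / N) :=
    (h0.differentiable (by simp) _).hasDerivAt
  have h2 : HasDerivAt (fun s : ℝ => s / N) (1 / N) t := (hasDerivAt_id t).div_const N
  have h3 := (h1.comp t h2).div_const N
  rwa [mul_one_div] at h3

private theorem Res_U_dw {p : ℂ} {N : ℝ} {w : ℂ} (hw : w ≠ p) :
    dw (fun w => ((Res_U p N w : ℝ) : ℂ)) w =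
      ((deriv Res_Th (Res_L p w / N) / N : ℝ) : ℂ) * (w - p)⁻¹ := by
  have h1 : dw (fun w => ((Res_U p N w : ℝ) : ℂ)) w =
      dw (fun w => ((Res_Th (Res_L p w / N) : ℝ) : ℂ)) w := wd_congr (Res_U_eq hw)
  have h2 : dw (fun w => ((Res_Th (Res_L p w / N) : ℝ) : ℂ)) w =
      ((deriv Res_Th (Res_L p w / N) / N : ℝ) : ℂ) * dw (fun w => ((Res_L p w : ℝ) : ℂ)) w :=
    wd_ofReal_comp (u := Res_L p) (φ := fun s => Res_Th (s / N))
      (Res_L_fderiv hw).differentiableAt (Res_phi N _)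
  rw [h1, h2, Res_L_dw hw]

private theorem Res_U_dwb {p : ℂ} {N : ℝ} {w : ℂ} (hw : w ≠ p) :
    dwb (fun w => ((Res_U p N w : ℝ) : ℂ)) w =
      ((deriv Res_Th (Res_L p w / N) / N : ℝ) : ℂ) * conj ((w - p)⁻¹) := by
  have h1 : dwb (fun w => ((Res_U p N w : ℝ) : ℂ)) w =
      dwb (fun w => ((Res_Th (Res_L p w / N) : ℝ) : ℂ)) w := wdb_congr (Res_U_eq hw)
  have h2 : dwb (fun w => ((Res_Th (Res_L p w / N) : ℝ) : ℂ)) w =
      ((deriv Res_Th (Res_L p w / N) / N : ℝ) : ℂ) * dwb (fun w => ((Res_L p w : ℝ) : ℂ)) w :=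
    wdb_ofReal_comp (u := Res_L p) (φ := fun s => Res_Th (s / N))
      (Res_L_fderiv hw).differentiableAt (Res_phi N _)
  rw [h1, h2, Res_L_dwb hw]

private theorem Res_U_dwdwb {p : ℂ} {N : ℝ} {w : ℂ} (hw : w ≠ p) :
    dw (dwb (fun w => ((Res_U p N w : ℝ) : ℂ))) w =
      ((deriv (deriv Res_Th) (Res_L p w / N) / N / N : ℝ) : ℂ) * (w - p)⁻¹ * conj ((w - p)⁻¹) := by
  have h1 : dwb (fun w => ((Res_U p N w : ℝ) : ℂ)) =ᶠ[𝓝 w]
      fun w => ((deriv Res_Th (Res_L p w / N) / N : ℝ) : ℂ) * conj ((w - p)⁻¹) := by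
    filter_upwards [isOpen_ne.mem_nhds hw] with x hx
    exact Res_U_dwb hx
  have hinv : DifferentiableAt ℂ (fun x : ℂ => (x - p)⁻¹) w :=
    (differentiableAt_id.sub_const p).inv (sub_ne_zero.2 hw)
  have hinvR : DifferentiableAt ℝ (fun x : ℂ => (x - p)⁻¹) w := hinv.restrictScalars ℝ
  have hconj : DifferentiableAt ℝ (fun x : ℂ => conj ((x - p)⁻¹)) w :=
    (conjCLE : ℂ →L[ℝ] ℂ).differentiableAt.comp w hinvR
  have hu := (Res_L_fderiv hw).differentiableAt
  have h2 : DifferentiableAt ℝ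
      (fun x => ((deriv Res_Th (Res_L p x / N) / N : ℝ) : ℂ)) w := by
    have e1 := (Res_phi2 N (Res_L p w)).comp_hasFDerivAt w hu.hasFDerivAt
    exact (Complex.ofRealCLM.hasFDerivAt.comp w e1).differentiableAt
  have h3 : dw (fun w => ((deriv Res_Th (Res_L p w / N) / N : ℝ) : ℂ) * conj ((w - p)⁻¹)) w =
      dw (fun w => ((deriv Res_Th (Res_L p w / N) / N : ℝ) : ℂ)) w * conj ((w - p)⁻¹) +
      ((deriv Res_Th (Res_L p w / N) / N : ℝ) : ℂ) * dw (fun w => conj ((w - p)⁻¹)) w :=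
    wd_mul h2 hconj
  have h4 : dw (fun w => conj ((w - p)⁻¹)) w = 0 := by
    have e1 : dw (fun w => conj ((w - p)⁻¹)) w = conj (dwb (fun w => (w - p)⁻¹) w) := wd_conj
    rw [e1, dwb_eq_zero hinv, map_zero]
  have h5 : dw (fun w => ((deriv Res_Th (Res_L p w / N) / N : ℝ) : ℂ)) w =
      ((deriv (deriv Res_Th) (Res_L p w / N) / N / N : ℝ) : ℂ) *
        dw (fun w => ((Res_L p w : ℝ) : ℂ)) w :=
    wd_ofReal_comp (u := Res_L p) (φ := fun s => deriv Res_Th (s / N) / N) hu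
      (Res_phi2 N _)
  have h6 : dw (dwb (fun w => ((Res_U p N w : ℝ) : ℂ))) w =
      dw (fun w => ((deriv Res_Th (Res_L p w / N) / N : ℝ) : ℂ) * conj ((w - p)⁻¹)) w :=
    wd_congr h1
  rw [h6, h3, h4, h5, Res_L_dw hw, mul_zero, add_zero]

/-- The mass of the annulus. -/
private noncomputable def Res_h (N : ℝ) : ℝ → ℝ :=
  (Icc (Real.exp (-N)) (Real.exp (-N / 2))).indicator (fun y : ℝ => (y ^ 2)⁻¹)

private theorem Res_h_int (p : ℂ) {N : ℝ} (hN : 0 < N) :
    Integrable (fun w : ℂ => Res_h N ‖w - p‖) ∧ ∫ w : ℂ, Res_h N ‖w - p‖ = Real.pi * N := by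
  have hab : Real.exp (-N) ≤ Real.exp (-N / 2) := Real.exp_le_exp.2 (by linarith)
  have ha : 0 < Real.exp (-N) := Real.exp_pos _
  have hb : 0 < Real.exp (-N / 2) := Real.exp_pos _
  have e1 : ∀ y ∈ Ioi (0 : ℝ), y ^ (Module.finrank ℝ ℂ - 1) • Res_h N y =
      (Icc (Real.exp (-N)) (Real.exp (-N / 2))).indicator (fun y : ℝ => y⁻¹) y := by
    intro y hy
    have hy0 : (0 : ℝ) < y := hy
    rw [finrank_real_complex]
    by_cases h : y ∈ Icc (Real.exp (-N)) (Real.exp (-N / 2))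
    · rw [Res_h, indicator_of_mem h, indicator_of_mem h]
      simp only [smul_eq_mul]
      norm_num
      field_simp
    · rw [Res_h, indicator_of_notMem h, indicator_of_notMem h, smul_zero]
  have hsub : Icc (Real.exp (-N)) (Real.exp (-N / 2)) ⊆ Ioi 0 := fun y hy =>
    lt_of_lt_of_le ha hy.1
  have hci : ContinuousOn (fun y : ℝ => y⁻¹) (Icc (Real.exp (-N)) (Real.exp (-N / 2))) :=
    continuousOn_inv₀.mono fun y hy => (hsub hy).ne'
  have i1 : IntegrableOn ((Icc (Real.exp (-N)) (Real.exp (-N / 2))).indicator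
      (fun y : ℝ => y⁻¹)) (Ioi 0) := by
    rw [IntegrableOn, integrable_indicator_iff measurableSet_Icc, IntegrableOn,
      Measure.restrict_restrict measurableSet_Icc, inter_eq_left.2 hsub]
    exact hci.integrableOn_compact isCompact_Icc
  have i2 : Integrable (fun w : ℂ => Res_h N ‖w‖) := by
    rw [integrable_fun_norm_addHaar (volume : Measure ℂ) (f := Res_h N)]
    exact (integrableOn_congr_fun e1 measurableSet_Ioi).2 i1
  refine ⟨i2.comp_sub_right p, ?_⟩
  have e2 : ∫ w : ℂ, Res_h N ‖w - p‖ = ∫ w : ℂ, Res_h N ‖w‖ :=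
    integral_sub_right_eq_self (fun w : ℂ => Res_h N ‖w‖) p
  rw [e2, integral_fun_norm_addHaar (volume : Measure ℂ) (Res_h N),
    setIntegral_congr_fun measurableSet_Ioi e1, setIntegral_indicator measurableSet_Icc,
    inter_eq_right.2 hsub, integral_Icc_eq_integral_Ioc,
    ← intervalIntegral.integral_of_le hab, integral_inv_of_pos ha hb]
  have e3 : (volume : Measure ℂ).real (Metric.ball 0 1) = Real.pi := by
    rw [Measure.real, Complex.volume_ball]
    simp
  rw [e3, finrank_real_complex, ← Real.exp_sub, Real.log_exp]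
  simp only [smul_eq_mul, nsmul_eq_mul]
  push_cast
  ring


private theorem Res_ann {p : ℂ} {N : ℝ} (hN : 0 < N) {w : ℂ} (hw : w ≠ p)
    (h : Res_L p w / N ∈ Icc (-2 : ℝ) (-1)) :
    ‖w - p‖ ∈ Icc (Real.exp (-N)) (Real.exp (-N / 2)) := by
  have h0 : 0 < ‖w - p‖ := norm_pos_iff.2 (sub_ne_zero.2 hw)
  obtain ⟨h1, h2⟩ := h
  rw [le_div_iff₀ hN, Res_L, Real.log_pow] at h1
  rw [div_le_iff₀ hN, Res_L, Real.log_pow] at h2
  push_cast at h1 h2
  constructor
  · rw [← Real.le_log_iff_exp_le h0]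
    linarith
  · rw [← Real.log_le_iff_le_exp h0]
    linarith

private theorem Res_h_nonneg (N y : ℝ) : 0 ≤ Res_h N y := by
  unfold Res_h
  apply indicator_nonneg
  intro y _
  positivity

private theorem Res_E {p : ℂ} {N B K : ℝ} (hN : 0 < N) (hNe : Real.exp (-N / 2) * N ≤ 1)
    (hB : 0 ≤ B) (hBb : ∀ t, |deriv Res_Th t| ≤ B ∧ |deriv (deriv Res_Th) t| ≤ B)
    {a b c : ℂ} (ha : ‖a‖ ≤ K) (hb : ‖b‖ ≤ K) (hc : ‖c‖ ≤ K) {w : ℂ} (hw : w ≠ p) :
    ‖a * dw (fun w => ((Res_U p N w : ℝ) : ℂ)) w + b * dwb (fun w => ((Res_U p N w : ℝ) : ℂ)) w +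
      c * dw (dwb (fun w => ((Res_U p N w : ℝ) : ℂ))) w‖ ≤
      3 * K * B / N ^ 2 * Res_h N ‖w - p‖ := by
  have h0 : 0 < ‖w - p‖ := norm_pos_iff.2 (sub_ne_zero.2 hw)
  have hK : 0 ≤ K := (norm_nonneg _).trans ha
  rw [Res_U_dw hw, Res_U_dwb hw, Res_U_dwdwb hw]
  by_cases h : Res_L p w / N ∈ Icc (-2 : ℝ) (-1)
  · have hann := Res_ann hN hw h
    rw [Res_h, indicator_of_mem hann]
    obtain ⟨hb1, hb2⟩ := hBb (Res_L p w / N)
    set t1 := deriv Res_Th (Res_L p w / N)
    set t2 := deriv (deriv Res_Th) (Res_L p w / N)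
    have hρN : ‖w - p‖ * N ≤ 1 := (mul_le_mul_of_nonneg_right hann.2 hN.le).trans hNe
    have key : B / N * ‖w - p‖⁻¹ ≤ B / N ^ 2 * (‖w - p‖ ^ 2)⁻¹ := by
      have e1 : B / N * ‖w - p‖⁻¹ = B / N ^ 2 * (‖w - p‖ ^ 2)⁻¹ * (‖w - p‖ * N) := by
        field_simp
      rw [e1]
      have e2 : 0 ≤ B / N ^ 2 * (‖w - p‖ ^ 2)⁻¹ := by positivity
      nlinarith
    have n1 : ‖((t1 / N : ℝ) : ℂ) * (w - p)⁻¹‖ ≤ B / N ^ 2 * (‖w - p‖ ^ 2)⁻¹ := by
      rw [norm_mul, Complex.norm_real, norm_inv, Real.norm_eq_abs, abs_div, abs_of_pos hN]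
      refine le_trans ?_ key
      gcongr
    have n2 : ‖((t1 / N : ℝ) : ℂ) * conj ((w - p)⁻¹)‖ ≤ B / N ^ 2 * (‖w - p‖ ^ 2)⁻¹ := by
      rw [norm_mul, Complex.norm_real, Complex.norm_conj, norm_inv, Real.norm_eq_abs, abs_div,
        abs_of_pos hN]
      refine le_trans ?_ key
      gcongr
    have n3 : ‖((t2 / N / N : ℝ) : ℂ) * (w - p)⁻¹ * conj ((w - p)⁻¹)‖ ≤
        B / N ^ 2 * (‖w - p‖ ^ 2)⁻¹ := by
      rw [norm_mul, norm_mul, Complex.norm_real, Complex.norm_conj, norm_inv, Real.norm_eq_abs,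
        abs_div, abs_div, abs_of_pos hN]
      have e1 : |t2| / N / N * ‖w - p‖⁻¹ * ‖w - p‖⁻¹ = |t2| / N ^ 2 * (‖w - p‖ ^ 2)⁻¹ := by
        field_simp
      rw [e1]
      gcongr
    have hX : 0 ≤ B / N ^ 2 * (‖w - p‖ ^ 2)⁻¹ := by positivity
    have m1 : ‖a * (((t1 / N : ℝ) : ℂ) * (w - p)⁻¹)‖ ≤ K * (B / N ^ 2 * (‖w - p‖ ^ 2)⁻¹) := by
      rw [norm_mul]
      exact mul_le_mul ha n1 (norm_nonneg _) hK
    have m2 : ‖b * (((t1 / N : ℝ) : ℂ) * conj ((w - p)⁻¹))‖ ≤
        K * (B / N ^ 2 * (‖w - p‖ ^ 2)⁻¹) := by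
      rw [norm_mul]
      exact mul_le_mul hb n2 (norm_nonneg _) hK
    have m3 : ‖c * (((t2 / N / N : ℝ) : ℂ) * (w - p)⁻¹ * conj ((w - p)⁻¹))‖ ≤
        K * (B / N ^ 2 * (‖w - p‖ ^ 2)⁻¹) := by
      rw [norm_mul]
      exact mul_le_mul hc n3 (norm_nonneg _) hK
    refine (norm_add₃_le).trans ?_
    have e5 : 3 * K * B / N ^ 2 * (‖w - p‖ ^ 2)⁻¹ =
        K * (B / N ^ 2 * (‖w - p‖ ^ 2)⁻¹) + K * (B / N ^ 2 * (‖w - p‖ ^ 2)⁻¹) +
          K * (B / N ^ 2 * (‖w - p‖ ^ 2)⁻¹) := by ring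
    rw [e5]
    linarith
  · have h1 := Res_Th_out h
    have h2 : deriv Res_Th (Res_L p w / N) = 0 := h1.self_of_nhds
    have h3 : deriv (deriv Res_Th) (Res_L p w / N) = 0 := by
      rw [h1.deriv_eq]
      simp
    rw [h2, h3]
    simp only [zero_div, Complex.ofReal_zero, zero_mul, mul_zero, add_zero, norm_zero]
    have := Res_h_nonneg N ‖w - p‖
    positivity

private theorem Res_intg {X : Type*} [NormedAddCommGroup X] {f : ℂ → X} {K : Set ℂ}
    (hK : IsCompact K) (hf : ContinuousOn f K) (h0 : ∀ x, x ∉ K → f x = 0) : Integrable f :=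
  (hf.integrableOn_compact hK).integrable_of_forall_notMem_eq_zero h0

/-- No mass at a puncture: `v` smooth on the punctured ball with `|v| = o(log 1/|w-p|)` (in the form:
`v ≤ C`, `v ≥ δ log|w-p| - C_δ` for all `δ > 0`), `lev v` integrable; `χ` smooth with compact support in
the ball. Cutoffs `θ(|w-p|^{2/N})`. -/
theorem no_mass {v : ℂ → ℝ} {p : ℂ} {r : ℝ} (hr : 0 < r)
    (hv : ContDiffOn ℝ ∞ v (Metric.ball p r \ {p}))
    (hint : IntegrableOn (lev v) (Metric.ball p r \ {p}))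
    (hup : ∃ C₁, ∀ w ∈ Metric.ball p r \ {p}, v w ≤ C₁)
    (hlo : ∀ δ > 0, ∃ C₁, ∃ r' > 0, ∀ w, w ≠ p → ‖w - p‖ < r' → δ * Real.log ‖w - p‖ - C₁ ≤ v w)
    {χ : ℂ → ℂ} (hχ : ContDiff ℝ ∞ χ) (hc : HasCompactSupport χ)
    (hs : tsupport χ ⊆ Metric.ball p r) :
    ∫ w in Metric.ball p r \ {p}, χ w * (lev v w : ℂ)
      = ∫ w in Metric.ball p r \ {p}, (v w : ℂ) * dw (dwb χ) w := by
  obtain ⟨M, hM⟩ : ∃ M : Set ℂ, M = Metric.ball p r \ {p} := ⟨_, rfl⟩
  rw [← hM] at hv hint hup ⊢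
  have hMo : IsOpen M := by
    rw [hM]
    exact Metric.isOpen_ball.sdiff isClosed_singleton
  have hMp : ∀ w ∈ M, w ≠ p := by
    intro w hw
    rw [hM] at hw
    exact hw.2
  obtain ⟨C₁, hC₁⟩ := hup
  obtain ⟨B, hB0, hB⟩ := Res_Th_bound
  have hdχ : ContDiff ℝ ∞ (dw χ) := contDiff_wd hχ
  have hdbχ : ContDiff ℝ ∞ (dwb χ) := contDiff_wdb hχ
  have hddχ : ContDiff ℝ ∞ (dw (dwb χ)) := contDiff_wd hdbχ
  have hcd : HasCompactSupport (dw χ) := hc.of_isClosed_subset (isClosed_tsupport _)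
    tsupport_wd_subset
  have hcdb : HasCompactSupport (dwb χ) := hc.of_isClosed_subset (isClosed_tsupport _)
    tsupport_wdb_subset
  have htdd : tsupport (dw (dwb χ)) ⊆ tsupport χ :=
    tsupport_wd_subset.trans tsupport_wdb_subset
  have hcdd : HasCompactSupport (dw (dwb χ)) := hc.of_isClosed_subset (isClosed_tsupport _) htdd
  obtain ⟨K, hK1, hK2, hK3⟩ : ∃ K : ℝ, (∀ w, ‖χ w‖ ≤ K) ∧ (∀ w, ‖dw χ w‖ ≤ K) ∧
      ∀ w, ‖dwb χ w‖ ≤ K := by
    obtain ⟨K1, h1⟩ := hχ.continuous.bounded_above_of_compact_support hc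
    obtain ⟨K2, h2⟩ := hdχ.continuous.bounded_above_of_compact_support hcd
    obtain ⟨K3, h3⟩ := hdbχ.continuous.bounded_above_of_compact_support hcdb
    refine ⟨max K1 (max K2 K3), fun w => (h1 w).trans (le_max_left _ _),
      fun w => (h2 w).trans ((le_max_left _ _).trans (le_max_right _ _)),
      fun w => (h3 w).trans ((le_max_right _ _).trans (le_max_right _ _))⟩
  have hK0 : 0 ≤ K := (norm_nonneg _).trans (hK1 0)
  -- bound of `v` on the support
  obtain ⟨C₂, hC₂⟩ : ∃ C₂ : ℝ, ∀ w ∈ M, w ∈ tsupport χ → |v w| ≤ C₂ + |Real.log ‖w - p‖| := by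
    obtain ⟨C₃, r', hr', h3⟩ := hlo 1 one_pos
    have hcomp : IsCompact (tsupport χ \ Metric.ball p r') := hc.diff Metric.isOpen_ball
    have hsubM : tsupport χ \ Metric.ball p r' ⊆ M := by
      intro w hw
      rw [hM]
      refine ⟨hs hw.1, ?_⟩
      rintro rfl
      exact hw.2 (Metric.mem_ball_self hr')
    obtain ⟨C₄, h4⟩ := hcomp.exists_bound_of_continuousOn (hv.continuousOn.mono hsubM)
    refine ⟨max (|C₁| + |C₃|) C₄, fun w hw hwt => ?_⟩
    have hlog := abs_nonneg (Real.log ‖w - p‖)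
    by_cases hwr : w ∈ Metric.ball p r'
    · rw [Metric.mem_ball, dist_eq_norm] at hwr
      have h5 := h3 w (hMp w hw) hwr
      have h6 := hC₁ w hw
      have h7 := neg_abs_le (Real.log ‖w - p‖)
      have h8 := le_abs_self C₁
      have h9 := le_abs_self C₃
      have h10 := abs_nonneg C₁
      have h11 := abs_nonneg C₃
      have h12 : |C₁| + |C₃| ≤ max (|C₁| + |C₃|) C₄ := le_max_left _ _
      rw [abs_le]
      constructor
      · linarith
      · linarith
    · have h5 := h4 w ⟨hwt, hwr⟩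
      rw [Real.norm_eq_abs] at h5
      have h12 : C₄ ≤ max (|C₁| + |C₃|) C₄ := le_max_right _ _
      linarith
  -- the cutoffs
  have hNpos : ∀ n : ℕ, (0 : ℝ) < (n : ℝ) + 1 := fun n => by positivity
  set U : ℕ → ℂ → ℂ := fun n w => ((Res_U p ((n : ℝ) + 1) w : ℝ) : ℂ) with hU
  have hUs : ∀ n, ContDiff ℝ ∞ (U n) := fun n => Res_U_smooth (hNpos n)
  have hU1 : ∀ n w, ‖U n w‖ ≤ 1 := by
    intro n w
    simp only [hU, Complex.norm_real, Real.norm_eq_abs]
    unfold Res_U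
    split_ifs
    · simp
    · rw [Res_Th, abs_of_nonneg (Real.smoothTransition.nonneg _)]
      exact Real.smoothTransition.le_one _
  have hUlim : ∀ w ∈ M, Tendsto (fun n => U n w) atTop (𝓝 1) := by
    intro w hw
    have h1 : Tendsto (fun n : ℕ => Res_L p w / ((n : ℝ) + 1)) atTop (𝓝 0) :=
      tendsto_const_nhds.div_atTop (tendsto_natCast_atTop_atTop.atTop_add tendsto_const_nhds)
    have h2 : ∀ᶠ n : ℕ in atTop, -1 < Res_L p w / ((n : ℝ) + 1) :=
      h1.eventually (lt_mem_nhds (by norm_num))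
    refine tendsto_const_nhds.congr' ?_
    filter_upwards [h2] with n hn
    simp only [hU]
    unfold Res_U
    rw [if_neg (hMp w hw), Res_Th_one hn.le, Complex.ofReal_one]
  have hFs : ∀ n, ContDiff ℝ ∞ (fun w => χ w * U n w) := fun n => hχ.mul (hUs n)
  have hFt : ∀ n, tsupport (fun w => χ w * U n w) ⊆ tsupport χ := fun n =>
    closure_mono fun w hw => by
      rw [Function.mem_support] at hw ⊢
      intro h
      exact hw (by rw [h, zero_mul])
  have hFc : ∀ n, HasCompactSupport (fun w => χ w * U n w) := fun n =>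
    hc.of_isClosed_subset (isClosed_tsupport _) (hFt n)
  have hFM : ∀ n, tsupport (fun w => χ w * U n w) ⊆ M := by
    intro n w hw
    rw [hM]
    refine ⟨hs (hFt n hw), ?_⟩
    rintro rfl
    refine notMem_tsupport_iff_eventuallyEq.2 ?_ hw
    filter_upwards [Res_U_near (p := w) (hNpos n)] with y hy
    simp only [hU]
    rw [hy, mul_zero]
    rfl
  have hvc : ContinuousOn (fun w => ((v w : ℝ) : ℂ)) M :=
    Complex.continuous_ofReal.comp_continuousOn hv.continuousOn
  set E : ℕ → ℂ → ℂ := fun n w => dwb χ w * dw (U n) w + dw χ w * dwb (U n) w +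
    χ w * dw (dwb (U n)) w with hE
  have hEc : ∀ n, Continuous (E n) := fun n =>
    ((hdbχ.continuous.mul (contDiff_wd (hUs n)).continuous).add
      (hdχ.continuous.mul (contDiff_wdb (hUs n)).continuous)).add
      (hχ.continuous.mul (contDiff_wd (contDiff_wdb (hUs n))).continuous)
  -- domination
  have hg : Integrable (fun w => C₂ * ‖dw (dwb χ) w‖ + |‖dw (dwb χ) w‖ * Real.log ‖w - p‖|) := by
    have h1 : Integrable (fun w => C₂ * ‖dw (dwb χ) w‖) :=
      ((hddχ.continuous.integrable_of_hasCompactSupport hcdd).norm).const_mul C₂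
    have h2 : Integrable (fun w => ‖dw (dwb χ) w‖ • Real.log ‖w - p‖) :=
      (locallyIntegrable_log p).integrable_smul_left_of_hasCompactSupport
        hddχ.continuous.norm hcdd.norm
    exact h1.add h2.abs
  have hdom : ∀ n, ∀ w ∈ M, ‖(v w : ℂ) * (dw (dwb χ) w * U n w)‖ ≤
      C₂ * ‖dw (dwb χ) w‖ + |‖dw (dwb χ) w‖ * Real.log ‖w - p‖| := by
    intro n w hw
    rw [norm_mul, norm_mul, Complex.norm_real, Real.norm_eq_abs, abs_mul,
      abs_of_nonneg (norm_nonneg _)]
    by_cases hwt : w ∈ tsupport χ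
    · have h1 := hC₂ w hw hwt
      have h2 : ‖dw (dwb χ) w‖ * ‖U n w‖ ≤ ‖dw (dwb χ) w‖ :=
        mul_le_of_le_one_right (norm_nonneg _) (hU1 n w)
      calc |v w| * (‖dw (dwb χ) w‖ * ‖U n w‖) ≤ |v w| * ‖dw (dwb χ) w‖ :=
            mul_le_mul_of_nonneg_left h2 (abs_nonneg _)
        _ ≤ (C₂ + |Real.log ‖w - p‖|) * ‖dw (dwb χ) w‖ :=
            mul_le_mul_of_nonneg_right h1 (norm_nonneg _)
        _ = _ := by ring
    · have h1 : dw (dwb χ) w = 0 := image_eq_zero_of_notMem_tsupport fun h => hwt (htdd h)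
      rw [h1]
      simp
  have hbm : ∀ n, AEStronglyMeasurable (fun w => (v w : ℂ) * (dw (dwb χ) w * U n w))
      (volume.restrict M) := fun n =>
    (hvc.mul ((hddχ.continuous.mul (hUs n).continuous).continuousOn)).aestronglyMeasurable
      hMo.measurableSet
  have hbi : ∀ n, IntegrableOn (fun w => (v w : ℂ) * (dw (dwb χ) w * U n w)) M := fun n =>
    Integrable.mono' hg.integrableOn (hbm n)
      ((ae_restrict_iff' hMo.measurableSet).2 (Eventually.of_forall (hdom n)))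
  -- the three limits
  have ha : Tendsto (fun n => ∫ w in M, (χ w * U n w) * (lev v w : ℂ)) atTop
      (𝓝 (∫ w in M, χ w * (lev v w : ℂ))) := by
    have hlev : ContinuousOn (fun w => ((lev v w : ℝ) : ℂ)) M := by
      have h1 : ContinuousOn (dw (dwb (fun x => ((v x : ℝ) : ℂ)))) M :=
        (contDiffOn_wd hMo (contDiffOn_wdb hMo (Res_cv hv))).continuousOn
      exact h1.congr fun w hw => lev_coe hMo hv hw
    refine tendsto_integral_of_dominated_convergence (fun w => K * |lev v w|) (fun n => ?_)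
      ?_ (fun n => ?_) ?_
    · exact (((hχ.continuous.mul (hUs n).continuous).continuousOn).mul hlev).aestronglyMeasurable
        hMo.measurableSet
    · have h1 : Integrable (lev v) (volume.restrict M) := hint
      exact h1.abs.const_mul K
    · refine Eventually.of_forall fun w => ?_
      have h2 : ‖((lev v w : ℝ) : ℂ)‖ = |lev v w| := by
        rw [Complex.norm_real, Real.norm_eq_abs]
      rw [norm_mul, norm_mul, h2]
      show ‖χ w‖ * ‖U n w‖ * |lev v w| ≤ K * |lev v w|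
      refine mul_le_mul_of_nonneg_right ?_ (abs_nonneg (lev v w))
      calc ‖χ w‖ * ‖U n w‖ ≤ ‖χ w‖ := mul_le_of_le_one_right (norm_nonneg _) (hU1 n w)
        _ ≤ K := hK1 w
    · refine (ae_restrict_iff' hMo.measurableSet).2 (Eventually.of_forall fun w hw => ?_)
      have h1 := ((hUlim w hw).const_mul (χ w)).mul_const (lev v w : ℂ)
      rwa [mul_one] at h1
  have hb : Tendsto (fun n => ∫ w in M, (v w : ℂ) * (dw (dwb χ) w * U n w)) atTop
      (𝓝 (∫ w in M, (v w : ℂ) * dw (dwb χ) w)) := by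
    refine tendsto_integral_of_dominated_convergence _ hbm hg.integrableOn (fun n =>
      (ae_restrict_iff' hMo.measurableSet).2 (Eventually.of_forall (hdom n))) ?_
    refine (ae_restrict_iff' hMo.measurableSet).2 (Eventually.of_forall fun w hw => ?_)
    have h1 := ((hUlim w hw).const_mul (dw (dwb χ) w)).const_mul (v w : ℂ)
    rwa [mul_one] at h1
  have hcl : Tendsto (fun n => ∫ w in M, (v w : ℂ) * E n w) atTop (𝓝 0) := by
    rw [NormedAddGroup.tendsto_nhds_zero]
    intro ε hε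
    have hQ : 0 ≤ 3 * K * B * Real.pi := by
      have := Real.pi_pos
      positivity
    obtain ⟨δ, hδ⟩ : ∃ δ : ℝ, δ = ε / (2 * (3 * K * B * Real.pi + 1)) := ⟨_, rfl⟩
    have hδ0 : 0 < δ := by rw [hδ]; positivity
    obtain ⟨C₃, r', hr', h3⟩ := hlo δ hδ0
    have t1 : Tendsto (fun n : ℕ => Real.exp (-((n : ℝ) + 1) / 2)) atTop (𝓝 0) := by
      refine Real.tendsto_exp_atBot.comp ?_
      have e1 : Tendsto (fun n : ℕ => ((n : ℝ) + 1) / 2) atTop atTop :=
        (tendsto_natCast_atTop_atTop.atTop_add tendsto_const_nhds).atTop_div_const two_pos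
      have e2 := tendsto_neg_atTop_atBot.comp e1
      refine e2.congr fun n => ?_
      simp only [Function.comp_apply]
      ring
    have t2 : Tendsto (fun n : ℕ => 3 * K * B * Real.pi * (|C₁| + |C₃|) / ((n : ℝ) + 1)) atTop
        (𝓝 0) :=
      tendsto_const_nhds.div_atTop (tendsto_natCast_atTop_atTop.atTop_add tendsto_const_nhds)
    filter_upwards [t1.eventually (gt_mem_nhds hr'), t2.eventually (gt_mem_nhds (half_pos hε))]
      with n hn1 hn2
    have hN := hNpos n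
    have hNe : Real.exp (-((n : ℝ) + 1) / 2) * ((n : ℝ) + 1) ≤ 1 := by
      have e1 : (n : ℝ) + 1 ≤ Real.exp (((n : ℝ) + 1) / 2) := by
        have e2 : 1 + ((n : ℝ) + 1) / 4 ≤ Real.exp (((n : ℝ) + 1) / 4) := by
          have := Real.add_one_le_exp (((n : ℝ) + 1) / 4)
          linarith
        have e3 : Real.exp (((n : ℝ) + 1) / 2) = Real.exp (((n : ℝ) + 1) / 4) ^ 2 := by
          rw [← Real.exp_nat_mul]
          congr 1
          push_cast
          ring
        rw [e3]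
        have e4 : (1 + ((n : ℝ) + 1) / 4) ^ 2 ≤ Real.exp (((n : ℝ) + 1) / 4) ^ 2 := by
          gcongr
        nlinarith [sq_nonneg (((n : ℝ) + 1) / 4 - 1)]
      have e5 : Real.exp (-((n : ℝ) + 1) / 2) * Real.exp (((n : ℝ) + 1) / 2) = 1 := by
        rw [← Real.exp_add]
        have : -((n : ℝ) + 1) / 2 + ((n : ℝ) + 1) / 2 = 0 := by ring
        rw [this, Real.exp_zero]
      calc Real.exp (-((n : ℝ) + 1) / 2) * ((n : ℝ) + 1) ≤
          Real.exp (-((n : ℝ) + 1) / 2) * Real.exp (((n : ℝ) + 1) / 2) :=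
            mul_le_mul_of_nonneg_left e1 (Real.exp_pos _).le
        _ = 1 := e5
    obtain ⟨N, hNn⟩ : ∃ N : ℝ, N = (n : ℝ) + 1 := ⟨_, rfl⟩
    obtain ⟨hhi, hhv⟩ := Res_h_int p (N := N) (by rw [hNn]; exact hN)
    have hN' : 0 < N := by rw [hNn]; exact hN
    have hQ0 : 0 ≤ (|C₁| + |C₃| + δ * N) * (3 * K * B / N ^ 2) := by positivity
    have hbd : ∀ w ∈ M, ‖(v w : ℂ) * E n w‖ ≤
        (|C₁| + |C₃| + δ * N) * (3 * K * B / N ^ 2) * Res_h N ‖w - p‖ := by
      intro w hw
      have hwp := hMp w hw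
      have e1 := Res_E (p := p) hN hNe hB0 hB (hK3 w) (hK2 w) (hK1 w) hwp
      rw [← hNn] at e1
      have e1' : ‖E n w‖ ≤ 3 * K * B / N ^ 2 * Res_h N ‖w - p‖ := by
        simp only [hE, hU]
        rw [← hNn]
        exact e1
      rw [norm_mul, Complex.norm_real, Real.norm_eq_abs]
      by_cases hann : ‖w - p‖ ∈ Icc (Real.exp (-N)) (Real.exp (-N / 2))
      · have hwr : ‖w - p‖ < r' := by
          rw [← hNn] at hn1
          exact hann.2.trans_lt hn1
        have e2 := h3 w hwp hwr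
        have e3 := hC₁ w hw
        have h0 : 0 < ‖w - p‖ := norm_pos_iff.2 (sub_ne_zero.2 hwp)
        have e4 : -N ≤ Real.log ‖w - p‖ := by
          rw [Real.le_log_iff_exp_le h0]
          exact hann.1
        have e5 : δ * (-N) ≤ δ * Real.log ‖w - p‖ := mul_le_mul_of_nonneg_left e4 hδ0.le
        have h8 := le_abs_self C₁
        have h9 := le_abs_self C₃
        have h10 := abs_nonneg C₁
        have h11 := abs_nonneg C₃
        have h12 : 0 ≤ δ * N := by positivity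
        have e6 : |v w| ≤ |C₁| + |C₃| + δ * N := by
          rw [abs_le]
          constructor
          · linarith
          · linarith
        calc |v w| * ‖E n w‖ ≤ (|C₁| + |C₃| + δ * N) * (3 * K * B / N ^ 2 * Res_h N ‖w - p‖) :=
              mul_le_mul e6 e1' (norm_nonneg _) (by positivity)
          _ = _ := by ring
      · have e2 : Res_h N ‖w - p‖ = 0 := by
          rw [Res_h, indicator_of_notMem hann]
        rw [e2, mul_zero] at e1' ⊢
        have e3 : ‖E n w‖ = 0 := le_antisymm e1' (norm_nonneg _)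
        rw [e3, mul_zero]
    have hgi : Integrable (fun w : ℂ => (|C₁| + |C₃| + δ * N) * (3 * K * B / N ^ 2) *
        Res_h N ‖w - p‖) := hhi.const_mul _
    have e1 : ‖∫ w in M, (v w : ℂ) * E n w‖ ≤
        ∫ w in M, (|C₁| + |C₃| + δ * N) * (3 * K * B / N ^ 2) * Res_h N ‖w - p‖ :=
      norm_integral_le_of_norm_le hgi.integrableOn
        ((ae_restrict_iff' hMo.measurableSet).2 (Eventually.of_forall hbd))
    have e2 : ∫ w in M, (|C₁| + |C₃| + δ * N) * (3 * K * B / N ^ 2) * Res_h N ‖w - p‖ ≤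
        ∫ w, (|C₁| + |C₃| + δ * N) * (3 * K * B / N ^ 2) * Res_h N ‖w - p‖ :=
      setIntegral_le_integral hgi (Eventually.of_forall fun w =>
        mul_nonneg hQ0 (Res_h_nonneg N _))
    have e2' : ∫ w, (|C₁| + |C₃| + δ * N) * (3 * K * B / N ^ 2) * Res_h N ‖w - p‖ =
        (|C₁| + |C₃| + δ * N) * (3 * K * B / N ^ 2) * (Real.pi * N) := by
      rw [integral_const_mul, hhv]
    rw [e2'] at e2
    have e3 : (|C₁| + |C₃| + δ * N) * (3 * K * B / N ^ 2) * (Real.pi * N) =
        3 * K * B * Real.pi * (|C₁| + |C₃|) / N + 3 * K * B * Real.pi * δ := by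
      field_simp
    rw [e3] at e2
    rw [← hNn] at hn2
    have e4 : 3 * K * B * Real.pi * δ < ε / 2 := by
      have e5 : (3 * K * B * Real.pi + 1) * δ = ε / 2 := by
        rw [hδ]
        field_simp
      nlinarith
    linarith
  -- assemble
  have hid : ∀ n, ∫ w in M, (χ w * U n w) * (lev v w : ℂ) =
      (∫ w in M, (v w : ℂ) * (dw (dwb χ) w * U n w)) + ∫ w in M, (v w : ℂ) * E n w := by
    intro n
    have e1 := Res_ibp hMo (hFs n) (hFc n) (hFM n) hv
    have e2 : ∀ w, (v w : ℂ) * dw (dwb (fun w => χ w * U n w)) w =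
        (v w : ℂ) * (dw (dwb χ) w * U n w) + (v w : ℂ) * E n w := by
      intro w
      rw [Res_prod hχ (hUs n) w]
      simp only [hE]
      ring
    have i1 : IntegrableOn (fun w => (v w : ℂ) * dw (dwb (fun w => χ w * U n w)) w) M := by
      refine Integrable.integrableOn ?_
      refine Res_intg (K := tsupport (fun w => χ w * U n w)) (hFc n) ?_ ?_
      · exact (hvc.mono (hFM n)).mul
          (contDiff_wd (contDiff_wdb (hFs n))).continuous.continuousOn
      · intro w hw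
        have : dw (dwb (fun w => χ w * U n w)) w = 0 :=
          image_eq_zero_of_notMem_tsupport fun h =>
            hw ((tsupport_wd_subset.trans tsupport_wdb_subset) h)
        rw [this, mul_zero]
    have i2 : IntegrableOn (fun w => (v w : ℂ) * E n w) M := by
      have h1 := i1.sub (hbi n)
      refine (integrableOn_congr_fun (fun w _ => ?_) hMo.measurableSet).1 h1
      simp only [Pi.sub_apply]
      rw [e2 w]
      ring
    rw [e1, ← integral_add (hbi n) i2]
    exact integral_congr_ae (Eventually.of_forall e2)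
  have hlim := hb.add hcl
  rw [add_zero] at hlim
  exact tendsto_nhds_unique (ha.congr hid) hlim


variable {S : Set ℂ} {D G : ℂ → ℝ} {a C : ℝ} {η : ℕ → ℂ → ℝ}

private theorem Res_psi (sd : SliceData S D G a C η) :
    ContDiffOn ℝ ∞ (fun x => Real.log (D x)) S :=
  sd.Dsmooth.log fun x hx => (sd.Dpos x hx).ne'

private theorem Res_restrict (sd : SliceData S D G a C η) :
    (volume : Measure ℂ).restrict S = volume :=
  Measure.restrict_eq_self_of_ae_mem (mem_ae_iff.2 sd.compl_null)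

private theorem Res_levc {v : ℂ → ℝ} {M : Set ℂ} (hM : IsOpen M) (hv : ContDiffOn ℝ ∞ v M) :
    ContinuousOn (lev v) M :=
  Complex.continuous_re.comp_continuousOn
    (contDiffOn_wd hM (contDiffOn_wdb hM (Res_cv hv))).continuousOn

private theorem Res_int_lev (sd : SliceData S D G a C η) :
    Integrable (lev (fun x => Real.log (D x))) := by
  have h1 : IntegrableOn (lev (fun x => Real.log (D x))) S := by
    refine Integrable.mono' (g := fun w => a * C * D w) (sd.integrable.const_mul (a * C))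
      ((Res_levc sd.isOpen (Res_psi sd)).aestronglyMeasurable sd.isOpen.measurableSet) ?_
    refine (ae_restrict_iff' sd.isOpen.measurableSet).2 (Eventually.of_forall fun w hw => ?_)
    rw [Real.norm_eq_abs, abs_of_nonneg (sd.lev_nonneg w hw)]
    refine (sd.lev_le w hw).trans ?_
    have := mul_le_mul_of_nonneg_left (sd.GleD w hw) sd.a_nonneg
    linarith
  rwa [IntegrableOn, Res_restrict sd] at h1

private theorem Res_loc (sd : SliceData S D G a C η) (h2 : ∃ p q, p ∉ S ∧ q ∉ S ∧ p ≠ q) :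
    LocallyIntegrable (fun x => Real.log (D x)) := by
  intro x
  by_cases hx : x ∈ S
  · obtain ⟨ε, hε, hsub⟩ := Metric.nhds_basis_closedBall.mem_iff.1 (sd.isOpen.mem_nhds hx)
    exact ⟨Metric.closedBall x ε, Metric.closedBall_mem_nhds x hε,
      ((Res_psi sd).continuousOn.mono hsub).integrableOn_compact (isCompact_closedBall x ε)⟩
  · obtain ⟨q, hq, hxq⟩ : ∃ q, q ∉ S ∧ x ≠ q := by
      obtain ⟨p, q, hp, hq, hpq⟩ := h2
      by_cases h : x = q
      · exact ⟨p, hp, by rw [h]; exact hpq.symm⟩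
      · exact ⟨q, hq, h⟩
    obtain ⟨C₁, r₁, hr₁, h3⟩ := sd.upper hx
    obtain ⟨C₃, r₃, hr₃, h4⟩ := sd.lower hx hq hxq one_pos
    have hr : 0 < min r₁ r₃ := lt_min hr₁ hr₃
    refine ⟨Metric.ball x (min r₁ r₃), Metric.ball_mem_nhds x hr, ?_⟩
    have hMo : IsOpen (Metric.ball x (min r₁ r₃) \ {x}) :=
      Metric.isOpen_ball.sdiff isClosed_singleton
    have hMS : Metric.ball x (min r₁ r₃) \ {x} ⊆ S := by
      intro w hw
      have h5 := hw.1
      rw [Metric.mem_ball, dist_eq_norm] at h5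
      exact (h3 w hw.2 (h5.trans_le (min_le_left _ _))).1
    have h5 : IntegrableOn (fun w => 2 * |Real.log ‖w - x‖| + (|C₁| + |C₃|))
        (Metric.ball x (min r₁ r₃) \ {x}) := by
      have e1 : IntegrableOn (fun w => Real.log ‖w - x‖) (Metric.closedBall x (min r₁ r₃)) :=
        (locallyIntegrable_log x).integrableOn_isCompact (isCompact_closedBall _ _)
      have e2 : IntegrableOn (fun w => Real.log ‖w - x‖) (Metric.ball x (min r₁ r₃) \ {x}) :=
        e1.mono_set (sdiff_subset.trans Metric.ball_subset_closedBall)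
      have e3 : IntegrableOn (fun _ : ℂ => (|C₁| + |C₃|)) (Metric.ball x (min r₁ r₃) \ {x}) :=
        (integrableOn_const (C := |C₁| + |C₃|)
          (measure_ball_lt_top (μ := volume) (x := x) (r := min r₁ r₃)).ne).mono_set sdiff_subset
      have e4 : Integrable (fun w => Real.log ‖w - x‖)
        (volume.restrict (Metric.ball x (min r₁ r₃) \ {x})) := e2
      exact (e4.abs.const_mul 2).add e3
    have h6 : IntegrableOn (fun x => Real.log (D x)) (Metric.ball x (min r₁ r₃) \ {x}) := by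
      refine Integrable.mono' h5
        (((Res_psi sd).continuousOn.mono hMS).aestronglyMeasurable hMo.measurableSet) ?_
      refine (ae_restrict_iff' hMo.measurableSet).2 (Eventually.of_forall fun w hw => ?_)
      have h7 := hw.1
      rw [Metric.mem_ball, dist_eq_norm] at h7
      have h8 := (h3 w hw.2 (h7.trans_le (min_le_left _ _))).2
      have h9 := (h4 w hw.2 (h7.trans_le (min_le_right _ _))).2
      have a1 := le_abs_self (Real.log ‖w - x‖)
      have a2 := neg_abs_le (Real.log ‖w - x‖)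
      have a3 := le_abs_self C₁
      have a4 := le_abs_self C₃
      have a5 := abs_nonneg C₁
      have a6 := abs_nonneg C₃
      rw [Real.norm_eq_abs, abs_le]
      constructor
      · linarith
      · linarith
    have h7 := h6.union (integrableOn_singleton (f := fun x => Real.log (D x)) (x := x)
      (μ := volume) (hx := by
        rw [measure_singleton]
        exact ENNReal.zero_lt_top))
    refine h7.mono_set fun w hw => ?_
    by_cases h : w = x
    · exact Or.inr h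
    · exact Or.inl ⟨hw, h⟩

/-- The functional of the residue formula. -/
private noncomputable def Res_T (D : ℂ → ℝ) (g : ℂ → ℂ) : ℂ :=
  (∫ w, g w * (lev (fun x => Real.log (D x)) w : ℂ)) -
    ∫ w, (Real.log (D w) : ℂ) * dw (dwb g) w

private theorem Res_i1 (sd : SliceData S D G a C η) {g : ℂ → ℂ} (hg : Continuous g) {K : ℝ}
    (hK : ∀ w, ‖g w‖ ≤ K) :
    Integrable (fun w => g w * (lev (fun x => Real.log (D x)) w : ℂ)) := by
  have h1 : Integrable (fun w => ((lev (fun x => Real.log (D x)) w : ℝ) : ℂ)) :=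
    (Res_int_lev sd).ofReal
  exact h1.bdd_mul hg.aestronglyMeasurable (Eventually.of_forall hK)

private theorem Res_cdd {g : ℂ → ℂ} (hc : HasCompactSupport g) :
    HasCompactSupport (dw (dwb g)) :=
  hc.of_isClosed_subset (isClosed_tsupport _) (tsupport_wd_subset.trans tsupport_wdb_subset)

private theorem Res_i2 (sd : SliceData S D G a C η) (h2 : ∃ p q, p ∉ S ∧ q ∉ S ∧ p ≠ q)
    {g : ℂ → ℂ} (hg : Continuous g) (hc : HasCompactSupport g) :
    Integrable (fun w => (Real.log (D w) : ℂ) * g w) := by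
  have h1 := (Res_loc sd h2).integrable_smul_right_of_hasCompactSupport hg hc
  exact h1

private theorem Res_T_add (sd : SliceData S D G a C η) (h2 : ∃ p q, p ∉ S ∧ q ∉ S ∧ p ≠ q)
    {f g : ℂ → ℂ} (hf : ContDiff ℝ ∞ f) (hfc : HasCompactSupport f) (hg : ContDiff ℝ ∞ g)
    (hgc : HasCompactSupport g) :
    Res_T D (fun w => f w + g w) = Res_T D f + Res_T D g := by
  obtain ⟨K1, hK1⟩ := hf.continuous.bounded_above_of_compact_support hfc
  obtain ⟨K2, hK2⟩ := hg.continuous.bounded_above_of_compact_support hgc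
  have hd : ∀ {g : ℂ → ℂ}, ContDiff ℝ ∞ g → Differentiable ℝ g := fun hg =>
    hg.differentiable (by simp)
  have e1 : dwb (fun w => f w + g w) = fun w => dwb f w + dwb g w := by
    funext w
    exact wdb_add (hd hf w) (hd hg w)
  have e2 : ∀ w, dw (dwb (fun w => f w + g w)) w = dw (dwb f) w + dw (dwb g) w := by
    intro w
    rw [e1]
    exact wd_add (hd (contDiff_wdb hf) w) (hd (contDiff_wdb hg) w)
  unfold Res_T
  have e3 : ∫ w, (f w + g w) * (lev (fun x => Real.log (D x)) w : ℂ) =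
      (∫ w, f w * (lev (fun x => Real.log (D x)) w : ℂ)) +
        ∫ w, g w * (lev (fun x => Real.log (D x)) w : ℂ) := by
    rw [← integral_add (Res_i1 sd hf.continuous hK1) (Res_i1 sd hg.continuous hK2)]
    refine integral_congr_ae (Eventually.of_forall fun w => ?_)
    show (f w + g w) * _ = _
    rw [add_mul]
  have e4 : ∫ w, (Real.log (D w) : ℂ) * dw (dwb (fun w => f w + g w)) w =
      (∫ w, (Real.log (D w) : ℂ) * dw (dwb f) w) +
        ∫ w, (Real.log (D w) : ℂ) * dw (dwb g) w := by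
    rw [← integral_add
      (Res_i2 sd h2 (contDiff_wd (contDiff_wdb hf)).continuous (Res_cdd hfc))
      (Res_i2 sd h2 (contDiff_wd (contDiff_wdb hg)).continuous (Res_cdd hgc))]
    refine integral_congr_ae (Eventually.of_forall fun w => ?_)
    show (Real.log (D w) : ℂ) * dw (dwb (fun w => f w + g w)) w = _
    rw [e2 w, mul_add]
  rw [e3, e4]
  ring

private theorem Res_T_zero (D : ℂ → ℝ) : Res_T D (fun _ => 0) = 0 := by
  have e1 : dwb (fun _ : ℂ => (0 : ℂ)) = fun _ => 0 := by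
    funext w
    exact wdb_const 0
  have e2 : ∀ w, dw (dwb (fun _ : ℂ => (0 : ℂ))) w = 0 := by
    intro w
    rw [e1]
    exact wd_const 0
  unfold Res_T
  simp only [e2, zero_mul, mul_zero, integral_zero, sub_zero]

private theorem Res_T_sum (sd : SliceData S D G a C η) (h2 : ∃ p q, p ∉ S ∧ q ∉ S ∧ p ≠ q)
    (s : Finset ℂ) (F : ℂ → ℂ → ℂ) (hF : ∀ p ∈ s, ContDiff ℝ ∞ (F p))
    (hc : ∀ p ∈ s, HasCompactSupport (F p)) :
    Res_T D (fun w => ∑ p ∈ s, F p w) = ∑ p ∈ s, Res_T D (F p) ∧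
      HasCompactSupport (fun w => ∑ p ∈ s, F p w) := by
  classical
  induction s using Finset.induction_on with
  | empty =>
    simp only [Finset.sum_empty]
    exact ⟨Res_T_zero D, HasCompactSupport.zero⟩
  | insert p s hp ih =>
    obtain ⟨ih1, ih2⟩ := ih (fun q hq => hF q (Finset.mem_insert_of_mem hq))
      (fun q hq => hc q (Finset.mem_insert_of_mem hq))
    have hs : ContDiff ℝ ∞ (fun w => ∑ q ∈ s, F q w) :=
      ContDiff.sum fun q hq => hF q (Finset.mem_insert_of_mem hq)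
    have hFp := hF p (Finset.mem_insert_self p s)
    have hcp := hc p (Finset.mem_insert_self p s)
    simp only [Finset.sum_insert hp]
    refine ⟨?_, hcp.add ih2⟩
    rw [Res_T_add sd h2 hFp hcp hs ih2, ih1]

private theorem Res_T_S (sd : SliceData S D G a C η) {g : ℂ → ℂ} (hg : ContDiff ℝ ∞ g)
    (hc : HasCompactSupport g) (hs : tsupport g ⊆ S) : Res_T D g = 0 := by
  have h1 := Res_ibp sd.isOpen hg hc hs (Res_psi sd)
  rw [Res_restrict sd] at h1
  unfold Res_T
  rw [h1, sub_self]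

private theorem Res_lev_add {M : Set ℂ} (hM : IsOpen M) {u v : ℂ → ℝ} (hu : ContDiffOn ℝ ∞ u M)
    (hv : ContDiffOn ℝ ∞ v M) {w : ℂ} (hw : w ∈ M) :
    lev (fun x => u x + v x) w = lev u w + lev v w := by
  have hcu := Res_cv hu
  have hcv := Res_cv hv
  have hdu : ∀ x ∈ M, DifferentiableAt ℝ (fun x => ((u x : ℝ) : ℂ)) x := fun x hx =>
    (hcu.contDiffAt (hM.mem_nhds hx)).differentiableAt (by norm_num)
  have hdv : ∀ x ∈ M, DifferentiableAt ℝ (fun x => ((v x : ℝ) : ℂ)) x := fun x hx =>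
    (hcv.contDiffAt (hM.mem_nhds hx)).differentiableAt (by norm_num)
  have hbu : DifferentiableAt ℝ (dwb (fun x => ((u x : ℝ) : ℂ))) w :=
    ((contDiffOn_wdb hM hcu).contDiffAt (hM.mem_nhds hw)).differentiableAt (by norm_num)
  have hbv : DifferentiableAt ℝ (dwb (fun x => ((v x : ℝ) : ℂ))) w :=
    ((contDiffOn_wdb hM hcv).contDiffAt (hM.mem_nhds hw)).differentiableAt (by norm_num)
  have h1 : dwb (fun x => ((u x + v x : ℝ) : ℂ)) =ᶠ[𝓝 w]
      fun x => dwb (fun x => ((u x : ℝ) : ℂ)) x + dwb (fun x => ((v x : ℝ) : ℂ)) x := by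
    filter_upwards [hM.mem_nhds hw] with x hx
    have h2 : (fun x => ((u x + v x : ℝ) : ℂ)) = fun x => ((u x : ℝ) : ℂ) + ((v x : ℝ) : ℂ) := by
      funext y
      push_cast
      ring
    rw [h2]
    exact wdb_add (hdu x hx) (hdv x hx)
  unfold lev
  have h3 : dw (dwb (fun x => ((u x + v x : ℝ) : ℂ))) w =
      dw (dwb (fun x => ((u x : ℝ) : ℂ))) w + dw (dwb (fun x => ((v x : ℝ) : ℂ))) w :=
    (wd_congr h1).trans (wd_add hbu hbv)
  rw [h3, Complex.add_re]

private theorem Res_lev_L {p w : ℂ} (hw : w ≠ p) : lev (Res_L p) w = 0 := by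
  have h1 : dwb (fun x => ((Res_L p x : ℝ) : ℂ)) =ᶠ[𝓝 w] fun x => conj ((x - p)⁻¹) := by
    filter_upwards [isOpen_ne.mem_nhds hw] with x hx
    exact Res_L_dwb hx
  have hinv : DifferentiableAt ℂ (fun x : ℂ => (x - p)⁻¹) w :=
    (differentiableAt_id.sub_const p).inv (sub_ne_zero.2 hw)
  have h4 : dw (fun w => conj ((w - p)⁻¹)) w = 0 := by
    have e1 : dw (fun w => conj ((w - p)⁻¹)) w = conj (dwb (fun w => (w - p)⁻¹) w) := wd_conj
    rw [e1, dwb_eq_zero hinv, map_zero]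
  have h5 : dw (dwb (fun x => ((Res_L p x : ℝ) : ℂ))) w = 0 := (wd_congr h1).trans h4
  unfold lev
  rw [h5, Complex.zero_re]

/-- The residue at one puncture. -/
private theorem Res_T_p (sd : SliceData S D G a C η) (h2 : ∃ p q, p ∉ S ∧ q ∉ S ∧ p ≠ q)
    {p : ℂ} (hp : p ∉ S) : ∃ r > 0, (∀ w, w ≠ p → ‖w - p‖ < r → w ∈ S) ∧
      ∀ χ : ℂ → ℂ, ContDiff ℝ ∞ χ → HasCompactSupport χ → tsupport χ ⊆ Metric.ball p r →
        Res_T D χ = (Real.pi : ℂ) * χ p := by
  obtain ⟨q, hq, hpq⟩ : ∃ q, q ∉ S ∧ p ≠ q := by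
    obtain ⟨p', q, hp', hq, hpq⟩ := h2
    by_cases h : p = q
    · exact ⟨p', hp', by rw [h]; exact hpq.symm⟩
    · exact ⟨q, hq, h⟩
  obtain ⟨C₁, r, hr, h3⟩ := sd.upper hp
  refine ⟨r, hr, fun w hw hwr => (h3 w hw hwr).1, fun χ hχ hc hs => ?_⟩
  obtain ⟨M, hM⟩ : ∃ M : Set ℂ, M = Metric.ball p r \ {p} := ⟨_, rfl⟩
  have hMo : IsOpen M := by
    rw [hM]
    exact Metric.isOpen_ball.sdiff isClosed_singleton
  have hMw : ∀ w ∈ M, w ≠ p ∧ ‖w - p‖ < r := by
    intro w hw
    rw [hM] at hw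
    refine ⟨hw.2, ?_⟩
    have := hw.1
    rwa [Metric.mem_ball, dist_eq_norm] at this
  have hMS : M ⊆ S := fun w hw => (h3 w (hMw w hw).1 (hMw w hw).2).1
  have hL : ContDiffOn ℝ ∞ (Res_L p) M := Res_L_smooth.mono fun w hw => (hMw w hw).1
  have hψ : ContDiffOn ℝ ∞ (fun x => Real.log (D x)) M := (Res_psi sd).mono hMS
  have hLlog : ∀ w, Res_L p w = 2 * Real.log ‖w - p‖ := by
    intro w
    rw [Res_L, Real.log_pow]
    push_cast
    ring
  have hlev : ∀ w ∈ M, lev (fun x => Real.log (D x) + Res_L p x) w =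
      lev (fun x => Real.log (D x)) w := by
    intro w hw
    rw [Res_lev_add hMo hψ hL hw, Res_lev_L (hMw w hw).1, add_zero]
  have key : ∫ w in M, χ w * (lev (fun x => Real.log (D x) + Res_L p x) w : ℂ)
      = ∫ w in M, ((Real.log (D w) + Res_L p w : ℝ) : ℂ) * dw (dwb χ) w := by
    have h4 := hψ.add hL
    rw [hM] at h4 hlev ⊢
    refine no_mass hr h4 ?_ ⟨C₁, ?_⟩ ?_ hχ hc hs
    · refine (integrableOn_congr_fun hlev (by rw [← hM]; exact hMo.measurableSet)).2 ?_
      exact (Res_int_lev sd).integrableOn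
    · intro w hw
      rw [← hM] at hw
      have h5 := (h3 w (hMw w hw).1 (hMw w hw).2).2
      show Real.log (D w) + Res_L p w ≤ C₁
      rw [hLlog]
      linarith
    · intro δ hδ
      obtain ⟨C₃, r', hr', h6⟩ := sd.lower hp hq hpq hδ
      refine ⟨C₃, r', hr', fun w hw hwr => ?_⟩
      have h7 := (h6 w hw hwr).2
      show δ * Real.log ‖w - p‖ - C₃ ≤ Real.log (D w) + Res_L p w
      rw [hLlog]
      linarith
  have hfull : ∀ F : ℂ → ℂ, (∀ w, w ∉ tsupport χ → F w = 0) → ∫ w in M, F w = ∫ w, F w := by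
    intro F hF
    refine setIntegral_eq_integral_of_ae_compl_eq_zero ?_
    have hne : ∀ᵐ w : ℂ, w ≠ p := by
      have : ({p} : Set ℂ)ᶜ ∈ ae (volume : Measure ℂ) := by
        rw [mem_ae_iff, compl_compl]
        exact measure_singleton p
      exact this
    filter_upwards [hne] with w hw hwM
    apply hF
    intro hwt
    apply hwM
    rw [hM]
    exact ⟨hs hwt, hw⟩
  have hzdd : ∀ w, w ∉ tsupport χ → dw (dwb χ) w = 0 := fun w hw =>
    image_eq_zero_of_notMem_tsupport fun h => hw ((tsupport_wd_subset.trans tsupport_wdb_subset) h)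
  have e1 : ∫ w in M, χ w * (lev (fun x => Real.log (D x) + Res_L p x) w : ℂ) =
      ∫ w in M, χ w * (lev (fun x => Real.log (D x)) w : ℂ) :=
    setIntegral_congr_fun hMo.measurableSet fun w hw => by
      show χ w * (lev (fun x => Real.log (D x) + Res_L p x) w : ℂ) = _
      rw [hlev w hw]
  have e2 : ∫ w in M, χ w * (lev (fun x => Real.log (D x)) w : ℂ) =
      ∫ w, χ w * (lev (fun x => Real.log (D x)) w : ℂ) :=
    hfull _ fun w hw => by
      rw [image_eq_zero_of_notMem_tsupport hw, zero_mul]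
  have e3 : ∫ w in M, ((Real.log (D w) + Res_L p w : ℝ) : ℂ) * dw (dwb χ) w =
      ∫ w, ((Real.log (D w) + Res_L p w : ℝ) : ℂ) * dw (dwb χ) w :=
    hfull _ fun w hw => by
      rw [hzdd w hw, mul_zero]
  have hddc : Continuous (dw (dwb χ)) := (contDiff_wd (contDiff_wdb hχ)).continuous
  have i1 : Integrable (fun w => (Real.log (D w) : ℂ) * dw (dwb χ) w) :=
    Res_i2 sd h2 hddc (Res_cdd hc)
  have i2 : Integrable (fun w => (Real.log ‖w - p‖ : ℂ) * dw (dwb χ) w) :=
    (locallyIntegrable_log p).integrable_smul_right_of_hasCompactSupport hddc (Res_cdd hc)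
  have e4 : ∫ w, ((Real.log (D w) + Res_L p w : ℝ) : ℂ) * dw (dwb χ) w =
      (∫ w, (Real.log (D w) : ℂ) * dw (dwb χ) w) +
        2 * ∫ w, (Real.log ‖w - p‖ : ℂ) * dw (dwb χ) w := by
    rw [← integral_const_mul, ← integral_add i1 (i2.const_mul 2)]
    refine integral_congr_ae (Eventually.of_forall fun w => ?_)
    show ((Real.log (D w) + Res_L p w : ℝ) : ℂ) * dw (dwb χ) w = _
    rw [hLlog]
    push_cast
    ring
  rw [e1, e2, e3, e4, log_fundamental hχ hc p] at key
  unfold Res_T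
  rw [key]
  push_cast
  ring


/-- The formula for compactly supported functions. -/
private theorem Res_compact (sd : SliceData S D G a C η) (h2 : ∃ p q, p ∉ S ∧ q ∉ S ∧ p ≠ q)
    {g : ℂ → ℂ} (hg : ContDiff ℝ ∞ g) (hc : HasCompactSupport g) :
    Res_T D g = (Real.pi : ℂ) * ∑ p ∈ sd.finite.toFinset, g p := by
  classical
  have hP : ∀ p, p ∈ sd.finite.toFinset ↔ p ∉ S := by
    intro p
    rw [Set.Finite.mem_toFinset, mem_compl_iff]
  have hex : ∀ p : ℂ, ∃ r > 0, p ∉ S → (∀ w, w ≠ p → ‖w - p‖ < r → w ∈ S) ∧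
      ∀ χ : ℂ → ℂ, ContDiff ℝ ∞ χ → HasCompactSupport χ → tsupport χ ⊆ Metric.ball p r →
        Res_T D χ = (Real.pi : ℂ) * χ p := by
    intro p
    by_cases hp : p ∈ S
    · exact ⟨1, one_pos, fun h => absurd hp h⟩
    · obtain ⟨r, hr, h3, h4⟩ := Res_T_p sd h2 hp
      exact ⟨r, hr, fun _ => ⟨h3, h4⟩⟩
  choose r hr hrS using hex
  let β : ∀ p : ℂ, ContDiffBump p := fun p =>
    ⟨r p / 4, r p / 2, by have := hr p; positivity, by have := hr p; linarith⟩
  have hβs : ∀ p, ContDiff ℝ ∞ (fun w => ((β p w : ℝ) : ℂ)) := fun p =>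
    Complex.ofRealCLM.contDiff.comp (β p).contDiff
  have hβ0 : ∀ p w, r p / 2 ≤ ‖w - p‖ → β p w = 0 := by
    intro p w hw
    refine (β p).zero_of_le_dist ?_
    rw [dist_eq_norm]
    exact hw
  have hβ1 : ∀ p w, ‖w - p‖ ≤ r p / 4 → β p w = 1 := by
    intro p w hw
    refine (β p).one_of_mem_closedBall ?_
    rw [Metric.mem_closedBall, dist_eq_norm]
    exact hw
  obtain ⟨F, hF⟩ : ∃ F : ℂ → ℂ → ℂ, F = fun p w => ((β p w : ℝ) : ℂ) * g w := ⟨_, rfl⟩
  have hFs : ∀ p, ContDiff ℝ ∞ (F p) := by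
    intro p
    rw [hF]
    exact (hβs p).mul hg
  have hFt : ∀ p, tsupport (F p) ⊆ tsupport g := fun p => closure_mono fun w hw => by
    rw [Function.mem_support] at hw ⊢
    intro h
    rw [hF] at hw
    exact hw (by
      show ((β p w : ℝ) : ℂ) * g w = 0
      rw [h, mul_zero])
  have hFc : ∀ p, HasCompactSupport (F p) := fun p =>
    hc.of_isClosed_subset (isClosed_tsupport _) (hFt p)
  have hFb : ∀ p, tsupport (F p) ⊆ Metric.ball p (r p) := by
    intro p
    have h1 : tsupport (F p) ⊆ Metric.closedBall p (r p / 2) := by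
      refine closure_minimal (fun w hw => ?_) Metric.isClosed_closedBall
      rw [Function.mem_support] at hw
      rw [Metric.mem_closedBall, dist_eq_norm]
      by_contra hcon
      rw [not_le] at hcon
      apply hw
      rw [hF]
      show ((β p w : ℝ) : ℂ) * g w = 0
      rw [hβ0 p w hcon.le, Complex.ofReal_zero, zero_mul]
    exact h1.trans (Metric.closedBall_subset_ball (by have := hr p; linarith))
  obtain ⟨hT1, hT2⟩ := Res_T_sum sd h2 sd.finite.toFinset F (fun p _ => hFs p) (fun p _ => hFc p)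
  have hsum : ContDiff ℝ ∞ (fun w => ∑ p ∈ sd.finite.toFinset, F p w) :=
    ContDiff.sum fun p _ => hFs p
  obtain ⟨g₀, hg₀⟩ : ∃ g₀ : ℂ → ℂ, g₀ = fun w => g w - ∑ p ∈ sd.finite.toFinset, F p w := ⟨_, rfl⟩
  have hg₀s : ContDiff ℝ ∞ g₀ := by
    rw [hg₀]
    exact hg.sub hsum
  have hg₀c : HasCompactSupport g₀ := by
    refine hc.of_isClosed_subset (isClosed_tsupport _) (closure_mono fun w hw => ?_)
    rw [Function.mem_support] at hw ⊢
    intro h
    apply hw
    rw [hg₀, hF]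
    show g w - ∑ p ∈ sd.finite.toFinset, ((β p w : ℝ) : ℂ) * g w = 0
    rw [h]
    simp
  have hg₀S : tsupport g₀ ⊆ S := by
    intro w hw
    by_contra hwS
    refine notMem_tsupport_iff_eventuallyEq.2 ?_ hw
    have h1 : ∀ᶠ x in 𝓝 w, ∀ q ∈ sd.finite.toFinset, q ≠ w → β q x = 0 := by
      rw [Filter.eventually_all_finset]
      intro q hq
      by_cases hqw : q = w
      · exact Eventually.of_forall fun x h => absurd hqw h
      · have h2 : r q ≤ ‖w - q‖ := by
          by_contra hcon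
          rw [not_le] at hcon
          exact hwS ((hrS q ((hP q).1 hq)).1 w (fun h => hqw h.symm) hcon)
        filter_upwards [Metric.ball_mem_nhds w (half_pos (hr q))] with x hx _
        apply hβ0
        rw [Metric.mem_ball, dist_eq_norm] at hx
        have h3 : ‖w - q‖ ≤ ‖x - q‖ + ‖x - w‖ := by
          have := norm_sub_le (x - q) (x - w)
          rwa [sub_sub_sub_cancel_left] at this
        linarith
    filter_upwards [h1, Metric.ball_mem_nhds w (show 0 < r w / 4 by have := hr w; linarith)]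
      with x hx hxw
    rw [Metric.mem_ball, dist_eq_norm] at hxw
    rw [hg₀]
    show g x - ∑ p ∈ sd.finite.toFinset, F p x = 0
    have h2 : ∑ p ∈ sd.finite.toFinset, F p x = F w x := by
      refine Finset.sum_eq_single_of_mem w ((hP w).2 hwS) fun q hq hqw => ?_
      rw [hF]
      show ((β q x : ℝ) : ℂ) * g x = 0
      rw [hx q hq hqw, Complex.ofReal_zero, zero_mul]
    rw [h2, hF]
    show g x - ((β w x : ℝ) : ℂ) * g x = 0
    rw [hβ1 w x hxw.le, Complex.ofReal_one, one_mul, sub_self]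
  have h3 := Res_T_S sd hg₀s hg₀c hg₀S
  have h4 : g = fun w => g₀ w + ∑ p ∈ sd.finite.toFinset, F p w := by
    funext w
    rw [hg₀]
    ring
  have h5 := Res_T_add sd h2 hg₀s hg₀c hsum hT2
  rw [← h4, h3, zero_add, hT1] at h5
  rw [h5, Finset.mul_sum]
  refine Finset.sum_congr rfl fun p hp => ?_
  rw [(hrS p ((hP p).1 hp)).2 (F p) (hFs p) (hFc p) (hFb p)]
  rw [hF]
  show (Real.pi : ℂ) * (((β p p : ℝ) : ℂ) * g p) = (Real.pi : ℂ) * g p
  rw [hβ1 p p (by rw [sub_self, norm_zero]; have := hr p; linarith), Complex.ofReal_one, one_mul]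


private theorem Res_norm_dw {f : ℂ → ℂ} {w : ℂ} : ‖dw f w‖ ≤ ‖fderiv ℝ f w‖ := by
  have h1 : ‖fderiv ℝ f w 1‖ ≤ ‖fderiv ℝ f w‖ := by
    have := (fderiv ℝ f w).le_opNorm 1
    rwa [norm_one, mul_one] at this
  have h2 : ‖fderiv ℝ f w I‖ ≤ ‖fderiv ℝ f w‖ := by
    have := (fderiv ℝ f w).le_opNorm I
    rwa [Complex.norm_I, mul_one] at this
  have h3 : ‖fderiv ℝ f w 1 - I * fderiv ℝ f w I‖ ≤ 2 * ‖fderiv ℝ f w‖ := by
    refine (norm_sub_le _ _).trans ?_
    rw [norm_mul, Complex.norm_I, one_mul]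
    linarith
  have h4 : dw f w = (fderiv ℝ f w 1 - I * fderiv ℝ f w I) / 2 := rfl
  rw [h4, norm_div]
  have h5 : ‖(2 : ℂ)‖ = 2 := by simp
  rw [h5]
  linarith

private theorem Res_scale {X : ℂ → ℂ} (hX : Differentiable ℝ X) (t : ℝ) (w v : ℂ) :
    fderiv ℝ (fun y => X (t • y)) w v = (t : ℂ) * fderiv ℝ X (t • w) v := by
  have h1 : HasFDerivAt (fun y : ℂ => t • y) (t • ContinuousLinearMap.id ℝ ℂ) w :=
    (hasFDerivAt_id w).const_smul t
  have h2 := (hX (t • w)).hasFDerivAt.comp w h1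
  have h3 : HasFDerivAt (fun y => X (t • y))
      ((fderiv ℝ X (t • w)).comp (t • ContinuousLinearMap.id ℝ ℂ)) w := h2
  rw [h3.fderiv]
  simp

private theorem Res_scale_dw {X : ℂ → ℂ} (hX : Differentiable ℝ X) (t : ℝ) (w : ℂ) :
    dw (fun y => X (t • y)) w = (t : ℂ) * dw X (t • w) := by
  simp only [dw, wd, Res_scale hX]
  ring

private theorem Res_scale_dwb {X : ℂ → ℂ} (hX : Differentiable ℝ X) (t : ℝ) (w : ℂ) :
    dwb (fun y => X (t • y)) w = (t : ℂ) * dwb X (t • w) := by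
  simp only [dwb, wdb, Res_scale hX]
  ring

private theorem Res_scale_dwdwb {X : ℂ → ℂ} (hX : ContDiff ℝ ∞ X) (t : ℝ) (w : ℂ) :
    dw (dwb (fun y => X (t • y))) w = (t : ℂ) ^ 2 * dw (dwb X) (t • w) := by
  have hd : ∀ {g : ℂ → ℂ}, ContDiff ℝ ∞ g → Differentiable ℝ g := fun hg =>
    hg.differentiable (by simp)
  have e1 : dwb (fun y => X (t • y)) = fun y => (t : ℂ) * dwb X (t • y) := by
    funext y
    exact Res_scale_dwb (hd hX) t y
  have h1 : Differentiable ℝ (fun y => dwb X (t • y)) :=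
    (hd (contDiff_wdb hX)).comp (differentiable_id.const_smul t)
  have e2 : dw (fun y => (t : ℂ) * dwb X (t • y)) w = (t : ℂ) * dw (fun y => dwb X (t • y)) w :=
    wd_const_mul (t : ℂ) (h1 w)
  rw [e1, e2, Res_scale_dw (hd (contDiff_wdb hX))]
  ring

/-- The residue formula `π ∑_{p ∉ S} f(p) = ∫_S f ∂∂̄ log D - ∫_S log D ∂∂̄ f` for `f` smooth, decaying
at infinity, holomorphic outside a compact set. -/
theorem SliceData.residue (sd : SliceData S D G a C η) (h2 : ∃ p q, p ∉ S ∧ q ∉ S ∧ p ≠ q)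
    {f : ℂ → ℂ} (hf : ContDiff ℝ ∞ f) {C₀ : ℝ} (hb : ∀ w, ‖f w‖ ≤ C₀ / (1 + ‖w‖))
    (hb' : ∀ w, ‖fderiv ℝ f w‖ ≤ C₀ / (1 + ‖w‖) ^ 2)
    (hcs : HasCompactSupport (dwb f)) :
    (Real.pi : ℂ) * ∑ p ∈ sd.finite.toFinset, f p
      = (∫ w in S, f w * (lev (fun x => Real.log (D x)) w : ℂ))
        - ∫ w in S, (Real.log (D w) : ℂ) * dw (dwb f) w := by
  rw [Res_restrict sd]
  have hC₀ : 0 ≤ C₀ := by
    have h1 := (norm_nonneg _).trans (hb 0)
    simpa using h1
  have hd : ∀ {g : ℂ → ℂ}, ContDiff ℝ ∞ g → Differentiable ℝ g := fun hg =>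
    hg.differentiable (by simp)
  -- the bump
  let β : ContDiffBump (0 : ℂ) := ⟨1, 2, one_pos, one_lt_two⟩
  obtain ⟨X, hX⟩ : ∃ X : ℂ → ℂ, X = fun w => ((β w : ℝ) : ℂ) := ⟨_, rfl⟩
  have hXs : ContDiff ℝ ∞ X := by
    rw [hX]
    exact Complex.ofRealCLM.contDiff.comp β.contDiff
  have hX1 : ∀ w, ‖w‖ ≤ 1 → X w = 1 := by
    intro w hw
    rw [hX]
    show ((β w : ℝ) : ℂ) = 1
    rw [β.one_of_mem_closedBall (by rw [Metric.mem_closedBall, dist_zero_right]; exact hw),
      Complex.ofReal_one]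
  have hX0 : ∀ w, 2 ≤ ‖w‖ → X w = 0 := by
    intro w hw
    rw [hX]
    show ((β w : ℝ) : ℂ) = 0
    rw [β.zero_of_le_dist (by rw [dist_zero_right]; exact hw), Complex.ofReal_zero]
  have hXb : ∀ w, ‖X w‖ ≤ 1 := by
    intro w
    rw [hX]
    show ‖((β w : ℝ) : ℂ)‖ ≤ 1
    rw [Complex.norm_real, Real.norm_eq_abs, abs_of_nonneg β.nonneg]
    exact β.le_one
  have hXc : HasCompactSupport X :=
    HasCompactSupport.intro (isCompact_closedBall (0 : ℂ) 2) fun w hw => hX0 w (by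
      rw [Metric.mem_closedBall, dist_zero_right, not_le] at hw
      exact hw.le)
  have hXd : ∀ w, (‖w‖ < 1 ∨ 2 < ‖w‖) → X =ᶠ[𝓝 w] fun _ => X w := by
    rintro w (hw | hw)
    · filter_upwards [(continuous_norm.isOpen_preimage _ isOpen_Iio).mem_nhds
        (show w ∈ norm ⁻¹' Iio (1 : ℝ) from hw)] with y hy
      have hy' : ‖y‖ < 1 := hy
      rw [hX1 y hy'.le, hX1 w hw.le]
    · filter_upwards [(continuous_norm.isOpen_preimage _ isOpen_Ioi).mem_nhds
        (show w ∈ norm ⁻¹' Ioi (2 : ℝ) from hw)] with y hy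
      have hy' : 2 < ‖y‖ := hy
      rw [hX0 y hy'.le, hX0 w hw.le]
  obtain ⟨B, hB1, hB2, hB3⟩ : ∃ B : ℝ, (∀ w, ‖dw X w‖ ≤ B) ∧ (∀ w, ‖dwb X w‖ ≤ B) ∧
      ∀ w, ‖dw (dwb X) w‖ ≤ B := by
    obtain ⟨K1, h1⟩ := (contDiff_wd (e := (1 : ℂ)) (e' := I) hXs).continuous.bounded_above_of_compact_support
      (hXc.of_isClosed_subset (isClosed_tsupport _) tsupport_wd_subset)
    obtain ⟨K2, h2⟩ := (contDiff_wdb (e := (1 : ℂ)) (e' := I) hXs).continuous.bounded_above_of_compact_support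
      (hXc.of_isClosed_subset (isClosed_tsupport _) tsupport_wdb_subset)
    obtain ⟨K3, h3⟩ := (contDiff_wd (e := (1 : ℂ)) (e' := I) (contDiff_wdb (e := (1 : ℂ)) (e' := I)
      hXs)).continuous.bounded_above_of_compact_support (Res_cdd hXc)
    exact ⟨max K1 (max K2 K3), fun w => (h1 w).trans (le_max_left _ _),
      fun w => (h2 w).trans ((le_max_left _ _).trans (le_max_right _ _)),
      fun w => (h3 w).trans ((le_max_right _ _).trans (le_max_right _ _))⟩
  have hB0 : 0 ≤ B := (norm_nonneg _).trans (hB1 0)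
  have hdwX : ∀ w, (‖w‖ < 1 ∨ 2 < ‖w‖) → dw X w = 0 ∧ dwb X w = 0 ∧ dw (dwb X) w = 0 := by
    intro w hw
    have h1 := hXd w hw
    refine ⟨(wd_congr h1).trans (wd_const _), (wdb_congr h1).trans (wdb_const _), ?_⟩
    have h3 : dwb X =ᶠ[𝓝 w] fun _ => 0 := by
      filter_upwards [eventually_eventually_nhds.2 h1] with y hy
      exact (wdb_congr hy).trans (wdb_const _)
    exact (wd_congr h3).trans (wd_const _)
  -- scaled bumps
  have hRpos : ∀ n : ℕ, (0 : ℝ) < (n : ℝ) + 1 := fun n => by positivity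
  obtain ⟨V, hV⟩ : ∃ V : ℕ → ℂ → ℂ, V = fun (n : ℕ) w => X (((n : ℝ) + 1)⁻¹ • w) := ⟨_, rfl⟩
  have hVs : ∀ n, ContDiff ℝ ∞ (V n) := by
    intro n
    rw [hV]
    exact hXs.comp (contDiff_const_smul _)
  have hnorm : ∀ (n : ℕ) (w : ℂ), ‖((n : ℝ) + 1)⁻¹ • w‖ = ‖w‖ / ((n : ℝ) + 1) := by
    intro n w
    rw [norm_smul, norm_inv, Real.norm_eq_abs, abs_of_pos (hRpos n)]
    ring
  have hV1 : ∀ (n : ℕ) w, ‖w‖ ≤ (n : ℝ) + 1 → V n w = 1 := by
    intro n w hw
    rw [hV]
    refine hX1 _ ?_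
    rw [hnorm, div_le_one (hRpos n)]
    exact hw
  have hV0 : ∀ (n : ℕ) w, 2 * ((n : ℝ) + 1) ≤ ‖w‖ → V n w = 0 := by
    intro n w hw
    rw [hV]
    refine hX0 _ ?_
    rw [hnorm, le_div_iff₀ (hRpos n)]
    exact hw
  have hVb : ∀ (n : ℕ) w, ‖V n w‖ ≤ 1 := by
    intro n w
    rw [hV]
    exact hXb _
  have hVd : ∀ (n : ℕ) w, (‖w‖ < (n : ℝ) + 1 ∨ 2 * ((n : ℝ) + 1) < ‖w‖) →
      dw (V n) w = 0 ∧ dwb (V n) w = 0 ∧ dw (dwb (V n)) w = 0 := by
    intro n w hw
    have h1 : ‖((n : ℝ) + 1)⁻¹ • w‖ < 1 ∨ 2 < ‖((n : ℝ) + 1)⁻¹ • w‖ := by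
      rw [hnorm, div_lt_one (hRpos n), lt_div_iff₀ (hRpos n)]
      exact hw
    obtain ⟨h3, h4, h5⟩ := hdwX _ h1
    rw [hV]
    refine ⟨?_, ?_, ?_⟩
    · rw [Res_scale_dw (hd hXs), h3, mul_zero]
    · rw [Res_scale_dwb (hd hXs), h4, mul_zero]
    · rw [Res_scale_dwdwb hXs, h5, mul_zero]
  have hVn1 : ∀ (n : ℕ) w, ‖dwb (V n) w‖ ≤ B / ((n : ℝ) + 1) := by
    intro n w
    rw [hV, Res_scale_dwb (hd hXs), norm_mul, Complex.norm_real, norm_inv, Real.norm_eq_abs,
      abs_of_pos (hRpos n), div_eq_inv_mul]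
    exact mul_le_mul_of_nonneg_left (hB2 _) (inv_nonneg.2 (hRpos n).le)
  have hVn2 : ∀ (n : ℕ) w, ‖dw (dwb (V n)) w‖ ≤ B / ((n : ℝ) + 1) ^ 2 := by
    intro n w
    rw [hV, Res_scale_dwdwb hXs, norm_mul, norm_pow, Complex.norm_real, norm_inv,
      Real.norm_eq_abs, abs_of_pos (hRpos n), div_eq_inv_mul, inv_pow]
    exact mul_le_mul_of_nonneg_left (hB3 _) (inv_nonneg.2 (by have := hRpos n; positivity))
  have hFs : ∀ n, ContDiff ℝ ∞ (fun w => f w * V n w) := fun n => hf.mul (hVs n)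
  have hFc : ∀ n, HasCompactSupport (fun w => f w * V n w) := fun n =>
    HasCompactSupport.intro (isCompact_closedBall (0 : ℂ) (2 * ((n : ℝ) + 1))) fun w hw => by
      rw [Metric.mem_closedBall, dist_zero_right, not_le] at hw
      rw [hV0 n w hw.le, mul_zero]
  -- support of `∂̄ f`, behaviour at infinity
  obtain ⟨R₀, hR₀⟩ := hcs.isBounded.subset_closedBall (0 : ℂ)
  have hdbf : ∀ w, R₀ < ‖w‖ → dwb f w = 0 := fun w hw =>
    image_eq_zero_of_notMem_tsupport fun h => by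
      have := hR₀ h
      rw [Metric.mem_closedBall, dist_zero_right] at this
      linarith
  have hddf : ∀ w, R₀ < ‖w‖ → dw (dwb f) w = 0 := fun w hw =>
    image_eq_zero_of_notMem_tsupport fun h => by
      have := hR₀ (tsupport_wd_subset h)
      rw [Metric.mem_closedBall, dist_zero_right] at this
      linarith
  obtain ⟨p, q, hp, hq, hpq⟩ := h2
  obtain ⟨C₁, hC₁, R₁, hR₁, hfar⟩ := sd.far hp hq hpq
  have h2 : ∃ p q, p ∉ S ∧ q ∉ S ∧ p ≠ q := ⟨p, q, hp, hq, hpq⟩
  obtain ⟨R₂, hR₂⟩ := sd.finite.isBounded.subset_closedBall (0 : ℂ)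
  have hfb : ∀ w, ‖f w‖ ≤ C₀ := fun w => (hb w).trans (div_le_self hC₀ (by
    have := norm_nonneg w
    linarith))
  have i2f : Integrable (fun w => (Real.log (D w) : ℂ) * dw (dwb f) w) :=
    Res_i2 sd h2 (contDiff_wd (contDiff_wdb hf)).continuous
      (hcs.of_isClosed_subset (isClosed_tsupport _) tsupport_wd_subset)
  -- first limit
  have ha : Tendsto (fun n => ∫ w, (f w * V n w) * (lev (fun x => Real.log (D x)) w : ℂ)) atTop
      (𝓝 (∫ w, f w * (lev (fun x => Real.log (D x)) w : ℂ))) := by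
    have hlev : Integrable (fun w => ((lev (fun x => Real.log (D x)) w : ℝ) : ℂ)) :=
      (Res_int_lev sd).ofReal
    refine tendsto_integral_of_dominated_convergence
      (fun w => C₀ * ‖((lev (fun x => Real.log (D x)) w : ℝ) : ℂ)‖) (fun n => ?_) ?_
      (fun n => ?_) ?_
    · exact ((hf.continuous.mul (hVs n).continuous).aestronglyMeasurable).mul
        hlev.aestronglyMeasurable
    · exact hlev.norm.const_mul C₀
    · refine Eventually.of_forall fun w => ?_
      rw [norm_mul, norm_mul]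
      refine mul_le_mul_of_nonneg_right ?_ (norm_nonneg _)
      calc ‖f w‖ * ‖V n w‖ ≤ ‖f w‖ := mul_le_of_le_one_right (norm_nonneg _) (hVb n w)
        _ ≤ C₀ := hfb w
    · refine Eventually.of_forall fun w => ?_
      refine tendsto_const_nhds.congr' ?_
      obtain ⟨n₀, hn₀⟩ := exists_nat_ge ‖w‖
      filter_upwards [eventually_ge_atTop n₀] with n hn
      have h3 : (n₀ : ℝ) ≤ n := by exact_mod_cast hn
      rw [hV1 n w (by linarith), mul_one]
  -- second limit
  obtain ⟨E, hE⟩ : ∃ E : ℕ → ℂ → ℂ, E = fun n w => dwb f w * dw (V n) w + dw f w * dwb (V n) w +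
    f w * dw (dwb (V n)) w := ⟨_, rfl⟩
  have hlarge : ∀ᶠ n : ℕ in atTop, R₀ < (n : ℝ) + 1 ∧ R₁ ≤ (n : ℝ) + 1 ∧ R₂ ≤ (n : ℝ) + 1 := by
    obtain ⟨n₀, hn₀⟩ := exists_nat_ge (max R₀ (max R₁ R₂))
    filter_upwards [eventually_ge_atTop n₀] with n hn
    have h3 : (n₀ : ℝ) ≤ n := by exact_mod_cast hn
    have h4 : R₀ ≤ n₀ := (le_max_left _ _).trans hn₀
    have h5 : R₁ ≤ n₀ := ((le_max_left _ _).trans (le_max_right _ _)).trans hn₀
    have h6 : R₂ ≤ n₀ := ((le_max_right _ _).trans (le_max_right _ _)).trans hn₀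
    exact ⟨by linarith, by linarith, by linarith⟩
  have hEb : ∀ n : ℕ, R₀ < (n : ℝ) + 1 → R₁ ≤ (n : ℝ) + 1 →
      ‖∫ w, (Real.log (D w) : ℂ) * E n w‖ ≤
        8 * Real.pi * C₁ * C₀ * B * (Real.log (2 * ((n : ℝ) + 1)) / ((n : ℝ) + 1)) := by
    intro n hn0 hn1
    obtain ⟨R, hR⟩ : ∃ R : ℝ, R = (n : ℝ) + 1 := ⟨_, rfl⟩
    have hRp : 0 < R := by rw [hR]; exact hRpos n
    rw [← hR] at hn0 hn1 ⊢
    have hlog : 0 ≤ Real.log (2 * R) := Real.log_nonneg (by linarith)
    have hE0 : ∀ w, (‖w‖ < R ∨ 2 * R < ‖w‖) → E n w = 0 := by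
      intro w hw
      rw [hR] at hw
      obtain ⟨h3, h4, h5⟩ := hVd n w hw
      rw [hE]
      show dwb f w * dw (V n) w + dw f w * dwb (V n) w + f w * dw (dwb (V n)) w = 0
      rw [h3, h4, h5]
      ring
    have hbd : ∀ w ∈ Metric.closedBall (0 : ℂ) (2 * R), ‖(Real.log (D w) : ℂ) * E n w‖ ≤
        C₁ * Real.log (2 * R) * (2 * C₀ * B / R ^ 3) := by
      intro w hw
      rw [Metric.mem_closedBall, dist_zero_right] at hw
      have hpos : 0 ≤ C₁ * Real.log (2 * R) * (2 * C₀ * B / R ^ 3) := by positivity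
      by_cases hwR : ‖w‖ < R
      · rw [hE0 w (Or.inl hwR), mul_zero, norm_zero]
        exact hpos
      · rw [not_lt] at hwR
        have hw0 : 0 < ‖w‖ := by linarith
        have h3 : ‖(Real.log (D w) : ℂ)‖ ≤ C₁ * Real.log (2 * R) := by
          rw [Complex.norm_real, Real.norm_eq_abs]
          refine (hfar w (by linarith)).2.trans ?_
          exact mul_le_mul_of_nonneg_left (Real.log_le_log hw0 hw) hC₁.le
        have h4 : ‖dw f w‖ ≤ C₀ / R ^ 2 := by
          refine Res_norm_dw.trans ((hb' w).trans ?_)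
          have : R ^ 2 ≤ (1 + ‖w‖) ^ 2 := by
            have h5 : R ≤ 1 + ‖w‖ := by linarith
            exact pow_le_pow_left₀ hRp.le h5 2
          exact div_le_div_of_nonneg_left hC₀ (by positivity) this
        have h5 : ‖f w‖ ≤ C₀ / R := by
          refine (hb w).trans ?_
          exact div_le_div_of_nonneg_left hC₀ hRp (by linarith)
        have h6 := hVn1 n w
        have h7 := hVn2 n w
        rw [← hR] at h6 h7
        have h8 : ‖E n w‖ ≤ 2 * C₀ * B / R ^ 3 := by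
          rw [hE]
          show ‖dwb f w * dw (V n) w + dw f w * dwb (V n) w + f w * dw (dwb (V n)) w‖ ≤ _
          rw [hdbf w (by linarith), zero_mul, zero_add]
          refine (norm_add_le _ _).trans ?_
          rw [norm_mul, norm_mul]
          have e1 : ‖dw f w‖ * ‖dwb (V n) w‖ ≤ C₀ / R ^ 2 * (B / R) :=
            mul_le_mul h4 h6 (norm_nonneg _) (by positivity)
          have e2 : ‖f w‖ * ‖dw (dwb (V n)) w‖ ≤ C₀ / R * (B / R ^ 2) :=
            mul_le_mul h5 h7 (norm_nonneg _) (by positivity)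
          have e3 : C₀ / R ^ 2 * (B / R) + C₀ / R * (B / R ^ 2) = 2 * C₀ * B / R ^ 3 := by
            field_simp
            ring
          linarith
        rw [norm_mul]
        exact mul_le_mul h3 h8 (norm_nonneg _) (by positivity)
    have h3 : ∫ w in Metric.closedBall (0 : ℂ) (2 * R), (Real.log (D w) : ℂ) * E n w =
        ∫ w, (Real.log (D w) : ℂ) * E n w :=
      setIntegral_eq_integral_of_forall_compl_eq_zero fun w hw => by
        rw [Metric.mem_closedBall, dist_zero_right, not_le] at hw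
        rw [hE0 w (Or.inr hw), mul_zero]
    have h4 := norm_setIntegral_le_of_norm_le_const
      (measure_closedBall_lt_top (μ := volume) (x := (0 : ℂ)) (r := 2 * R)) hbd
    rw [h3] at h4
    have h5 : (volume : Measure ℂ).real (Metric.closedBall 0 (2 * R)) = (2 * R) ^ 2 * Real.pi := by
      rw [Measure.real, Complex.volume_closedBall, ENNReal.toReal_mul, ENNReal.toReal_pow,
        ENNReal.toReal_ofReal (by positivity)]
      simp
    rw [h5] at h4
    refine h4.trans (le_of_eq ?_)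
    field_simp
    ring
  have hlim : Tendsto (fun n : ℕ => 8 * Real.pi * C₁ * C₀ * B *
      (Real.log (2 * ((n : ℝ) + 1)) / ((n : ℝ) + 1))) atTop (𝓝 0) := by
    have h3 : Tendsto (fun n : ℕ => 2 * ((n : ℝ) + 1)) atTop atTop :=
      (tendsto_natCast_atTop_atTop.atTop_add tendsto_const_nhds).const_mul_atTop two_pos
    have h4 : Tendsto (fun x : ℝ => Real.log x / x) atTop (𝓝 0) :=
      Real.isLittleO_log_id_atTop.tendsto_div_nhds_zero
    have h5 := (h4.comp h3).const_mul (8 * Real.pi * C₁ * C₀ * B * 2)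
    rw [mul_zero] at h5
    refine h5.congr fun n => ?_
    simp only [Function.comp_apply]
    have := hRpos n
    field_simp
  have hcl : Tendsto (fun n => ∫ w, (Real.log (D w) : ℂ) * E n w) atTop (𝓝 0) := by
    refine squeeze_zero_norm' ?_ hlim
    filter_upwards [hlarge] with n hn
    exact hEb n hn.1 hn.2.1
  have hb2 : Tendsto (fun n => ∫ w, (Real.log (D w) : ℂ) * dw (dwb (fun w => f w * V n w)) w)
      atTop (𝓝 (∫ w, (Real.log (D w) : ℂ) * dw (dwb f) w)) := by
    have h3 := hcl.const_add (∫ w, (Real.log (D w) : ℂ) * dw (dwb f) w)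
    rw [add_zero] at h3
    refine h3.congr' ?_
    filter_upwards [hlarge] with n hn
    have e1 : ∀ w, (Real.log (D w) : ℂ) * dw (dwb (fun w => f w * V n w)) w =
        (Real.log (D w) : ℂ) * dw (dwb f) w + (Real.log (D w) : ℂ) * E n w := by
      intro w
      rw [Res_prod hf (hVs n) w]
      have e2 : dw (dwb f) w * V n w = dw (dwb f) w := by
        by_cases hw : ‖w‖ ≤ (n : ℝ) + 1
        · rw [hV1 n w hw, mul_one]
        · rw [not_le] at hw
          rw [hddf w (by linarith [hn.1]), zero_mul]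
      rw [e2, hE]
      ring
    have i1 : Integrable (fun w => (Real.log (D w) : ℂ) * dw (dwb (fun w => f w * V n w)) w) :=
      Res_i2 sd h2 (contDiff_wd (contDiff_wdb (hFs n))).continuous (Res_cdd (hFc n))
    have i3 : Integrable (fun w => (Real.log (D w) : ℂ) * E n w) := by
      refine (i1.sub i2f).congr (Eventually.of_forall fun w => ?_)
      simp only [Pi.sub_apply]
      rw [e1 w]
      ring
    rw [← integral_add i2f i3]
    exact integral_congr_ae (Eventually.of_forall fun w => (e1 w).symm)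
  have hT : Tendsto (fun n => Res_T D (fun w => f w * V n w)) atTop
      (𝓝 ((∫ w, f w * (lev (fun x => Real.log (D x)) w : ℂ)) -
        ∫ w, (Real.log (D w) : ℂ) * dw (dwb f) w)) := ha.sub hb2
  refine tendsto_nhds_unique ?_ hT
  refine tendsto_const_nhds.congr' ?_
  filter_upwards [hlarge] with n hn
  rw [Res_compact sd h2 (hFs n) (hFc n)]
  congr 1
  refine Finset.sum_congr rfl fun x hx => ?_
  have hx' : x ∈ Sᶜ := by rwa [Set.Finite.mem_toFinset] at hx
  have hx2 := hR₂ hx'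
  rw [Metric.mem_closedBall, dist_zero_right] at hx2
  show f x = f x * V n x
  rw [hV1 n x (hx2.trans hn.2.2), mul_one]

end KQ
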