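import Pool.Agent.Lib_MP_3ea2ac_kq.W

open MeasureTheory Complex Set Topology Filter
open scoped ComplexConjugate ContDiff ComplexOrder

namespace KQ

private theorem Test_hasDerivAt (w₁ w : ℂ) (k : ℕ) (h : w ≠ w₁) :
    HasDerivAt (fun w => ((w - w₁) ^ k)⁻¹)
      (-((k : ℂ) * (w - w₁) ^ (k - 1)) / ((w - w₁) ^ k) ^ 2) w := by
  have h1 : HasDerivAt (fun w => w - w₁) 1 w := (hasDerivAt_id w).sub_const w₁
  have h2 := (h1.fun_pow k).fun_inv (pow_ne_zero k (sub_ne_zero.2 h))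
  refine h2.congr_deriv ?_
  rw [mul_one]

private theorem Test_bound (w₁ w : ℂ) (k : ℕ) (hk : 1 ≤ k) (h : 1 ≤ ‖w - w₁‖) :
    ‖((w - w₁) ^ k)⁻¹‖ ≤ (2 + ‖w₁‖) / (1 + ‖w‖) ∧
    ‖-((k : ℂ) * (w - w₁) ^ (k - 1)) / ((w - w₁) ^ k) ^ 2‖ ≤
      (k * (2 + ‖w₁‖) ^ 2) / (1 + ‖w‖) ^ 2 := by
  set r := ‖w - w₁‖ with hr
  have hr0 : 0 < r := by linarith
  have hw : ‖w‖ ≤ r + ‖w₁‖ := by
    calc ‖w‖ = ‖(w - w₁) + w₁‖ := by rw [sub_add_cancel]
      _ ≤ _ := norm_add_le _ _
  have hw0 : 0 ≤ ‖w₁‖ := norm_nonneg _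
  have hw2 : 0 ≤ ‖w‖ := norm_nonneg _
  have h1 : 1 + ‖w‖ ≤ (2 + ‖w₁‖) * r := by nlinarith
  constructor
  · rw [norm_inv, norm_pow, ← hr, le_div_iff₀ (by linarith), inv_mul_le_iff₀ (by positivity)]
    have h2 : r ≤ r ^ k := le_self_pow₀ h (by omega)
    nlinarith
  · rw [norm_div, norm_neg, norm_mul, norm_pow, norm_pow, norm_pow, ← hr, Complex.norm_natCast,
      div_le_div_iff₀ (by positivity) (by positivity)]
    have h3 : (1 + ‖w‖) ^ 2 ≤ (2 + ‖w₁‖) ^ 2 * r ^ 2 := by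
      rw [← mul_pow]
      exact pow_le_pow_left₀ (by linarith) h1 2
    have h4 : r ^ (k - 1) * r ^ 2 ≤ (r ^ k) ^ 2 := by
      rw [← pow_add, ← pow_mul]
      exact pow_le_pow_right₀ h (by omega)
    have hk0 : (0 : ℝ) ≤ k := Nat.cast_nonneg k
    calc (k : ℝ) * r ^ (k - 1) * (1 + ‖w‖) ^ 2
        ≤ (k : ℝ) * r ^ (k - 1) * ((2 + ‖w₁‖) ^ 2 * r ^ 2) := by gcongr
      _ = (k : ℝ) * (2 + ‖w₁‖) ^ 2 * (r ^ (k - 1) * r ^ 2) := by ring
      _ ≤ (k : ℝ) * (2 + ‖w₁‖) ^ 2 * (r ^ k) ^ 2 := by gcongr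

/-- Test functions `χ((w-w₁)/s) (w-w₁)^{-k}`. -/
theorem exists_test (w₁ : ℂ) {s : ℝ} (hs : 0 < s) {k : ℕ} (hk : 1 ≤ k) :
    ∃ f : ℂ → ℂ, ContDiff ℝ ∞ f ∧ (∃ C₀, (∀ w, ‖f w‖ ≤ C₀ / (1 + ‖w‖)) ∧
      ∀ w, ‖fderiv ℝ f w‖ ≤ C₀ / (1 + ‖w‖) ^ 2) ∧
      (∀ w, w ∉ Metric.closedBall w₁ s → dwb f w = 0) ∧
      ∀ w, w ∉ Metric.closedBall w₁ s → f w = ((w - w₁) ^ k)⁻¹ := by
  let b : ContDiffBump w₁ := ⟨s / 2, s, by positivity, by linarith⟩
  set f : ℂ → ℂ := fun w => ((1 - b w : ℝ) : ℂ) * ((w - w₁) ^ k)⁻¹ with hf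
  have hb : ContDiff ℝ ∞ (fun w => b w) := b.contDiff
  have hout : ∀ w, w ∉ Metric.closedBall w₁ s → f w = ((w - w₁) ^ k)⁻¹ := by
    intro w hw
    rw [Metric.mem_closedBall, not_le] at hw
    have : b w = 0 := b.zero_of_le_dist hw.le
    rw [hf]
    simp [this]
  have hne : ∀ w, w ∉ Metric.closedBall w₁ s → w ≠ w₁ := by
    rintro w hw rfl
    exact hw (Metric.mem_closedBall_self hs.le)
  have hev : ∀ w, w ∉ Metric.closedBall w₁ s → f =ᶠ[𝓝 w] fun w => ((w - w₁) ^ k)⁻¹ := by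
    intro w hw
    filter_upwards [Metric.isClosed_closedBall.isOpen_compl.mem_nhds hw] with x hx
    exact hout x hx
  have hfs : ContDiff ℝ ∞ f := by
    rw [contDiff_iff_contDiffAt]
    intro w
    by_cases h : w = w₁
    · subst h
      have : f =ᶠ[𝓝 w] fun _ => 0 := by
        filter_upwards [Metric.ball_mem_nhds w (half_pos hs)] with x hx
        have : b x = 1 := b.one_of_mem_closedBall (Metric.ball_subset_closedBall hx)
        rw [hf]
        simp [this]
      exact contDiffAt_const.congr_of_eventuallyEq this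
    · have h1 : ContDiffAt ℝ ∞ (fun w => ((1 - b w : ℝ) : ℂ)) w :=
        (ofRealCLM.contDiff.comp (contDiff_const.sub hb)).contDiffAt
      have h2 : ContDiffAt ℝ ∞ (fun w => ((w - w₁) ^ k)⁻¹) w :=
        ((contDiffAt_id.sub contDiffAt_const).pow k).inv (pow_ne_zero _ (sub_ne_zero.2 h))
      exact h1.mul h2
  refine ⟨f, hfs, ?_, ?_, hout⟩
  · -- bounds
    have hK : IsCompact (Metric.closedBall w₁ (s + 1)) := isCompact_closedBall _ _
    have c1 : Continuous fun w => ‖f w‖ * (1 + ‖w‖) :=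
      (hfs.continuous.norm).mul (continuous_const.add continuous_norm)
    have c2 : Continuous fun w => ‖fderiv ℝ f w‖ * (1 + ‖w‖) ^ 2 :=
      ((hfs.continuous_fderiv (by simp)).norm).mul ((continuous_const.add continuous_norm).pow 2)
    obtain ⟨A, hA⟩ := hK.exists_bound_of_continuousOn c1.continuousOn
    obtain ⟨B, hB⟩ := hK.exists_bound_of_continuousOn c2.continuousOn
    refine ⟨max (max A B) (max (2 + ‖w₁‖) (k * (2 + ‖w₁‖) ^ 2)), ?_, ?_⟩
    · intro w
      have hw0 : 0 < 1 + ‖w‖ := by positivity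
      by_cases h : w ∈ Metric.closedBall w₁ (s + 1)
      · rw [le_div_iff₀ hw0]
        have := hA w h
        rw [Real.norm_of_nonneg (by positivity)] at this
        exact this.trans ((le_max_left _ _).trans (le_max_left _ _))
      · have h' : w ∉ Metric.closedBall w₁ s := fun h2 =>
          h (Metric.closedBall_subset_closedBall (by linarith) h2)
        have hd : 1 ≤ ‖w - w₁‖ := by
          rw [Metric.mem_closedBall, not_le, dist_eq_norm] at h
          linarith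
        rw [hout w h']
        refine (Test_bound w₁ w k hk hd).1.trans ?_
        gcongr
        exact (le_max_left _ _).trans (le_max_right _ _)
    · intro w
      have hw0 : 0 < (1 + ‖w‖) ^ 2 := by positivity
      by_cases h : w ∈ Metric.closedBall w₁ (s + 1)
      · rw [le_div_iff₀ hw0]
        have := hB w h
        rw [Real.norm_of_nonneg (by positivity)] at this
        exact this.trans ((le_max_right _ _).trans (le_max_left _ _))
      · have h' : w ∉ Metric.closedBall w₁ s := fun h2 =>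
          h (Metric.closedBall_subset_closedBall (by linarith) h2)
        have hd : 1 ≤ ‖w - w₁‖ := by
          rw [Metric.mem_closedBall, not_le, dist_eq_norm] at h
          linarith
        have h3 := (Test_hasDerivAt w₁ w k (hne w h')).complexToReal_fderiv
        have h4 : fderiv ℝ f w = (-((k : ℂ) * (w - w₁) ^ (k - 1)) / ((w - w₁) ^ k) ^ 2) •
            (1 : ℂ →L[ℝ] ℂ) := by
          rw [(hev w h').fderiv_eq]
          exact h3.fderiv
        rw [h4, norm_smul]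
        have h5 : ‖(1 : ℂ →L[ℝ] ℂ)‖ ≤ 1 := ContinuousLinearMap.norm_id_le
        refine (mul_le_of_le_one_right (norm_nonneg _) h5).trans ?_
        refine (Test_bound w₁ w k hk hd).2.trans ?_
        gcongr
        exact (le_max_right _ _).trans (le_max_right _ _)
  · intro w hw
    have h1 : dwb f w = dwb (fun w => ((w - w₁) ^ k)⁻¹) w := wdb_congr (hev w hw)
    rw [h1]
    exact dwb_eq_zero (Test_hasDerivAt w₁ w k (hne w hw)).differentiableAt

end KQ
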