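import Pool.Agent.Lib_MP_3ea2ac_kq.PD

/-! Weak holomorphy of the slice integrals. -/

open MeasureTheory Complex Set Topology Filter
open scoped ComplexConjugate ContDiff ComplexOrder

namespace KQ

variable {M : Set (ℂ × ℂ)} {D E G : ℂ × ℂ → ℝ} {a τ : ℝ} {t₁ t₂ : ℂ → ℝ} {a₁ b₁ a₂ b₂ : ℂ}
  {η : ℕ → ℂ × ℂ → ℝ}

/-- `∫_{M_z} f T_{11} - ∫_{M_z} log D ∂∂̄ f`. -/
noncomputable def Lam (M : Set (ℂ × ℂ)) (D : ℂ × ℂ → ℝ) (f : ℂ → ℂ) (z : ℂ) : ℂ :=
  (∫ w in MZ M z, f w * TT D 1 1 (z, w))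
    - ∫ w in MZ M z, ((Real.log (D (z, w)) : ℝ) : ℂ) * dw (dwb f) w

/-! ### Derivatives of functions of one variable -/

private theorem Hol_wdb_fst {θ : ℂ → ℂ} {e e' : ℂ × ℂ} {x : ℂ × ℂ}
    (h : DifferentiableAt ℝ θ x.1) :
    wdb e e' (fun y : ℂ × ℂ => θ y.1) x = wdb e.1 e'.1 θ x.1 := by
  have h1 : fderiv ℝ (fun y : ℂ × ℂ => θ y.1) x
      = (fderiv ℝ θ x.1).comp (ContinuousLinearMap.fst ℝ ℂ ℂ) :=
    (h.hasFDerivAt.comp x hasFDerivAt_fst).fderiv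
  simp only [wdb, h1, ContinuousLinearMap.comp_apply, ContinuousLinearMap.coe_fst']

private theorem Hol_wd_fst {θ : ℂ → ℂ} {e e' : ℂ × ℂ} {x : ℂ × ℂ}
    (h : DifferentiableAt ℝ θ x.1) :
    wd e e' (fun y : ℂ × ℂ => θ y.1) x = wd e.1 e'.1 θ x.1 := by
  have h1 : fderiv ℝ (fun y : ℂ × ℂ => θ y.1) x
      = (fderiv ℝ θ x.1).comp (ContinuousLinearMap.fst ℝ ℂ ℂ) :=
    (h.hasFDerivAt.comp x hasFDerivAt_fst).fderiv
  simp only [wd, h1, ContinuousLinearMap.comp_apply, ContinuousLinearMap.coe_fst']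

private theorem Hol_wdb_snd {θ : ℂ → ℂ} {e e' : ℂ × ℂ} {x : ℂ × ℂ}
    (h : DifferentiableAt ℝ θ x.2) :
    wdb e e' (fun y : ℂ × ℂ => θ y.2) x = wdb e.2 e'.2 θ x.2 := by
  have h1 : fderiv ℝ (fun y : ℂ × ℂ => θ y.2) x
      = (fderiv ℝ θ x.2).comp (ContinuousLinearMap.snd ℝ ℂ ℂ) :=
    (h.hasFDerivAt.comp x hasFDerivAt_snd).fderiv
  simp only [wdb, h1, ContinuousLinearMap.comp_apply, ContinuousLinearMap.coe_snd']

private theorem Hol_wd_snd {θ : ℂ → ℂ} {e e' : ℂ × ℂ} {x : ℂ × ℂ}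
    (h : DifferentiableAt ℝ θ x.2) :
    wd e e' (fun y : ℂ × ℂ => θ y.2) x = wd e.2 e'.2 θ x.2 := by
  have h1 : fderiv ℝ (fun y : ℂ × ℂ => θ y.2) x
      = (fderiv ℝ θ x.2).comp (ContinuousLinearMap.snd ℝ ℂ ℂ) :=
    (h.hasFDerivAt.comp x hasFDerivAt_snd).fderiv
  simp only [wd, h1, ContinuousLinearMap.comp_apply, ContinuousLinearMap.coe_snd']

private theorem Hol_wdb_zero {θ : ℂ → ℂ} {x : ℂ} : wdb (0 : ℂ) 0 θ x = 0 := by simp [wdb]

private theorem Hol_wd_zero {θ : ℂ → ℂ} {x : ℂ} : wd (0 : ℂ) 0 θ x = 0 := by simp [wd]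

private theorem Hol_pdb0_fst {θ : ℂ → ℂ} {x : ℂ × ℂ} (h : DifferentiableAt ℝ θ x.1) :
    pdb 0 (fun y : ℂ × ℂ => θ y.1) x = dwb θ x.1 := by
  simp only [pdb, Hol_wdb_fst h, ex, ey, if_true]

private theorem Hol_pdb1_fst {θ : ℂ → ℂ} {x : ℂ × ℂ} (h : DifferentiableAt ℝ θ x.1) :
    pdb 1 (fun y : ℂ × ℂ => θ y.1) x = 0 := by
  simp only [pdb, Hol_wdb_fst h, ex, ey, one_ne_zero, if_false, Hol_wdb_zero]

private theorem Hol_pd1_fst {θ : ℂ → ℂ} {x : ℂ × ℂ} (h : DifferentiableAt ℝ θ x.1) :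
    pd 1 (fun y : ℂ × ℂ => θ y.1) x = 0 := by
  simp only [pd, Hol_wd_fst h, ex, ey, one_ne_zero, if_false, Hol_wd_zero]

private theorem Hol_pdb0_snd {θ : ℂ → ℂ} {x : ℂ × ℂ} (h : DifferentiableAt ℝ θ x.2) :
    pdb 0 (fun y : ℂ × ℂ => θ y.2) x = 0 := by
  simp only [pdb, Hol_wdb_snd h, ex, ey, if_true, Hol_wdb_zero]

private theorem Hol_pdb1_snd {θ : ℂ → ℂ} {x : ℂ × ℂ} (h : DifferentiableAt ℝ θ x.2) :
    pdb 1 (fun y : ℂ × ℂ => θ y.2) x = dwb θ x.2 := by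
  simp only [pdb, Hol_wdb_snd h, ex, ey, one_ne_zero, if_false]

private theorem Hol_pd1_snd {θ : ℂ → ℂ} {x : ℂ × ℂ} (h : DifferentiableAt ℝ θ x.2) :
    pd 1 (fun y : ℂ × ℂ => θ y.2) x = dw θ x.2 := by
  simp only [pd, Hol_wd_snd h, ex, ey, one_ne_zero, if_false]

/-! ### Smoothness -/

private theorem Hol_psi (P : PlaneData M D E G a τ t₁ t₂ a₁ b₁ a₂ b₂ η) :
    ContDiffOn ℝ ∞ (fun y => ((Real.log (D y) : ℝ) : ℂ)) M :=
  Complex.ofRealCLM.contDiff.comp_contDiffOn (P.Dsmooth.log fun x hx => (P.Dpos x hx).ne')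

private theorem Hol_pdb_smooth (P : PlaneData M D E G a τ t₁ t₂ a₁ b₁ a₂ b₂ η) (j : Fin 2) :
    ContDiffOn ℝ ∞ (pdb j (fun y => ((Real.log (D y) : ℝ) : ℂ))) M :=
  contDiffOn_wdb P.isOpen (Hol_psi P)

private theorem Hol_gT_smooth (P : PlaneData M D E G a τ t₁ t₂ a₁ b₁ a₂ b₂ η) (i j : Fin 2) :
    ContDiffOn ℝ ∞ (TT D i j) M :=
  contDiffOn_wd P.isOpen (Hol_pdb_smooth P j)

/-- `∂̄₀ T_{11} = ∂̄₁ T_{10}`. -/
private theorem Hol_comm (P : PlaneData M D E G a τ t₁ t₂ a₁ b₁ a₂ b₂ η) {x : ℂ × ℂ} (hx : x ∈ M) :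
    pdb 0 (TT D 1 1) x = pdb 1 (TT D 1 0) x := by
  have e1 : pdb 0 (TT D 1 1) x
      = pd 1 (pdb 0 (pdb 1 (fun y => ((Real.log (D y) : ℝ) : ℂ)))) x :=
    (wd_wdb_comm P.isOpen (Hol_pdb_smooth P 1) hx).symm
  have e2 : pdb 1 (TT D 1 0) x
      = pd 1 (pdb 1 (pdb 0 (fun y => ((Real.log (D y) : ℝ) : ℂ)))) x :=
    (wd_wdb_comm P.isOpen (Hol_pdb_smooth P 0) hx).symm
  rw [e1, e2]
  apply wd_congr
  filter_upwards [P.isOpen.mem_nhds hx] with y hy
  exact wdb_wdb_comm P.isOpen (Hol_psi P) hy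

/-! ### Fubini -/

private theorem Hol_MZ_meas (P : PlaneData M D E G a τ t₁ t₂ a₁ b₁ a₂ b₂ η) (z : ℂ) : MeasurableSet (MZ M z) := by
  have : IsOpen (MZ M z) := P.isOpen.preimage (Continuous.prodMk_right z)
  exact this.measurableSet

private theorem Hol_slice_int (P : PlaneData M D E G a τ t₁ t₂ a₁ b₁ a₂ b₂ η) {K : Set ℂ} {h : ℂ × ℂ → ℂ} {z : ℂ}
    (hz : z ∈ K) : ∫ w, (M ∩ K ×ˢ univ).indicator h (z, w) = ∫ w in MZ M z, h (z, w) := by
  rw [← integral_indicator (Hol_MZ_meas P z)]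
  congr 1
  ext w
  by_cases hw : (z, w) ∈ M
  · rw [indicator_of_mem (show (z, w) ∈ M ∩ K ×ˢ univ from ⟨hw, hz, mem_univ _⟩),
      indicator_of_mem (show w ∈ MZ M z from hw)]
  · rw [indicator_of_notMem (fun h' => hw h'.1), indicator_of_notMem (show w ∉ MZ M z from hw)]

private theorem Hol_fubini_int (P : PlaneData M D E G a τ t₁ t₂ a₁ b₁ a₂ b₂ η) {K : Set ℂ} (hK : IsCompact K)
    {h : ℂ × ℂ → ℂ} (hh : IntegrableOn h (M ∩ K ×ˢ univ)) :
    IntegrableOn (fun z => ∫ w in MZ M z, h (z, w)) K := by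
  have hm : MeasurableSet (M ∩ K ×ˢ (univ : Set ℂ)) :=
    P.isOpen.measurableSet.inter (hK.measurableSet.prod MeasurableSet.univ)
  have h1 : Integrable ((M ∩ K ×ˢ univ).indicator h) ((volume : Measure ℂ).prod volume) :=
    (integrable_indicator_iff hm).2 hh
  have h2 := h1.integral_prod_left
  refine (h2.integrableOn (s := K)).congr_fun ?_ hK.measurableSet
  intro z hz
  exact Hol_slice_int P hz

private theorem Hol_fubini (P : PlaneData M D E G a τ t₁ t₂ a₁ b₁ a₂ b₂ η) {K : Set ℂ} (hK : IsCompact K)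
    {h : ℂ × ℂ → ℂ} (hh : IntegrableOn h (M ∩ K ×ˢ univ)) {φ : ℂ → ℂ} (hφ : Continuous φ)
    {C : ℝ} (hφb : ∀ z, ‖φ z‖ ≤ C) (hφK : ∀ z, z ∉ K → φ z = 0) :
    ∫ z, φ z * ∫ w in MZ M z, h (z, w) = ∫ x in M, φ x.1 * h x := by
  have hm : MeasurableSet (M ∩ K ×ˢ (univ : Set ℂ)) :=
    P.isOpen.measurableSet.inter (hK.measurableSet.prod MeasurableSet.univ)
  have h1 : Integrable ((M ∩ K ×ˢ univ).indicator h) ((volume : Measure ℂ).prod volume) :=
    (integrable_indicator_iff hm).2 hh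
  have h3 : Integrable (fun x : ℂ × ℂ => φ x.1 * (M ∩ K ×ˢ univ).indicator h x)
      ((volume : Measure ℂ).prod volume) :=
    h1.bdd_mul (c := C) (hφ.comp continuous_fst).aestronglyMeasurable
      (Eventually.of_forall fun x => hφb x.1)
  have e1 : ∫ z, φ z * ∫ w in MZ M z, h (z, w)
      = ∫ z, ∫ w, φ z * (M ∩ K ×ˢ univ).indicator h (z, w) := by
    congr 1
    ext z
    by_cases hz : z ∈ K
    · rw [integral_const_mul, Hol_slice_int P hz]
    · simp [hφK z hz]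
  rw [e1, ← integral_prod (fun x : ℂ × ℂ => φ x.1 * (M ∩ K ×ˢ univ).indicator h x) h3,
    ← Measure.volume_eq_prod, ← integral_indicator P.isOpen.measurableSet]
  congr 1
  ext x
  by_cases hx : x ∈ M
  · rw [indicator_of_mem hx]
    by_cases hz : x.1 ∈ K
    · rw [indicator_of_mem (show x ∈ M ∩ K ×ˢ univ from ⟨hx, hz, mem_univ _⟩)]
    · simp [hφK _ hz]
  · rw [indicator_of_notMem hx, indicator_of_notMem (fun h' => hx h'.1), mul_zero]

/-! ### Bounds -/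

private theorem Hol_bound (P : PlaneData M D E G a τ t₁ t₂ a₁ b₁ a₂ b₂ η) {K : Set ℂ}
    (hK : IsCompact K) (hKn : ∀ z ∈ K, z ≠ a₁ ∧ z ≠ b₁) :
    ∃ C : ℝ, 0 ≤ C ∧ ∀ x ∈ M, x.1 ∈ K → G x ≤ C * D x := by
  have hτ := P.τ_nonneg
  rcases K.eq_empty_or_nonempty with rfl | hne
  · exact ⟨0, le_refl _, fun x _ hx => absurd hx (notMem_empty _)⟩
  have hc : ContinuousOn t₁ K := by
    refine P.t₁cont.mono fun z hz => ?_
    have := hKn z hz
    simp only [mem_compl_iff, mem_insert_iff, mem_singleton_iff, not_or]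
    exact this
  obtain ⟨z₀, hz₀, hmax⟩ := hK.exists_isMaxOn hne hc
  refine ⟨τ * t₁ z₀, mul_nonneg hτ (P.t₁nonneg z₀), fun x hx hxK => ?_⟩
  have h1 := P.GleD x hx
  have h2 : t₁ x.1 ≤ t₁ z₀ := hmax hxK
  exact h1.trans (mul_le_mul_of_nonneg_right (mul_le_mul_of_nonneg_left h2 hτ) (P.Dpos x hx).le)

private theorem Hol_T11_norm (P : PlaneData M D E G a τ t₁ t₂ a₁ b₁ a₂ b₂ η) {x : ℂ × ℂ}
    (hx : x ∈ M) : ‖TT D 1 1 x‖ ≤ a * G x := by
  obtain ⟨h2, h3⟩ := P.T11 x hx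
  have h1 : (TT D 1 1 x).im = 0 :=
    wd_wdb_real P.isOpen (P.Dsmooth.log fun x hx => (P.Dpos x hx).ne') hx
  have h4 : TT D 1 1 x = (((TT D 1 1 x).re : ℝ) : ℂ) := by
    apply Complex.ext
    · simp
    · simp [h1]
  rw [h4, Complex.norm_real, Real.norm_of_nonneg h2]
  exact h3

private theorem Hol_intA (P : PlaneData M D E G a τ t₁ t₂ a₁ b₁ a₂ b₂ η) {K : Set ℂ}
    (hK : IsCompact K) (hKn : ∀ z ∈ K, z ≠ a₁ ∧ z ≠ b₁) {f : ℂ → ℂ} (hf : Continuous f)
    {C₀ : ℝ} (hb : ∀ w, ‖f w‖ ≤ C₀) :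
    IntegrableOn (fun x : ℂ × ℂ => f x.2 * TT D 1 1 x) (M ∩ K ×ˢ univ) := by
  obtain ⟨C, hC0, hC⟩ := Hol_bound P hK hKn
  have ha := P.a_nonneg
  have hC₀ : 0 ≤ C₀ := (norm_nonneg _).trans (hb 0)
  have hm : MeasurableSet (M ∩ K ×ˢ (univ : Set ℂ)) :=
    P.isOpen.measurableSet.inter (hK.measurableSet.prod MeasurableSet.univ)
  have hD : IntegrableOn (fun x => C₀ * (a * C) * D x) (M ∩ K ×ˢ univ) :=
    ((P.integrable.mono_set inter_subset_left).const_mul _)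
  refine Integrable.mono' hD ?_ ?_
  · have hcont : ContinuousOn (fun x : ℂ × ℂ => f x.2 * TT D 1 1 x) (M ∩ K ×ˢ univ) :=
      ((hf.comp continuous_snd).continuousOn.mul
        (Hol_gT_smooth P 1 1).continuousOn).mono inter_subset_left
    exact hcont.aestronglyMeasurable hm
  · refine (ae_restrict_iff' hm).2 (Eventually.of_forall fun x hx => ?_)
    have h1 := Hol_T11_norm P hx.1
    have h2 := hC x hx.1 hx.2.1
    rw [norm_mul]
    calc ‖f x.2‖ * ‖TT D 1 1 x‖ ≤ C₀ * (a * G x) := by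
          gcongr
          exact hb _
      _ ≤ C₀ * (a * (C * D x)) := by gcongr
      _ = C₀ * (a * C) * D x := by ring

private theorem Hol_dd_zero {w₀ : ℂ} {s : ℝ} {f : ℂ → ℂ}
    (hz : ∀ w, w ∉ Metric.closedBall w₀ s → dwb f w = 0) {w : ℂ}
    (hw : w ∉ Metric.closedBall w₀ s) : dw (dwb f) w = 0 := by
  have h1 : dwb f =ᶠ[𝓝 w] fun _ => (0 : ℂ) := by
    filter_upwards [Metric.isClosed_closedBall.isOpen_compl.mem_nhds hw] with y hy
    exact hz y hy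
  exact (wd_congr h1).trans (wd_const 0)

private theorem Hol_intB (P : PlaneData M D E G a τ t₁ t₂ a₁ b₁ a₂ b₂ η) {U : Set ℂ}
    {w₀ : ℂ} {s : ℝ}
    (hUs : ∀ z ∈ U, ∀ w ∈ Metric.closedBall w₀ s, (z, w) ∈ M) {K : Set ℂ}
    (hK : IsCompact K) (hKU : K ⊆ U)
    {f : ℂ → ℂ} (hf : ContDiff ℝ ∞ f)
    (hz : ∀ w, w ∉ Metric.closedBall w₀ s → dwb f w = 0) :
    IntegrableOn (fun x : ℂ × ℂ => ((Real.log (D x) : ℝ) : ℂ) * dw (dwb f) x.2)
      (M ∩ K ×ˢ univ) := by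
  have hsub : K ×ˢ Metric.closedBall w₀ s ⊆ M := fun x hx => hUs x.1 (hKU hx.1) x.2 hx.2
  have hdd : Continuous (dw (dwb f)) := (contDiff_wd (contDiff_wdb hf)).continuous
  have h1 : IntegrableOn (fun x : ℂ × ℂ => ((Real.log (D x) : ℝ) : ℂ) * dw (dwb f) x.2)
      (K ×ˢ Metric.closedBall w₀ s) := by
    apply ContinuousOn.integrableOn_compact (hK.prod (isCompact_closedBall w₀ s))
    exact ((Hol_psi P).continuousOn.mul (hdd.comp continuous_snd).continuousOn).mono hsub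
  have hm : MeasurableSet (M ∩ K ×ˢ (univ : Set ℂ)) :=
    P.isOpen.measurableSet.inter (hK.measurableSet.prod MeasurableSet.univ)
  apply h1.of_forall_sdiff_eq_zero hm
  rintro x ⟨hx, hx'⟩
  have : x.2 ∉ Metric.closedBall w₀ s := fun h => hx' ⟨hx.2.1, h⟩
  rw [Hol_dd_zero hz this, mul_zero]

theorem PlaneData.lam_locInt (P : PlaneData M D E G a τ t₁ t₂ a₁ b₁ a₂ b₂ η) {U : Set ℂ} (hU : IsOpen U)
    {w₀ : ℂ} {s : ℝ} (hs : 0 < s)
    (hUs : ∀ z ∈ U, ∀ w ∈ Metric.closedBall w₀ s, (z, w) ∈ M)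
    {f : ℂ → ℂ} (hf : ContDiff ℝ ∞ f) {C₀ : ℝ} (hb : ∀ w, ‖f w‖ ≤ C₀)
    (hz : ∀ w, w ∉ Metric.closedBall w₀ s → dwb f w = 0) :
    LocallyIntegrableOn (Lam M D f) U := by
  intro z₀ hz₀
  obtain ⟨r, hr, hrs⟩ := Metric.nhds_basis_closedBall.mem_iff.1 (hU.mem_nhds hz₀)
  have hK := isCompact_closedBall z₀ r
  have hKn : ∀ z ∈ Metric.closedBall z₀ r, z ≠ a₁ ∧ z ≠ b₁ := fun z hz' =>
    P.omit₁ _ (hUs z (hrs hz') w₀ (Metric.mem_closedBall_self hs.le))
  refine ⟨Metric.closedBall z₀ r, mem_nhdsWithin_of_mem_nhds (Metric.closedBall_mem_nhds z₀ hr), ?_⟩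
  exact (Hol_fubini_int P hK (Hol_intA P hK hKn hf.continuous hb)).sub
    (Hol_fubini_int P hK (Hol_intB P hUs hK hrs hf hz))

/-! ### The weak equation -/

private theorem Hol_cut_smooth (P : PlaneData M D E G a τ t₁ t₂ a₁ b₁ a₂ b₂ η) (k : ℕ) :
    ContDiff ℝ ∞ (fun y : ℂ × ℂ => ((η k y : ℝ) : ℂ)) :=
  Complex.ofRealCLM.contDiff.comp (P.ηsmooth k)

private theorem Hol_cut_tsupport (k : ℕ) :
    tsupport (fun y : ℂ × ℂ => ((η k y : ℝ) : ℂ)) ⊆ tsupport (η k) := by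
  apply closure_mono
  intro y hy
  rw [Function.mem_support] at hy ⊢
  intro h
  exact hy (by rw [h, ofReal_zero])

/-- Integrability of a product with a compactly supported function. -/
private theorem Hol_int_mul {u v : ℂ × ℂ → ℂ} (hu : Continuous u)
    (huc : HasCompactSupport u) (hus : tsupport u ⊆ M) (hv : ContinuousOn v M) :
    Integrable (fun x => u x * v x) := by
  have h1 : IntegrableOn (fun x => u x * v x) (tsupport u) :=
    (hu.continuousOn.mul (hv.mono hus)).integrableOn_compact huc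
  rw [← integrableOn_univ]
  apply h1.of_forall_sdiff_eq_zero MeasurableSet.univ
  rintro x ⟨_, hx⟩
  rw [image_eq_zero_of_notMem_tsupport hx, zero_mul]

/-- The identity for a fixed cutoff. -/
private theorem Hol_step (P : PlaneData M D E G a τ t₁ t₂ a₁ b₁ a₂ b₂ η)
    {f : ℂ → ℂ} (hf : ContDiff ℝ ∞ f) {θ : ℂ → ℂ} (hθ : ContDiff ℝ ∞ θ) (k : ℕ) :
    ∫ x, ((η k x : ℝ) : ℂ) * (dwb θ x.1 * f x.2 * TT D 1 1 x)
      = (∫ x, (θ x.1 * f x.2) * (pdb 1 (fun y => ((η k y : ℝ) : ℂ)) x * TT D 1 0 x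
          - pdb 0 (fun y => ((η k y : ℝ) : ℂ)) x * TT D 1 1 x))
        + ∫ x, ((η k x : ℝ) : ℂ) * (θ x.1 * dwb f x.2 * TT D 1 0 x) := by
  set c : ℂ × ℂ → ℂ := fun y => ((η k y : ℝ) : ℂ) with hcdef
  have hcs : ContDiff ℝ ∞ c := Hol_cut_smooth P k
  have hcc : HasCompactSupport c := (P.ηcpt k).comp_left (g := fun t : ℝ => (t : ℂ)) ofReal_zero
  have hcM : tsupport c ⊆ M := (Hol_cut_tsupport k).trans (P.ηsub k)
  set T : ℂ × ℂ → ℂ := fun x => θ x.1 * f x.2 with hT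
  have hTs : ContDiff ℝ ∞ T := (hθ.comp contDiff_fst).mul (hf.comp contDiff_snd)
  have h1 : (1 : WithTop ℕ∞) ≤ ∞ := by exact_mod_cast le_top
  have hne : (∞ : WithTop ℕ∞) ≠ 0 := by simp
  set Φ : ℂ × ℂ → ℂ := fun x => c x * T x with hΦ
  have hΦs : ContDiff ℝ 1 Φ := (hcs.mul hTs).of_le h1
  have hΦc : HasCompactSupport Φ := hcc.mul_right
  have hΦM : tsupport Φ ⊆ M := (tsupport_mul_subset_left).trans hcM
  have hT11 := Hol_gT_smooth P 1 1
  have hT10 := Hol_gT_smooth P 1 0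
  have hHaar : (volume : Measure (ℂ × ℂ)).IsAddHaarMeasure :=
    Measure.prod.instIsAddHaarMeasure _ _
  have e1 := ibp_wdb (e := ex 0) (e' := ey 0) volume P.isOpen hΦs hΦc hΦM (hT11.of_le h1)
  have e2 := ibp_wdb (e := ex 1) (e' := ey 1) volume P.isOpen hΦs hΦc hΦM (hT10.of_le h1)
  have e3 : ∫ x, Φ x * wdb (ex 0) (ey 0) (TT D 1 1) x = ∫ x, Φ x * wdb (ex 1) (ey 1) (TT D 1 0) x := by
    congr 1
    ext x
    by_cases hx : x ∈ M
    · have := Hol_comm P hx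
      simp only [pdb] at this
      rw [this]
    · have : Φ x = 0 := image_eq_zero_of_notMem_tsupport fun h => hx (hΦM h)
      rw [this, zero_mul, zero_mul]
  have e4 : ∫ x, wdb (ex 0) (ey 0) Φ x * TT D 1 1 x = ∫ x, wdb (ex 1) (ey 1) Φ x * TT D 1 0 x := by
    rw [e1, e2] at e3
    exact neg_injective e3
  have dT0 : ∀ x, wdb (ex 0) (ey 0) T x = dwb θ x.1 * f x.2 := by
    intro x
    have hd1 : DifferentiableAt ℝ (fun y : ℂ × ℂ => θ y.1) x :=
      ((hθ.comp contDiff_fst).differentiable hne) x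
    have hd2 : DifferentiableAt ℝ (fun y : ℂ × ℂ => f y.2) x :=
      ((hf.comp contDiff_snd).differentiable hne) x
    rw [hT, wdb_mul hd1 hd2]
    have q1 := Hol_pdb0_fst (x := x) ((hθ.differentiable hne) x.1)
    have q2 := Hol_pdb0_snd (x := x) ((hf.differentiable hne) x.2)
    simp only [pdb] at q1 q2
    rw [q1, q2, mul_zero, add_zero]
  have dT1 : ∀ x, wdb (ex 1) (ey 1) T x = θ x.1 * dwb f x.2 := by
    intro x
    have hd1 : DifferentiableAt ℝ (fun y : ℂ × ℂ => θ y.1) x :=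
      ((hθ.comp contDiff_fst).differentiable hne) x
    have hd2 : DifferentiableAt ℝ (fun y : ℂ × ℂ => f y.2) x :=
      ((hf.comp contDiff_snd).differentiable hne) x
    rw [hT, wdb_mul hd1 hd2]
    have q1 := Hol_pdb1_fst (x := x) ((hθ.differentiable hne) x.1)
    have q2 := Hol_pdb1_snd (x := x) ((hf.differentiable hne) x.2)
    simp only [pdb] at q1 q2
    rw [q1, q2, zero_mul, zero_add]
  have dΦ : ∀ (j : Fin 2) x, wdb (ex j) (ey j) Φ x = pdb j c x * T x + c x * wdb (ex j) (ey j) T x := by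
    intro j x
    rw [hΦ, wdb_mul ((hcs.differentiable hne) x) ((hTs.differentiable hne) x)]
    rfl
  -- integrability
  have hpc : ∀ j, Continuous (pdb j c) ∧ HasCompactSupport (pdb j c) ∧ tsupport (pdb j c) ⊆ M := by
    intro j
    have hsub : tsupport (pdb j c) ⊆ tsupport c := tsupport_wdb_subset
    exact ⟨(contDiff_wdb hcs).continuous, hcc.mono' ((subset_tsupport _).trans hsub),
      hsub.trans hcM⟩
  have hθb : Continuous (dwb θ) := (contDiff_wdb hθ).continuous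
  have hfb : Continuous (dwb f) := (contDiff_wdb hf).continuous
  have i1 : Integrable (fun x => c x * (dwb θ x.1 * f x.2 * TT D 1 1 x)) :=
    Hol_int_mul hcs.continuous hcc hcM
      ((((hθb.comp continuous_fst).mul (hf.continuous.comp continuous_snd)).continuousOn).mul
        hT11.continuousOn)
  have i2 : Integrable (fun x => pdb 0 c x * (T x * TT D 1 1 x)) :=
    Hol_int_mul (hpc 0).1 (hpc 0).2.1 (hpc 0).2.2 (hTs.continuous.continuousOn.mul hT11.continuousOn)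
  have i3 : Integrable (fun x => pdb 1 c x * (T x * TT D 1 0 x)) :=
    Hol_int_mul (hpc 1).1 (hpc 1).2.1 (hpc 1).2.2 (hTs.continuous.continuousOn.mul hT10.continuousOn)
  have i4 : Integrable (fun x => c x * (θ x.1 * dwb f x.2 * TT D 1 0 x)) :=
    Hol_int_mul hcs.continuous hcc hcM
      ((((hθ.continuous.comp continuous_fst).mul (hfb.comp continuous_snd)).continuousOn).mul
        hT10.continuousOn)
  have f0 : ∫ x, wdb (ex 0) (ey 0) Φ x * TT D 1 1 x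
      = (∫ x, pdb 0 c x * (T x * TT D 1 1 x)) + ∫ x, c x * (dwb θ x.1 * f x.2 * TT D 1 1 x) := by
    rw [← integral_add i2 i1]
    congr 1
    ext x
    rw [dΦ, dT0]
    ring
  have f1 : ∫ x, wdb (ex 1) (ey 1) Φ x * TT D 1 0 x
      = (∫ x, pdb 1 c x * (T x * TT D 1 0 x)) + ∫ x, c x * (θ x.1 * dwb f x.2 * TT D 1 0 x) := by
    rw [← integral_add i3 i4]
    congr 1
    ext x
    rw [dΦ, dT1]
    ring
  have f2 : ∫ x, T x * (pdb 1 c x * TT D 1 0 x - pdb 0 c x * TT D 1 1 x)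
      = (∫ x, pdb 1 c x * (T x * TT D 1 0 x)) - ∫ x, pdb 0 c x * (T x * TT D 1 1 x) := by
    rw [← integral_sub i3 i2]
    congr 1
    ext x
    ring
  rw [f0, f1] at e4
  show ∫ x, c x * (dwb θ x.1 * f x.2 * TT D 1 1 x)
      = (∫ x, T x * (pdb 1 c x * TT D 1 0 x - pdb 0 c x * TT D 1 1 x))
        + ∫ x, c x * (θ x.1 * dwb f x.2 * TT D 1 0 x)
  rw [f2]
  linear_combination e4

/-- Integration by parts of the limit term. -/
private theorem Hol_limit (P : PlaneData M D E G a τ t₁ t₂ a₁ b₁ a₂ b₂ η) {U : Set ℂ}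
    {w₀ : ℂ} {s : ℝ}
    (hUs : ∀ z ∈ U, ∀ w ∈ Metric.closedBall w₀ s, (z, w) ∈ M)
    {f : ℂ → ℂ} (hf : ContDiff ℝ ∞ f)
    (hz : ∀ w, w ∉ Metric.closedBall w₀ s → dwb f w = 0)
    {θ : ℂ → ℂ} (hθ : ContDiff ℝ ∞ θ) (hθc : HasCompactSupport θ) (hθs : tsupport θ ⊆ U) :
    ∫ x, θ x.1 * dwb f x.2 * TT D 1 0 x
      = ∫ x : ℂ × ℂ, dwb θ x.1 * dw (dwb f) x.2 * ((Real.log (D x) : ℝ) : ℂ) := by
  have hHaar : (volume : Measure (ℂ × ℂ)).IsAddHaarMeasure :=
    Measure.prod.instIsAddHaarMeasure _ _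
  have h1 : (1 : WithTop ℕ∞) ≤ ∞ := by exact_mod_cast le_top
  have hne : (∞ : WithTop ℕ∞) ≠ 0 := by simp
  have hKc : IsCompact (tsupport θ ×ˢ Metric.closedBall w₀ s) :=
    hθc.isCompact.prod (isCompact_closedBall w₀ s)
  have hKM : tsupport θ ×ˢ Metric.closedBall w₀ s ⊆ M :=
    fun x hx => hUs x.1 (hθs hx.1) x.2 hx.2
  have hfb : ContDiff ℝ ∞ (dwb f) := contDiff_wdb hf
  have hfd : ContDiff ℝ ∞ (dw (dwb f)) := contDiff_wd hfb
  -- general product with support in the compact set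
  have key : ∀ r : ℂ → ℂ, (∀ w, w ∉ Metric.closedBall w₀ s → r w = 0) →
      Function.support (fun x : ℂ × ℂ => θ x.1 * r x.2) ⊆ tsupport θ ×ˢ Metric.closedBall w₀ s := by
    intro r hr x hx
    rw [Function.mem_support] at hx
    refine ⟨subset_tsupport _ fun h => hx ?_, ?_⟩
    · show θ x.1 * r x.2 = 0
      rw [h, zero_mul]
    · by_contra h
      exact hx (by show θ x.1 * r x.2 = 0; rw [hr _ h, mul_zero])
  set Ψ : ℂ × ℂ → ℂ := fun x => θ x.1 * dwb f x.2 with hΨ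
  have hΨs : ContDiff ℝ 1 Ψ := ((hθ.comp contDiff_fst).mul (hfb.comp contDiff_snd)).of_le h1
  have hΨsub := key (dwb f) hz
  have hΨc : HasCompactSupport Ψ := HasCompactSupport.of_support_subset_isCompact hKc hΨsub
  have hΨM : tsupport Ψ ⊆ M := (closure_minimal hΨsub hKc.isClosed).trans hKM
  set Ψ' : ℂ × ℂ → ℂ := fun x => θ x.1 * dw (dwb f) x.2 with hΨ'
  have hΨ's : ContDiff ℝ 1 Ψ' := ((hθ.comp contDiff_fst).mul (hfd.comp contDiff_snd)).of_le h1
  have hΨ'sub := key (dw (dwb f)) fun w hw => Hol_dd_zero hz hw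
  have hΨ'c : HasCompactSupport Ψ' := HasCompactSupport.of_support_subset_isCompact hKc hΨ'sub
  have hΨ'M : tsupport Ψ' ⊆ M := (closure_minimal hΨ'sub hKc.isClosed).trans hKM
  have e1 := ibp_wd (e := ex 1) (e' := ey 1) volume P.isOpen hΨs hΨc hΨM
    ((Hol_pdb_smooth P 0).of_le h1)
  have e2 := ibp_wdb (e := ex 0) (e' := ey 0) volume P.isOpen hΨ's hΨ'c hΨ'M
    ((Hol_psi P).of_le h1)
  have d1 : ∀ x, wd (ex 1) (ey 1) Ψ x = Ψ' x := by
    intro x
    have hd1 : DifferentiableAt ℝ (fun y : ℂ × ℂ => θ y.1) x :=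
      ((hθ.comp contDiff_fst).differentiable hne) x
    have hd2 : DifferentiableAt ℝ (fun y : ℂ × ℂ => dwb f y.2) x :=
      ((hfb.comp contDiff_snd).differentiable hne) x
    rw [hΨ, wd_mul hd1 hd2]
    have q1 := Hol_pd1_fst (x := x) ((hθ.differentiable hne) x.1)
    have q2 := Hol_pd1_snd (θ := dwb f) (x := x) ((hfb.differentiable hne) x.2)
    simp only [pd] at q1 q2
    rw [q1, q2, zero_mul, zero_add]
  have d2 : ∀ x, wdb (ex 0) (ey 0) Ψ' x = dwb θ x.1 * dw (dwb f) x.2 := by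
    intro x
    have hd1 : DifferentiableAt ℝ (fun y : ℂ × ℂ => θ y.1) x :=
      ((hθ.comp contDiff_fst).differentiable hne) x
    have hd2 : DifferentiableAt ℝ (fun y : ℂ × ℂ => dw (dwb f) y.2) x :=
      ((hfd.comp contDiff_snd).differentiable hne) x
    rw [hΨ', wdb_mul hd1 hd2]
    have q1 := Hol_pdb0_fst (x := x) ((hθ.differentiable hne) x.1)
    have q2 := Hol_pdb0_snd (θ := dw (dwb f)) (x := x) ((hfd.differentiable hne) x.2)
    simp only [pdb] at q1 q2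
    rw [q1, q2, mul_zero, add_zero]
  calc ∫ x, θ x.1 * dwb f x.2 * TT D 1 0 x
      = ∫ x, Ψ x * wd (ex 1) (ey 1) (pdb 0 (fun y => ((Real.log (D y) : ℝ) : ℂ))) x := rfl
    _ = - ∫ x, wd (ex 1) (ey 1) Ψ x * pdb 0 (fun y => ((Real.log (D y) : ℝ) : ℂ)) x := e1
    _ = - ∫ x, Ψ' x * wdb (ex 0) (ey 0) (fun y => ((Real.log (D y) : ℝ) : ℂ)) x := by
        simp only [d1]
        rfl
    _ = ∫ x, wdb (ex 0) (ey 0) Ψ' x * ((Real.log (D x) : ℝ) : ℂ) := by rw [e2, neg_neg]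
    _ = _ := by simp only [d2]

theorem PlaneData.lam_weak (P : PlaneData M D E G a τ t₁ t₂ a₁ b₁ a₂ b₂ η) {U : Set ℂ} (hU : IsOpen U)
    {w₀ : ℂ} {s : ℝ} (hs : 0 < s)
    (hUs : ∀ z ∈ U, ∀ w ∈ Metric.closedBall w₀ s, (z, w) ∈ M)
    {f : ℂ → ℂ} (hf : ContDiff ℝ ∞ f) {C₀ : ℝ} (hb : ∀ w, ‖f w‖ ≤ C₀)
    (hz : ∀ w, w ∉ Metric.closedBall w₀ s → dwb f w = 0)
    {θ : ℂ → ℂ} (hθ : ContDiff ℝ ∞ θ) (hθc : HasCompactSupport θ) (hθs : tsupport θ ⊆ U) :
    ∫ z, dwb θ z * Lam M D f z = 0 := by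
  set K : Set ℂ := tsupport θ with hKdef
  have hK : IsCompact K := hθc.isCompact
  have hKn : ∀ z ∈ K, z ≠ a₁ ∧ z ≠ b₁ := fun z hz' =>
    P.omit₁ _ (hUs z (hθs hz') w₀ (Metric.mem_closedBall_self hs.le))
  have hMm : MeasurableSet M := P.isOpen.measurableSet
  have ha := P.a_nonneg
  have hC₀ : 0 ≤ C₀ := (norm_nonneg _).trans (hb 0)
  have hA := Hol_intA P hK hKn hf.continuous hb
  have hB := Hol_intB P hUs hK hθs hf hz
  have hθb : Continuous (dwb θ) := (contDiff_wdb hθ).continuous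
  have hθbs : tsupport (dwb θ) ⊆ K := tsupport_wdb_subset
  have hθbc : HasCompactSupport (dwb θ) := hθc.mono' ((subset_tsupport _).trans hθbs)
  obtain ⟨C₁, hC₁⟩ := hθb.bounded_above_of_compact_support hθbc
  obtain ⟨C₂, hC₂⟩ := hθ.continuous.bounded_above_of_compact_support hθc
  have hC₂0 : 0 ≤ C₂ := (norm_nonneg _).trans (hC₂ 0)
  have hθb0 : ∀ z, z ∉ K → dwb θ z = 0 := fun z hz' =>
    image_eq_zero_of_notMem_tsupport fun h => hz' (hθbs h)
  have hθ0 : ∀ z, z ∉ K → θ z = 0 := fun z hz' => image_eq_zero_of_notMem_tsupport hz'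
  -- Fubini
  have F1 := Hol_fubini P hK hA hθb hC₁ hθb0
  have F2 := Hol_fubini P hK hB hθb hC₁ hθb0
  have J1 := Hol_fubini_int P hK hA
  have J2 := Hol_fubini_int P hK hB
  have hmul : ∀ u : ℂ → ℂ, IntegrableOn u K → Integrable (fun z => dwb θ z * u z) := by
    intro u hu
    have h1 : IntegrableOn (fun z => dwb θ z * u z) K :=
      Integrable.bdd_mul (c := C₁) hu hθb.aestronglyMeasurable (Eventually.of_forall fun x => hC₁ x)
    rw [← integrableOn_univ]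
    apply h1.of_forall_sdiff_eq_zero MeasurableSet.univ
    rintro x ⟨_, hx⟩
    rw [hθb0 x hx, zero_mul]
  have split : ∫ z, dwb θ z * Lam M D f z
      = (∫ x in M, dwb θ x.1 * (f x.2 * TT D 1 1 x))
        - ∫ x in M, dwb θ x.1 * (((Real.log (D x) : ℝ) : ℂ) * dw (dwb f) x.2) := by
    rw [← F1, ← F2, ← integral_sub (hmul _ J1) (hmul _ J2)]
    congr 1
    ext z
    simp only [Lam]
    ring
  rw [split, sub_eq_zero]
  -- the limit term
  have hKc : IsCompact (K ×ˢ Metric.closedBall w₀ s) := hK.prod (isCompact_closedBall w₀ s)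
  have hKM : K ×ˢ Metric.closedBall w₀ s ⊆ M := fun x hx => hUs x.1 (hθs hx.1) x.2 hx.2
  have hR : ∫ x, θ x.1 * dwb f x.2 * TT D 1 0 x
      = ∫ x in M, dwb θ x.1 * (((Real.log (D x) : ℝ) : ℂ) * dw (dwb f) x.2) := by
    rw [Hol_limit P hUs hf hz hθ hθc hθs]
    rw [← setIntegral_eq_integral_of_forall_compl_eq_zero (s := M)]
    · congr 1
      ext x
      ring
    · intro x hx
      by_cases h1 : x.1 ∈ K
      · have h2 : x.2 ∉ Metric.closedBall w₀ s := fun h => hx (hKM ⟨h1, h⟩)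
        rw [Hol_dd_zero hz h2, mul_zero, zero_mul]
      · rw [hθb0 _ h1, zero_mul, zero_mul]
  rw [← hR]
  -- integrability of the main term
  have hInt : IntegrableOn (fun x : ℂ × ℂ => dwb θ x.1 * (f x.2 * TT D 1 1 x)) M := by
    have h1 : IntegrableOn (fun x : ℂ × ℂ => dwb θ x.1 * (f x.2 * TT D 1 1 x)) (M ∩ K ×ˢ univ) :=
      Integrable.bdd_mul (c := C₁) hA (hθb.comp continuous_fst).aestronglyMeasurable
        (Eventually.of_forall fun x => hC₁ x.1)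
    apply h1.of_forall_sdiff_eq_zero hMm
    rintro x ⟨hx, hx'⟩
    have h2 : x.1 ∉ K := fun h => hx' ⟨hx, h, mem_univ _⟩
    rw [hθb0 _ h2, zero_mul]
  set A : ℕ → ℂ := fun k => ∫ x, ((η k x : ℝ) : ℂ) * (dwb θ x.1 * f x.2 * TT D 1 1 x) with hAdef
  have hAlim : Tendsto A atTop (𝓝 (∫ x in M, dwb θ x.1 * (f x.2 * TT D 1 1 x))) := by
    have hA' : ∀ k, A k = ∫ x in M, ((η k x : ℝ) : ℂ) * (dwb θ x.1 * (f x.2 * TT D 1 1 x)) := by
      intro k
      rw [hAdef]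
      show ∫ x, ((η k x : ℝ) : ℂ) * (dwb θ x.1 * f x.2 * TT D 1 1 x) = _
      rw [← setIntegral_eq_integral_of_forall_compl_eq_zero (s := M)]
      · congr 1
        ext x
        ring
      · intro x hx
        rw [image_eq_zero_of_notMem_tsupport (fun h => hx (P.ηsub k h)), ofReal_zero, zero_mul]
    rw [tendsto_congr hA']
    apply tendsto_integral_of_dominated_convergence
      (fun x : ℂ × ℂ => ‖dwb θ x.1 * (f x.2 * TT D 1 1 x)‖)
    · intro k
      exact ((Hol_cut_smooth P k).continuous.aestronglyMeasurable).mul hInt.aestronglyMeasurable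
    · exact hInt.norm
    · intro k
      refine Eventually.of_forall fun x => ?_
      rw [norm_mul, Complex.norm_real, Real.norm_of_nonneg (P.ηnonneg k x)]
      exact mul_le_of_le_one_left (norm_nonneg _) (P.ηle_one k x)
    · refine (ae_restrict_iff' hMm).2 (Eventually.of_forall fun x hx => ?_)
      have h1 : ∀ᶠ k in atTop, ((η k x : ℝ) : ℂ) * (dwb θ x.1 * (f x.2 * TT D 1 1 x))
          = dwb θ x.1 * (f x.2 * TT D 1 1 x) := by
        filter_upwards [P.ηone {x} isCompact_singleton (singleton_subset_iff.2 hx)] with k hk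
        rw [hk x (mem_singleton x), ofReal_one, one_mul]
      exact tendsto_const_nhds.congr' (h1.mono fun k hk => hk.symm)
  -- the error term
  have hτ := P.τ_nonneg
  obtain ⟨C, hC0, hC⟩ := Hol_bound P hK hKn
  set J : ℝ := ∫ x in M, D x with hJ
  set r : ℕ → ℂ := fun k => ∫ x, (θ x.1 * f x.2) * (pdb 1 (fun y => ((η k y : ℝ) : ℂ)) x * TT D 1 0 x
          - pdb 0 (fun y => ((η k y : ℝ) : ℂ)) x * TT D 1 1 x) with hr
  have hrb : ∀ k : ℕ, ‖r k‖ ≤ C₂ * C₀ * a * Real.sqrt (τ * C) * J * (1 / ((k : ℝ) + 1)) := by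
    intro k
    have hk0 : (0 : ℝ) < (k : ℝ) + 1 := by positivity
    have hg : Integrable (M.indicator fun x => C₂ * C₀ * a * Real.sqrt (τ * C) * (1 / ((k : ℝ) + 1)) * D x) :=
      (integrable_indicator_iff hMm).2 (P.integrable.const_mul _)
    have h1 : ‖r k‖ ≤ ∫ x, M.indicator
        (fun x => C₂ * C₀ * a * Real.sqrt (τ * C) * (1 / ((k : ℝ) + 1)) * D x) x := by
      apply norm_integral_le_of_norm_le hg
      refine Eventually.of_forall fun x => ?_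
      by_cases hx : x ∈ M
      · rw [indicator_of_mem hx]
        have hD := P.Dpos x hx
        by_cases hxK : x.1 ∈ K
        · have h2 := P.err₁ k x hx
          have h3 := hC x hx hxK
          have h4 : Real.sqrt (τ * G x * D x) ≤ Real.sqrt (τ * C) * D x := by
            calc Real.sqrt (τ * G x * D x) ≤ Real.sqrt (τ * (C * D x) * D x) := by
                  apply Real.sqrt_le_sqrt
                  gcongr
              _ = Real.sqrt ((τ * C) * D x ^ 2) := by ring_nf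
              _ = Real.sqrt (τ * C) * D x := by
                  rw [Real.sqrt_mul (mul_nonneg hτ hC0), Real.sqrt_sq hD.le]
          rw [norm_mul, norm_mul]
          calc ‖θ x.1‖ * ‖f x.2‖ * ‖pdb 1 (fun y => ((η k y : ℝ) : ℂ)) x * TT D 1 0 x
                - pdb 0 (fun y => ((η k y : ℝ) : ℂ)) x * TT D 1 1 x‖
              ≤ C₂ * C₀ * (a / ((k : ℝ) + 1) * (Real.sqrt (τ * C) * D x)) := by
                apply mul_le_mul _ (h2.trans _) (norm_nonneg _) (by positivity)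
                · exact mul_le_mul (hC₂ _) (hb _) (norm_nonneg _) hC₂0
                · exact mul_le_mul_of_nonneg_left h4 (by positivity)
            _ = _ := by ring
        · rw [hθ0 _ hxK, zero_mul, zero_mul, norm_zero]
          positivity
      · rw [indicator_of_notMem hx]
        have h2 : ∀ j, pdb j (fun y => ((η k y : ℝ) : ℂ)) x = 0 := by
          intro j
          apply image_eq_zero_of_notMem_tsupport
          intro h
          have h3 : x ∈ tsupport (fun y : ℂ × ℂ => ((η k y : ℝ) : ℂ)) := tsupport_wdb_subset h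
          exact hx (P.ηsub k (Hol_cut_tsupport k h3))
        rw [h2, h2, zero_mul, zero_mul, sub_zero, mul_zero, norm_zero]
    rw [integral_indicator hMm, integral_const_mul] at h1
    calc ‖r k‖ ≤ _ := h1
      _ = _ := by rw [hJ]; ring
  have hrlim : Tendsto r atTop (𝓝 0) := by
    apply squeeze_zero_norm hrb
    have h1 := (tendsto_one_div_add_atTop_nhds_zero_nat (𝕜 := ℝ)).const_mul
      (C₂ * C₀ * a * Real.sqrt (τ * C) * J)
    rwa [mul_zero] at h1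
  -- the eventually constant term
  have hb' : ∀ᶠ k in atTop, ∫ x, ((η k x : ℝ) : ℂ) * (θ x.1 * dwb f x.2 * TT D 1 0 x)
      = ∫ x, θ x.1 * dwb f x.2 * TT D 1 0 x := by
    filter_upwards [P.ηone _ hKc hKM] with k hk
    congr 1
    ext x
    by_cases h1 : x.1 ∈ K
    · by_cases h2 : x.2 ∈ Metric.closedBall w₀ s
      · rw [hk x ⟨h1, h2⟩, ofReal_one, one_mul]
      · rw [hz _ h2, mul_zero, zero_mul, mul_zero]
    · rw [hθ0 _ h1, zero_mul, zero_mul, mul_zero]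
  have hA2 : Tendsto A atTop (𝓝 (∫ x, θ x.1 * dwb f x.2 * TT D 1 0 x)) := by
    have h1 : ∀ᶠ k in atTop, r k + (∫ x, θ x.1 * dwb f x.2 * TT D 1 0 x) = A k := by
      filter_upwards [hb'] with k hk
      rw [hAdef]
      show r k + _ = ∫ x, ((η k x : ℝ) : ℂ) * (dwb θ x.1 * f x.2 * TT D 1 1 x)
      rw [Hol_step P hf hθ k, hk]
    have h2 := hrlim.add_const (∫ x, θ x.1 * dwb f x.2 * TT D 1 0 x)
    rw [zero_add] at h2
    exact h2.congr' h1
  exact tendsto_nhds_unique hAlim hA2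

end KQ
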