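import Mathlib

/-! The abstract end of the integral Schwarz lemma. -/

open MeasureTheory Set Filter Topology
open scoped ContDiff

namespace KQ

private theorem Core_young {c b y : ℝ} (hc : 0 ≤ c) (hb : 0 < b) (hy : 0 ≤ y) :
    c * y ^ 2 ≤ b * y ^ 3 + c ^ 3 / b ^ 2 := by
  rcases le_total (b * y) c with h | h
  · have h1 : y ≤ c / b := by rw [le_div_iff₀ hb]; linarith
    have h2 : y ^ 2 ≤ (c / b) ^ 2 := by gcongr
    have h3 : c * y ^ 2 ≤ c * (c / b) ^ 2 := by gcongr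
    have h4 : c * (c / b) ^ 2 = c ^ 3 / b ^ 2 := by field_simp
    have h5 : 0 ≤ b * y ^ 3 := by positivity
    linarith
  · have h3 : c * y ^ 2 ≤ b * y * y ^ 2 := by gcongr
    have h4 : b * y * y ^ 2 = b * y ^ 3 := by ring
    have h5 : 0 ≤ c ^ 3 / b ^ 2 := by positivity
    linarith

/-- If `κ ∫ η⁶ (F-a')₊³ D ≤ C/(k+1)² ∫ η⁴ (F-a')₊² D` for cutoffs `η = η_k` increasing to one and
`∫ D < ∞`, then `F ≤ a'`. (Young: `y²/(k+1)² ≤ ε y³ + C_ε (k+1)^{-6}` with `y = η² (F-a')₊`.) -/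
theorem core {E : Type*} [NormedAddCommGroup E] [NormedSpace ℝ E] [FiniteDimensional ℝ E]
    [MeasurableSpace E] [BorelSpace E] (μ : Measure E) [μ.IsAddHaarMeasure]
    {M : Set E} (hM : IsOpen M) {F D : E → ℝ} (hF : ContinuousOn F M) (hD : ContinuousOn D M)
    (hDpos : ∀ x ∈ M, 0 < D x) (hDint : IntegrableOn D M μ)
    {η : ℕ → E → ℝ} (hη : ∀ k, Continuous (η k)) (hηc : ∀ k, HasCompactSupport (η k))
    (hηs : ∀ k, tsupport (η k) ⊆ M) (hη0 : ∀ k x, 0 ≤ η k x) (hη1 : ∀ k x, η k x ≤ 1)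
    (hηone : ∀ K : Set E, IsCompact K → K ⊆ M → ∀ᶠ k in atTop, ∀ x ∈ K, η k x = 1)
    {κ C a' : ℝ} (hκ : 0 < κ) (hC : 0 ≤ C)
    (hineq : ∀ k : ℕ, κ * ∫ x in M, η k x ^ 6 * (max (F x - a') 0) ^ 3 * D x ∂μ
      ≤ C / ((k : ℝ) + 1) ^ 2 * ∫ x in M, η k x ^ 4 * (max (F x - a') 0) ^ 2 * D x ∂μ) :
    ∀ x ∈ M, F x ≤ a' := by
  intro x0 hx0
  by_contra hlt
  rw [not_le] at hlt
  have hP : ContinuousOn (fun x => max (F x - a') 0) M := ContinuousOn.sup (hF.sub continuousOn_const) continuousOn_const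
  have hP0 : ∀ x, 0 ≤ max (F x - a') 0 := fun x => le_max_right _ _
  have hMm : MeasurableSet M := hM.measurableSet
  -- integrability
  have hint : ∀ k p q, 0 < p → IntegrableOn (fun x => η k x ^ p * (max (F x - a') 0) ^ q * D x) M μ := by
    intro k p q hp
    have h1 : IntegrableOn (fun x => η k x ^ p * (max (F x - a') 0) ^ q * D x) (tsupport (η k)) μ := by
      apply ContinuousOn.integrableOn_compact (hηc k)
      exact ((((hη k).pow p).continuousOn.mul (hP.pow q)).mul hD).mono (hηs k)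
    apply h1.of_forall_sdiff_eq_zero hMm
    rintro x ⟨_, hx⟩
    rw [image_eq_zero_of_notMem_tsupport hx, zero_pow hp.ne', zero_mul, zero_mul]
  -- the neighbourhood
  set ε : ℝ := (F x0 - a') / 2 with hε
  have hε0 : 0 < ε := by rw [hε]; linarith
  set δ : ℝ := D x0 / 2 with hδ
  have hδ0 : 0 < δ := by rw [hδ]; have := hDpos x0 hx0; linarith
  have hN : {x | ε ≤ F x - a' ∧ δ ≤ D x ∧ x ∈ M} ∈ 𝓝 x0 := by
    have h1 : ∀ᶠ x in 𝓝 x0, a' + ε < F x :=
      (hF.continuousAt (hM.mem_nhds hx0)).eventually (lt_mem_nhds (by rw [hε]; linarith))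
    have h2 : ∀ᶠ x in 𝓝 x0, δ < D x :=
      (hD.continuousAt (hM.mem_nhds hx0)).eventually
        (lt_mem_nhds (by rw [hδ]; have := hDpos x0 hx0; linarith))
    filter_upwards [h1, h2, hM.mem_nhds hx0] with x hx1 hx2 hx3
    exact ⟨by linarith, hx2.le, hx3⟩
  obtain ⟨r, hr, hrs⟩ := Metric.nhds_basis_closedBall.mem_iff.1 hN
  set K0 : Set E := Metric.closedBall x0 r with hK0
  have hKc : IsCompact K0 := isCompact_closedBall x0 r
  have hKM : K0 ⊆ M := fun x hx => (hrs hx).2.2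
  have hμ0 : 0 < μ.real K0 := by
    rw [Measure.real, ENNReal.toReal_pos_iff]
    exact ⟨Metric.measure_closedBall_pos μ x0 hr, hKc.measure_lt_top⟩
  set b : ℝ := κ / 2 with hb
  have hb0 : 0 < b := by rw [hb]; linarith
  set J : ℝ := ∫ x in M, D x ∂μ with hJ
  have hJ0 : 0 ≤ J := setIntegral_nonneg hMm fun x hx => (hDpos x hx).le
  have hmain : ∀ k : ℕ, b * ∫ x in M, η k x ^ 6 * (max (F x - a') 0) ^ 3 * D x ∂μ ≤
      (C / ((k : ℝ) + 1) ^ 2) ^ 3 / b ^ 2 * J := by
    intro k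
    set c : ℝ := C / ((k : ℝ) + 1) ^ 2 with hc
    have hc0 : 0 ≤ c := by rw [hc]; positivity
    have h1 : c * ∫ x in M, η k x ^ 4 * (max (F x - a') 0) ^ 2 * D x ∂μ ≤
        b * ∫ x in M, η k x ^ 6 * (max (F x - a') 0) ^ 3 * D x ∂μ + c ^ 3 / b ^ 2 * J := by
      rw [hJ, ← integral_const_mul, ← integral_const_mul, ← integral_const_mul, ← integral_add]
      · apply setIntegral_mono_on
        · exact (hint k 4 2 (by norm_num)).const_mul c
        · exact ((hint k 6 3 (by norm_num)).const_mul b).add (hDint.const_mul (c ^ 3 / b ^ 2))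
        · exact hMm
        · intro x hx
          have h2 := Core_young hc0 hb0 (y := η k x ^ 2 * max (F x - a') 0)
            (mul_nonneg (pow_nonneg (hη0 k x) 2) (hP0 x))
          have h3 := mul_le_mul_of_nonneg_right h2 (hDpos x hx).le
          calc c * (η k x ^ 4 * (max (F x - a') 0) ^ 2 * D x)
              = c * (η k x ^ 2 * max (F x - a') 0) ^ 2 * D x := by ring
            _ ≤ (b * (η k x ^ 2 * max (F x - a') 0) ^ 3 + c ^ 3 / b ^ 2) * D x := h3
            _ = b * (η k x ^ 6 * (max (F x - a') 0) ^ 3 * D x) + c ^ 3 / b ^ 2 * D x := by ring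
      · exact (hint k 6 3 (by norm_num)).const_mul b
      · exact hDint.const_mul (c ^ 3 / b ^ 2)
    have h2 := hineq k
    have h3 : κ = b + b := by rw [hb]; ring
    rw [h3, add_mul] at h2
    linarith
  have hlow : ∀ᶠ k : ℕ in atTop, b * (μ.real K0 * (ε ^ 3 * δ)) ≤ (C / ((k : ℝ) + 1) ^ 2) ^ 3 / b ^ 2 * J := by
    filter_upwards [hηone K0 hKc hKM] with k hk
    refine le_trans ?_ (hmain k)
    apply mul_le_mul_of_nonneg_left _ hb0.le
    calc μ.real K0 * (ε ^ 3 * δ) = ∫ _x in K0, ε ^ 3 * δ ∂μ := by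
          rw [setIntegral_const, smul_eq_mul]
      _ ≤ ∫ x in K0, η k x ^ 6 * (max (F x - a') 0) ^ 3 * D x ∂μ := by
          apply setIntegral_mono_on
          · exact integrableOn_const hKc.measure_lt_top.ne
          · exact (hint k 6 3 (by norm_num)).mono_set hKM
          · exact hKc.measurableSet
          · intro x hx
            obtain ⟨h1, h2, _⟩ := hrs hx
            rw [hk x hx, one_pow, one_mul]
            have h3 : ε ≤ max (F x - a') 0 := h1.trans (le_max_left _ _)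
            gcongr
      _ ≤ ∫ x in M, η k x ^ 6 * (max (F x - a') 0) ^ 3 * D x ∂μ := by
          apply setIntegral_mono_set (hint k 6 3 (by norm_num))
          · refine (ae_restrict_iff' hMm).2 (Eventually.of_forall fun x hx => ?_)
            have := hη0 k x
            have h2 := hP0 x
            have h3 := (hDpos x hx).le
            show 0 ≤ η k x ^ 6 * (max (F x - a') 0) ^ 3 * D x
            positivity
          · exact hKM.eventuallyLE
  have hlim : Tendsto (fun k : ℕ => (C / ((k : ℝ) + 1) ^ 2) ^ 3 / b ^ 2 * J) atTop (𝓝 0) := by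
    have h1 : Tendsto (fun k : ℕ => 1 / ((k : ℝ) + 1)) atTop (𝓝 0) := tendsto_one_div_add_atTop_nhds_zero_nat
    have h2 : Tendsto (fun k : ℕ => (C * (1 / ((k : ℝ) + 1)) ^ 2) ^ 3 / b ^ 2 * J) atTop
        (𝓝 ((C * 0 ^ 2) ^ 3 / b ^ 2 * J)) :=
      ((((h1.pow 2).const_mul C).pow 3).div_const _).mul_const J
    have h3 : (C * (0 : ℝ) ^ 2) ^ 3 / b ^ 2 * J = 0 := by simp
    rw [h3] at h2
    refine h2.congr fun k => ?_
    congr 3
    rw [div_pow, one_pow]
    ring
  have hfin : b * (μ.real K0 * (ε ^ 3 * δ)) ≤ 0 := ge_of_tendsto hlim hlow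
  have hpos : 0 < b * (μ.real K0 * (ε ^ 3 * δ)) := by positivity
  linarith

end KQ
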