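import Pool.Agent.Lib_MP_3ea2ac_kq.W

/-! Explicit conformal densities of curvature `≤ -κ` on the plane minus two points. -/

open MeasureTheory Complex Set Topology
open scoped ComplexConjugate ContDiff ComplexOrder

namespace KQ

/-- The density on `ℂ ∖ {0,1}`. -/
noncomputable def rho (s : ℝ) (x : ℂ) : ℝ :=
  (1 + ‖x‖ ^ (2 * s)) * (1 + ‖x - 1‖ ^ (2 * s)) / (‖x‖ * ‖x - 1‖) ^ (2 - 2 * s)

/-- The density on `ℂ ∖ {p,q}`. -/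
noncomputable def rhoPQ (p q : ℂ) (s : ℝ) (w : ℂ) : ℝ :=
  rho s ((w - p) / (q - p)) / ‖q - p‖ ^ 2

variable {p q w : ℂ} {s : ℝ}

private theorem Rho_sub_one (hpq : p ≠ q) : (w - p) / (q - p) - 1 = (w - q) / (q - p) := by
  have h : q - p ≠ 0 := sub_ne_zero.2 hpq.symm
  field_simp
  ring

private theorem Rho_rho_pos {x : ℂ} (h0 : x ≠ 0) (h1 : x ≠ 1) : 0 < rho s x := by
  have a0 : 0 < ‖x‖ := norm_pos_iff.2 h0
  have a1 : 0 < ‖x - 1‖ := norm_pos_iff.2 (sub_ne_zero.2 h1)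
  unfold rho
  have b0 : 0 < ‖x‖ ^ (2 * s) := Real.rpow_pos_of_pos a0 _
  have b1 : 0 < ‖x - 1‖ ^ (2 * s) := Real.rpow_pos_of_pos a1 _
  have b2 : 0 < (‖x‖ * ‖x - 1‖) ^ (2 - 2 * s) := Real.rpow_pos_of_pos (by positivity) _
  positivity

private theorem Rho_ne (hpq : p ≠ q) (hw : w ≠ p) (hw' : w ≠ q) :
    (w - p) / (q - p) ≠ 0 ∧ (w - p) / (q - p) ≠ 1 := by
  have h : q - p ≠ 0 := sub_ne_zero.2 hpq.symm
  refine ⟨div_ne_zero (sub_ne_zero.2 hw) h, ?_⟩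
  rw [← sub_ne_zero, Rho_sub_one hpq]
  exact div_ne_zero (sub_ne_zero.2 hw') h

theorem rhoPQ_pos (hpq : p ≠ q) (hw : w ≠ p) (hw' : w ≠ q) : 0 < rhoPQ p q s w := by
  have h : q - p ≠ 0 := sub_ne_zero.2 hpq.symm
  obtain ⟨h0, h1⟩ := Rho_ne hpq hw hw'
  have a : 0 < ‖q - p‖ := norm_pos_iff.2 h
  exact div_pos (Rho_rho_pos h0 h1) (by positivity)

theorem rhoPQ_smooth (hpq : p ≠ q) : ContDiffOn ℝ ∞ (rhoPQ p q s) ({p, q}ᶜ : Set ℂ) := by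
  intro w hw
  have hwp : w ≠ p := fun h => hw (by simp [h])
  have hwq : w ≠ q := fun h => hw (by simp [h])
  obtain ⟨h0, h1⟩ := Rho_ne hpq hwp hwq
  apply ContDiffAt.contDiffWithinAt
  have e1 : ContDiffAt ℝ ∞ (fun w : ℂ => (w - p) / (q - p)) w := by fun_prop
  have e2 : ContDiffAt ℝ ∞ (fun w : ℂ => (w - p) / (q - p) - 1) w := by fun_prop
  have n1 : ContDiffAt ℝ ∞ (fun w : ℂ => ‖(w - p) / (q - p)‖) w := e1.norm ℝ h0
  have n2 : ContDiffAt ℝ ∞ (fun w : ℂ => ‖(w - p) / (q - p) - 1‖) w :=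
    e2.norm ℝ (sub_ne_zero.2 h1)
  have p1 : ‖(w - p) / (q - p)‖ ≠ 0 := norm_ne_zero_iff.2 h0
  have p2 : ‖(w - p) / (q - p) - 1‖ ≠ 0 := norm_ne_zero_iff.2 (sub_ne_zero.2 h1)
  have r1 : ContDiffAt ℝ ∞ (fun w : ℂ => ‖(w - p) / (q - p)‖ ^ (2 * s)) w :=
    n1.rpow_const_of_ne p1
  have r2 : ContDiffAt ℝ ∞ (fun w : ℂ => ‖(w - p) / (q - p) - 1‖ ^ (2 * s)) w :=
    n2.rpow_const_of_ne p2
  have r3 : ContDiffAt ℝ ∞ (fun w : ℂ => (‖(w - p) / (q - p)‖ * ‖(w - p) / (q - p) - 1‖)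
      ^ (2 - 2 * s)) w := (n1.mul n2).rpow_const_of_ne (mul_ne_zero p1 p2)
  have b2 : (‖(w - p) / (q - p)‖ * ‖(w - p) / (q - p) - 1‖) ^ (2 - 2 * s) ≠ 0 := by
    apply ne_of_gt
    apply Real.rpow_pos_of_pos
    positivity
  exact (((contDiffAt_const.add r1).mul (contDiffAt_const.add r2)).div r3 b2).div_const _

/-! ### Radial functions -/

private theorem Rho_normSq_dw (a w : ℂ) :
    dw (fun x => (((‖x - a‖ ^ 2 : ℝ)) : ℂ)) w = conj (w - a) ∧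
    dwb (fun x => (((‖x - a‖ ^ 2 : ℝ)) : ℂ)) w = w - a := by
  have e : (fun x : ℂ => (((‖x - a‖ ^ 2 : ℝ)) : ℂ)) = fun x => (x - a) * conj (x - a) := by
    funext x
    rw [mul_conj, normSq_eq_norm_sq]
  have d1 : DifferentiableAt ℂ (fun x : ℂ => x - a) w := by fun_prop
  have d2 : DifferentiableAt ℝ (fun x : ℂ => x - a) w := by fun_prop
  have d3 : DifferentiableAt ℝ (fun x : ℂ => conj (x - a)) w := by
    exact (conjCLE.differentiable _).comp w d2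
  have hd : deriv (fun x : ℂ => x - a) w = 1 := by simp
  constructor
  · rw [e]
    have := wd_mul (e := (1 : ℂ)) (e' := I) d2 d3
    rw [dw, this, wd_conj]
    have h1 := dw_eq_deriv d1
    have h2 := dwb_eq_zero d1
    rw [dw] at h1
    rw [dwb] at h2
    rw [h1, h2, hd]
    simp
  · rw [e]
    have := wdb_mul (e := (1 : ℂ)) (e' := I) d2 d3
    rw [dwb, this, wdb_conj]
    have h1 := dw_eq_deriv d1
    have h2 := dwb_eq_zero d1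
    rw [dw] at h1
    rw [dwb] at h2
    rw [h1, h2, hd]
    simp

private theorem Rho_sq_diff (a w : ℂ) : DifferentiableAt ℝ (fun x : ℂ => ‖x - a‖ ^ 2) w := by
  have : ContDiff ℝ 1 (fun x : ℂ => ‖x - a‖ ^ 2) :=
    (contDiff_id.sub contDiff_const).norm_sq ℝ
  exact this.differentiable (by simp) w

private theorem Rho_coe_diff {u : ℂ → ℝ} {w : ℂ} (h : DifferentiableAt ℝ u w) :
    DifferentiableAt ℝ (fun x => ((u x : ℝ) : ℂ)) w :=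
  ofRealCLM.differentiableAt.comp w h

private theorem Rho_lev {ψ ψ1 ψ2 : ℝ → ℝ} (h1 : ∀ r > 0, HasDerivAt ψ (ψ1 r) r)
    (h2 : ∀ r > 0, HasDerivAt ψ1 (ψ2 r) r) (c : ℝ) (hw : w ≠ p) (hw' : w ≠ q) :
    lev (fun x => ψ (‖x - p‖ ^ 2) + ψ (‖x - q‖ ^ 2) + c) w =
      (ψ1 (‖w - p‖ ^ 2) + ‖w - p‖ ^ 2 * ψ2 (‖w - p‖ ^ 2)) +
      (ψ1 (‖w - q‖ ^ 2) + ‖w - q‖ ^ 2 * ψ2 (‖w - q‖ ^ 2)) := by
  have pos : ∀ a x : ℂ, x ≠ a → 0 < ‖x - a‖ ^ 2 := fun a x hx => by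
    have := norm_pos_iff.2 (sub_ne_zero.2 hx)
    positivity
  have dψ : ∀ a x : ℂ, x ≠ a → DifferentiableAt ℝ (fun x => ψ (‖x - a‖ ^ 2)) x := fun a x hx =>
    ((h1 _ (pos a x hx)).comp_hasFDerivAt x (Rho_sq_diff a x).hasFDerivAt).differentiableAt
  have dψ1 : ∀ a x : ℂ, x ≠ a → DifferentiableAt ℝ (fun x => ψ1 (‖x - a‖ ^ 2)) x := fun a x hx =>
    ((h2 _ (pos a x hx)).comp_hasFDerivAt x (Rho_sq_diff a x).hasFDerivAt).differentiableAt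
  have key : ∀ a x : ℂ, x ≠ a → dwb (fun x => ((ψ (‖x - a‖ ^ 2) : ℝ) : ℂ)) x
      = ((ψ1 (‖x - a‖ ^ 2) : ℝ) : ℂ) * (x - a) := fun a x hx => by
    have := wdb_ofReal_comp (e := (1 : ℂ)) (e' := I) (Rho_sq_diff a x) (h1 _ (pos a x hx))
    rw [dwb, this]
    have h := (Rho_normSq_dw a x).2
    rw [dwb] at h
    rw [h]
  have key2 : ∀ a x : ℂ, x ≠ a → dw (fun x => ((ψ1 (‖x - a‖ ^ 2) : ℝ) : ℂ) * (x - a)) x
      = ((ψ1 (‖x - a‖ ^ 2) + ‖x - a‖ ^ 2 * ψ2 (‖x - a‖ ^ 2) : ℝ) : ℂ) := fun a x hx => by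
    have d1 : DifferentiableAt ℂ (fun x : ℂ => x - a) x := by fun_prop
    have d2 : DifferentiableAt ℝ (fun x : ℂ => x - a) x := by fun_prop
    have hd : deriv (fun x : ℂ => x - a) x = 1 := by simp
    have hm := wd_mul (e := (1 : ℂ)) (e' := I) (Rho_coe_diff (dψ1 a x hx)) d2
    have hc := wd_ofReal_comp (e := (1 : ℂ)) (e' := I) (Rho_sq_diff a x) (h2 _ (pos a x hx))
    have h := (Rho_normSq_dw a x).1
    have h3 := dw_eq_deriv d1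
    rw [dw] at h h3
    rw [dw, hm, hc, h, h3, hd]
    have h4 : (x - a) * conj (x - a) = ((‖x - a‖ ^ 2 : ℝ) : ℂ) := by
      rw [mul_conj, normSq_eq_norm_sq]
    push_cast at h4 ⊢
    linear_combination ((ψ2 (‖x - a‖ ^ 2) : ℝ) : ℂ) * h4
  have dm : ∀ a x : ℂ, x ≠ a → DifferentiableAt ℝ
      (fun x => ((ψ1 (‖x - a‖ ^ 2) : ℝ) : ℂ) * (x - a)) x := fun a x hx =>
    (Rho_coe_diff (dψ1 a x hx)).mul (by fun_prop)
  have hev : dwb (fun x => ((ψ (‖x - p‖ ^ 2) + ψ (‖x - q‖ ^ 2) + c : ℝ) : ℂ)) =ᶠ[𝓝 w]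
      fun x => ((ψ1 (‖x - p‖ ^ 2) : ℝ) : ℂ) * (x - p) + ((ψ1 (‖x - q‖ ^ 2) : ℝ) : ℂ) * (x - q) := by
    filter_upwards [isOpen_ne.mem_nhds hw, isOpen_ne.mem_nhds hw'] with x hx hx'
    have e : (fun x : ℂ => ((ψ (‖x - p‖ ^ 2) + ψ (‖x - q‖ ^ 2) + c : ℝ) : ℂ)) =
        fun x => (((ψ (‖x - p‖ ^ 2) : ℝ) : ℂ) + ((ψ (‖x - q‖ ^ 2) : ℝ) : ℂ)) + (c : ℂ) := by
      funext x
      push_cast
      ring
    have a1 := wdb_add (e := (1 : ℂ)) (e' := I)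
      ((Rho_coe_diff (dψ p x hx)).add (Rho_coe_diff (dψ q x hx')))
      (differentiableAt_const (c : ℂ))
    have a2 := wdb_add (e := (1 : ℂ)) (e' := I) (Rho_coe_diff (dψ p x hx))
      (Rho_coe_diff (dψ q x hx'))
    have k1 := key p x hx
    have k2 := key q x hx'
    rw [dwb] at k1 k2
    rw [e, dwb]
    refine a1.trans ?_
    rw [wdb_const, add_zero]
    refine a2.trans ?_
    rw [k1, k2]
  have fin : dw (dwb (fun x => ((ψ (‖x - p‖ ^ 2) + ψ (‖x - q‖ ^ 2) + c : ℝ) : ℂ))) w =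
      (((ψ1 (‖w - p‖ ^ 2) + ‖w - p‖ ^ 2 * ψ2 (‖w - p‖ ^ 2)) +
      (ψ1 (‖w - q‖ ^ 2) + ‖w - q‖ ^ 2 * ψ2 (‖w - q‖ ^ 2)) : ℝ) : ℂ) := by
    rw [dw, wd_congr hev, wd_add (dm p w hw) (dm q w hw')]
    have k1 := key2 p w hw
    have k2 := key2 q w hw'
    rw [dw] at k1 k2
    rw [k1, k2]
    push_cast
    ring
  rw [lev, fin, ofReal_re]

/-! ### The function `ψ(r) = log(1+(r/β)^s) - (1-s) log(r/β)` -/

private theorem Rho_psi {β : ℝ} (hβ : 0 < β) (r : ℝ) (hr : 0 < r) :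
    HasDerivAt (fun r => Real.log (1 + (r / β) ^ s) - (1 - s) * Real.log (r / β))
      ((s * (1 - 1 / (1 + (r / β) ^ s)) - (1 - s)) / r) r := by
  have hy : 0 < r / β := by positivity
  have hp : 0 < (r / β) ^ s := Real.rpow_pos_of_pos hy _
  have h1 : HasDerivAt (fun r => r / β) (1 / β) r := (hasDerivAt_id r).div_const β
  have h2 : HasDerivAt (fun r => (r / β) ^ s) (1 / β * s * (r / β) ^ (s - 1)) r :=
    h1.rpow_const (Or.inl hy.ne')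
  have h3 : HasDerivAt (fun r => Real.log (1 + (r / β) ^ s))
      ((1 / β * s * (r / β) ^ (s - 1)) / (1 + (r / β) ^ s)) r :=
    (h2.const_add 1).log (by positivity)
  have h4 : HasDerivAt (fun r => Real.log (r / β)) ((1 / β) / (r / β)) r := h1.log hy.ne'
  refine (h3.sub (h4.const_mul (1 - s))).congr_deriv ?_
  rw [Real.rpow_sub_one hy.ne']
  field_simp
  ring

private theorem Rho_psi1 {β : ℝ} (hβ : 0 < β) (r : ℝ) (hr : 0 < r) :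
    HasDerivAt (fun r => (s * (1 - 1 / (1 + (r / β) ^ s)) - (1 - s)) / r)
      ((s ^ 2 * (r / β) ^ s / (1 + (r / β) ^ s) ^ 2
        - (s * (1 - 1 / (1 + (r / β) ^ s)) - (1 - s))) / r ^ 2) r := by
  have hy : 0 < r / β := by positivity
  have hp : 0 < (r / β) ^ s := Real.rpow_pos_of_pos hy _
  have h1 : HasDerivAt (fun r => r / β) (1 / β) r := (hasDerivAt_id r).div_const β
  have h2 : HasDerivAt (fun r => (r / β) ^ s) (1 / β * s * (r / β) ^ (s - 1)) r :=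
    h1.rpow_const (Or.inl hy.ne')
  have h3 : HasDerivAt (fun r => 1 / (1 + (r / β) ^ s))
      (-(1 / β * s * (r / β) ^ (s - 1)) / (1 + (r / β) ^ s) ^ 2) r := by
    have h3' := (h2.const_add 1).fun_inv (by positivity : 1 + (r / β) ^ s ≠ 0)
    simp only [one_div] at h3' ⊢
    exact h3'
  have h5 := (((h3.const_sub 1).const_mul s).sub_const (1 - s)).div (hasDerivAt_id r) hr.ne'
  refine h5.congr_deriv ?_
  simp only [id]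
  rw [Real.rpow_sub_one hy.ne']
  field_simp

private theorem Rho_log (hpq : p ≠ q) (hw : w ≠ p) (hw' : w ≠ q) :
    Real.log (rhoPQ p q s w) =
      (fun r => Real.log (1 + (r / ‖q - p‖ ^ 2) ^ s) - (1 - s) * Real.log (r / ‖q - p‖ ^ 2))
        (‖w - p‖ ^ 2) +
      (fun r => Real.log (1 + (r / ‖q - p‖ ^ 2) ^ s) - (1 - s) * Real.log (r / ‖q - p‖ ^ 2))
        (‖w - q‖ ^ 2) + - Real.log (‖q - p‖ ^ 2) := by
  have h : q - p ≠ 0 := sub_ne_zero.2 hpq.symm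
  have hb : 0 < ‖q - p‖ := norm_pos_iff.2 h
  have hX : 0 < ‖w - p‖ / ‖q - p‖ := div_pos (norm_pos_iff.2 (sub_ne_zero.2 hw)) hb
  have hY : 0 < ‖w - q‖ / ‖q - p‖ := div_pos (norm_pos_iff.2 (sub_ne_zero.2 hw')) hb
  have sq : ∀ a : ℝ, (a ^ 2 / ‖q - p‖ ^ 2) = (a / ‖q - p‖) ^ 2 := fun a => (div_pow _ _ _).symm
  have rp : ∀ x : ℝ, 0 < x → (x ^ 2) ^ s = x ^ (2 * s) := fun x hx => by
    rw [← Real.rpow_natCast x 2, ← Real.rpow_mul hx.le]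
    norm_num
  simp only [rhoPQ, rho]
  rw [Rho_sub_one hpq, norm_div, norm_div, sq, sq, rp _ hX, rp _ hY]
  set X := ‖w - p‖ / ‖q - p‖ with hXd
  set Y := ‖w - q‖ / ‖q - p‖ with hYd
  have b0 : 0 < X ^ (2 * s) := Real.rpow_pos_of_pos hX _
  have b1 : 0 < Y ^ (2 * s) := Real.rpow_pos_of_pos hY _
  have b2 : 0 < (X * Y) ^ (2 - 2 * s) := Real.rpow_pos_of_pos (by positivity) _
  rw [Real.log_div (by positivity) (by positivity), Real.log_div (by positivity) (by positivity),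
    Real.log_mul (by positivity) (by positivity), Real.log_rpow (by positivity),
    Real.log_mul hX.ne' hY.ne', Real.log_pow X 2, Real.log_pow Y 2]
  push_cast
  ring

private theorem Rho_ineq {X Y : ℝ} (hX : 0 < X) (hY : 1 / 2 ≤ Y) (hXY : X ≤ Y) (hs : 0 < s)
    (hs' : s ≤ 1 / 5) :
    1 / 64 * ((1 + X ^ (2 * s)) * (1 + Y ^ (2 * s)) / (X * Y) ^ (2 - 2 * s)) ≤
      X ^ (2 * s) / (X ^ 2 * (1 + X ^ (2 * s)) ^ 2) := by
  have hY0 : 0 < Y := by linarith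
  have b0 : 0 < X ^ (2 * s) := Real.rpow_pos_of_pos hX _
  have b1 : 0 < Y ^ (2 * s) := Real.rpow_pos_of_pos hY0 _
  have b3 : X ^ (2 * s) ≤ Y ^ (2 * s) := Real.rpow_le_rpow hX.le hXY (by linarith)
  have e1 : (X * Y) ^ (2 - 2 * s) = X ^ (2 - 2 * s) * Y ^ (2 - 2 * s) :=
    Real.mul_rpow hX.le hY0.le
  have e2 : X ^ (2 - 2 * s) = X ^ 2 / X ^ (2 * s) := by
    rw [Real.rpow_sub hX]
    norm_num
  have c1 : 0 < Y ^ (2 - 2 * s) := Real.rpow_pos_of_pos hY0 _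
  have main : (1 + Y ^ (2 * s)) ^ 4 ≤ 64 * Y ^ (2 - 2 * s) := by
    rcases le_total 1 Y with h | h
    · have g1 : (1 : ℝ) ≤ Y ^ (2 * s) := Real.one_le_rpow h (by linarith)
      have g2 : (1 + Y ^ (2 * s)) ^ 4 ≤ (2 * Y ^ (2 * s)) ^ 4 :=
        pow_le_pow_left₀ (by positivity) (by linarith) 4
      have g3 : (Y ^ (2 * s)) ^ 4 = Y ^ (8 * s) := by
        rw [← Real.rpow_natCast, ← Real.rpow_mul hY0.le]
        congr 1
        push_cast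
        ring
      have g4 : Y ^ (8 * s) ≤ Y ^ (2 - 2 * s) := Real.rpow_le_rpow_of_exponent_le h (by linarith)
      calc (1 + Y ^ (2 * s)) ^ 4 ≤ (2 * Y ^ (2 * s)) ^ 4 := g2
        _ = 16 * Y ^ (8 * s) := by rw [mul_pow, g3]; norm_num
        _ ≤ 64 * Y ^ (2 - 2 * s) := by nlinarith
    · have g1 : Y ^ (2 * s) ≤ 1 := Real.rpow_le_one hY0.le h (by linarith)
      have g2 : (1 + Y ^ (2 * s)) ^ 4 ≤ 2 ^ 4 :=
        pow_le_pow_left₀ (by positivity) (by linarith) 4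
      have g3 : Y ^ (2 : ℝ) ≤ Y ^ (2 - 2 * s) :=
        Real.rpow_le_rpow_of_exponent_ge hY0 h (by linarith)
      have g4 : Y ^ (2 : ℝ) = Y ^ 2 := by norm_num
      have g5 : (1 / 4 : ℝ) ≤ Y ^ 2 := by nlinarith
      rw [g4] at g3
      calc (1 + Y ^ (2 * s)) ^ 4 ≤ 2 ^ 4 := g2
        _ = 64 * (1 / 4) := by norm_num
        _ ≤ 64 * Y ^ (2 - 2 * s) := by linarith
  have m2 : (1 + X ^ (2 * s)) ^ 3 * (1 + Y ^ (2 * s)) ≤ 64 * Y ^ (2 - 2 * s) := by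
    refine le_trans ?_ main
    have g : (1 + X ^ (2 * s)) ^ 3 ≤ (1 + Y ^ (2 * s)) ^ 3 :=
      pow_le_pow_left₀ (by positivity) (by linarith) 3
    calc (1 + X ^ (2 * s)) ^ 3 * (1 + Y ^ (2 * s))
        ≤ (1 + Y ^ (2 * s)) ^ 3 * (1 + Y ^ (2 * s)) :=
          mul_le_mul_of_nonneg_right g (by positivity)
      _ = (1 + Y ^ (2 * s)) ^ 4 := by ring
  rw [e1, e2]
  have hX2 : 0 < X ^ 2 := by positivity
  rw [← sub_nonneg]
  have e3 : X ^ (2 * s) / (X ^ 2 * (1 + X ^ (2 * s)) ^ 2) -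
      1 / 64 * ((1 + X ^ (2 * s)) * (1 + Y ^ (2 * s)) /
        (X ^ 2 / X ^ (2 * s) * Y ^ (2 - 2 * s))) =
      X ^ (2 * s) * (64 * Y ^ (2 - 2 * s) - (1 + X ^ (2 * s)) ^ 3 * (1 + Y ^ (2 * s))) /
        (64 * X ^ 2 * (1 + X ^ (2 * s)) ^ 2 * Y ^ (2 - 2 * s)) := by
    field_simp
  rw [e3]
  apply div_nonneg
  · exact mul_nonneg b0.le (by linarith)
  · positivity

/-- The curvature inequality `∂∂̄ log ρ ≥ (s²/64) ρ`. Scaling reduces it to `{0,1}`; there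
`∂∂̄ log ρ = s²‖x‖^{2s-2}/(1+‖x‖^{2s})² + s²‖x-1‖^{2s-2}/(1+‖x-1‖^{2s})²`. -/
theorem rhoPQ_curv (hpq : p ≠ q) (hs : 0 < s) (hs' : s ≤ 1 / 5) (hw : w ≠ p) (hw' : w ≠ q) :
    s ^ 2 / 64 * rhoPQ p q s w ≤ lev (fun x => Real.log (rhoPQ p q s x)) w := by
  have h : q - p ≠ 0 := sub_ne_zero.2 hpq.symm
  have hb : 0 < ‖q - p‖ := norm_pos_iff.2 h
  have hβ : 0 < ‖q - p‖ ^ 2 := by positivity
  have hP : 0 < ‖w - p‖ := norm_pos_iff.2 (sub_ne_zero.2 hw)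
  have hQ : 0 < ‖w - q‖ := norm_pos_iff.2 (sub_ne_zero.2 hw')
  have hX : 0 < ‖w - p‖ / ‖q - p‖ := div_pos hP hb
  have hY : 0 < ‖w - q‖ / ‖q - p‖ := div_pos hQ hb
  have hev : (fun x => ((Real.log (rhoPQ p q s x) : ℝ) : ℂ)) =ᶠ[𝓝 w] fun x =>
      ((((fun r => Real.log (1 + (r / ‖q - p‖ ^ 2) ^ s) - (1 - s) * Real.log (r / ‖q - p‖ ^ 2))
        (‖x - p‖ ^ 2) +
      (fun r => Real.log (1 + (r / ‖q - p‖ ^ 2) ^ s) - (1 - s) * Real.log (r / ‖q - p‖ ^ 2))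
        (‖x - q‖ ^ 2) + - Real.log (‖q - p‖ ^ 2) : ℝ)) : ℂ) := by
    filter_upwards [isOpen_ne.mem_nhds hw, isOpen_ne.mem_nhds hw'] with x hx hx'
    rw [Rho_log hpq hx hx']
  have hev2 := hev.eventuallyEq_nhds
  have e1 : lev (fun x => Real.log (rhoPQ p q s x)) w = lev (fun x =>
      (fun r => Real.log (1 + (r / ‖q - p‖ ^ 2) ^ s) - (1 - s) * Real.log (r / ‖q - p‖ ^ 2))
        (‖x - p‖ ^ 2) +
      (fun r => Real.log (1 + (r / ‖q - p‖ ^ 2) ^ s) - (1 - s) * Real.log (r / ‖q - p‖ ^ 2))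
        (‖x - q‖ ^ 2) + - Real.log (‖q - p‖ ^ 2)) w := by
    unfold lev
    congr 1
    apply wd_congr
    filter_upwards [hev2] with x hx
    exact wdb_congr hx
  have e2 := Rho_lev (ψ := fun r => Real.log (1 + (r / ‖q - p‖ ^ 2) ^ s)
      - (1 - s) * Real.log (r / ‖q - p‖ ^ 2))
    (ψ1 := fun r => (s * (1 - 1 / (1 + (r / ‖q - p‖ ^ 2) ^ s)) - (1 - s)) / r)
    (ψ2 := fun r => (s ^ 2 * (r / ‖q - p‖ ^ 2) ^ s / (1 + (r / ‖q - p‖ ^ 2) ^ s) ^ 2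
        - (s * (1 - 1 / (1 + (r / ‖q - p‖ ^ 2) ^ s)) - (1 - s))) / r ^ 2)
    (fun r hr => Rho_psi hβ r hr) (fun r hr => Rho_psi1 hβ r hr)
    (- Real.log (‖q - p‖ ^ 2)) hw hw'
  rw [e1, e2]
  have sq : ∀ a : ℝ, (a ^ 2 / ‖q - p‖ ^ 2) = (a / ‖q - p‖) ^ 2 := fun a => (div_pow _ _ _).symm
  have rp : ∀ x : ℝ, 0 < x → (x ^ 2) ^ s = x ^ (2 * s) := fun x hx => by
    rw [← Real.rpow_natCast x 2, ← Real.rpow_mul hx.le]
    norm_num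
  have K : ∀ a : ℝ, 0 < a → (fun r => (s * (1 - 1 / (1 + (r / ‖q - p‖ ^ 2) ^ s)) - (1 - s)) / r)
      (a ^ 2) + a ^ 2 * (fun r => (s ^ 2 * (r / ‖q - p‖ ^ 2) ^ s / (1 + (r / ‖q - p‖ ^ 2) ^ s) ^ 2
        - (s * (1 - 1 / (1 + (r / ‖q - p‖ ^ 2) ^ s)) - (1 - s))) / r ^ 2) (a ^ 2)
      = s ^ 2 / ‖q - p‖ ^ 2 * ((a / ‖q - p‖) ^ (2 * s) /
        ((a / ‖q - p‖) ^ 2 * (1 + (a / ‖q - p‖) ^ (2 * s)) ^ 2)) := fun a ha => by
    simp only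
    rw [sq, rp _ (div_pos ha hb)]
    have b0 : 0 < (a / ‖q - p‖) ^ (2 * s) := Real.rpow_pos_of_pos (div_pos ha hb) _
    have b1 : 1 + (a / ‖q - p‖) ^ (2 * s) ≠ 0 := by positivity
    generalize (a / ‖q - p‖) ^ (2 * s) = y at b0 b1
    field_simp
    ring
  rw [K _ hP, K _ hQ, ← mul_add]
  have e3 : rhoPQ p q s w = ((1 + (‖w - p‖ / ‖q - p‖) ^ (2 * s)) *
      (1 + (‖w - q‖ / ‖q - p‖) ^ (2 * s)) /
      ((‖w - p‖ / ‖q - p‖) * (‖w - q‖ / ‖q - p‖)) ^ (2 - 2 * s)) / ‖q - p‖ ^ 2 := by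
    simp only [rhoPQ, rho]
    rw [Rho_sub_one hpq, norm_div, norm_div]
  rw [e3]
  have hsum : 1 ≤ ‖w - p‖ / ‖q - p‖ + ‖w - q‖ / ‖q - p‖ := by
    rw [← add_div, le_div_iff₀ hb, one_mul]
    calc ‖q - p‖ = ‖(w - p) - (w - q)‖ := by ring_nf
      _ ≤ ‖w - p‖ + ‖w - q‖ := norm_sub_le _ _
  generalize ‖w - p‖ / ‖q - p‖ = X at *
  generalize ‖w - q‖ / ‖q - p‖ = Y at *
  have nn : ∀ Z : ℝ, 0 < Z → 0 ≤ Z ^ (2 * s) / (Z ^ 2 * (1 + Z ^ (2 * s)) ^ 2) := fun Z hZ => by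
    have := Real.rpow_pos_of_pos hZ (2 * s)
    positivity
  have fin : 1 / 64 * ((1 + X ^ (2 * s)) * (1 + Y ^ (2 * s)) / (X * Y) ^ (2 - 2 * s)) ≤
      X ^ (2 * s) / (X ^ 2 * (1 + X ^ (2 * s)) ^ 2) +
      Y ^ (2 * s) / (Y ^ 2 * (1 + Y ^ (2 * s)) ^ 2) := by
    rcases le_total X Y with hh | hh
    · have := Rho_ineq hX (by linarith) hh hs hs'
      linarith [nn Y hY]
    · have := Rho_ineq hY (by linarith) hh hs hs'
      rw [mul_comm (1 + Y ^ (2 * s)), mul_comm Y X] at this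
      linarith [nn X hX]
  calc s ^ 2 / 64 * ((1 + X ^ (2 * s)) * (1 + Y ^ (2 * s)) / (X * Y) ^ (2 - 2 * s) / ‖q - p‖ ^ 2)
      = s ^ 2 / ‖q - p‖ ^ 2 *
        (1 / 64 * ((1 + X ^ (2 * s)) * (1 + Y ^ (2 * s)) / (X * Y) ^ (2 - 2 * s))) := by ring
    _ ≤ _ := mul_le_mul_of_nonneg_left fin (by positivity)

private theorem Rho_near0 {x : ℂ} (hs : 0 < s) (hs' : s ≤ 1 / 5) (hx : x ≠ 0) (h : ‖x‖ ≤ 1 / 2) :
    1 ≤ rho s x ∧ (3 / 2 : ℝ) ^ (-(2 - 2 * s)) * ‖x‖ ^ (-(2 - 2 * s)) ≤ rho s x := by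
  have hX : 0 < ‖x‖ := norm_pos_iff.2 hx
  have hY : ‖x - 1‖ ≤ 3 / 2 := by
    calc ‖x - 1‖ ≤ ‖x‖ + ‖(1 : ℂ)‖ := norm_sub_le _ _
      _ ≤ 3 / 2 := by rw [norm_one]; linarith
  have hY0 : 0 < ‖x - 1‖ := by
    have : ‖(1 : ℂ)‖ ≤ ‖x‖ + ‖x - 1‖ := by
      calc ‖(1 : ℂ)‖ = ‖x - (x - 1)‖ := by ring_nf
        _ ≤ ‖x‖ + ‖x - 1‖ := norm_sub_le _ _
    rw [norm_one] at this
    linarith
  have b0 : 0 < ‖x‖ ^ (2 * s) := Real.rpow_pos_of_pos hX _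
  have b1 : 0 < ‖x - 1‖ ^ (2 * s) := Real.rpow_pos_of_pos hY0 _
  have b2 : 0 < (‖x‖ * ‖x - 1‖) ^ (2 - 2 * s) := Real.rpow_pos_of_pos (by positivity) _
  have num : (1 : ℝ) ≤ (1 + ‖x‖ ^ (2 * s)) * (1 + ‖x - 1‖ ^ (2 * s)) := by nlinarith
  have g : 1 / (‖x‖ * ‖x - 1‖) ^ (2 - 2 * s) ≤ rho s x := by
    unfold rho
    exact div_le_div_of_nonneg_right num b2.le
  constructor
  · refine le_trans ?_ g
    rw [le_div_iff₀ b2, one_mul]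
    exact Real.rpow_le_one (by positivity) (by nlinarith) (by linarith)
  · refine le_trans ?_ g
    rw [← Real.mul_rpow (by norm_num) hX.le, Real.rpow_neg (by positivity), ← one_div]
    apply one_div_le_one_div_of_le b2
    apply Real.rpow_le_rpow (by positivity) _ (by linarith)
    nlinarith

/-- Near `p` (in the disc of half the distance) the density is at least `1/‖q-p‖²` … -/
theorem rhoPQ_near (hpq : p ≠ q) (hs : 0 < s) (hs' : s ≤ 1 / 5) (hw : w ≠ p)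
    (h : ‖w - p‖ ≤ ‖q - p‖ / 2) : 1 / ‖q - p‖ ^ 2 ≤ rhoPQ p q s w := by
  have h0 : q - p ≠ 0 := sub_ne_zero.2 hpq.symm
  have hb : 0 < ‖q - p‖ := norm_pos_iff.2 h0
  have hx : (w - p) / (q - p) ≠ 0 := div_ne_zero (sub_ne_zero.2 hw) h0
  have hn : ‖(w - p) / (q - p)‖ ≤ 1 / 2 := by
    rw [norm_div, div_le_iff₀ hb]
    linarith
  exact div_le_div_of_nonneg_right (Rho_near0 hs hs' hx hn).1 (by positivity)

/-- … and at least `c ‖w-p‖^{-(2-2s)}`. -/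
theorem rhoPQ_near' (hpq : p ≠ q) (hs : 0 < s) (hs' : s ≤ 1 / 5) :
    ∃ c > 0, ∀ w, w ≠ p → ‖w - p‖ ≤ ‖q - p‖ / 2 → c * ‖w - p‖ ^ (-(2 - 2 * s)) ≤ rhoPQ p q s w := by
  have h0 : q - p ≠ 0 := sub_ne_zero.2 hpq.symm
  have hb : 0 < ‖q - p‖ := norm_pos_iff.2 h0
  refine ⟨(3 / 2 : ℝ) ^ (-(2 - 2 * s)) * (‖q - p‖ ^ (-(2 - 2 * s)))⁻¹ / ‖q - p‖ ^ 2, ?_, ?_⟩
  · have h1 : 0 < (3 / 2 : ℝ) ^ (-(2 - 2 * s)) := Real.rpow_pos_of_pos (by norm_num) _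
    have h2 : 0 < ‖q - p‖ ^ (-(2 - 2 * s)) := Real.rpow_pos_of_pos hb _
    positivity
  · intro w hw h
    have hx : (w - p) / (q - p) ≠ 0 := div_ne_zero (sub_ne_zero.2 hw) h0
    have hn : ‖(w - p) / (q - p)‖ ≤ 1 / 2 := by
      rw [norm_div, div_le_iff₀ hb]
      linarith
    have := (Rho_near0 hs hs' hx hn).2
    rw [norm_div, Real.div_rpow (norm_nonneg _) hb.le] at this
    unfold rhoPQ
    rw [le_div_iff₀ (by positivity)]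
    refine le_trans (le_of_eq ?_) this
    field_simp

/-- Near infinity. -/
theorem rhoPQ_far (hpq : p ≠ q) (hs : 0 < s) (hs' : s ≤ 1 / 5) :
    ∃ c > 0, ∃ R > 0, ∀ w, R ≤ ‖w‖ → c * ‖w‖ ^ (-4 : ℝ) ≤ rhoPQ p q s w := by
  have h0 : q - p ≠ 0 := sub_ne_zero.2 hpq.symm
  have hb : 0 < ‖q - p‖ := norm_pos_iff.2 h0
  refine ⟨‖q - p‖ ^ 2 / 16, by positivity, ‖p‖ + ‖q‖ + ‖q - p‖, by positivity, ?_⟩
  intro w hR
  have hp0 := norm_nonneg p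
  have hq0 := norm_nonneg q
  have hwpos : 0 < ‖w‖ := by linarith
  have p1 : ‖w - p‖ ≤ 2 * ‖w‖ := (norm_sub_le w p).trans (by linarith)
  have q1 : ‖w - q‖ ≤ 2 * ‖w‖ := (norm_sub_le w q).trans (by linarith)
  have p2 : ‖q - p‖ ≤ ‖w - p‖ := by
    have := norm_sub_norm_le w p
    linarith
  have q2 : ‖q - p‖ ≤ ‖w - q‖ := by
    have := norm_sub_norm_le w q
    linarith
  have hX : 1 ≤ ‖w - p‖ / ‖q - p‖ := by rwa [le_div_iff₀ hb, one_mul]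
  have hY : 1 ≤ ‖w - q‖ / ‖q - p‖ := by rwa [le_div_iff₀ hb, one_mul]
  have hX' : ‖w - p‖ / ‖q - p‖ ≤ 2 * ‖w‖ / ‖q - p‖ := div_le_div_of_nonneg_right p1 hb.le
  have hY' : ‖w - q‖ / ‖q - p‖ ≤ 2 * ‖w‖ / ‖q - p‖ := div_le_div_of_nonneg_right q1 hb.le
  simp only [rhoPQ, rho]
  rw [Rho_sub_one hpq, norm_div, norm_div]
  have hXY : 1 ≤ ‖w - p‖ / ‖q - p‖ * (‖w - q‖ / ‖q - p‖) := one_le_mul_of_one_le_of_one_le hX hY
  have hXY' : ‖w - p‖ / ‖q - p‖ * (‖w - q‖ / ‖q - p‖) ≤ (2 * ‖w‖ / ‖q - p‖) ^ 2 := by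
    rw [sq]
    exact mul_le_mul hX' hY' (by positivity) (by positivity)
  generalize ‖w - p‖ / ‖q - p‖ = X at *
  generalize ‖w - q‖ / ‖q - p‖ = Y at *
  have b0 : 0 < X ^ (2 * s) := Real.rpow_pos_of_pos (by linarith) _
  have b1 : 0 < Y ^ (2 * s) := Real.rpow_pos_of_pos (by linarith) _
  have b2 : 0 < (X * Y) ^ (2 - 2 * s) := Real.rpow_pos_of_pos (by linarith) _
  have num : (1 : ℝ) ≤ (1 + X ^ (2 * s)) * (1 + Y ^ (2 * s)) := by nlinarith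
  have g1 : (X * Y) ^ (2 - 2 * s) ≤ (X * Y) ^ (2 : ℝ) :=
    Real.rpow_le_rpow_of_exponent_le hXY (by linarith)
  have g2 : (X * Y) ^ (2 : ℝ) = (X * Y) ^ 2 := by norm_num
  have g3 : (X * Y) ^ 2 ≤ ((2 * ‖w‖ / ‖q - p‖) ^ 2) ^ 2 :=
    pow_le_pow_left₀ (by linarith) hXY' 2
  have g4 : (X * Y) ^ (2 - 2 * s) ≤ 16 * ‖w‖ ^ 4 / ‖q - p‖ ^ 4 := by
    calc (X * Y) ^ (2 - 2 * s) ≤ (X * Y) ^ 2 := by rw [← g2]; exact g1
      _ ≤ ((2 * ‖w‖ / ‖q - p‖) ^ 2) ^ 2 := g3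
      _ = 16 * ‖w‖ ^ 4 / ‖q - p‖ ^ 4 := by ring
  have g5 : ‖q - p‖ ^ 4 / (16 * ‖w‖ ^ 4) ≤
      (1 + X ^ (2 * s)) * (1 + Y ^ (2 * s)) / (X * Y) ^ (2 - 2 * s) := by
    have t1 : ‖q - p‖ ^ 4 / (16 * ‖w‖ ^ 4) ≤ 1 / (X * Y) ^ (2 - 2 * s) := by
      rw [div_le_div_iff₀ (by positivity) b2, one_mul]
      calc ‖q - p‖ ^ 4 * (X * Y) ^ (2 - 2 * s)
          ≤ ‖q - p‖ ^ 4 * (16 * ‖w‖ ^ 4 / ‖q - p‖ ^ 4) :=
            mul_le_mul_of_nonneg_left g4 (by positivity)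
        _ = 16 * ‖w‖ ^ 4 := by field_simp
    exact t1.trans (div_le_div_of_nonneg_right num b2.le)
  have g6 : ‖w‖ ^ (-4 : ℝ) = 1 / ‖w‖ ^ 4 := by
    rw [Real.rpow_neg hwpos.le, one_div]
    norm_num
  rw [g6, le_div_iff₀ (by positivity)]
  refine le_trans (le_of_eq ?_) g5
  field_simp

end KQ
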