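import Pool.Agent.Lib_MP_3ea2ac_kq.Rho

/-! One-dimensional data: a slice with its metric. -/

open MeasureTheory Complex Set Topology Filter
open scoped ComplexConjugate ContDiff ComplexOrder

namespace KQ

/-- The open set `S ⊆ ℂ` with the complete metric `G |dw|²`, the comparison density `D` of finite
total mass, `G ≤ C D`, `0 ≤ ∂∂̄ log D ≤ a G`, and cutoffs `η`. -/
structure SliceData (S : Set ℂ) (D G : ℂ → ℝ) (a C : ℝ) (η : ℕ → ℂ → ℝ) : Prop where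
  isOpen : IsOpen S
  nonempty : S.Nonempty
  a_nonneg : 0 ≤ a
  C_nonneg : 0 ≤ C
  Dpos : ∀ w ∈ S, 0 < D w
  Dsmooth : ContDiffOn ℝ ∞ D S
  Gcont : ContinuousOn G S
  Gnonneg : ∀ w ∈ S, 0 ≤ G w
  GleD : ∀ w ∈ S, G w ≤ C * D w
  lev_nonneg : ∀ w ∈ S, 0 ≤ lev (fun x => Real.log (D x)) w
  lev_le : ∀ w ∈ S, lev (fun x => Real.log (D x)) w ≤ a * G w
  integrable : IntegrableOn D S
  ηsmooth : ∀ k, ContDiff ℝ ∞ (η k)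
  ηcpt : ∀ k, HasCompactSupport (η k)
  ηsub : ∀ k, tsupport (η k) ⊆ S
  ηnonneg : ∀ k w, 0 ≤ η k w
  ηle_one : ∀ k w, η k w ≤ 1
  ηone : ∀ K : Set ℂ, IsCompact K → K ⊆ S → ∀ᶠ k in atTop, ∀ w ∈ K, η k w = 1
  ηgrad : ∀ k, ∀ w ∈ S, ∀ v : ℂ, (fderiv ℝ (η k) w v) ^ 2 ≤ G w * ‖v‖ ^ 2 / ((k : ℝ) + 1) ^ 2

end KQ
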