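import Pool.Agent.Lib_MP_3ea2ac_kq.Setup
import Pool.Agent.Lib_MP_3ea2ac_kq.SD

/-! Two-dimensional data: what the slice analysis needs to know about an open set of `ℂ × ℂ`
(either `M` itself, or a coordinate 2-plane slice of a higher-dimensional `M`). -/

open MeasureTheory Complex Set Topology Filter
open scoped ComplexConjugate ContDiff ComplexOrder

namespace KQ

/-- `T_{i\bar j} = ∂_i ∂_{\bar j} log D`. -/
noncomputable def TT (D : ℂ × ℂ → ℝ) (i j : Fin 2) (x : ℂ × ℂ) : ℂ :=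
  pd i (pdb j (fun y => ((Real.log (D y) : ℝ) : ℂ))) x

/-- The complex-valued cutoff. -/
noncomputable def cη (η : ℕ → ℂ × ℂ → ℝ) (k : ℕ) (y : ℂ × ℂ) : ℂ := ((η k y : ℝ) : ℂ)

/-- `E`, `G` are the squared lengths of `∂/∂z`, `∂/∂w`, `D` is the density; `t₁(z)`, `t₂(w)` are the
constants of the Schwarz lemma (continuous away from the omitted values). -/
structure PlaneData (M : Set (ℂ × ℂ)) (D E G : ℂ × ℂ → ℝ) (a τ : ℝ) (t₁ t₂ : ℂ → ℝ)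
    (a₁ b₁ a₂ b₂ : ℂ) (η : ℕ → ℂ × ℂ → ℝ) : Prop where
  isOpen : IsOpen M
  a_nonneg : 0 ≤ a
  τ_nonneg : 0 ≤ τ
  ne₁ : a₁ ≠ b₁
  ne₂ : a₂ ≠ b₂
  omit₁ : ∀ x ∈ M, x.1 ≠ a₁ ∧ x.1 ≠ b₁
  omit₂ : ∀ x ∈ M, x.2 ≠ a₂ ∧ x.2 ≠ b₂
  t₁cont : ContinuousOn t₁ ({a₁, b₁}ᶜ : Set ℂ)
  t₂cont : ContinuousOn t₂ ({a₂, b₂}ᶜ : Set ℂ)
  t₁nonneg : ∀ z, 0 ≤ t₁ z
  t₂nonneg : ∀ w, 0 ≤ t₂ w
  Dpos : ∀ x ∈ M, 0 < D x
  Dsmooth : ContDiffOn ℝ ∞ D M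
  Econt : ContinuousOn E M
  Gcont : ContinuousOn G M
  Enonneg : ∀ x ∈ M, 0 ≤ E x
  Gnonneg : ∀ x ∈ M, 0 ≤ G x
  GleD : ∀ x ∈ M, G x ≤ τ * t₁ x.1 * D x
  EleD : ∀ x ∈ M, E x ≤ τ * t₂ x.2 * D x
  T11 : ∀ x ∈ M, 0 ≤ (TT D 1 1 x).re ∧ (TT D 1 1 x).re ≤ a * G x
  T00 : ∀ x ∈ M, 0 ≤ (TT D 0 0 x).re ∧ (TT D 0 0 x).re ≤ a * E x
  integrable : IntegrableOn D M
  ηsmooth : ∀ k, ContDiff ℝ ∞ (η k)
  ηcpt : ∀ k, HasCompactSupport (η k)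
  ηsub : ∀ k, tsupport (η k) ⊆ M
  ηnonneg : ∀ k x, 0 ≤ η k x
  ηle_one : ∀ k x, η k x ≤ 1
  ηone : ∀ K : Set (ℂ × ℂ), IsCompact K → K ⊆ M → ∀ᶠ k in atTop, ∀ x ∈ K, η k x = 1
  ηgrad₁ : ∀ k, ∀ x ∈ M, ∀ v : ℂ,
    (fderiv ℝ (η k) x (v, 0)) ^ 2 ≤ E x * ‖v‖ ^ 2 / ((k : ℝ) + 1) ^ 2
  ηgrad₂ : ∀ k, ∀ x ∈ M, ∀ v : ℂ,
    (fderiv ℝ (η k) x (0, v)) ^ 2 ≤ G x * ‖v‖ ^ 2 / ((k : ℝ) + 1) ^ 2
  err₁ : ∀ k, ∀ x ∈ M, ‖pdb 1 (cη η k) x * TT D 1 0 x - pdb 0 (cη η k) x * TT D 1 1 x‖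
    ≤ a / ((k : ℝ) + 1) * Real.sqrt (τ * G x * D x)
  err₂ : ∀ k, ∀ x ∈ M, ‖pdb 0 (cη η k) x * TT D 0 1 x - pdb 1 (cη η k) x * TT D 0 0 x‖
    ≤ a / ((k : ℝ) + 1) * Real.sqrt (τ * E x * D x)

variable {M : Set (ℂ × ℂ)} {D E G : ℂ × ℂ → ℝ} {a τ : ℝ} {t₁ t₂ : ℂ → ℝ} {a₁ b₁ a₂ b₂ : ℂ}
  {η : ℕ → ℂ × ℂ → ℝ}

private theorem PD_fderiv {X : Type*} [NormedAddCommGroup X] [NormedSpace ℝ X] (f : ℂ × ℂ → X)
    (x e : ℂ × ℂ) : fderiv ℝ (f ∘ Prod.swap) x e = fderiv ℝ f x.swap e.swap := by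
  have h := (ContinuousLinearEquiv.prodComm ℝ ℂ ℂ).comp_right_fderiv (f := f) (x := x)
  have h2 : (f ∘ (ContinuousLinearEquiv.prodComm ℝ ℂ ℂ : ℂ × ℂ → ℂ × ℂ)) = f ∘ Prod.swap := rfl
  rw [h2] at h
  rw [h]
  rfl

private theorem PD_pd (f : ℂ × ℂ → ℂ) (i : Fin 2) :
    pd i (f ∘ Prod.swap) = pd (1 - i) f ∘ Prod.swap := by
  funext x
  fin_cases i <;> simp [pd, wd, ex, ey, PD_fderiv]

private theorem PD_pdb (f : ℂ × ℂ → ℂ) (i : Fin 2) :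
    pdb i (f ∘ Prod.swap) = pdb (1 - i) f ∘ Prod.swap := by
  funext x
  fin_cases i <;> simp [pdb, wdb, ex, ey, PD_fderiv]

private theorem PD_TT (D : ℂ × ℂ → ℝ) (i j : Fin 2) (x : ℂ × ℂ) :
    TT (D ∘ Prod.swap) i j x = TT D (1 - i) (1 - j) x.swap := by
  have h1 : (fun y : ℂ × ℂ => ((Real.log ((D ∘ Prod.swap) y) : ℝ) : ℂ)) =
      (fun y => ((Real.log (D y) : ℝ) : ℂ)) ∘ Prod.swap := rfl
  simp only [TT]
  rw [h1, PD_pdb, PD_pd]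
  rfl

private theorem PD_cη (η : ℕ → ℂ × ℂ → ℝ) (k : ℕ) :
    cη (fun k => η k ∘ Prod.swap) k = cη η k ∘ Prod.swap := rfl

private theorem PD_tsupport (f : ℂ × ℂ → ℝ) :
    tsupport (f ∘ Prod.swap) = Prod.swap ⁻¹' tsupport f :=
  tsupport_comp_eq_preimage f (Homeomorph.prodComm ℂ ℂ)

/-- Exchange of the coordinates. -/
theorem PlaneData.swap (P : PlaneData M D E G a τ t₁ t₂ a₁ b₁ a₂ b₂ η) :
    PlaneData (Prod.swap ⁻¹' M) (D ∘ Prod.swap) (G ∘ Prod.swap) (E ∘ Prod.swap) a τ t₂ t₁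
      a₂ b₂ a₁ b₁ (fun k => η k ∘ Prod.swap) := by
  have hmaps : MapsTo (Prod.swap : ℂ × ℂ → ℂ × ℂ) (Prod.swap ⁻¹' M) M := fun x hx => hx
  have hsm : ContDiff ℝ ∞ (Prod.swap : ℂ × ℂ → ℂ × ℂ) := contDiff_snd.prodMk contDiff_fst
  have e01 : (1 : Fin 2) - 0 = 1 := rfl
  have e11 : (1 : Fin 2) - 1 = 0 := rfl
  exact
  { isOpen := P.isOpen.preimage continuous_swap
    a_nonneg := P.a_nonneg
    τ_nonneg := P.τ_nonneg
    ne₁ := P.ne₂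
    ne₂ := P.ne₁
    omit₁ := fun x hx => P.omit₂ x.swap hx
    omit₂ := fun x hx => P.omit₁ x.swap hx
    t₁cont := P.t₂cont
    t₂cont := P.t₁cont
    t₁nonneg := P.t₂nonneg
    t₂nonneg := P.t₁nonneg
    Dpos := fun x hx => P.Dpos x.swap hx
    Dsmooth := P.Dsmooth.comp hsm.contDiffOn hmaps
    Econt := P.Gcont.comp continuous_swap.continuousOn hmaps
    Gcont := P.Econt.comp continuous_swap.continuousOn hmaps
    Enonneg := fun x hx => P.Gnonneg x.swap hx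
    Gnonneg := fun x hx => P.Enonneg x.swap hx
    GleD := fun x hx => P.EleD x.swap hx
    EleD := fun x hx => P.GleD x.swap hx
    T11 := fun x hx => by
      rw [PD_TT, e11]
      exact P.T00 x.swap hx
    T00 := fun x hx => by
      rw [PD_TT, e01]
      exact P.T11 x.swap hx
    integrable := by
      have h1 : MeasurePreserving (Prod.swap : ℂ × ℂ → ℂ × ℂ) volume volume :=
        Measure.measurePreserving_swap
      exact (h1.integrableOn_comp_preimage MeasurableEquiv.prodComm.measurableEmbedding).2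
        P.integrable
    ηsmooth := fun k => (P.ηsmooth k).comp hsm
    ηcpt := fun k => (P.ηcpt k).comp_homeomorph (Homeomorph.prodComm ℂ ℂ)
    ηsub := fun k => by
      rw [PD_tsupport]
      exact preimage_mono (P.ηsub k)
    ηnonneg := fun k x => P.ηnonneg k x.swap
    ηle_one := fun k x => P.ηle_one k x.swap
    ηone := fun K hK hKM => by
      have h1 : IsCompact (Prod.swap '' K) := hK.image continuous_swap
      have h2 : Prod.swap '' K ⊆ M := by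
        rintro _ ⟨y, hy, rfl⟩
        exact hKM hy
      filter_upwards [P.ηone _ h1 h2] with k hk x hx
      exact hk x.swap (mem_image_of_mem _ hx)
    ηgrad₁ := fun k x hx v => by
      rw [PD_fderiv]
      exact P.ηgrad₂ k x.swap hx v
    ηgrad₂ := fun k x hx v => by
      rw [PD_fderiv]
      exact P.ηgrad₁ k x.swap hx v
    err₁ := fun k x hx => by
      rw [PD_cη, PD_pdb, PD_pdb, PD_TT, PD_TT, e01, e11]
      exact P.err₂ k x.swap hx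
    err₂ := fun k x hx => by
      rw [PD_cη, PD_pdb, PD_pdb, PD_TT, PD_TT, e01, e11]
      exact P.err₁ k x.swap hx }

end KQ
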