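import Pool.Agent.Lib_MP_3ea2ac_kq.SD3
import Pool.Agent.Lib_MP_3ea2ac_kq.LogP

open MeasureTheory Complex Set Topology Filter
open scoped ComplexConjugate ContDiff ComplexOrder

namespace KQ

variable {S : Set ℂ} {D G : ℂ → ℝ} {a C : ℝ} {η : ℕ → ℂ → ℝ}

/-- `lev D ≥ 0` on `S` (`D = exp (log D)`). -/
theorem SliceData.lev_D_nonneg (sd : SliceData S D G a C η) {w : ℂ} (hw : w ∈ S) :
    0 ≤ lev D w := by
  have hSo : S ∈ 𝓝 w := sd.isOpen.mem_nhds hw
  have hψ : ContDiffOn ℝ ∞ (fun x => Real.log (D x)) S :=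
    sd.Dsmooth.log fun x hx => (sd.Dpos x hx).ne'
  have hψc : ContDiffOn ℝ ∞ (fun x => ((Real.log (D x) : ℝ) : ℂ)) S :=
    Complex.ofRealCLM.contDiff.comp_contDiffOn hψ
  have hDc : ContDiffOn ℝ ∞ (fun x => ((D x : ℝ) : ℂ)) S :=
    Complex.ofRealCLM.contDiff.comp_contDiffOn sd.Dsmooth
  have hψd : ∀ x ∈ S, DifferentiableAt ℝ (fun y => Real.log (D y)) x := fun x hx =>
    (hψ.contDiffAt (sd.isOpen.mem_nhds hx)).differentiableAt (by simp)
  have hcongr : ∀ x ∈ S, (fun y => ((D y : ℝ) : ℂ)) =ᶠ[𝓝 x]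
      (fun y => ((Real.exp (Real.log (D y)) : ℝ) : ℂ)) := by
    intro x hx
    filter_upwards [sd.isOpen.mem_nhds hx] with y hy
    rw [Real.exp_log (sd.Dpos y hy)]
  have hb : ∀ x ∈ S, dwb (fun y => ((D y : ℝ) : ℂ)) x =
      (D x : ℂ) * dwb (fun y => ((Real.log (D y) : ℝ) : ℂ)) x := by
    intro x hx
    refine (wdb_congr (hcongr x hx)).trans ?_
    refine (wdb_ofReal_comp (hψd x hx) (Real.hasDerivAt_exp _)).trans ?_
    rw [Real.exp_log (sd.Dpos x hx)]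
  have hd : dw (fun y => ((D y : ℝ) : ℂ)) w =
      (D w : ℂ) * dw (fun y => ((Real.log (D y) : ℝ) : ℂ)) w := by
    refine (wd_congr (hcongr w hw)).trans ?_
    refine (wd_ofReal_comp (hψd w hw) (Real.hasDerivAt_exp _)).trans ?_
    rw [Real.exp_log (sd.Dpos w hw)]
  have hev : dwb (fun y => ((D y : ℝ) : ℂ)) =ᶠ[𝓝 w]
      (fun x => (D x : ℂ) * dwb (fun y => ((Real.log (D y) : ℝ) : ℂ)) x) := by
    filter_upwards [hSo] with x hx using hb x hx
  have hDd : DifferentiableAt ℝ (fun x => ((D x : ℝ) : ℂ)) w :=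
    (hDc.contDiffAt hSo).differentiableAt (by simp)
  have hbd : DifferentiableAt ℝ (dwb (fun y => ((Real.log (D y) : ℝ) : ℂ))) w :=
    ((contDiffOn_wdb sd.isOpen hψc).contDiffAt hSo).differentiableAt (by simp)
  have hconj : dw (fun y => ((Real.log (D y) : ℝ) : ℂ)) w =
      conj (dwb (fun y => ((Real.log (D y) : ℝ) : ℂ)) w) := by
    have h1 := wd_conj (e := (1 : ℂ)) (e' := I) (f := fun y => ((Real.log (D y) : ℝ) : ℂ)) (x := w)
    simp only [conj_ofReal] at h1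
    exact h1
  have h2 : dw (dwb (fun y => ((D y : ℝ) : ℂ))) w =
      (D w : ℂ) * ((Complex.normSq (dwb (fun y => ((Real.log (D y) : ℝ) : ℂ)) w) : ℝ) : ℂ) +
        (D w : ℂ) * dw (dwb (fun y => ((Real.log (D y) : ℝ) : ℂ))) w := by
    refine (wd_congr hev).trans ?_
    refine (wd_mul hDd hbd).trans ?_
    have h1 : wd (1 : ℂ) I (fun y => ((D y : ℝ) : ℂ)) w =
        (D w : ℂ) * conj (dwb (fun y => ((Real.log (D y) : ℝ) : ℂ)) w) := by
      rw [← hconj]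
      exact hd
    rw [h1, mul_assoc, Complex.normSq_eq_conj_mul_self]
  have h3 := sd.lev_nonneg w hw
  have h4 := sd.Dpos w hw
  unfold lev at h3 ⊢
  rw [h2, Complex.add_re, Complex.re_ofReal_mul, Complex.re_ofReal_mul, Complex.ofReal_re]
  have h5 := Complex.normSq_nonneg (dwb (fun y => ((Real.log (D y) : ℝ) : ℂ)) w)
  positivity

/-- the integral of `D` over a closed ball inside `S` -/
private theorem SD4_ball (sd : SliceData S D G a C η) {w : ℂ} {r : ℝ}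
    (h : Metric.closedBall w r ⊆ S) :
    ∫ y in Metric.closedBall w r, D y ≤ ∫ y in S, D y := by
  apply setIntegral_mono_set sd.integrable
  · filter_upwards [self_mem_ae_restrict sd.isOpen.measurableSet] with y hy
    exact (sd.Dpos y hy).le
  · exact LE.le.eventuallyLE h

private theorem SD4_int_nonneg (sd : SliceData S D G a C η) : 0 ≤ ∫ y in S, D y :=
  setIntegral_nonneg sd.isOpen.measurableSet fun y hy => (sd.Dpos y hy).le

/-- a punctured ball around a point of the complement lies in `S` -/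
private theorem SD4_punct (sd : SliceData S D G a C η) (p : ℂ) :
    ∃ r > 0, ∀ w, w ≠ p → ‖w - p‖ < r → w ∈ S := by
  have h1 : (Sᶜ \ {p}).Finite := sd.finite.subset Set.sdiff_subset
  have h2 : IsClosed (Sᶜ \ {p}) := h1.isClosed
  have h3 : (Sᶜ \ {p})ᶜ ∈ 𝓝 p := h2.isOpen_compl.mem_nhds (by simp)
  obtain ⟨r, hr, hr'⟩ := Metric.mem_nhds_iff.1 h3
  refine ⟨r, hr, fun w hw hwr => ?_⟩
  have h4 : w ∈ Metric.ball p r := by rwa [Metric.mem_ball, dist_eq_norm]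
  have h5 := hr' h4
  by_contra hcon
  exact h5 ⟨hcon, hw⟩

/-- Upper bound near a puncture: `log D ≤ 2 log (1/|w-p|) + C`. -/
theorem SliceData.upper (sd : SliceData S D G a C η) {p : ℂ} (hp : p ∉ S) :
    ∃ C₁, ∃ r > 0, ∀ w, w ≠ p → ‖w - p‖ < r → w ∈ S ∧
      Real.log (D w) ≤ - 2 * Real.log ‖w - p‖ + C₁ := by
  obtain ⟨C₀, hC₀, hsub⟩ := submean
  obtain ⟨r₀, hr₀, hS⟩ := SD4_punct sd p
  refine ⟨Real.log (4 * C₀ * ((∫ y in S, D y) + 1)), r₀ / 2, by positivity, fun w hw hwr => ?_⟩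
  have hwS : w ∈ S := hS w hw (by linarith)
  refine ⟨hwS, ?_⟩
  have hn : 0 < ‖w - p‖ := norm_pos_iff.2 (sub_ne_zero.2 hw)
  have hI := SD4_int_nonneg sd
  have hball : Metric.closedBall w (‖w - p‖ / 2) ⊆ S := by
    intro y hy
    rw [Metric.mem_closedBall, dist_eq_norm] at hy
    apply hS y
    · rintro rfl
      rw [norm_sub_rev] at hy
      linarith
    · have h1 : ‖y - p‖ ≤ ‖y - w‖ + ‖w - p‖ := by
        have := norm_add_le (y - w) (w - p)
        rwa [sub_add_sub_cancel] at this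
      linarith
  have h1 := hsub S sd.isOpen D sd.Dsmooth (fun x hx => (sd.Dpos x hx).le)
    (fun x hx => sd.lev_D_nonneg hx) w (‖w - p‖ / 2) (by positivity) hball
  have h2 := SD4_ball sd hball
  have h3 : D w ≤ 4 * C₀ * ((∫ y in S, D y) + 1) / ‖w - p‖ ^ 2 := by
    calc D w ≤ C₀ / (‖w - p‖ / 2) ^ 2 * ∫ y in Metric.closedBall w (‖w - p‖ / 2), D y := h1
      _ ≤ C₀ / (‖w - p‖ / 2) ^ 2 * ((∫ y in S, D y) + 1) := by
          apply mul_le_mul_of_nonneg_left _ (by positivity)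
          linarith
      _ = _ := by
          field_simp
          ring
  have h4 : Real.log (D w) ≤ Real.log (4 * C₀ * ((∫ y in S, D y) + 1) / ‖w - p‖ ^ 2) :=
    Real.log_le_log (sd.Dpos w hwS) h3
  rw [Real.log_div (by positivity) (by positivity), Real.log_pow] at h4
  push_cast at h4
  linarith

/-- Lower bound near a puncture, for every exponent below `2`. -/
theorem SliceData.lower (sd : SliceData S D G a C η) {p q : ℂ} (hp : p ∉ S) (hq : q ∉ S)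
    (hpq : p ≠ q) {δ : ℝ} (hδ : 0 < δ) :
    ∃ C₁, ∃ r > 0, ∀ w, w ≠ p → ‖w - p‖ < r → w ∈ S ∧
      - (2 - δ) * Real.log ‖w - p‖ - C₁ ≤ Real.log (D w) := by
  obtain ⟨s, hs⟩ : ∃ s : ℝ, s = min (δ / 2) (1 / 5) := ⟨_, rfl⟩
  have hs0 : 0 < s := by rw [hs]; exact lt_min (by linarith) (by norm_num)
  have hs1 : s ≤ 1 / 5 := by rw [hs]; exact min_le_right _ _
  have hs2 : s ≤ δ / 2 := by rw [hs]; exact min_le_left _ _
  obtain ⟨c, hc, hnear⟩ := rhoPQ_near' hpq hs0 hs1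
  obtain ⟨r₀, hr₀, hS⟩ := SD4_punct sd p
  have hqp : 0 < ‖q - p‖ := norm_pos_iff.2 (sub_ne_zero.2 hpq.symm)
  refine ⟨- Real.log (s ^ 2 / 64 * c / (a * C)), min r₀ (min (‖q - p‖ / 2) 1),
    lt_min hr₀ (lt_min (by positivity) one_pos), fun w hw hwr => ?_⟩
  have hwS : w ∈ S := hS w hw (lt_of_lt_of_le hwr (min_le_left _ _))
  refine ⟨hwS, ?_⟩
  have hn : 0 < ‖w - p‖ := norm_pos_iff.2 (sub_ne_zero.2 hw)
  have hr1 : ‖w - p‖ ≤ ‖q - p‖ / 2 :=
    (lt_of_lt_of_le hwr ((min_le_right _ _).trans (min_le_left _ _))).le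
  have hr2 : ‖w - p‖ ≤ 1 :=
    (lt_of_lt_of_le hwr ((min_le_right _ _).trans (min_le_right _ _))).le
  have h1 := hnear w hw hr1
  have h2 := sd.schwarz hp hq hpq hs0 hs1 hwS
  have hD := sd.Dpos w hwS
  have hpow : 0 < ‖w - p‖ ^ (-(2 - 2 * s)) := Real.rpow_pos_of_pos hn _
  have h3 : s ^ 2 / 64 * (c * ‖w - p‖ ^ (-(2 - 2 * s))) ≤ a * C * D w :=
    (mul_le_mul_of_nonneg_left h1 (by positivity)).trans h2
  have haC : 0 < a * C := by
    by_contra hcon
    rw [not_lt] at hcon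
    have h4 : a * C * D w ≤ 0 := mul_nonpos_of_nonpos_of_nonneg hcon hD.le
    have h5 : 0 < s ^ 2 / 64 * (c * ‖w - p‖ ^ (-(2 - 2 * s))) := by positivity
    linarith
  have h4 : s ^ 2 / 64 * c / (a * C) * ‖w - p‖ ^ (-(2 - 2 * s)) ≤ D w := by
    rw [div_mul_eq_mul_div, div_le_iff₀ haC]
    linarith
  have hK : 0 < s ^ 2 / 64 * c / (a * C) := by positivity
  have h5 : Real.log (s ^ 2 / 64 * c / (a * C) * ‖w - p‖ ^ (-(2 - 2 * s))) ≤ Real.log (D w) :=
    Real.log_le_log (by positivity) h4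
  rw [Real.log_mul hK.ne' hpow.ne', Real.log_rpow hn] at h5
  have h6 : Real.log ‖w - p‖ ≤ 0 := Real.log_nonpos hn.le hr2
  have h7 : 0 ≤ (δ - 2 * s) * (- Real.log ‖w - p‖) := mul_nonneg (by linarith) (by linarith)
  nlinarith

/-- Near infinity `|log D| ≤ C log |w|`. -/
theorem SliceData.far (sd : SliceData S D G a C η) {p q : ℂ} (hp : p ∉ S) (hq : q ∉ S)
    (hpq : p ≠ q) :
    ∃ C₁ > 0, ∃ R > 1, ∀ w, R ≤ ‖w‖ → w ∈ S ∧ |Real.log (D w)| ≤ C₁ * Real.log ‖w‖ := by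
  obtain ⟨C₀, hC₀, hsub⟩ := submean
  obtain ⟨R₀, hR₀⟩ := sd.finite.isBounded.subset_closedBall (0 : ℂ)
  obtain ⟨c, hc, R₁, hR₁, hfar⟩ := rhoPQ_far (s := 1 / 5) hpq (by norm_num) le_rfl
  have hI := SD4_int_nonneg sd
  obtain ⟨A, hA⟩ : ∃ A : ℝ, A = Real.log (C₀ * ((∫ y in S, D y) + 1)) := ⟨_, rfl⟩
  obtain ⟨B, hB⟩ : ∃ B : ℝ, B = Real.log ((1 / 5 : ℝ) ^ 2 / 64 * c / (a * C)) := ⟨_, rfl⟩
  have he : (1 : ℝ) < Real.exp 1 := by
    rw [← Real.exp_zero]
    exact Real.exp_lt_exp.2 (by norm_num)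
  refine ⟨|A| + |B| + 4, by positivity, max (Real.exp 1) (max (R₀ + 2) R₁),
    lt_of_lt_of_le he (le_max_left _ _), fun w hw => ?_⟩
  have hw1 : Real.exp 1 ≤ ‖w‖ := (le_max_left _ _).trans hw
  have hw2 : R₀ + 2 ≤ ‖w‖ := ((le_max_left _ _).trans (le_max_right _ _)).trans hw
  have hw3 : R₁ ≤ ‖w‖ := ((le_max_right _ _).trans (le_max_right _ _)).trans hw
  have hn : 0 < ‖w‖ := by linarith
  have hlog : 1 ≤ Real.log ‖w‖ := by
    rw [Real.le_log_iff_exp_le hn]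
    exact hw1
  have hball : Metric.closedBall w 1 ⊆ S := by
    intro y hy
    rw [Metric.mem_closedBall, dist_eq_norm] at hy
    by_contra hcon
    have h1 := hR₀ hcon
    rw [Metric.mem_closedBall, dist_zero_right] at h1
    have h2 : ‖w‖ ≤ ‖y‖ + ‖y - w‖ := by
      have := norm_sub_le y (y - w)
      rwa [sub_sub_cancel] at this
    linarith
  have hwS : w ∈ S := hball (Metric.mem_closedBall_self one_pos.le)
  refine ⟨hwS, ?_⟩
  have hD := sd.Dpos w hwS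
  -- upper bound
  have h1 := hsub S sd.isOpen D sd.Dsmooth (fun x hx => (sd.Dpos x hx).le)
    (fun x hx => sd.lev_D_nonneg hx) w 1 one_pos hball
  have h2 := SD4_ball sd hball
  have h3 : D w ≤ C₀ * ((∫ y in S, D y) + 1) := by
    calc D w ≤ C₀ / 1 ^ 2 * ∫ y in Metric.closedBall w 1, D y := h1
      _ ≤ C₀ / 1 ^ 2 * ((∫ y in S, D y) + 1) := by
          apply mul_le_mul_of_nonneg_left _ (by positivity)
          linarith
      _ = _ := by ring
  have h4 : Real.log (D w) ≤ A := by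
    rw [hA]
    exact Real.log_le_log hD h3
  -- lower bound
  have h5 := hfar w hw3
  have h6 := sd.schwarz hp hq hpq (s := 1 / 5) (by norm_num) le_rfl hwS
  have hpow : 0 < ‖w‖ ^ (-4 : ℝ) := Real.rpow_pos_of_pos hn _
  have h7 : (1 / 5 : ℝ) ^ 2 / 64 * (c * ‖w‖ ^ (-4 : ℝ)) ≤ a * C * D w :=
    (mul_le_mul_of_nonneg_left h5 (by positivity)).trans h6
  have haC : 0 < a * C := by
    by_contra hcon
    rw [not_lt] at hcon
    have h8 : a * C * D w ≤ 0 := mul_nonpos_of_nonpos_of_nonneg hcon hD.le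
    have h9 : 0 < (1 / 5 : ℝ) ^ 2 / 64 * (c * ‖w‖ ^ (-4 : ℝ)) := by positivity
    linarith
  have h8 : (1 / 5 : ℝ) ^ 2 / 64 * c / (a * C) * ‖w‖ ^ (-4 : ℝ) ≤ D w := by
    rw [div_mul_eq_mul_div, div_le_iff₀ haC]
    linarith
  have hK : 0 < (1 / 5 : ℝ) ^ 2 / 64 * c / (a * C) := by positivity
  have h9 : Real.log ((1 / 5 : ℝ) ^ 2 / 64 * c / (a * C) * ‖w‖ ^ (-4 : ℝ)) ≤ Real.log (D w) :=
    Real.log_le_log (by positivity) h8
  rw [Real.log_mul hK.ne' hpow.ne', Real.log_rpow hn, ← hB] at h9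
  have hA1 := le_abs_self A
  have hB1 := neg_abs_le B
  have hA0 := abs_nonneg A
  have hB0 := abs_nonneg B
  rw [abs_le]
  constructor
  · nlinarith
  · nlinarith

end KQ
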