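import Pool.Agent.Lib_MP_3ea2ac_kq.W
import Pool.Agent.Lib_MP_3ea2ac_kq.Rho

/-! The hypotheses as one structure, scalar quantities, slices, cutoffs. -/

open MeasureTheory Complex Set Topology Filter
open scoped ComplexConjugate ContDiff ComplexOrder

namespace KQ

/-- `E = g_{0\bar 0}`. -/
noncomputable def gE (g : ℂ × ℂ → Matrix (Fin 2) (Fin 2) ℂ) (x : ℂ × ℂ) : ℝ := (g x 0 0).re
/-- `G = g_{1\bar 1}`. -/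
noncomputable def gG (g : ℂ × ℂ → Matrix (Fin 2) (Fin 2) ℂ) (x : ℂ × ℂ) : ℝ := (g x 1 1).re
/-- `D = det g`. -/
noncomputable def gD (g : ℂ × ℂ → Matrix (Fin 2) (Fin 2) ℂ) (x : ℂ × ℂ) : ℝ := (g x).det.re
/-- `T_{i\bar j} = ∂_i ∂_{\bar j} log det g`. -/
noncomputable def gT (g : ℂ × ℂ → Matrix (Fin 2) (Fin 2) ℂ) (i j : Fin 2) (x : ℂ × ℂ) : ℂ :=
  pd i (pdb j (fun y => ((Real.log (gD g y) : ℝ) : ℂ))) x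

/-- All hypotheses of the theorem. -/
structure Hyp (M : Set (ℂ × ℂ)) (g : ℂ × ℂ → Matrix (Fin 2) (Fin 2) ℂ) (a : ℝ)
    (a₁ b₁ a₂ b₂ : ℂ) : Prop where
  isOpen : IsOpen M
  conn : IsConnected M
  ne₁ : a₁ ≠ b₁
  ne₂ : a₂ ≠ b₂
  omit₁ : ∀ x ∈ M, x.1 ≠ a₁ ∧ x.1 ≠ b₁
  omit₂ : ∀ x ∈ M, x.2 ≠ a₂ ∧ x.2 ≠ b₂
  kahler : IsKahler M g
  complete : IsComplete M g
  ricci : ∀ x ∈ M, ∀ v, - a * hq (g x) v ≤ hq (ric g x) v ∧ hq (ric g x) v ≤ 0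
  volume : IntegrableOn (gD g) M

/-- The metric after exchanging the two coordinates. -/
noncomputable def swapg (g : ℂ × ℂ → Matrix (Fin 2) (Fin 2) ℂ) (x : ℂ × ℂ) :
    Matrix (Fin 2) (Fin 2) ℂ := fun i j => g x.swap (1 - i) (1 - j)

variable {M : Set (ℂ × ℂ)} {g : ℂ × ℂ → Matrix (Fin 2) (Fin 2) ℂ} {a : ℝ} {a₁ b₁ a₂ b₂ : ℂ}

/-- The vertical slice. -/
def MZ (M : Set (ℂ × ℂ)) (z : ℂ) : Set ℂ := {w | (z, w) ∈ M}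
/-- The horizontal slice. -/
def MW (M : Set (ℂ × ℂ)) (w : ℂ) : Set ℂ := {z | (z, w) ∈ M}

/-- Cutoff functions of a complete metric. -/
structure Cutoffs (M : Set (ℂ × ℂ)) (g : ℂ × ℂ → Matrix (Fin 2) (Fin 2) ℂ)
    (η : ℕ → ℂ × ℂ → ℝ) : Prop where
  smooth : ∀ k, ContDiff ℝ ∞ (η k)
  cpt : ∀ k, HasCompactSupport (η k)
  sub : ∀ k, tsupport (η k) ⊆ M
  nonneg : ∀ k x, 0 ≤ η k x
  le_one : ∀ k x, η k x ≤ 1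
  one : ∀ K : Set (ℂ × ℂ), IsCompact K → K ⊆ M → ∀ᶠ k in atTop, ∀ x ∈ K, η k x = 1
  grad : ∀ k, ∀ x ∈ M, ∀ v, (fderiv ℝ (η k) x v) ^ 2 ≤ hq (g x) v / ((k : ℝ) + 1) ^ 2

end KQ
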