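import Pool.Agent.Lib_MP_3ea2ac_kq.Newt
import Pool.Agent.Lib_MP_3ea2ac_kq.Setup

/-! The data which the algebraic part uses. -/

open MeasureTheory Complex Set Topology Filter

namespace KQ

/-- The equation of `Mᶜ` over the cofinite set `M^{w₁}`. -/
structure Chart (M : Set (ℂ × ℂ)) (w₁ : ℂ) (m : ℕ) (c : ℕ → ℂ → ℂ) : Prop where
  cofinite : ((MW M w₁)ᶜ).Finite
  hol : ∀ j, DifferentiableOn ℂ (c j) (MW M w₁)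
  zero : ∀ z ∈ MW M w₁, c 0 z = 1
  ae : ∀ᵐ z, z ∈ MW M w₁ → ((MZ M z)ᶜ).Finite ∧
    ∀ w, Qp m c w₁ z w = ∏ᶠ (p : ℂ) (_ : p ∈ (MZ M z)ᶜ), (1 - (w - w₁) / (p - w₁))

/-- Everything the algebraic part needs to know about `M`. -/
structure AlgData (M : Set (ℂ × ℂ)) : Prop where
  isOpen : IsOpen M
  nonempty : M.Nonempty
  chart : ∀ᵐ w₁ : ℂ, (MW M w₁).Nonempty → ∃ m c, Chart M w₁ m c
  chart' : ∀ᵐ z₁ : ℂ, (MZ M z₁).Nonempty → ∃ m c, Chart (Prod.swap ⁻¹' M) z₁ m c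
  dnull : ∀ z₀ w₀ : ℂ, (z₀, w₀) ∉ M → ∀ r > 0,
    (∀ᵐ z : ℂ, z ∈ Metric.ball z₀ r → ∀ w ∈ Metric.ball w₀ r, (z, w) ∈ M) →
    (∀ᵐ w : ℂ, w ∈ Metric.ball w₀ r → ∀ z ∈ Metric.ball z₀ r, (z, w) ∈ M) → False

end KQ
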