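import Mathlib

open MeasureTheory Complex Set Topology Filter

namespace KQ

/-- Zeros persist (Hurwitz). -/
theorem hurwitz {F : ℂ → ℂ → ℂ} {x₀ y₀ : ℂ} {r : ℝ} (hr : 0 < r)
    (hcont : ContinuousOn (fun p : ℂ × ℂ => F p.1 p.2) (Metric.ball x₀ r ×ˢ Metric.ball y₀ r))
    (hhol : ∀ x ∈ Metric.ball x₀ r, DifferentiableOn ℂ (F x) (Metric.ball y₀ r))
    (h0 : F x₀ y₀ = 0) (hne : ∃ y ∈ Metric.ball y₀ r, F x₀ y ≠ 0) {ε : ℝ} (hε : 0 < ε) :
    ∀ᶠ x in 𝓝 x₀, ∃ y ∈ Metric.ball y₀ ε, F x y = 0 := by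
  have hx₀ : x₀ ∈ Metric.ball x₀ r := Metric.mem_ball_self hr
  have hy₀ : y₀ ∈ Metric.ball y₀ r := Metric.mem_ball_self hr
  have hconn : IsPreconnected (Metric.ball y₀ r) := (convex_ball y₀ r).isPreconnected
  have hcat : ∀ y ∈ Metric.ball y₀ r, ContinuousAt (fun p : ℂ × ℂ => F p.1 p.2) (x₀, y) := by
    intro y hy
    exact hcont.continuousAt ((Metric.isOpen_ball.prod Metric.isOpen_ball).mem_nhds ⟨hx₀, hy⟩)
  -- the zero is isolated
  have hiso : ∀ᶠ z in 𝓝[≠] y₀, F x₀ z ≠ 0 := by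
    by_contra hcon
    rw [Filter.not_eventually] at hcon
    have hcon' : ∃ᶠ z in 𝓝[≠] y₀, F x₀ z = 0 := hcon.mono fun z hz => not_not.1 hz
    obtain ⟨y, hy, hyne⟩ := hne
    have han : AnalyticOnNhd ℂ (F x₀) (Metric.ball y₀ r) := (hhol x₀ hx₀).analyticOnNhd Metric.isOpen_ball
    exact hyne (han.eqOn_zero_of_preconnected_of_frequently_eq_zero hconn hy₀ hcon' hy)
  rw [eventually_nhdsWithin_iff, Metric.eventually_nhds_iff] at hiso
  obtain ⟨ρ₀, hρ₀, hiso⟩ := hiso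
  obtain ⟨ρ, hρ, hρ1, hρ2, hρ3⟩ : ∃ ρ : ℝ, 0 < ρ ∧ ρ < ρ₀ ∧ ρ < r ∧ ρ < ε := by
    refine ⟨min ρ₀ (min r ε) / 2, ?_, ?_, ?_, ?_⟩
    · have : 0 < min ρ₀ (min r ε) := lt_min hρ₀ (lt_min hr hε)
      linarith
    · have h1 : min ρ₀ (min r ε) ≤ ρ₀ := min_le_left _ _
      linarith
    · have h1 : min ρ₀ (min r ε) ≤ r := (min_le_right _ _).trans (min_le_left _ _)
      linarith
    · have h1 : min ρ₀ (min r ε) ≤ ε := (min_le_right _ _).trans (min_le_right _ _)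
      linarith
  have hsub : Metric.closedBall y₀ ρ ⊆ Metric.ball y₀ r := Metric.closedBall_subset_ball hρ2
  have hsph : Metric.sphere y₀ ρ ⊆ Metric.ball y₀ r := Metric.sphere_subset_closedBall.trans hsub
  have hsne : (Metric.sphere y₀ ρ).Nonempty := NormedSpace.sphere_nonempty.2 hρ.le
  have hsc : IsCompact (Metric.sphere y₀ ρ) := isCompact_sphere y₀ ρ
  -- the minimum on the circle
  obtain ⟨δ, hδ, hmin⟩ : ∃ δ : ℝ, 0 < δ ∧ ∀ z ∈ Metric.sphere y₀ ρ, δ ≤ ‖F x₀ z‖ := by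
    have hc : ContinuousOn (fun z => ‖F x₀ z‖) (Metric.sphere y₀ ρ) :=
      ((hhol x₀ hx₀).continuousOn.mono hsph).norm
    obtain ⟨z, hz, hzm⟩ := hsc.exists_isMinOn hsne hc
    refine ⟨‖F x₀ z‖, ?_, fun w hw => hzm hw⟩
    apply norm_pos_iff.2
    apply hiso
    · rw [Metric.mem_sphere] at hz
      rw [hz]
      exact hρ1
    · intro hzy
      rw [Set.mem_singleton_iff] at hzy
      rw [hzy, Metric.mem_sphere, dist_self] at hz
      linarith
  have e1 : ∀ᶠ x in 𝓝 x₀, ∀ z ∈ Metric.sphere y₀ ρ, δ / 2 < ‖F x z‖ := by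
    apply hsc.eventually_forall_of_forall_eventually
    intro z hz
    apply (hcat z (hsph hz)).norm.eventually (lt_mem_nhds _)
    have := hmin z hz
    linarith
  have e2 : ∀ᶠ x in 𝓝 x₀, ‖F x y₀‖ < δ / 8 := by
    have h1 : ContinuousAt (fun x : ℂ => (x, y₀)) x₀ := by fun_prop
    have h2 : Tendsto (fun x => F x y₀) (𝓝 x₀) (𝓝 (F x₀ y₀)) := (hcat y₀ hy₀).tendsto.comp h1
    rw [h0] at h2
    have h3 := h2.norm
    rw [norm_zero] at h3
    exact h3.eventually (gt_mem_nhds (by linarith))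
  have e3 : ∀ᶠ x in 𝓝 x₀, x ∈ Metric.ball x₀ r := Metric.ball_mem_nhds x₀ hr
  filter_upwards [e1, e2, e3] with x h1 h2 h3
  have hdiff : ∀ z ∈ Metric.sphere y₀ ρ, δ / 4 ≤ ‖F x z - F x y₀‖ := by
    intro z hz
    have h4 := h1 z hz
    have h5 := norm_sub_norm_le (F x z) (F x y₀)
    linarith
  have hfreq : ∃ᶠ z in 𝓝 y₀, F x z ≠ F x y₀ := by
    intro hcon
    have hcon' : F x =ᶠ[𝓝 y₀] fun _ => F x y₀ := hcon.mono fun z hz => not_not.1 hz
    have han : AnalyticOnNhd ℂ (F x) (Metric.ball y₀ r) := (hhol x h3).analyticOnNhd Metric.isOpen_ball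
    have heq := han.eqOn_of_preconnected_of_eventuallyEq analyticOnNhd_const hconn hy₀ hcon'
    obtain ⟨z, hz⟩ := hsne
    have h4 := hdiff z hz
    have h5 : F x z = F x y₀ := heq (hsph hz)
    rw [h5, sub_self, norm_zero] at h4
    linarith
  have himg := ((hhol x h3).diffContOnCl_ball hsub).ball_subset_image_closedBall hρ hdiff hfreq
  have hmem : (0 : ℂ) ∈ Metric.ball (F x y₀) (δ / 4 / 2) := by
    rw [Metric.mem_ball, dist_zero_left]
    linarith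
  obtain ⟨y, hy, hy0⟩ := himg hmem
  exact ⟨y, Metric.closedBall_subset_ball hρ3 hy, hy0⟩

end KQ
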