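import Pool.Agent.Lib_MP_3ea2ac_kq.AD
import Pool.Agent.Lib_MP_3ea2ac_kq.Hur

/-! The equation holds on every slice over `M^{w₁}`. -/

open MeasureTheory Complex Set Topology Filter

namespace KQ

variable {M : Set (ℂ × ℂ)} {w₁ : ℂ} {m : ℕ} {c : ℕ → ℂ → ℂ}

theorem AlgData.swap (A : AlgData M) : AlgData (Prod.swap ⁻¹' M) := by
  refine ⟨A.isOpen.preimage continuous_swap, ?_, A.chart', A.chart, ?_⟩
  · obtain ⟨x, hx⟩ := A.nonempty
    exact ⟨x.swap, hx⟩
  · intro z₀ w₀ h r hr h1 h2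
    exact A.dnull w₀ z₀ h r hr h2 h1

theorem Chart.Q_base (C : Chart M w₁ m c) {z : ℂ} (hz : z ∈ MW M w₁) : Qp m c w₁ z w₁ = 1 := by
  unfold Qp
  rw [Finset.sum_eq_single 0]
  · rw [pow_zero, mul_one]
    exact C.zero z hz
  · intro j _ hj
    rw [sub_self, zero_pow hj, mul_zero]
  · intro h
    exact absurd (Finset.mem_range.mpr (Nat.succ_pos m)) h

private theorem Alg1_exists {P : ℂ → Prop} (hP : ∀ᵐ x : ℂ, P x) {z : ℂ} {r : ℝ} (hr : 0 < r) :
    ∃ x ∈ Metric.ball z r, P x := by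
  obtain ⟨x, hx, h⟩ := (Measure.dense_of_ae hP).inter_open_nonempty _ Metric.isOpen_ball
    ⟨z, Metric.mem_ball_self hr⟩
  exact ⟨x, hx, h⟩

private theorem Alg1_zero {w w₁ : ℂ} {S : Set ℂ} (hS : S.Finite) (h1 : w₁ ∉ S) :
    ∏ᶠ (p : ℂ) (_ : p ∈ S), (1 - (w - w₁) / (p - w₁)) = 0 ↔ w ∈ S := by
  rw [finprod_mem_eq_finite_toFinset_prod _ hS, Finset.prod_eq_zero_iff]
  constructor
  · rintro ⟨p, hp, h⟩
    rw [Set.Finite.mem_toFinset] at hp
    have hne : p - w₁ ≠ 0 := sub_ne_zero.mpr fun e => h1 (e ▸ hp)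
    have h2 := sub_eq_zero.mp h
    rw [eq_div_iff hne, one_mul] at h2
    have h3 : w = p := by linear_combination -h2
    rw [h3]
    exact hp
  · intro hw
    refine ⟨w, hS.mem_toFinset.mpr hw, ?_⟩
    have hne : w - w₁ ≠ 0 := sub_ne_zero.mpr fun e => h1 (e ▸ hw)
    rw [div_self hne, sub_self]

/-- the zeros of `Q(z,·)` for almost every `z` -/
private theorem Alg1_ae (C : Chart M w₁ m c) :
    ∀ᵐ z, z ∈ MW M w₁ → ∀ w, Qp m c w₁ z w = 0 ↔ (z, w) ∉ M := by
  filter_upwards [C.ae] with z hz hzM w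
  obtain ⟨h1, h2⟩ := hz hzM
  rw [h2 w]
  exact Alg1_zero h1 fun h => h hzM

private theorem Alg1_open (hM : IsOpen M) (w : ℂ) : IsOpen (MW M w) :=
  hM.preimage (continuous_id.prodMk continuous_const)

private theorem Alg1_cont (C : Chart M w₁ m c) :
    ContinuousOn (fun p : ℂ × ℂ => Qp m c w₁ p.1 p.2) (MW M w₁ ×ˢ univ) := by
  unfold Qp
  refine continuousOn_finsetSum _ fun j _ => ?_
  refine ContinuousOn.mul ?_ ?_
  · exact (C.hol j).continuousOn.comp continuousOn_fst fun p hp => hp.1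
  · exact ((continuous_snd.sub continuous_const).pow j).continuousOn

/-- `Q(z,·)` as a polynomial -/
private theorem Alg1_poly (C : Chart M w₁ m c) {z : ℂ} (hz : z ∈ MW M w₁) :
    ∃ P : Polynomial ℂ, P ≠ 0 ∧ ∀ w, Qp m c w₁ z w = P.eval w := by
  refine ⟨∑ j ∈ Finset.range (m + 1),
    Polynomial.C (c j z) * (Polynomial.X - Polynomial.C w₁) ^ j, ?_, ?_⟩
  · intro h
    have h1 := C.Q_base hz
    have h2 : Qp m c w₁ z w₁ = (∑ j ∈ Finset.range (m + 1),
        Polynomial.C (c j z) * (Polynomial.X - Polynomial.C w₁) ^ j).eval w₁ := by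
      simp [Qp, Polynomial.eval_finsetSum]
    rw [h2, h, Polynomial.eval_zero] at h1
    exact zero_ne_one h1
  · intro w
    simp [Qp, Polynomial.eval_finsetSum]

/-- (4a) -/
theorem Chart.not_mem (hM : IsOpen M) (C : Chart M w₁ m c) {z w : ℂ} (hz : z ∈ MW M w₁)
    (h : Qp m c w₁ z w = 0) : (z, w) ∉ M := by
  intro hzw
  obtain ⟨r, hr, hrM⟩ := Metric.isOpen_iff.mp hM _ hzw
  obtain ⟨s, hs, hsΩ⟩ := Metric.isOpen_iff.mp (Alg1_open hM w₁) _ hz
  obtain ⟨P, hP, hPQ⟩ := Alg1_poly C hz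
  have hne : ∃ y ∈ Metric.ball w s, Qp m c w₁ z y ≠ 0 := by
    by_contra hcon
    push Not at hcon
    refine hP (Polynomial.eq_zero_of_infinite_isRoot P ?_)
    refine (infinite_of_mem_nhds w (Metric.ball_mem_nhds w hs)).mono ?_
    intro y hy
    have h1 := hcon y hy
    rw [hPQ] at h1
    exact h1
  have hH := hurwitz (F := fun x y => Qp m c w₁ x y) (x₀ := z) (y₀ := w) hs
    ((Alg1_cont C).mono fun p hp => ⟨hsΩ hp.1, mem_univ _⟩) (fun x _ => ?_) h hne hr
  swap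
  · refine Differentiable.differentiableOn ?_
    unfold Qp
    refine Differentiable.fun_sum fun j _ => ?_
    exact (differentiable_const _).mul ((differentiable_id.sub_const _).pow j)
  obtain ⟨t, ht, htH⟩ := Metric.eventually_nhds_iff_ball.mp hH
  obtain ⟨x, hx, hxae⟩ := Alg1_exists (Alg1_ae C) (z := z)
    (lt_min ht (lt_min hr hs))
  have hx1 : x ∈ Metric.ball z t := Metric.ball_subset_ball (min_le_left _ _) hx
  have hx2 : x ∈ Metric.ball z r :=
    Metric.ball_subset_ball ((min_le_right _ _).trans (min_le_left _ _)) hx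
  have hx3 : x ∈ Metric.ball z s :=
    Metric.ball_subset_ball ((min_le_right _ _).trans (min_le_right _ _)) hx
  obtain ⟨y, hy, hQ⟩ := htH x hx1
  refine (hxae (hsΩ hx3) y).mp hQ (hrM ?_)
  rw [← ball_prod_same]
  exact ⟨hx2, hy⟩

/-- Near a point with `Q ≠ 0` almost every vertical slice lies in `M`. -/
theorem Chart.local_full (hM : IsOpen M) (C : Chart M w₁ m c) {z w : ℂ} (hz : z ∈ MW M w₁)
    (h : Qp m c w₁ z w ≠ 0) :
    ∃ r > 0, ∀ᵐ z' : ℂ, z' ∈ Metric.ball z r → ∀ w' ∈ Metric.ball w r, (z', w') ∈ M := by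
  have hΩ := Alg1_open hM w₁
  have hO : IsOpen ((MW M w₁ ×ˢ univ) ∩ (fun p : ℂ × ℂ => Qp m c w₁ p.1 p.2) ⁻¹' {0}ᶜ) :=
    (Alg1_cont C).isOpen_inter_preimage (hΩ.prod isOpen_univ) isOpen_compl_singleton
  obtain ⟨r, hr, hrO⟩ := Metric.isOpen_iff.mp hO (z, w) ⟨⟨hz, mem_univ _⟩, h⟩
  refine ⟨r, hr, ?_⟩
  filter_upwards [Alg1_ae C] with z' hz' hz'r w' hw'
  have h1 : (z', w') ∈ Metric.ball (z, w) r := by
    rw [← ball_prod_same]
    exact ⟨hz'r, hw'⟩
  obtain ⟨⟨h2, _⟩, h3⟩ := hrO h1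
  by_contra h4
  exact h3 ((hz' h2 w').mpr h4)

/-- (4c) -/
theorem Chart.iff (A : AlgData M) (C : Chart M w₁ m c) {z w : ℂ} (hz : z ∈ MW M w₁) :
    (z, w) ∈ M ↔ Qp m c w₁ z w ≠ 0 := by
  have hM := A.isOpen
  refine ⟨fun h1 h2 => C.not_mem hM hz h2 h1, fun hQ => ?_⟩
  obtain ⟨P, hP, hPQ⟩ := Alg1_poly C hz
  -- the set `Q(z,·) ≠ 0` is connected and open
  have hU : {w | Qp m c w₁ z w ≠ 0} = {w | P.IsRoot w}ᶜ := by
    ext y
    show Qp m c w₁ z y ≠ 0 ↔ ¬ (P.eval y = 0)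
    rw [hPQ]
  have hconn : IsPreconnected {w | Qp m c w₁ z w ≠ 0} := by
    rw [hU]
    refine (Set.Countable.isPathConnected_compl_of_one_lt_rank ?_
      (Polynomial.finite_setOfPred_isRoot hP).countable).isConnected.isPreconnected
    simp only [Complex.rank_real_complex, Nat.one_lt_ofNat]
  have hUo : IsOpen {w | Qp m c w₁ z w ≠ 0} := by
    rw [hU]
    exact (Polynomial.finite_setOfPred_isRoot hP).isClosed.isOpen_compl
  have hYo : IsOpen {w | Qp m c w₁ z w ≠ 0 ∧ (z, w) ∉ M} := by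
    rw [Metric.isOpen_iff]
    rintro w ⟨hw1, hw2⟩
    obtain ⟨r, hr, hfull⟩ := C.local_full hM hz hw1
    obtain ⟨z₁, hz₁, hz₁f, hz₁c⟩ := Alg1_exists (hfull.and A.chart') (z := z) hr
    have hz₁M := hz₁f hz₁
    obtain ⟨m', c', C'⟩ := hz₁c ⟨w, hz₁M w (Metric.mem_ball_self hr)⟩
    have hM' : IsOpen (Prod.swap ⁻¹' M) := hM.preimage continuous_swap
    have hzero : Qp m' c' z₁ w z = 0 := by
      by_contra hne
      obtain ⟨r', hr', hfull'⟩ := C'.local_full hM' (hz₁M w (Metric.mem_ball_self hr)) hne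
      refine A.dnull z w hw2 (min r r') (lt_min hr hr') ?_ ?_
      · filter_upwards [hfull] with z' hz' hz'r w' hw'
        exact hz' (Metric.ball_subset_ball (min_le_left _ _) hz'r) w'
          (Metric.ball_subset_ball (min_le_left _ _) hw')
      · filter_upwards [hfull'] with w' hw' hw'r z' hz'
        exact hw' (Metric.ball_subset_ball (min_le_right _ _) hw'r) z'
          (Metric.ball_subset_ball (min_le_right _ _) hz')
    have hall : ∀ y ∈ Metric.ball w r, Qp m' c' z₁ y z = 0 := by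
      by_contra hcon
      push Not at hcon
      have hH := hurwitz (F := fun x y => Qp m' c' z₁ y x) (x₀ := z) (y₀ := w) hr
        ((Alg1_cont C').comp continuous_swap.continuousOn
          fun p hp => ⟨hz₁M p.2 hp.2, mem_univ _⟩) (fun x _ => ?_) hzero hcon hr
      swap
      · unfold Qp
        refine DifferentiableOn.fun_sum fun j _ => ?_
        exact ((C'.hol j).mono fun y hy => hz₁M y hy).mul_const _
      obtain ⟨t, ht, htH⟩ := Metric.eventually_nhds_iff_ball.mp hH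
      obtain ⟨x, hx, hxf⟩ := Alg1_exists hfull (z := z) (lt_min ht hr)
      obtain ⟨y, hy, hyQ⟩ := htH x (Metric.ball_subset_ball (min_le_left _ _) hx)
      exact C'.not_mem hM' (hz₁M y hy) hyQ
        (hxf (Metric.ball_subset_ball (min_le_right _ _) hx) y hy)
    obtain ⟨s, hs, hsU⟩ := Metric.isOpen_iff.mp hUo w hw1
    refine ⟨min r s, lt_min hr hs, fun y hy => ⟨hsU ?_, ?_⟩⟩
    · exact Metric.ball_subset_ball (min_le_right _ _) hy
    · have hy1 := Metric.ball_subset_ball (min_le_left _ _) hy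
      exact C'.not_mem hM' (hz₁M y hy1) (hall y hy1)
  by_contra hwM
  have hVo : IsOpen {w | (z, w) ∈ M} := hM.preimage (continuous_const.prodMk continuous_id)
  obtain ⟨y, _, hy1, hy2⟩ := hconn _ _ hVo hYo
    (fun y hy => by
      by_cases h : (z, y) ∈ M
      · exact Or.inl h
      · exact Or.inr ⟨hy, h⟩)
    ⟨w₁, by rw [Set.mem_ofPred_eq, C.Q_base hz]; exact one_ne_zero, hz⟩ ⟨w, hQ, hQ, hwM⟩
  exact hy2.2 hy1

end KQ
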