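import Pool.Agent.Lib_MP_3ea2ac_kq.Alg1

/-! Near a puncture there is a disc of values which are not taken. -/

open MeasureTheory Complex Set Topology Filter

namespace KQ

variable {M : Set (ℂ × ℂ)} {w₁ : ℂ} {m : ℕ} {c : ℕ → ℂ → ℂ}

/-- `Q(z,·)` as a polynomial. -/
private theorem Alg2_poly (C : Chart M w₁ m c) {z : ℂ} (hz : z ∈ MW M w₁) :
    ∃ P : Polynomial ℂ, P ≠ 0 ∧ P.natDegree ≤ m ∧ ∀ w, Qp m c w₁ z w = P.eval w := by
  refine ⟨∑ j ∈ Finset.range (m + 1),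
    Polynomial.C (c j z) * (Polynomial.X - Polynomial.C w₁) ^ j, ?_, ?_, ?_⟩
  · intro h
    have h1 := C.Q_base hz
    have h2 : Qp m c w₁ z w₁ = (∑ j ∈ Finset.range (m + 1),
        Polynomial.C (c j z) * (Polynomial.X - Polynomial.C w₁) ^ j).eval w₁ := by
      simp [Qp, Polynomial.eval_finsetSum]
    rw [h2, h, Polynomial.eval_zero] at h1
    exact zero_ne_one h1
  · refine Polynomial.natDegree_sum_le_of_forall_le _ _ fun j hj => ?_
    refine (Polynomial.natDegree_C_mul_le _ _).trans ?_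
    rw [Polynomial.natDegree_pow, Polynomial.natDegree_X_sub_C, mul_one]
    exact Nat.lt_succ_iff.mp (Finset.mem_range.mp hj)
  · intro w
    simp [Qp, Polynomial.eval_finsetSum]

private theorem Alg2_open (hM : IsOpen M) (w : ℂ) : IsOpen (MW M w) :=
  hM.preimage (continuous_id.prodMk continuous_const)

private theorem Alg2_hol (C : Chart M w₁ m c) (w : ℂ) :
    DifferentiableOn ℂ (fun z => Qp m c w₁ z w) (MW M w₁) := by
  unfold Qp
  refine DifferentiableOn.fun_sum fun j _ => ?_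
  exact (C.hol j).mul_const _

private theorem Alg2_cont (C : Chart M w₁ m c) :
    ContinuousOn (fun p : ℂ × ℂ => Qp m c w₁ p.2 p.1) (univ ×ˢ MW M w₁) := by
  unfold Qp
  refine continuousOn_finsetSum _ fun j _ => ?_
  refine ContinuousOn.mul ?_ ?_
  · exact (C.hol j).continuousOn.comp continuousOn_snd fun p hp => hp.2
  · exact ((continuous_fst.sub continuous_const).pow j).continuousOn

private theorem Alg2_conn (C : Chart M w₁ m c) : IsPreconnected (MW M w₁) := by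
  have h := (Set.Countable.isPathConnected_compl_of_one_lt_rank (E := ℂ) (by
    simp only [Complex.rank_real_complex, Nat.one_lt_ofNat])
    C.cofinite.countable).isConnected.isPreconnected
  rwa [compl_compl] at h

/-- A point of the complement gives points of the complement over all nearby `w`. -/
private theorem Alg2_nearby (A : AlgData M) (C : Chart M w₁ m c) {z₁ y₁ : ℂ}
    (hz : z₁ ∈ MW M w₁) (hy : (z₁, y₁) ∉ M) (hF : ∃ z ∈ MW M w₁, Qp m c w₁ z y₁ ≠ 0)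
    {ε : ℝ} (hε : 0 < ε) : ∀ᶠ w in 𝓝 y₁, ∃ z ∈ Metric.ball z₁ ε, (z, w) ∉ M := by
  have hΩ := Alg2_open A.isOpen w₁
  obtain ⟨r, hr, hrΩ⟩ := Metric.isOpen_iff.mp hΩ z₁ hz
  have h0 : Qp m c w₁ z₁ y₁ = 0 := by
    by_contra h
    exact hy ((C.iff A hz).mpr h)
  have hne : ∃ z ∈ Metric.ball z₁ r, Qp m c w₁ z y₁ ≠ 0 := by
    by_contra hcon
    push Not at hcon
    obtain ⟨z, hz', hzne⟩ := hF
    have han : AnalyticOnNhd ℂ (fun z => Qp m c w₁ z y₁) (MW M w₁) :=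
      (Alg2_hol C y₁).analyticOnNhd hΩ
    have hev : (fun z => Qp m c w₁ z y₁) =ᶠ[𝓝 z₁] 0 := by
      filter_upwards [Metric.ball_mem_nhds z₁ hr] with z hz
      exact hcon z hz
    exact hzne (han.eqOn_zero_of_preconnected_of_eventuallyEq_zero (Alg2_conn C) hz hev hz')
  have hH := hurwitz (F := fun w z => Qp m c w₁ z w) (x₀ := y₁) (y₀ := z₁) hr
    ((Alg2_cont C).mono fun p hp => ⟨mem_univ _, hrΩ hp.2⟩)
    (fun w _ => (Alg2_hol C w).mono hrΩ) h0 hne (lt_min hε hr)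
  filter_upwards [hH] with w hw
  obtain ⟨z, hzb, hzQ⟩ := hw
  exact ⟨z, Metric.ball_subset_ball (min_le_left _ _) hzb,
    C.not_mem A.isOpen (hrΩ (Metric.ball_subset_ball (min_le_right _ _) hzb)) hzQ⟩

/-- The induction: arbitrarily many points of the complement over all `w` of a disc. -/
private theorem Alg2_many (A : AlgData M) (C : Chart M w₁ m c) (hne : (MW M w₁).Nonempty)
    {B : ℕ → Set ℂ} (hB : Antitone B) (hBM : ∀ n, B n ⊆ MW M w₁)
    (hBe : ∀ z ∈ MW M w₁, ∃ n, ∃ r > 0, Disjoint (Metric.ball z r) (B n))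
    (hcon : ∀ n w₂, ∀ s > 0, ∃ z ∈ B n, ∃ w ∈ Metric.ball w₂ s, (z, w) ∉ M) (k : ℕ) :
    ∃ w₂ : ℂ, ∃ s > 0, ∃ δ > 0, ∃ n : ℕ,
      (∀ w ∈ Metric.ball w₂ s, ∃ z ∈ MW M w₁, Qp m c w₁ z w ≠ 0) ∧
      ∀ w ∈ Metric.ball w₂ s, ∃ T : Finset ℂ, T.card = k ∧
        ∀ t ∈ T, (t, w) ∉ M ∧ ∀ z' ∈ B n, δ ≤ dist t z' := by
  induction k with
  | zero =>
    obtain ⟨z₀, hz₀⟩ := hne
    obtain ⟨P, hP, -, hPQ⟩ := Alg2_poly C hz₀
    have hfin : {w : ℂ | P.IsRoot w}.Finite := Polynomial.finite_setOfPred_isRoot hP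
    obtain ⟨w₂, hw₂⟩ : ({w : ℂ | P.IsRoot w}ᶜ).Nonempty := hfin.infinite_compl.nonempty
    obtain ⟨s, hs, hsF⟩ := Metric.isOpen_iff.mp hfin.isClosed.isOpen_compl w₂ hw₂
    refine ⟨w₂, s, hs, 1, one_pos, 0, fun w hw => ⟨z₀, hz₀, ?_⟩, fun w _ => ⟨∅, rfl, ?_⟩⟩
    · rw [hPQ]
      exact hsF hw
    · intro t ht
      exact absurd ht (Finset.notMem_empty t)
  | succ k ih =>
    classical
    obtain ⟨w₂, s, hs, δ, hδ, n, hF, hT⟩ := ih
    obtain ⟨z₁, hz₁, y₁, hy₁, hzy⟩ := hcon n w₂ s hs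
    have hz₁M := hBM n hz₁
    obtain ⟨n', r, hr, hdisj⟩ := hBe z₁ hz₁M
    have hε : 0 < min δ r / 2 := half_pos (lt_min hδ hr)
    have hε1 : min δ r / 2 ≤ δ / 2 := by
      have := min_le_left δ r
      linarith
    have hε2 : min δ r / 2 ≤ r / 2 := by
      have := min_le_right δ r
      linarith
    have hnear := Alg2_nearby A C hz₁M hzy (hF y₁ hy₁) hε
    obtain ⟨s', hs', hs'b⟩ := Metric.eventually_nhds_iff_ball.mp
      (hnear.and (Metric.isOpen_ball.mem_nhds hy₁))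
    refine ⟨y₁, s', hs', min δ r / 2, hε, max n n', fun w hw => hF w (hs'b w hw).2, ?_⟩
    intro w hw
    obtain ⟨⟨z, hz, hzw⟩, hw2⟩ := hs'b w hw
    obtain ⟨T, hTc, hTt⟩ := hT w hw2
    rw [Metric.mem_ball] at hz
    have hzT : z ∉ T := by
      intro hzT
      have h1 := (hTt z hzT).2 z₁ hz₁
      linarith
    refine ⟨insert z T, ?_, ?_⟩
    · rw [Finset.card_insert_of_notMem hzT, hTc]
    · intro t ht
      rcases Finset.mem_insert.mp ht with rfl | ht
      · refine ⟨hzw, fun z' hz' => ?_⟩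
        have h1 : z' ∈ B n' := hB (le_max_right n n') hz'
        have h2 : r ≤ dist z' z₁ := by
          by_contra h3
          push Not at h3
          exact Set.disjoint_left.mp hdisj (Metric.mem_ball.mpr h3) h1
        have h3 := dist_triangle z' t z₁
        rw [dist_comm z' t] at h3
        linarith
      · refine ⟨(hTt t ht).1, fun z' hz' => ?_⟩
        have h1 := (hTt t ht).2 z' (hB (le_max_left n n') hz')
        linarith

/-- `B n` is a decreasing sequence of sets in `M^{w₁}` which leaves every point of `M^{w₁}`. -/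
theorem Chart.density (A : AlgData M) (C : Chart M w₁ m c) (hne : (MW M w₁).Nonempty)
    {B : ℕ → Set ℂ} (hB : Antitone B) (hBM : ∀ n, B n ⊆ MW M w₁)
    (hBe : ∀ z ∈ MW M w₁, ∃ n, ∃ r > 0, Disjoint (Metric.ball z r) (B n)) :
    ∃ n, ∃ w₂, ∃ s > 0, ∀ z ∈ B n, ∀ w ∈ Metric.ball w₂ s, (z, w) ∈ M := by
  by_contra hcon
  push Not at hcon
  -- a chart for the other projection
  obtain ⟨z₀, hz₀⟩ := hne
  obtain ⟨z₁, hz₁, hz₁c⟩ := (Measure.dense_of_ae A.chart').inter_open_nonempty _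
    (Alg2_open A.isOpen w₁) ⟨z₀, hz₀⟩
  obtain ⟨m', c', C'⟩ := hz₁c ⟨w₁, hz₁⟩
  obtain ⟨w₂, s, hs, δ, hδ, n, -, hT⟩ :=
    Alg2_many A C ⟨z₀, hz₀⟩ hB hBM hBe hcon (m' + 1)
  -- a point of the disc in the domain of the second chart
  obtain ⟨w, hw, hwM⟩ : ∃ w ∈ Metric.ball w₂ s, w ∈ MW (Prod.swap ⁻¹' M) z₁ := by
    by_contra hno
    push Not at hno
    exact infinite_of_mem_nhds w₂ (Metric.ball_mem_nhds w₂ hs) (C'.cofinite.subset hno)
  obtain ⟨T, hTc, hTt⟩ := hT w hw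
  obtain ⟨P, hP, hPd, hPQ⟩ := Alg2_poly C' hwM
  refine hP (Polynomial.eq_zero_of_natDegree_lt_card_of_eval_eq_zero' P T (fun t ht => ?_) ?_)
  · rw [← hPQ]
    by_contra hQ
    exact (hTt t ht).1 ((C'.iff A.swap hwM).mpr hQ)
  · rw [hTc]
    exact Nat.lt_succ_of_le hPd

end KQ
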