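import Pool.Agent.Lib_MP_3ea2ac_kq.Alg2

/-! The coefficients have at most poles, so they are rational. -/

open MeasureTheory Complex Set Topology Filter

namespace KQ

variable {M : Set (ℂ × ℂ)} {w₁ : ℂ} {m : ℕ} {c : ℕ → ℂ → ℂ}

private theorem Alg3_open (hM : IsOpen M) (w : ℂ) : IsOpen (MW M w) :=
  hM.preimage (continuous_id.prodMk continuous_const)

/-- two continuous functions which agree almost everywhere on an open set -/
private theorem Alg3_eq {U : Set ℂ} (hU : IsOpen U) {f g : ℂ → ℂ} (hf : ContinuousOn f U)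
    (hg : ContinuousOn g U) (h : ∀ᵐ z, z ∈ U → f z = g z) {z : ℂ} (hz : z ∈ U) : f z = g z := by
  by_contra hne
  have hO : IsOpen (U ∩ (fun x => f x - g x) ⁻¹' {0}ᶜ) :=
    (hf.sub hg).isOpen_inter_preimage hU isOpen_compl_singleton
  obtain ⟨x, hx, hx'⟩ := (Measure.dense_of_ae h).inter_open_nonempty _ hO ⟨z, hz, fun e => hne (sub_eq_zero.mp e)⟩
  exact hx.2 (sub_eq_zero.mpr (hx' hx.1))

private theorem Alg3_contz (C : Chart M w₁ m c) (w : ℂ) :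
    ContinuousOn (fun z => Qp m c w₁ z w) (MW M w₁) := by
  unfold Qp
  exact continuousOn_finsetSum _ fun j _ => (C.hol j).continuousOn.mul continuousOn_const

private theorem Alg3_holz (C : Chart M w₁ m c) (w : ℂ) :
    DifferentiableOn ℂ (fun z => Qp m c w₁ z w) (MW M w₁) := by
  unfold Qp
  exact DifferentiableOn.fun_sum fun j _ => (C.hol j).mul_const _

/-- Change of the base point. -/
theorem Chart.change (A : AlgData M) (C : Chart M w₁ m c) {w₂ : ℂ} {m' : ℕ} {c' : ℕ → ℂ → ℂ}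
    (C' : Chart M w₂ m' c') {z : ℂ} (hz : z ∈ MW M w₁) (hz' : z ∈ MW M w₂) (w : ℂ) :
    Qp m c w₁ z w * Qp m' c' w₂ z w₁ = Qp m' c' w₂ z w := by
  refine Alg3_eq (f := fun z => Qp m c w₁ z w * Qp m' c' w₂ z w₁) (g := fun z => Qp m' c' w₂ z w)
    ((Alg3_open A.isOpen w₁).inter (Alg3_open A.isOpen w₂)) ?_ ?_ ?_ ⟨hz, hz'⟩
  · exact ((Alg3_contz C w).mono inter_subset_left).mul ((Alg3_contz C' w₁).mono inter_subset_right)
  · exact (Alg3_contz C' w).mono inter_subset_right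
  · filter_upwards [C.ae, C'.ae] with x h1 h2 hx
    obtain ⟨hfin, h3⟩ := h1 hx.1
    obtain ⟨-, h4⟩ := h2 hx.2
    show Qp m c w₁ x w * Qp m' c' w₂ x w₁ = Qp m' c' w₂ x w
    rw [h3, h4, h4, finprod_mem_eq_finite_toFinset_prod _ hfin, finprod_mem_eq_finite_toFinset_prod _ hfin,
      finprod_mem_eq_finite_toFinset_prod _ hfin, ← Finset.prod_mul_distrib]
    refine Finset.prod_congr rfl fun p hp => ?_
    rw [Set.Finite.mem_toFinset] at hp
    have e1 : p - w₁ ≠ 0 := sub_ne_zero.mpr fun e => hp (e ▸ hx.1)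
    have e2 : p - w₂ ≠ 0 := sub_ne_zero.mpr fun e => hp (e ▸ hx.2)
    field_simp
    ring

/-- Cauchy estimates for the coefficients. -/
private theorem Alg3_cauchy {a : ℕ → ℂ} {x₀ : ℂ} {s K : ℝ} (hs : 0 < s)
    (h : ∀ x, ‖x - x₀‖ = s → ‖∑ j ∈ Finset.range (m + 1), a j * (x - x₀) ^ j‖ ≤ K) {j : ℕ} (hj : j ≤ m) :
    ‖a j‖ ≤ K / s ^ j := by
  have hd : Differentiable ℂ fun x : ℂ => ∑ j ∈ Finset.range (m + 1), a j * x ^ j := by fun_prop
  have h1 := norm_iteratedDeriv_le_of_forall_mem_sphere_norm_le (c := (0 : ℂ)) (R := s) (C := K)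
    (f := fun x : ℂ => ∑ j ∈ Finset.range (m + 1), a j * x ^ j) j hs hd.diffContOnCl (fun x hx => by
      have h2 := h (x + x₀) (by rw [add_sub_cancel_right]; simpa using hx)
      simpa using h2)
  have h2 : iteratedDeriv j (fun x : ℂ => ∑ j ∈ Finset.range (m + 1), a j * x ^ j) 0
      = (j.factorial : ℂ) * a j := by
    rw [iteratedDeriv_fun_sum]
    · rw [Finset.sum_eq_single j]
      · rw [iteratedDeriv_const_mul_field, iteratedDeriv_fun_pow_zero, if_pos rfl, mul_comm]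
      · intro i _ hi
        rw [iteratedDeriv_const_mul_field, iteratedDeriv_fun_pow_zero, if_neg hi.symm, Nat.cast_zero,
          mul_zero]
      · intro h3
        exact absurd (Finset.mem_range.mpr (Nat.lt_succ_of_le hj)) h3
    · intro i _
      fun_prop
  rw [h2, norm_mul, Complex.norm_natCast, mul_div_assoc] at h1
  exact le_of_mul_le_mul_left h1 (by exact_mod_cast j.factorial_pos)

/-- The number of zeros. -/
private theorem Alg3_card (C : Chart M w₁ m c) {z : ℂ} (hz : z ∈ MW M w₁) (S : Finset ℂ)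
    (hS : ∀ p ∈ S, Qp m c w₁ z p = 0) : S.card ≤ m := by
  classical
  set P : Polynomial ℂ := ∑ j ∈ Finset.range (m + 1),
    Polynomial.C (c j z) * (Polynomial.X - Polynomial.C w₁) ^ j with hP
  have hPQ : ∀ w, Qp m c w₁ z w = P.eval w := by
    intro w
    simp [hP, Qp, Polynomial.eval_finsetSum]
  have hP0 : P ≠ 0 := by
    intro h
    have h1 := C.Q_base hz
    rw [hPQ, h, Polynomial.eval_zero] at h1
    exact zero_ne_one h1
  have hdeg : P.natDegree ≤ m := by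
    refine Polynomial.natDegree_sum_le_of_forall_le _ _ fun j hj => ?_
    refine (Polynomial.natDegree_C_mul_le _ _).trans ?_
    refine (Polynomial.natDegree_pow_le).trans ?_
    rw [Polynomial.natDegree_X_sub_C, mul_one]
    exact Nat.lt_succ_iff.mp (Finset.mem_range.mp hj)
  have hsub : S ⊆ P.roots.toFinset := by
    intro p hp
    rw [Multiset.mem_toFinset, Polynomial.mem_roots hP0, Polynomial.IsRoot.def, ← hPQ]
    exact hS p hp
  exact (Finset.card_le_card hsub).trans ((Multiset.toFinset_card_le _).trans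
    ((Polynomial.card_roots' P).trans hdeg))

/-- The coefficients are bounded where a disc of values is omitted. -/
theorem Chart.bounded (A : AlgData M) (C : Chart M w₁ m c) {s : ℝ} (hs : 0 < s) {B : Set ℂ}
    (hB : IsOpen B) (hBs : ∀ z ∈ B, ∀ w ∈ Metric.ball w₁ s, (z, w) ∈ M) (j : ℕ) (hj : j ≤ m) :
    ∃ K, ∀ z ∈ B, ‖c j z‖ ≤ K := by
  have hBM : B ⊆ MW M w₁ := fun z hz => hBs z hz w₁ (Metric.mem_ball_self hs)
  refine ⟨2 ^ m / s ^ j, fun z hz => ?_⟩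
  by_contra hcon
  have hO : IsOpen (B ∩ (fun x => ‖c j x‖) ⁻¹' Ioi (2 ^ m / s ^ j)) :=
    ((C.hol j).continuousOn.mono hBM).norm.isOpen_inter_preimage hB isOpen_Ioi
  obtain ⟨x, hx, hx'⟩ := (Measure.dense_of_ae C.ae).inter_open_nonempty _ hO ⟨z, hz, not_le.mp hcon⟩
  obtain ⟨hfin, hprod⟩ := hx' (hBM hx.1)
  have hcard : hfin.toFinset.card ≤ m := by
    refine Alg3_card C (hBM hx.1) _ fun p hp => ?_
    by_contra hne
    rw [Set.Finite.mem_toFinset] at hp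
    exact hp ((C.iff A (hBM hx.1)).mpr hne)
  have hle : ‖c j x‖ ≤ 2 ^ m / s ^ j := by
    refine Alg3_cauchy (m := m) (a := fun j => c j x) (x₀ := w₁) hs (fun w hw => ?_) hj
    have h1 := hprod w
    unfold Qp at h1
    rw [h1, finprod_mem_eq_finite_toFinset_prod _ hfin, norm_prod]
    refine (Finset.prod_le_prod (fun _ _ => norm_nonneg _) (g := fun _ => (2 : ℝ)) fun p hp => ?_).trans ?_
    · rw [Set.Finite.mem_toFinset] at hp
      have h2 : s ≤ ‖p - w₁‖ := by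
        by_contra h3
        refine hp (hBs x hx.1 p ?_)
        rw [Metric.mem_ball, dist_eq_norm]
        exact not_le.mp h3
      have h4 : ‖(w - w₁) / (p - w₁)‖ ≤ 1 := by
        rw [norm_div, hw]
        exact (div_le_one (hs.trans_le h2)).mpr h2
      calc ‖1 - (w - w₁) / (p - w₁)‖ ≤ ‖(1 : ℂ)‖ + ‖(w - w₁) / (p - w₁)‖ := norm_sub_le _ _
        _ ≤ 2 := by rw [norm_one]; linarith
    · rw [Finset.prod_const]
      exact pow_le_pow_right₀ one_le_two hcard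
  exact absurd hx.2 (not_lt.mpr hle)

/-- A bounded function without zeros on a punctured disc has a lower bound. -/
private theorem Alg3_lower {f : ℂ → ℂ} {z₀ : ℂ} {r K : ℝ} (hr : 0 < r)
    (hf : DifferentiableOn ℂ f (Metric.ball z₀ r \ {z₀})) (hK : ∀ z ∈ Metric.ball z₀ r \ {z₀}, ‖f z‖ ≤ K)
    (h0 : ∀ z ∈ Metric.ball z₀ r \ {z₀}, f z ≠ 0) :
    ∃ N : ℕ, ∃ δ > 0, ∃ ρ > 0, ∀ z, z ≠ z₀ → ‖z - z₀‖ < ρ → δ * ‖z - z₀‖ ^ N ≤ ‖f z‖ := by
  have hnhds : Metric.ball z₀ r ∈ 𝓝 z₀ := Metric.ball_mem_nhds z₀ hr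
  have hd := differentiableOn_update_limUnder_of_bddAbove hnhds hf (by
    refine ⟨K, ?_⟩
    rintro _ ⟨z, hz, rfl⟩
    exact hK z hz)
  set F : ℂ → ℂ := Function.update f z₀ (limUnder (𝓝[≠] z₀) f) with hF
  have hFz : ∀ z, z ≠ z₀ → F z = f z := fun z hz => Function.update_of_ne hz _ _
  have han : AnalyticAt ℂ F z₀ := hd.analyticAt hnhds
  have hnz : ¬∀ᶠ z in 𝓝 z₀, F z = 0 := by
    intro hcon
    have h1 : ∀ᶠ z in 𝓝[≠] z₀, F z = 0 ∧ z ∈ Metric.ball z₀ r ∧ z ≠ z₀ := by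
      filter_upwards [hcon.filter_mono nhdsWithin_le_nhds, mem_nhdsWithin_of_mem_nhds hnhds,
        self_mem_nhdsWithin] with z h1 h2 h3
      exact ⟨h1, h2, h3⟩
    obtain ⟨z, hz1, hz2, hz3⟩ := h1.exists
    rw [hFz z hz3] at hz1
    exact h0 z ⟨hz2, hz3⟩ hz1
  obtain ⟨N, g, hg, hg0, hgF⟩ := han.exists_eventuallyEq_pow_smul_nonzero_iff.mpr hnz
  have hgpos : 0 < ‖g z₀‖ := norm_pos_iff.mpr hg0
  have h1 : ∀ᶠ z in 𝓝 z₀, ‖g z₀‖ / 2 < ‖g z‖ :=
    hg.continuousAt.norm.eventually (lt_mem_nhds (by linarith))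
  obtain ⟨ρ, hρ, h2⟩ := Metric.eventually_nhds_iff.mp (hgF.and h1)
  refine ⟨N, ‖g z₀‖ / 2, by positivity, ρ, hρ, fun z hz hzρ => ?_⟩
  obtain ⟨h3, h4⟩ := h2 (by rw [dist_eq_norm]; exact hzρ)
  rw [← hFz z hz, h3, norm_smul, norm_pow, mul_comm]
  exact mul_le_mul_of_nonneg_left h4.le (by positivity)

/-- The common part of the two pole statements. -/
private theorem Alg3_common (A : AlgData M) (C : Chart M w₁ m c) (hne : (MW M w₁).Nonempty)
    {B : ℕ → Set ℂ} (hB : Antitone B) (hBo : ∀ n, IsOpen (B n)) (hBn : ∀ n, (B n).Nonempty)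
    (hBM : ∀ n, B n ⊆ MW M w₁)
    (hBe : ∀ z ∈ MW M w₁, ∃ n, ∃ r > 0, Disjoint (Metric.ball z r) (B n)) :
    ∃ n, ∃ q : ℂ → ℂ, DifferentiableOn ℂ q (B n) ∧ (∀ z ∈ B n, q z ≠ 0) ∧
      (∃ K, ∀ z ∈ B n, ‖q z‖ ≤ K) ∧ ∃ K, ∀ z ∈ B n, ∀ j ≤ m, ‖c j z‖ * ‖q z‖ ≤ K := by
  obtain ⟨n, w₀, s, hs, hfull⟩ := Chart.density A C hne hB hBM hBe
  obtain ⟨w₂, hw₂, hch⟩ := (Measure.dense_of_ae A.chart).inter_open_nonempty _
    (Metric.isOpen_ball (x := w₀) (ε := s)) ⟨w₀, Metric.mem_ball_self hs⟩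
  have hB2 : B n ⊆ MW M w₂ := fun z hz => hfull z hz w₂ hw₂
  obtain ⟨m', c', C'⟩ := hch ((hBn n).mono hB2)
  obtain ⟨t, ht, htb⟩ := Metric.isOpen_iff.mp Metric.isOpen_ball w₂ hw₂
  have hbd : ∀ j, j ≤ m' → ∃ K, ∀ z ∈ B n, ‖c' j z‖ ≤ K := fun j hj =>
    Chart.bounded A C' ht (hBo n) (fun z hz w hw => hfull z hz w (htb hw)) j hj
  choose! Kc hKc using hbd
  -- a bound for `Q'` at bounded arguments
  have hQ : ∀ L : ℝ, ∀ z ∈ B n, ∀ w, ‖w - w₂‖ ≤ L →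
      ‖Qp m' c' w₂ z w‖ ≤ ∑ j ∈ Finset.range (m' + 1), Kc j * L ^ j := by
    intro L z hz w hw
    unfold Qp
    refine (norm_sum_le _ _).trans (Finset.sum_le_sum fun j hj => ?_)
    rw [norm_mul, norm_pow]
    have h1 := hKc j (Nat.lt_succ_iff.mp (Finset.mem_range.mp hj)) z hz
    exact mul_le_mul h1 (pow_le_pow_left₀ (norm_nonneg _) hw j) (by positivity)
      ((norm_nonneg _).trans h1)
  refine ⟨n, fun z => Qp m' c' w₂ z w₁, (Alg3_holz C' w₁).mono hB2, fun z hz => ?_, ?_, ?_⟩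
  · exact (C'.iff A (hB2 hz)).mp (hBM n hz)
  · exact ⟨_, fun z hz => hQ _ z hz w₁ le_rfl⟩
  · refine ⟨∑ j ∈ Finset.range (m' + 1), Kc j * (1 + ‖w₁ - w₂‖) ^ j, fun z hz j hj => ?_⟩
    have h1 : ‖c j z * Qp m' c' w₂ z w₁‖ ≤
        (∑ j ∈ Finset.range (m' + 1), Kc j * (1 + ‖w₁ - w₂‖) ^ j) / 1 ^ j := by
      refine Alg3_cauchy (m := m) (a := fun j => c j z * Qp m' c' w₂ z w₁) (x₀ := w₁) one_pos
        (fun w hw => ?_) hj
      have h2 : ∑ j ∈ Finset.range (m + 1), c j z * Qp m' c' w₂ z w₁ * (w - w₁) ^ j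
          = Qp m' c' w₂ z w := by
        rw [← Chart.change A C C' (hBM n hz) (hB2 hz) w]
        unfold Qp
        rw [Finset.sum_mul]
        exact Finset.sum_congr rfl fun j _ => by ring
      rw [h2]
      refine hQ _ z hz w ?_
      calc ‖w - w₂‖ = ‖(w - w₁) + (w₁ - w₂)‖ := by ring_nf
        _ ≤ ‖w - w₁‖ + ‖w₁ - w₂‖ := norm_add_le _ _
        _ = 1 + ‖w₁ - w₂‖ := by rw [hw]
    rwa [one_pow, div_one, norm_mul] at h1

theorem Chart.pole (A : AlgData M) (C : Chart M w₁ m c) (hne : (MW M w₁).Nonempty) (j : ℕ)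
    (hj : j ≤ m) {z₀ : ℂ} (hz₀ : z₀ ∉ MW M w₁) :
    ∃ N : ℕ, ∃ K, ∃ r > 0, ∀ z, z ≠ z₀ → ‖z - z₀‖ < r → ‖c j z‖ * ‖z - z₀‖ ^ N ≤ K := by
  obtain ⟨r₀, hr₀, hball⟩ : ∃ r > 0, Metric.ball z₀ r \ {z₀} ⊆ MW M w₁ := by
    have hfin : ((MW M w₁)ᶜ \ {z₀}).Finite := C.cofinite.subset sdiff_subset
    have hz : z₀ ∈ ((MW M w₁)ᶜ \ {z₀})ᶜ := fun h => h.2 rfl
    obtain ⟨r, hr, h⟩ := Metric.isOpen_iff.mp hfin.isClosed.isOpen_compl z₀ hz
    refine ⟨r, hr, fun z hz => ?_⟩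
    by_contra hcon
    exact h hz.1 ⟨hcon, hz.2⟩
  have hpos : ∀ n : ℕ, 0 < r₀ / ((n : ℝ) + 1) := fun n => by positivity
  obtain ⟨n, q, hqd, hq0, ⟨K₁, hK₁⟩, ⟨K₂, hK₂⟩⟩ := Alg3_common A C hne
    (B := fun n => Metric.ball z₀ (r₀ / ((n : ℝ) + 1)) \ {z₀})
    (fun a b hab => sdiff_subset_sdiff_left (Metric.ball_subset_ball (by
      have h1 : (a : ℝ) ≤ b := by exact_mod_cast hab
      gcongr)))
    (fun n => Metric.isOpen_ball.sdiff isClosed_singleton)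
    (fun n => by
      have h1 := hpos n
      refine ⟨z₀ + ((r₀ / ((n : ℝ) + 1) / 2 : ℝ) : ℂ), ?_, ?_⟩
      · rw [Metric.mem_ball, dist_eq_norm, add_sub_cancel_left, Complex.norm_real, Real.norm_eq_abs,
          abs_of_pos (by linarith)]
        linarith
      · rw [mem_singleton_iff, add_eq_left, Complex.ofReal_eq_zero]
        linarith)
    (fun n => (sdiff_subset_sdiff_left (Metric.ball_subset_ball (by
      rw [div_le_iff₀ (by positivity)]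
      nlinarith [(n.cast_nonneg : (0 : ℝ) ≤ n)]))).trans hball)
    (fun z hz => by
      have hzz : 0 < ‖z - z₀‖ := norm_pos_iff.mpr (sub_ne_zero.mpr fun e => hz₀ (e ▸ hz))
      obtain ⟨n, hn⟩ := exists_nat_gt (2 * r₀ / ‖z - z₀‖)
      refine ⟨n, ‖z - z₀‖ / 2, by positivity, ?_⟩
      rw [Set.disjoint_left]
      intro x hx1 hx2
      have h1 : ‖x - z‖ < ‖z - z₀‖ / 2 := by simpa [dist_eq_norm] using hx1
      have h2 : ‖x - z₀‖ < r₀ / ((n : ℝ) + 1) := by simpa [dist_eq_norm] using hx2.1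
      have h3 : r₀ / ((n : ℝ) + 1) < ‖z - z₀‖ / 2 := by
        rw [div_lt_iff₀ (by positivity)]
        rw [div_lt_iff₀ hzz] at hn
        nlinarith
      have h4 : ‖z - z₀‖ ≤ ‖x - z₀‖ + ‖x - z‖ := by
        calc ‖z - z₀‖ = ‖(x - z₀) - (x - z)‖ := by ring_nf
          _ ≤ ‖x - z₀‖ + ‖x - z‖ := norm_sub_le _ _
      linarith)
  obtain ⟨N, δ, hδ, ρ, hρ, hlow⟩ := Alg3_lower (hpos n) hqd hK₁ hq0
  refine ⟨N, K₂ / δ, min ρ (r₀ / ((n : ℝ) + 1)), lt_min hρ (hpos n), fun z hz hzr => ?_⟩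
  have h1 := hlow z hz (hzr.trans_le (min_le_left _ _))
  have h2 := hK₂ z ⟨by rw [Metric.mem_ball, dist_eq_norm]; exact hzr.trans_le (min_le_right _ _), hz⟩ j hj
  rw [le_div_iff₀ hδ]
  calc ‖c j z‖ * ‖z - z₀‖ ^ N * δ = ‖c j z‖ * (δ * ‖z - z₀‖ ^ N) := by ring
    _ ≤ ‖c j z‖ * ‖q z‖ := mul_le_mul_of_nonneg_left h1 (norm_nonneg _)
    _ ≤ K₂ := h2

theorem Chart.pole_infty (A : AlgData M) (C : Chart M w₁ m c) (hne : (MW M w₁).Nonempty) (j : ℕ)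
    (hj : j ≤ m) :
    ∃ N : ℕ, ∃ K R, ∀ z, R ≤ ‖z‖ → ‖c j z‖ ≤ K * ‖z‖ ^ N := by
  obtain ⟨R₀, hR₀, hout⟩ : ∃ R : ℝ, 0 < R ∧ {z : ℂ | R < ‖z‖} ⊆ MW M w₁ := by
    obtain ⟨R, hR⟩ := C.cofinite.isBounded.exists_norm_le
    refine ⟨max R 1, lt_max_of_lt_right one_pos, fun z hz => ?_⟩
    by_contra hcon
    have h1 := hR z hcon
    have h2 : max R 1 < ‖z‖ := hz
    exact absurd (h1.trans (le_max_left R 1)) (not_le.mpr h2)
  have hpos : ∀ n : ℕ, 0 < R₀ + n := fun n => by positivity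
  obtain ⟨n, q, hqd, hq0, ⟨K₁, hK₁⟩, ⟨K₂, hK₂⟩⟩ := Alg3_common A C hne
    (B := fun n => {z : ℂ | R₀ + n < ‖z‖})
    (fun a b hab z hz => by
      have h1 : (a : ℝ) ≤ b := by exact_mod_cast hab
      have h2 : R₀ + b < ‖z‖ := hz
      show R₀ + a < ‖z‖
      linarith)
    (fun n => isOpen_lt continuous_const continuous_norm)
    (fun n => by
      have h1 := hpos n
      refine ⟨((R₀ + n + 1 : ℝ) : ℂ), ?_⟩
      show R₀ + n < ‖((R₀ + n + 1 : ℝ) : ℂ)‖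
      rw [Complex.norm_real, Real.norm_eq_abs, abs_of_pos (by linarith)]
      linarith)
    (fun n z hz => hout (by
      have h2 : R₀ + n < ‖z‖ := hz
      have h3 : (0 : ℝ) ≤ n := n.cast_nonneg
      show R₀ < ‖z‖
      linarith))
    (fun z hz => by
      obtain ⟨n, hn⟩ := exists_nat_gt (‖z‖ + 1)
      refine ⟨n, 1, one_pos, ?_⟩
      rw [Set.disjoint_left]
      intro x hx1 hx2
      have h1 : ‖x - z‖ < 1 := by simpa [dist_eq_norm] using hx1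
      have h2 : R₀ + n < ‖x‖ := hx2
      have h4 : ‖x‖ ≤ ‖x - z‖ + ‖z‖ := by
        calc ‖x‖ = ‖(x - z) + z‖ := by ring_nf
          _ ≤ ‖x - z‖ + ‖z‖ := norm_add_le _ _
      linarith)
  -- invert
  have hinv : ∀ u ∈ Metric.ball (0 : ℂ) (1 / (R₀ + n)) \ {0}, u⁻¹ ∈ {z : ℂ | R₀ + n < ‖z‖} := by
    intro u hu
    have h1 : ‖u‖ < 1 / (R₀ + n) := by simpa using hu.1
    have h2 : 0 < ‖u‖ := norm_pos_iff.mpr hu.2
    show R₀ + n < ‖u⁻¹‖
    rw [norm_inv, ← one_div]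
    exact (lt_one_div h2 (hpos n)).mp h1
  obtain ⟨N, δ, hδ, ρ, hρ, hlow⟩ := Alg3_lower (f := fun u => q u⁻¹) (z₀ := 0)
    (one_div_pos.mpr (hpos n))
    (hqd.comp (fun u hu => (differentiableAt_inv hu.2).differentiableWithinAt) hinv)
    (fun u hu => hK₁ _ (hinv u hu)) (fun u hu => hq0 _ (hinv u hu))
  refine ⟨N, K₂ / δ, max (R₀ + n + 1) (1 / ρ + 1), fun z hz => ?_⟩
  have hz1 : R₀ + n + 1 ≤ ‖z‖ := (le_max_left _ _).trans hz
  have hz2 : 1 / ρ + 1 ≤ ‖z‖ := (le_max_right _ _).trans hz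
  have hn0 := hpos n
  have hzpos : 0 < ‖z‖ := by linarith
  have hz0 : z ≠ 0 := norm_pos_iff.mp hzpos
  have h1 := hlow z⁻¹ (inv_ne_zero hz0) (by
    rw [sub_zero, norm_inv, ← one_div]
    rw [one_div_lt hzpos hρ]
    linarith)
  have h2 := hK₂ z (show R₀ + n < ‖z‖ by linarith) j hj
  simp only [inv_inv, sub_zero, norm_inv] at h1
  have hzN : 0 < ‖z‖ ^ N := by positivity
  have h3 : δ ≤ ‖q z‖ * ‖z‖ ^ N := by
    rw [inv_pow, ← div_eq_mul_inv, div_le_iff₀ hzN] at h1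
    exact h1
  rw [div_mul_eq_mul_div, le_div_iff₀ hδ]
  calc ‖c j z‖ * δ ≤ ‖c j z‖ * (‖q z‖ * ‖z‖ ^ N) := mul_le_mul_of_nonneg_left h3 (norm_nonneg _)
    _ = ‖c j z‖ * ‖q z‖ * ‖z‖ ^ N := by ring
    _ ≤ K₂ * ‖z‖ ^ N := mul_le_mul_of_nonneg_right h2 hzN.le

end KQ
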