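import Mathlib

open MeasureTheory Complex Set Topology Filter

namespace KQ

/-- Polynomial growth at infinity. -/
private def RatGrowth (f : ℂ → ℂ) : Prop :=
  ∃ N : ℕ, ∃ K R : ℝ, ∀ z, R ≤ ‖z‖ → ‖f z‖ ≤ K * ‖z‖ ^ N

private theorem RatGrowth.mul {f g : ℂ → ℂ} (hf : RatGrowth f) (hg : RatGrowth g) :
    RatGrowth (fun z => f z * g z) := by
  obtain ⟨N₁, K₁, R₁, h₁⟩ := hf
  obtain ⟨N₂, K₂, R₂, h₂⟩ := hg
  refine ⟨N₁ + N₂, K₁ * K₂, max R₁ R₂, fun z hz => ?_⟩
  have a := h₁ z (le_trans (le_max_left _ _) hz)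
  have b := h₂ z (le_trans (le_max_right _ _) hz)
  calc ‖f z * g z‖ = ‖f z‖ * ‖g z‖ := norm_mul _ _
    _ ≤ (K₁ * ‖z‖ ^ N₁) * (K₂ * ‖z‖ ^ N₂) :=
        mul_le_mul a b (norm_nonneg _) (le_trans (norm_nonneg _) a)
    _ = K₁ * K₂ * ‖z‖ ^ (N₁ + N₂) := by rw [pow_add]; ring

private theorem RatGrowth.one : RatGrowth (fun _ => 1) :=
  ⟨0, 1, 0, fun z _ => by simp⟩

private theorem RatGrowth.pow {f : ℂ → ℂ} (hf : RatGrowth f) (n : ℕ) :
    RatGrowth (fun z => f z ^ n) := by
  induction n with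
  | zero => simpa using RatGrowth.one
  | succ n ih => simpa [pow_succ] using ih.mul hf

private theorem RatGrowth.sub (a : ℂ) : RatGrowth (fun z => z - a) := by
  refine ⟨1, 2, ‖a‖, fun z hz => ?_⟩
  have := norm_sub_le z a
  simp only [pow_one]
  linarith

private theorem RatGrowth.prod (s : Finset ℂ) : RatGrowth (fun z => ∏ a ∈ s, (z - a)) := by
  classical
  induction s using Finset.induction_on with
  | empty => simpa using RatGrowth.one
  | insert a s ha ih =>
    have := (RatGrowth.sub a).mul ih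
    simpa [Finset.prod_insert ha] using this

private theorem rat_entire (N : ℕ) : ∀ (F : ℂ → ℂ), Differentiable ℂ F →
    (∃ K R : ℝ, ∀ z, R ≤ ‖z‖ → ‖F z‖ ≤ K * ‖z‖ ^ N) →
    ∃ P : Polynomial ℂ, ∀ z, F z = P.eval z := by
  induction N with
  | zero =>
    rintro F hF ⟨K, R, h⟩
    have hb : Bornology.IsBounded (range F) := by
      rw [isBounded_iff_forall_norm_le]
      obtain ⟨C, hC⟩ := (isCompact_closedBall (0 : ℂ) R).exists_bound_of_continuousOn
        hF.continuous.continuousOn
      refine ⟨max C K, ?_⟩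
      rintro _ ⟨z, rfl⟩
      rcases le_total ‖z‖ R with hz | hz
      · exact le_trans (hC z (by simpa using hz)) (le_max_left _ _)
      · exact le_trans (by simpa using h z hz) (le_max_right _ _)
    obtain ⟨c, hc⟩ := hF.exists_const_forall_eq_of_bounded hb
    exact ⟨Polynomial.C c, fun z => by simp [hc]⟩
  | succ N ih =>
    rintro F hF ⟨K, R, h⟩
    have hd : Differentiable ℂ (dslope F 0) := by
      rw [← differentiableOn_univ]
      exact (Complex.differentiableOn_dslope univ_mem).2 hF.differentiableOn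
    obtain ⟨P, hP⟩ := ih (dslope F 0) hd ⟨K + ‖F 0‖, max R 1, fun z hz => by
      have hz1 : 1 ≤ ‖z‖ := le_trans (le_max_right _ _) hz
      have hzR : R ≤ ‖z‖ := le_trans (le_max_left _ _) hz
      have hz0 : z ≠ 0 := by
        rintro rfl
        simp at hz1
        linarith
      have e : z * dslope F 0 z = F z - F 0 := by
        have := sub_smul_dslope F 0 z
        simpa using this
      have e2 : ‖z‖ * ‖dslope F 0 z‖ ≤ ‖z‖ * ((K + ‖F 0‖) * ‖z‖ ^ N) := by
        rw [← norm_mul, e]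
        have h1 := h z hzR
        have h2 : 1 ≤ ‖z‖ ^ (N + 1) := one_le_pow₀ hz1
        have h3 : ‖F 0‖ ≤ ‖F 0‖ * ‖z‖ ^ (N + 1) := le_mul_of_one_le_right (norm_nonneg _) h2
        calc ‖F z - F 0‖ ≤ ‖F z‖ + ‖F 0‖ := norm_sub_le _ _
          _ ≤ K * ‖z‖ ^ (N + 1) + ‖F 0‖ * ‖z‖ ^ (N + 1) := add_le_add h1 h3
          _ = ‖z‖ * ((K + ‖F 0‖) * ‖z‖ ^ N) := by ring
      exact le_of_mul_le_mul_left e2 (by linarith)⟩
    refine ⟨Polynomial.C (F 0) + Polynomial.X * P, fun z => ?_⟩
    have e : z * dslope F 0 z = F z - F 0 := by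
      have := sub_smul_dslope F 0 z
      simpa using this
    simp only [Polynomial.eval_add, Polynomial.eval_C, Polynomial.eval_mul, Polynomial.eval_X]
    rw [← hP z, e]
    ring

/-- A holomorphic function on a cofinite set with at most poles is rational. -/
theorem rational_of_bounds {Z : Set ℂ} (hZ : Z.Finite) {f : ℂ → ℂ} (hf : DifferentiableOn ℂ f Zᶜ)
    (hloc : ∀ z₀ ∈ Z, ∃ N : ℕ, ∃ K, ∃ r > 0, ∀ z, z ≠ z₀ → ‖z - z₀‖ < r →
      ‖f z‖ * ‖z - z₀‖ ^ N ≤ K)
    (hinf : ∃ N : ℕ, ∃ K R, ∀ z, R ≤ ‖z‖ → ‖f z‖ ≤ K * ‖z‖ ^ N) :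
    ∃ N : ℕ, ∀ n ≥ N, ∃ P : Polynomial ℂ, ∀ z ∈ Zᶜ, (∏ a ∈ hZ.toFinset, (z - a)) ^ n * f z = P.eval z := by
  classical
  choose! N hN using hloc
  refine ⟨hZ.toFinset.sup N + 1, fun n hn => ?_⟩
  have hn1 : 1 ≤ n := by omega
  set F : ℂ → ℂ := fun z => (∏ a ∈ hZ.toFinset, (z - a)) ^ n * f z with hFdef
  have hpd : Differentiable ℂ (fun z : ℂ => (∏ a ∈ hZ.toFinset, (z - a)) ^ n) := by
    have h1 : ∀ s : Finset ℂ, Differentiable ℂ (fun z : ℂ => ∏ a ∈ s, (z - a)) := by
      intro s
      induction s using Finset.induction_on with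
      | empty => simp
      | insert a s ha ih =>
        simp only [Finset.prod_insert ha]
        exact (differentiable_id.sub_const a).mul ih
    exact (h1 _).pow n
  have hopen : IsOpen Zᶜ := hZ.isClosed.isOpen_compl
  have hFd : ∀ z ∈ Zᶜ, DifferentiableAt ℂ F z := fun z hz =>
    hpd.differentiableAt.mul (hf.differentiableAt (hopen.mem_nhds hz))
  have hF : Differentiable ℂ F := by
    intro z₀
    by_cases hz₀ : z₀ ∈ Z
    · refine (Complex.analyticAt_of_differentiable_on_punctured_nhds_of_continuousAt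
        ?_ ?_).differentiableAt
      · have h1 : (Z \ {z₀})ᶜ ∈ 𝓝 z₀ :=
          (hZ.subset Set.sdiff_subset).isClosed.isOpen_compl.mem_nhds (by simp)
        filter_upwards [mem_nhdsWithin_of_mem_nhds h1, self_mem_nhdsWithin] with z hz hz'
        refine hFd z fun hzZ => hz ⟨hzZ, hz'⟩
      · have hF0 : F z₀ = 0 := by
          have : (∏ a ∈ hZ.toFinset, (z₀ - a)) = 0 :=
            Finset.prod_eq_zero (i := z₀) (by simpa using hz₀) (sub_self _)
          simp only [hFdef, this]
          rw [zero_pow (by omega), zero_mul]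
        obtain ⟨K, r, hr, hK⟩ := hN z₀ hz₀
        have hNn : N z₀ + 1 ≤ n := by
          have : N z₀ ≤ hZ.toFinset.sup N :=
            Finset.le_sup (f := N) (by simpa using hz₀)
          omega
        obtain ⟨k, hk⟩ := Nat.exists_eq_add_of_le hNn
        rw [ContinuousAt, hF0, tendsto_zero_iff_norm_tendsto_zero]
        set G : ℂ → ℝ := fun z => ‖(z - z₀) ^ (k + 1) *
          (∏ a ∈ hZ.toFinset.erase z₀, (z - a)) ^ n‖ * |K| with hG
        have hGc : Tendsto G (𝓝 z₀) (𝓝 0) := by
          have hc : Continuous G := by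
            simp only [hG]
            fun_prop
          have := hc.tendsto z₀
          simpa [hG] using this
        refine squeeze_zero' (Eventually.of_forall fun z => norm_nonneg _) ?_ hGc
        filter_upwards [Metric.ball_mem_nhds z₀ hr] with z hz
        by_cases hzz : z = z₀
        · subst hzz
          rw [hF0, norm_zero]
          positivity
        · have h1 := hK z hzz (by simpa [dist_eq_norm] using hz)
          have h2 : F z = ((z - z₀) ^ (k + 1) * (∏ a ∈ hZ.toFinset.erase z₀, (z - a)) ^ n) *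
              ((z - z₀) ^ (N z₀) * f z) := by
            have h3 : (∏ a ∈ hZ.toFinset, (z - a)) =
                (z - z₀) * ∏ a ∈ hZ.toFinset.erase z₀, (z - a) := by
              rw [Finset.mul_prod_erase hZ.toFinset (fun a => z - a) (by simpa using hz₀)]
            simp only [hFdef, h3]
            rw [mul_pow]
            have h4 : (z - z₀) ^ n = (z - z₀) ^ (k + 1) * (z - z₀) ^ (N z₀) := by
              rw [← pow_add, hk]
              congr 1
              ring
            rw [h4]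
            ring
          rw [h2, norm_mul]
          refine mul_le_mul_of_nonneg_left ?_ (norm_nonneg _)
          rw [norm_mul, norm_pow, mul_comm]
          exact le_trans h1 (le_abs_self K)
    · exact hFd z₀ hz₀
  have hgr : RatGrowth F := ((RatGrowth.prod hZ.toFinset).pow n).mul hinf
  obtain ⟨M, hM⟩ := hgr
  obtain ⟨P, hP⟩ := rat_entire M F hF hM
  exact ⟨P, fun z _ => hP z⟩

end KQ
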