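import Pool.Agent.Lib_MP_3ea2ac_kq.Alg3
import Pool.Agent.Lib_MP_3ea2ac_kq.Rat

/-! The final polynomial. -/

open MeasureTheory Complex Set Topology Filter

namespace KQ

/-- Value of a polynomial in `z` with coefficients in `ℂ[w]`. -/
private noncomputable def alg4_ev (S : Polynomial (Polynomial ℂ)) (z w : ℂ) : ℂ :=
  (S.eval (Polynomial.C z)).eval w

private theorem alg4_ev_mul (S T : Polynomial (Polynomial ℂ)) (z w : ℂ) :
    alg4_ev (S * T) z w = alg4_ev S z w * alg4_ev T z w := by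
  simp [alg4_ev]

private theorem alg4_ev_lin (a z w : ℂ) :
    alg4_ev (Polynomial.X - Polynomial.C (Polynomial.C a)) z w = z - a := by
  simp [alg4_ev]

private theorem alg4_ev_continuous (S : Polynomial (Polynomial ℂ)) (w : ℂ) :
    Continuous fun z => alg4_ev S z w := by
  have h : (fun z => alg4_ev S z w) =
      fun z => ∑ i ∈ Finset.range (S.natDegree + 1), (S.coeff i).eval w * z ^ i := by
    funext z
    have h1 : S.eval (Polynomial.C z) =
        ∑ i ∈ Finset.range (S.natDegree + 1), S.coeff i * Polynomial.C z ^ i :=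
      Polynomial.eval_eq_sum_range _
    unfold alg4_ev
    rw [h1, Polynomial.eval_finsetSum]
    refine Finset.sum_congr rfl fun i _ => ?_
    rw [Polynomial.eval_mul, ← Polynomial.C_pow, Polynomial.eval_C]
  rw [h]
  fun_prop

/-- Passage to polynomials in two variables. -/
private noncomputable def alg4_mv : Polynomial (Polynomial ℂ) →+* MvPolynomial (Fin 2) ℂ :=
  Polynomial.eval₂RingHom
    (Polynomial.eval₂RingHom (MvPolynomial.C : ℂ →+* MvPolynomial (Fin 2) ℂ) (MvPolynomial.X 1))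
    (MvPolynomial.X 0)

private theorem alg4_mv_eval (S : Polynomial (Polynomial ℂ)) (x : ℂ × ℂ) :
    MvPolynomial.eval (fun i => cd x i) (alg4_mv S) = alg4_ev S x.1 x.2 := by
  have h : ((MvPolynomial.eval (fun i => cd x i)).comp alg4_mv) =
      (Polynomial.evalRingHom x.2).comp (Polynomial.evalRingHom (Polynomial.C x.1)) := by
    apply Polynomial.ringHom_ext'
    · apply Polynomial.ringHom_ext'
      · ext r
        simp [alg4_mv]
      · simp [alg4_mv, cd]
    · simp [alg4_mv, cd]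
  have := congrArg (fun F => F S) h
  simpa [alg4_ev] using this

variable {M : Set (ℂ × ℂ)}

private theorem alg4_exists_chart (A : AlgData M) {z₀ : ℂ} (hne : (MZ M z₀).Nonempty) :
    ∃ w₁ ∈ MZ M z₀, ∃ m c, Chart M w₁ m c := by
  have hopen : IsOpen (MZ M z₀) := A.isOpen.preimage (by fun_prop : Continuous fun w : ℂ => (z₀, w))
  have hpos : volume (MZ M z₀) ≠ 0 := (hopen.measure_pos volume hne).ne'
  by_contra hcon
  push Not at hcon
  apply hpos
  have hae := A.chart
  refine measure_mono_null ?_ (ae_iff.mp hae)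
  intro w hw
  simp only [mem_ofPred_eq, Classical.not_imp]
  refine ⟨⟨z₀, hw⟩, ?_⟩
  rintro ⟨m, c, C⟩
  exact hcon w hw m c C

/-- A polynomial over the coefficient ring with the prescribed values. -/
private theorem alg4_start (A : AlgData M) {w₁ : ℂ} {m : ℕ} {c : ℕ → ℂ → ℂ}
    (C : Chart M w₁ m c) (hne : (MW M w₁).Nonempty) :
    ∃ S : Polynomial (Polynomial ℂ), ∀ z ∈ MW M w₁, ∃ t : ℂ, t ≠ 0 ∧
      ∀ w, alg4_ev S z w = t * Qp m c w₁ z w := by
  have hrat : ∀ j, j ≤ m → ∃ N : ℕ, ∀ n ≥ N, ∃ P : Polynomial ℂ, ∀ z ∈ (MW M w₁)ᶜᶜ,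
      (∏ a ∈ C.cofinite.toFinset, (z - a)) ^ n * c j z = P.eval z := by
    intro j hj
    refine rational_of_bounds C.cofinite ?_ ?_ ?_
    · rw [compl_compl]
      exact C.hol j
    · intro z₀ hz₀
      exact Chart.pole A C hne j hj hz₀
    · exact Chart.pole_infty A C hne j hj
  choose! N hN using hrat
  set n : ℕ := (Finset.range (m + 1)).sup N with hn
  have hP : ∀ j, j ≤ m → ∃ P : Polynomial ℂ, ∀ z ∈ MW M w₁,
      (∏ a ∈ C.cofinite.toFinset, (z - a)) ^ n * c j z = P.eval z := by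
    intro j hj
    have hle : N j ≤ n := Finset.le_sup (f := N) (Finset.mem_range.mpr (Nat.lt_succ_of_le hj))
    obtain ⟨P, hP⟩ := hN j hj n hle
    refine ⟨P, fun z hz => hP z ?_⟩
    rw [compl_compl]
    exact hz
  choose! P hP using hP
  refine ⟨∑ j ∈ Finset.range (m + 1), (P j).map Polynomial.C *
    Polynomial.C ((Polynomial.X - Polynomial.C w₁) ^ j), ?_⟩
  intro z hz
  refine ⟨(∏ a ∈ C.cofinite.toFinset, (z - a)) ^ n, ?_, ?_⟩
  · apply pow_ne_zero
    rw [Finset.prod_ne_zero_iff]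
    intro a ha h0
    rw [Set.Finite.mem_toFinset] at ha
    rw [sub_eq_zero] at h0
    rw [← h0] at ha
    exact ha hz
  · intro w
    unfold alg4_ev Qp
    rw [Polynomial.eval_finsetSum, Polynomial.eval_finsetSum, Finset.mul_sum]
    refine Finset.sum_congr rfl fun j hj => ?_
    have hj' : j ≤ m := Nat.lt_succ_iff.mp (Finset.mem_range.mp hj)
    rw [← mul_assoc, hP j hj' z hz, Polynomial.eval_mul, Polynomial.eval_C, Polynomial.eval_mul,
      Polynomial.eval_map_apply]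
    simp

/-- The polynomial without superfluous factors `z - a`, `a ∉ M^{w₁}`. -/
private theorem alg4_reduced (A : AlgData M) {w₁ : ℂ} {m : ℕ} {c : ℕ → ℂ → ℂ}
    (C : Chart M w₁ m c) (hne : (MW M w₁).Nonempty) :
    ∃ S : Polynomial (Polynomial ℂ), (∀ z ∈ MW M w₁, ∃ t : ℂ, t ≠ 0 ∧
      ∀ w, alg4_ev S z w = t * Qp m c w₁ z w) ∧
      ∀ a ∉ MW M w₁, S.eval (Polynomial.C a) ≠ 0 := by
  classical
  have hex : ∃ n : ℕ, ∃ S : Polynomial (Polynomial ℂ), S.natDegree = n ∧
      ∀ z ∈ MW M w₁, ∃ t : ℂ, t ≠ 0 ∧ ∀ w, alg4_ev S z w = t * Qp m c w₁ z w := by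
    obtain ⟨S, hS⟩ := alg4_start A C hne
    exact ⟨S.natDegree, S, rfl, hS⟩
  obtain ⟨S, hdeg, hS⟩ := Nat.find_spec hex
  refine ⟨S, hS, ?_⟩
  intro a ha h0
  have hS0 : S ≠ 0 := by
    rintro rfl
    obtain ⟨z, hz⟩ := hne
    obtain ⟨t, ht, h⟩ := hS z hz
    have h1 := h w₁
    rw [Chart.Q_base C hz] at h1
    simp only [alg4_ev, Polynomial.eval_zero, mul_one] at h1
    exact ht h1.symm
  obtain ⟨S₁, hS₁⟩ := Polynomial.dvd_iff_isRoot.mpr h0
  have hS₁0 : S₁ ≠ 0 := by
    rintro rfl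
    rw [mul_zero] at hS₁
    exact hS0 hS₁
  have hd : S.natDegree = 1 + S₁.natDegree := by
    rw [hS₁, Polynomial.natDegree_mul (Polynomial.X_sub_C_ne_zero _) hS₁0,
      Polynomial.natDegree_X_sub_C]
  have hlt : S₁.natDegree < Nat.find hex := by omega
  refine Nat.find_min hex hlt ⟨S₁, rfl, ?_⟩
  intro z hz
  obtain ⟨t, ht, h⟩ := hS z hz
  have hza : z - a ≠ 0 := by
    intro h2
    rw [sub_eq_zero] at h2
    rw [h2] at hz
    exact ha hz
  refine ⟨t / (z - a), div_ne_zero ht hza, ?_⟩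
  intro w
  have h3 := h w
  rw [hS₁, alg4_ev_mul, alg4_ev_lin] at h3
  field_simp
  linear_combination h3

/-- Over the exceptional points with non-empty slice the reduced polynomial is right. -/
private theorem alg4_fibre (A : AlgData M) {w₁ : ℂ} {m : ℕ} {c : ℕ → ℂ → ℂ}
    (C : Chart M w₁ m c) {S : Polynomial (Polynomial ℂ)}
    (hS : ∀ z ∈ MW M w₁, ∃ t : ℂ, t ≠ 0 ∧ ∀ w, alg4_ev S z w = t * Qp m c w₁ z w)
    {a : ℂ} (hSa : S.eval (Polynomial.C a) ≠ 0) (hne : (MZ M a).Nonempty) (w : ℂ) :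
    (a, w) ∈ M ↔ alg4_ev S a w ≠ 0 := by
  obtain ⟨w₂, hw₂, m', c', C'⟩ := alg4_exists_chart A hne
  have ha : a ∈ MW M w₂ := hw₂
  have hΩo : IsOpen (MW M w₂) := A.isOpen.preimage (by fun_prop : Continuous fun z : ℂ => (z, w₂))
  -- continuity of the second chart at `a`
  have hcont : ∀ w, ContinuousAt (fun z => Qp m' c' w₂ z w) a := by
    intro w
    unfold Qp
    have h1 : ∀ j, ContinuousAt (c' j) a := fun j =>
      (C'.hol j).continuousOn.continuousAt (hΩo.mem_nhds ha)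
    have h2 : ContinuousAt (fun z => ∑ j ∈ Finset.range (m' + 1), c' j z * (w - w₂) ^ j) a :=
      tendsto_finsetSum _ fun j _ => (h1 j).mul continuousAt_const
    exact h2
  -- a point where both polynomials do not vanish
  set p : Polynomial ℂ := ∑ j ∈ Finset.range (m' + 1),
    Polynomial.C (c' j a) * (Polynomial.X - Polynomial.C w₂) ^ j with hp
  have hpe : ∀ w, p.eval w = Qp m' c' w₂ a w := by
    intro w
    rw [hp, Polynomial.eval_finsetSum]
    unfold Qp
    refine Finset.sum_congr rfl fun j _ => ?_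
    simp
  have hp0 : p ≠ 0 := by
    intro h0
    have h1 := hpe w₂
    rw [Chart.Q_base C' ha, h0, Polynomial.eval_zero] at h1
    exact zero_ne_one h1
  obtain ⟨w₀, hw₀⟩ : ∃ w₀, (S.eval (Polynomial.C a) * p).eval w₀ ≠ 0 := by
    by_contra hcon
    push Not at hcon
    refine mul_ne_zero hSa hp0 (Polynomial.funext fun x => ?_)
    rw [hcon x, Polynomial.eval_zero]
  rw [Polynomial.eval_mul, hpe] at hw₀
  have hw₀1 : alg4_ev S a w₀ ≠ 0 := left_ne_zero_of_mul hw₀
  have hw₀2 : Qp m' c' w₂ a w₀ ≠ 0 := right_ne_zero_of_mul hw₀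
  -- the identity near `a`
  have hev : ∀ᶠ z in 𝓝[≠] a, z ∈ MW M w₁ ∧ z ∈ MW M w₂ ∧ Qp m' c' w₂ z w₀ ≠ 0 := by
    have h1 : ∀ᶠ z in 𝓝[≠] a, z ∈ MW M w₂ :=
      (hΩo.eventually_mem ha).filter_mono nhdsWithin_le_nhds
    have h2 : ∀ᶠ z in 𝓝[≠] a, Qp m' c' w₂ z w₀ ≠ 0 :=
      ((hcont w₀).eventually_ne hw₀2).filter_mono nhdsWithin_le_nhds
    have h3 : ∀ᶠ z in 𝓝[≠] a, z ∈ MW M w₁ := by
      have hfin : ((MW M w₁)ᶜ \ {a}).Finite := C.cofinite.subset sdiff_subset
      have h4 : ∀ᶠ z in 𝓝 a, z ∈ ((MW M w₁)ᶜ \ {a})ᶜ :=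
        hfin.isClosed.isOpen_compl.eventually_mem (by simp)
      have h5 := h4.filter_mono (nhdsWithin_le_nhds (s := {a}ᶜ))
      filter_upwards [h5, self_mem_nhdsWithin] with z hz hza
      by_contra hcon
      exact hz ⟨hcon, hza⟩
    filter_upwards [h1, h2, h3] with z h1 h2 h3
    exact ⟨h3, h1, h2⟩
  have hid : ∀ w, ∀ᶠ z in 𝓝[≠] a,
      alg4_ev S z w = alg4_ev S z w₀ / Qp m' c' w₂ z w₀ * Qp m' c' w₂ z w := by
    intro w
    filter_upwards [hev] with z hz
    obtain ⟨hz1, hz2, hz3⟩ := hz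
    obtain ⟨t, ht, h⟩ := hS z hz1
    have hq : Qp m' c' w₂ z w₁ ≠ 0 := (Chart.iff A C' hz2).mp hz1
    have e1 := Chart.change A C C' hz1 hz2 w
    have e0 := Chart.change A C C' hz1 hz2 w₀
    have k1 := h w
    have k0 := h w₀
    have f1 : alg4_ev S z w * Qp m' c' w₂ z w₁ = t * Qp m' c' w₂ z w := by
      rw [k1, ← e1]; ring
    have f0 : alg4_ev S z w₀ * Qp m' c' w₂ z w₁ = t * Qp m' c' w₂ z w₀ := by
      rw [k0, ← e0]; ring
    rw [div_mul_eq_mul_div, eq_div_iff hz3]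
    apply mul_right_cancel₀ hq
    linear_combination Qp m' c' w₂ z w₀ * f1 - Qp m' c' w₂ z w * f0
  have hlim : ∀ w, alg4_ev S a w =
      alg4_ev S a w₀ / Qp m' c' w₂ a w₀ * Qp m' c' w₂ a w := by
    intro w
    have h1 : Tendsto (fun z => alg4_ev S z w) (𝓝[≠] a) (𝓝 (alg4_ev S a w)) :=
      ((alg4_ev_continuous S w).tendsto a).mono_left nhdsWithin_le_nhds
    have h2 : Tendsto (fun z => alg4_ev S z w₀ / Qp m' c' w₂ z w₀ * Qp m' c' w₂ z w) (𝓝[≠] a)
        (𝓝 (alg4_ev S a w₀ / Qp m' c' w₂ a w₀ * Qp m' c' w₂ a w)) := by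
      refine Tendsto.mono_left ?_ nhdsWithin_le_nhds
      exact (((alg4_ev_continuous S w₀).tendsto a).div (hcont w₀) hw₀2).mul (hcont w)
    have h3 := h1.congr' (hid w)
    exact tendsto_nhds_unique h3 h2
  rw [Chart.iff A C' ha, hlim w]
  have hF : alg4_ev S a w₀ / Qp m' c' w₂ a w₀ ≠ 0 := div_ne_zero hw₀1 hw₀2
  constructor
  · intro h
    exact mul_ne_zero hF h
  · intro h
    exact right_ne_zero_of_mul h

theorem AlgData.polynomial {M : Set (ℂ × ℂ)} (A : AlgData M) :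
    ∃ Q : MvPolynomial (Fin 2) ℂ, Q ≠ 0 ∧
      M = {x | MvPolynomial.eval (fun i => cd x i) Q ≠ 0} := by
  classical
  obtain ⟨x₀, hx₀⟩ := A.nonempty
  obtain ⟨w₁, hw₁, m, c, C⟩ := alg4_exists_chart A (z₀ := x₀.1) ⟨x₀.2, hx₀⟩
  have hne : (MW M w₁).Nonempty := ⟨x₀.1, hw₁⟩
  obtain ⟨S, hS, hred⟩ := alg4_reduced A C hne
  set E : Finset ℂ := C.cofinite.toFinset.filter (fun a => ¬ (MZ M a).Nonempty) with hE
  set T : Polynomial (Polynomial ℂ) :=
    ∏ a ∈ E, (Polynomial.X - Polynomial.C (Polynomial.C a)) with hT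
  have hTe : ∀ z w, alg4_ev T z w = ∏ a ∈ E, (z - a) := by
    intro z w
    rw [hT]
    unfold alg4_ev
    rw [Polynomial.eval_prod, Polynomial.eval_prod]
    refine Finset.prod_congr rfl fun a _ => ?_
    simp
  have hmain : ∀ z w, (z, w) ∈ M ↔ alg4_ev (S * T) z w ≠ 0 := by
    intro z w
    rw [alg4_ev_mul, hTe]
    by_cases hz : z ∈ MW M w₁
    · have hT0 : ∏ a ∈ E, (z - a) ≠ 0 := by
        rw [Finset.prod_ne_zero_iff]
        intro a ha h0
        rw [sub_eq_zero] at h0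
        rw [hE, Finset.mem_filter, Set.Finite.mem_toFinset, ← h0] at ha
        exact ha.1 hz
      obtain ⟨t, ht, h⟩ := hS z hz
      rw [Chart.iff A C hz, h w]
      constructor
      · intro h1
        exact mul_ne_zero (mul_ne_zero ht h1) hT0
      · intro h1
        exact right_ne_zero_of_mul (left_ne_zero_of_mul h1)
    · by_cases hzM : (MZ M z).Nonempty
      · have hT0 : ∏ a ∈ E, (z - a) ≠ 0 := by
          rw [Finset.prod_ne_zero_iff]
          intro a ha h0
          rw [sub_eq_zero] at h0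
          rw [hE, Finset.mem_filter, ← h0] at ha
          exact ha.2 hzM
        rw [alg4_fibre A C hS (hred z hz) hzM w]
        constructor
        · intro h1
          exact mul_ne_zero h1 hT0
        · intro h1
          exact left_ne_zero_of_mul h1
      · have hT0 : ∏ a ∈ E, (z - a) = 0 := by
          refine Finset.prod_eq_zero (i := z) ?_ (sub_self z)
          rw [hE, Finset.mem_filter, Set.Finite.mem_toFinset]
          exact ⟨hz, hzM⟩
        constructor
        · intro h1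
          exact absurd ⟨w, h1⟩ hzM
        · intro h1
          rw [hT0, mul_zero] at h1
          exact absurd rfl h1
  refine ⟨alg4_mv (S * T), ?_, ?_⟩
  · intro h0
    have h1 := (hmain x₀.1 x₀.2).mp hx₀
    rw [← alg4_mv_eval, h0, map_zero] at h1
    exact h1 rfl
  · ext x
    rw [mem_ofPred_eq, alg4_mv_eval]
    exact hmain x.1 x.2

end KQ
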