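import Pool.Agent.Lib_MP_3ea2ac_kq.Lin

/-! The Bochner inequality (complex dimension two, explicit). -/

open MeasureTheory Complex Set Topology Filter
open scoped ComplexConjugate ContDiff ComplexOrder

namespace KQ

variable {M : Set (ℂ × ℂ)} {g : ℂ × ℂ → Matrix (Fin 2) (Fin 2) ℂ} {a : ℝ} {a₁ b₁ a₂ b₂ : ℂ}
  {x : ℂ × ℂ}

/-- `D · Δ_g v = ∑ c^{i\bar j} v_{i\bar j}` for a real function `v`. -/
noncomputable def cL (g : ℂ × ℂ → Matrix (Fin 2) (Fin 2) ℂ) (v : ℂ × ℂ → ℝ) (x : ℂ × ℂ) : ℝ :=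
  (g x 1 1 * pd 0 (pdb 0 (fun y => ((v y : ℝ) : ℂ))) x
    - g x 1 0 * pd 0 (pdb 1 (fun y => ((v y : ℝ) : ℂ))) x
    - g x 0 1 * pd 1 (pdb 0 (fun y => ((v y : ℝ) : ℂ))) x
    + g x 0 0 * pd 1 (pdb 1 (fun y => ((v y : ℝ) : ℂ))) x).re

private theorem Boch_diff {f : ℂ × ℂ → ℂ} (hM : IsOpen M) (hf : ContDiffOn ℝ ∞ f M)
    (hx : x ∈ M) : DifferentiableAt ℝ f x :=
  (hf.contDiffAt (hM.mem_nhds hx)).differentiableAt (by simp)

private theorem Boch_diffb {f : ℂ × ℂ → ℂ} (hM : IsOpen M) (hf : ContDiffOn ℝ ∞ f M)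
    (hx : x ∈ M) (j : Fin 2) : DifferentiableAt ℝ (pdb j f) x :=
  Boch_diff hM (contDiffOn_wdb hM hf) hx

private theorem Boch_congrb {f h : ℂ × ℂ → ℂ} (hM : IsOpen M) (hfh : ∀ y ∈ M, f y = h y)
    (hx : x ∈ M) (j : Fin 2) : pdb j f x = pdb j h x :=
  wdb_congr (by filter_upwards [hM.mem_nhds hx] with y hy using hfh y hy)

private theorem Boch_congr {f h : ℂ × ℂ → ℂ} (hM : IsOpen M) (hfh : ∀ y ∈ M, f y = h y)
    (hx : x ∈ M) (j : Fin 2) : pd j f x = pd j h x :=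
  wd_congr (by filter_upwards [hM.mem_nhds hx] with y hy using hfh y hy)

private theorem Boch_congr2 {f h : ℂ × ℂ → ℂ} (hM : IsOpen M) (hfh : ∀ y ∈ M, f y = h y)
    (hx : x ∈ M) (i j : Fin 2) : pd i (pdb j f) x = pd i (pdb j h) x :=
  Boch_congr hM (fun _ hy => Boch_congrb hM hfh hy j) hx i

private theorem Boch_mul2 {f h : ℂ × ℂ → ℂ} (hM : IsOpen M) (hf : ContDiffOn ℝ ∞ f M)
    (hh : ContDiffOn ℝ ∞ h M) (hx : x ∈ M) (i j : Fin 2) :
    pd i (pdb j (fun y => f y * h y)) x = pd i (pdb j f) x * h x + pdb j f x * pd i h x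
      + pd i f x * pdb j h x + f x * pd i (pdb j h) x := by
  have h1 : pd i (pdb j (fun y => f y * h y)) x =
      pd i (fun y => pdb j f y * h y + f y * pdb j h y) x :=
    Boch_congr hM (fun y hy => wdb_mul (Boch_diff hM hf hy) (Boch_diff hM hh hy)) hx i
  rw [h1]
  have e1 : pd i (fun y => pdb j f y * h y + f y * pdb j h y) x =
      pd i (fun y => pdb j f y * h y) x + pd i (fun y => f y * pdb j h y) x :=
    wd_add ((Boch_diffb hM hf hx j).mul (Boch_diff hM hh hx))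
      ((Boch_diff hM hf hx).mul (Boch_diffb hM hh hx j))
  have e2 : pd i (fun y => pdb j f y * h y) x = pd i (pdb j f) x * h x + pdb j f x * pd i h x :=
    wd_mul (Boch_diffb hM hf hx j) (Boch_diff hM hh hx)
  have e3 : pd i (fun y => f y * pdb j h y) x = pd i f x * pdb j h x + f x * pd i (pdb j h) x :=
    wd_mul (Boch_diff hM hf hx) (Boch_diffb hM hh hx j)
  rw [e1, e2, e3]
  ring

private theorem Boch_sub2 {f h : ℂ × ℂ → ℂ} (hM : IsOpen M) (hf : ContDiffOn ℝ ∞ f M)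
    (hh : ContDiffOn ℝ ∞ h M) (hx : x ∈ M) (i j : Fin 2) :
    pd i (pdb j (fun y => f y - h y)) x = pd i (pdb j f) x - pd i (pdb j h) x := by
  have h1 : pd i (pdb j (fun y => f y - h y)) x = pd i (fun y => pdb j f y - pdb j h y) x :=
    Boch_congr hM (fun y hy => wdb_sub (Boch_diff hM hf hy) (Boch_diff hM hh hy)) hx i
  rw [h1]
  exact wd_sub (Boch_diffb hM hf hx j) (Boch_diffb hM hh hx j)

private theorem Boch_coe {u : ℂ × ℂ → ℝ} (hu : ContDiffOn ℝ ∞ u M) :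
    ContDiffOn ℝ ∞ (fun y => ((u y : ℝ) : ℂ)) M :=
  Complex.ofRealCLM.contDiff.comp_contDiffOn hu

private theorem Boch_log {u : ℂ × ℂ → ℝ} (hM : IsOpen M) (hu : ContDiffOn ℝ ∞ u M)
    (hpos : ∀ y ∈ M, 0 < u y) (hx : x ∈ M) (i j : Fin 2) :
    pd i (pdb j (fun y => ((Real.log (u y) : ℝ) : ℂ))) x =
      pd i (pdb j (fun y => ((u y : ℝ) : ℂ))) x / (u x : ℂ)
      - pd i (fun y => ((u y : ℝ) : ℂ)) x * pdb j (fun y => ((u y : ℝ) : ℂ)) x
        / (u x : ℂ) ^ 2 := by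
  have hd : ∀ y ∈ M, DifferentiableAt ℝ u y := fun y hy =>
    (hu.contDiffAt (hM.mem_nhds hy)).differentiableAt (by simp)
  have h1 : pd i (pdb j (fun y => ((Real.log (u y) : ℝ) : ℂ))) x =
      pd i (fun y => (((u y)⁻¹ : ℝ) : ℂ) * pdb j (fun y => ((u y : ℝ) : ℂ)) y) x :=
    Boch_congr hM (fun y hy => wdb_ofReal_comp (hd y hy) (Real.hasDerivAt_log (hpos y hy).ne'))
      hx i
  have hinv : ContDiffOn ℝ ∞ (fun y => (u y)⁻¹) M := hu.inv fun y hy => (hpos y hy).ne'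
  have h2 : pd i (fun y => (((u y)⁻¹ : ℝ) : ℂ) * pdb j (fun y => ((u y : ℝ) : ℂ)) y) x =
      pd i (fun y => (((u y)⁻¹ : ℝ) : ℂ)) x * pdb j (fun y => ((u y : ℝ) : ℂ)) x
      + (((u x)⁻¹ : ℝ) : ℂ) * pd i (pdb j (fun y => ((u y : ℝ) : ℂ))) x :=
    wd_mul (Boch_diff hM (Boch_coe hinv) hx) (Boch_diffb hM (Boch_coe hu) hx j)
  have h3 : pd i (fun y => (((u y)⁻¹ : ℝ) : ℂ)) x =
      ((-((u x) ^ 2)⁻¹ : ℝ) : ℂ) * pd i (fun y => ((u y : ℝ) : ℂ)) x :=
    wd_ofReal_comp (hd x hx) (hasDerivAt_inv (hpos x hx).ne')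
  have h0 : (u x : ℂ) ≠ 0 := Complex.ofReal_ne_zero.2 (hpos x hx).ne'
  rw [h1, h2, h3]
  push_cast
  field_simp
  ring

private theorem Boch_conj (hM : IsOpen M) (h : IsKahler M g) (hx : x ∈ M) (i j k : Fin 2) :
    pdb k (fun y => g y i j) x = conj (pd k (fun y => g y j i) x) := by
  have h1 : pdb k (fun y => g y i j) x = pdb k (fun y => conj (g y j i)) x :=
    Boch_congrb hM (fun y hy => ((h.posDef y hy).1.apply i j).symm) hx k
  rw [h1]
  exact wdb_conj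

private theorem Boch_gG (h : IsKahler M g) : ∀ y ∈ M, ((gG g y : ℝ) : ℂ) = g y 1 1 :=
  fun _ hy => (g11 h hy).symm

private theorem Boch_gD (h : IsKahler M g) : ∀ y ∈ M, ((gD g y : ℝ) : ℂ) =
    g y 0 0 * g y 1 1 - g y 0 1 * g y 1 0 := by
  intro y hy
  rw [gD_eq h hy, g00 h hy, g11 h hy, g10 h hy, Complex.mul_conj]
  push_cast
  ring

/-- `tr_g ∂∂̄ log G ≥ T_{1\bar 1} / G`. See (1a) of the paper proof: with
`t = ∂₁G, z' = ∂₁ g_{1\bar 0}, r = ∂₁ D`, the difference (times `G`) is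
`|r - D t/G|²/D + |z' - g_{1\bar 0} t/G|²` after all second derivatives have cancelled by the
Kähler condition (`∂₀∂̄₀G = ∂₁∂̄₁E`, `∂₀∂̄₁G = ∂₁∂̄₁ g_{0\bar 1}`, `∂₀ G = ∂₁ g_{0\bar 1}`). -/
theorem bochner (hM : IsOpen M) (h : IsKahler M g) (hx : x ∈ M) :
    gD g x * (gT g 1 1 x).re ≤ gG g x * cL g (fun y => Real.log (gG g y)) x := by
  have hGp := gG_pos h hx
  have hDp := gD_pos h hx
  have s : ∀ i j, ContDiffOn ℝ ∞ (fun y => g y i j) M := h.smooth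
  -- the second derivatives of `log G`
  have L : ∀ i j, pd i (pdb j (fun y => ((Real.log (gG g y) : ℝ) : ℂ))) x =
      pd i (pdb j (fun y => g y 1 1)) x / (gG g x : ℂ)
      - pd i (fun y => g y 1 1) x * pdb j (fun y => g y 1 1) x / (gG g x : ℂ) ^ 2 := by
    intro i j
    rw [Boch_log hM (gG_smooth h) (fun y hy => gG_pos h hy) hx i j,
      Boch_congr2 hM (Boch_gG h) hx i j, Boch_congr hM (Boch_gG h) hx i,
      Boch_congrb hM (Boch_gG h) hx j]
  -- Kähler identities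
  have k0 : ∀ y ∈ M, pd 0 (fun y => g y 1 1) y = pd 1 (fun y => g y 0 1) y :=
    fun y hy => h.closed y hy 0 1 1
  have k0b : ∀ y ∈ M, pdb 0 (fun y => g y 1 1) y = pdb 1 (fun y => g y 1 0) y := by
    intro y hy
    rw [Boch_conj hM h hy, Boch_conj hM h hy, k0 y hy]
  have k1 : ∀ y ∈ M, pd 0 (fun y => g y 1 0) y = pd 1 (fun y => g y 0 0) y :=
    fun y hy => h.closed y hy 0 1 0
  have c : ∀ i j k l, pd i (pdb j (fun y => g y k l)) x = pdb j (pd i (fun y => g y k l)) x :=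
    fun i j k l => wd_wdb_comm hM (s k l) hx
  have q00 : pd 0 (pdb 0 (fun y => g y 1 1)) x = pd 1 (pdb 1 (fun y => g y 0 0)) x := by
    rw [Boch_congr hM k0b hx 0, c 0 1 1 0, Boch_congrb hM k1 hx 1, c 1 1 0 0]
  have q01 : pd 0 (pdb 1 (fun y => g y 1 1)) x = pd 1 (pdb 1 (fun y => g y 0 1)) x := by
    rw [c 0 1 1 1, Boch_congrb hM k0 hx 1, c 1 1 0 1]
  have q10 : pd 1 (pdb 0 (fun y => g y 1 1)) x = pd 1 (pdb 1 (fun y => g y 1 0)) x :=
    Boch_congr hM k0b hx 1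
  -- the derivatives of `D`
  have hD2 : pd 1 (pdb 1 (fun y => ((gD g y : ℝ) : ℂ))) x =
      pd 1 (pdb 1 (fun y => g y 0 0)) x * g x 1 1
      + pdb 1 (fun y => g y 0 0) x * pd 1 (fun y => g y 1 1) x
      + pd 1 (fun y => g y 0 0) x * pdb 1 (fun y => g y 1 1) x
      + g x 0 0 * pd 1 (pdb 1 (fun y => g y 1 1)) x
      - (pd 1 (pdb 1 (fun y => g y 0 1)) x * g x 1 0
      + pdb 1 (fun y => g y 0 1) x * pd 1 (fun y => g y 1 0) x
      + pd 1 (fun y => g y 0 1) x * pdb 1 (fun y => g y 1 0) x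
      + g x 0 1 * pd 1 (pdb 1 (fun y => g y 1 0)) x) := by
    rw [Boch_congr2 hM (Boch_gD h) hx 1 1,
      Boch_sub2 hM ((s 0 0).mul (s 1 1)) ((s 0 1).mul (s 1 0)) hx 1 1,
      Boch_mul2 hM (s 0 0) (s 1 1) hx 1 1, Boch_mul2 hM (s 0 1) (s 1 0) hx 1 1]
  have hD1 : pd 1 (fun y => ((gD g y : ℝ) : ℂ)) x =
      pd 1 (fun y => g y 0 0) x * g x 1 1 + g x 0 0 * pd 1 (fun y => g y 1 1) x
      - (pd 1 (fun y => g y 0 1) x * g x 1 0 + g x 0 1 * pd 1 (fun y => g y 1 0) x) := by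
    rw [Boch_congr hM (Boch_gD h) hx 1]
    have e1 : pd 1 (fun y => g y 0 0 * g y 1 1 - g y 0 1 * g y 1 0) x =
        pd 1 (fun y => g y 0 0 * g y 1 1) x - pd 1 (fun y => g y 0 1 * g y 1 0) x :=
      wd_sub (Boch_diff hM ((s 0 0).mul (s 1 1)) hx) (Boch_diff hM ((s 0 1).mul (s 1 0)) hx)
    have e2 : pd 1 (fun y => g y 0 0 * g y 1 1) x =
        pd 1 (fun y => g y 0 0) x * g x 1 1 + g x 0 0 * pd 1 (fun y => g y 1 1) x :=
      wd_mul (Boch_diff hM (s 0 0) hx) (Boch_diff hM (s 1 1) hx)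
    have e3 : pd 1 (fun y => g y 0 1 * g y 1 0) x =
        pd 1 (fun y => g y 0 1) x * g x 1 0 + g x 0 1 * pd 1 (fun y => g y 1 0) x :=
      wd_mul (Boch_diff hM (s 0 1) hx) (Boch_diff hM (s 1 0) hx)
    rw [e1, e2, e3]
  have hD1b : pdb 1 (fun y => ((gD g y : ℝ) : ℂ)) x =
      conj (pd 1 (fun y => ((gD g y : ℝ) : ℂ)) x) := by
    have h1 := wdb_conj (e := ex 1) (e' := ey 1) (f := fun y => ((gD g y : ℝ) : ℂ)) (x := x)
    simp only [Complex.conj_ofReal] at h1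
    exact h1
  have hT : gT g 1 1 x = pd 1 (pdb 1 (fun y => ((gD g y : ℝ) : ℂ))) x / (gD g x : ℂ)
      - pd 1 (fun y => ((gD g y : ℝ) : ℂ)) x * pdb 1 (fun y => ((gD g y : ℝ) : ℂ)) x
        / (gD g x : ℂ) ^ 2 :=
    Boch_log hM (gD_smooth h) (fun y hy => gD_pos h hy) hx 1 1
  -- abbreviations
  obtain ⟨X, hX⟩ : ∃ X, X = pd 1 (fun y => g y 0 0) x := ⟨_, rfl⟩
  obtain ⟨Y, hY⟩ : ∃ Y, Y = pd 1 (fun y => g y 0 1) x := ⟨_, rfl⟩
  obtain ⟨Z, hZ⟩ : ∃ Z, Z = pd 1 (fun y => g y 1 0) x := ⟨_, rfl⟩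
  obtain ⟨t, ht⟩ : ∃ t, t = pd 1 (fun y => g y 1 1) x := ⟨_, rfl⟩
  have key : (gG g x : ℂ) * (g x 1 1 * pd 0 (pdb 0 (fun y => ((Real.log (gG g y) : ℝ) : ℂ))) x
      - g x 1 0 * pd 0 (pdb 1 (fun y => ((Real.log (gG g y) : ℝ) : ℂ))) x
      - g x 0 1 * pd 1 (pdb 0 (fun y => ((Real.log (gG g y) : ℝ) : ℂ))) x
      + g x 0 0 * pd 1 (pdb 1 (fun y => ((Real.log (gG g y) : ℝ) : ℂ))) x)
      - (gD g x : ℂ) * gT g 1 1 x =
      ((Complex.normSq (X * g x 1 1 + g x 0 0 * t - (Y * g x 1 0 + g x 0 1 * Z)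
        - gD g x * t / gG g x) / gD g x
        + Complex.normSq (Z - g x 1 0 * t / gG g x) : ℝ) : ℂ) := by
    have hDc := Boch_gD h x hx
    have hG0 : (gG g x : ℂ) ≠ 0 := Complex.ofReal_ne_zero.2 hGp.ne'
    have hD0 : (gD g x : ℂ) ≠ 0 := Complex.ofReal_ne_zero.2 hDp.ne'
    rw [L 0 0, L 0 1, L 1 0, L 1 1, q00, q01, q10, hT, hD2, hD1b, hD1, k0 x hx, k0b x hx,
      Boch_conj hM h hx 1 1 1, Boch_conj hM h hx 1 0 1, Boch_conj hM h hx 0 0 1,
      Boch_conj hM h hx 0 1 1, ← hX, ← hY, ← hZ, ← ht]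
    push_cast
    rw [← Complex.mul_conj, ← Complex.mul_conj]
    simp only [map_sub, map_add, map_mul, map_div₀, Complex.conj_ofReal]
    rw [g00 h hx, g11 h hx, g10 h hx] at hDc ⊢
    simp only [Complex.conj_ofReal, Complex.conj_conj]
    obtain ⟨D, hD⟩ : ∃ D : ℂ, D = (gD g x : ℂ) := ⟨_, rfl⟩
    obtain ⟨G, hG⟩ : ∃ G : ℂ, G = (gG g x : ℂ) := ⟨_, rfl⟩
    obtain ⟨E, hE⟩ : ∃ E : ℂ, E = (gE g x : ℂ) := ⟨_, rfl⟩
    rw [← hD, ← hG, ← hE] at hDc ⊢
    rw [← hD] at hD0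
    rw [← hG] at hG0
    field_simp
    linear_combination (-(t * conj t * D)) * hDc
  have key2 := congrArg Complex.re key
  rw [Complex.sub_re, Complex.re_ofReal_mul, Complex.re_ofReal_mul, Complex.ofReal_re] at key2
  have hpos : 0 ≤ Complex.normSq (X * g x 1 1 + g x 0 0 * t - (Y * g x 1 0 + g x 0 1 * Z)
        - gD g x * t / gG g x) / gD g x
        + Complex.normSq (Z - g x 1 0 * t / gG g x) :=
    add_nonneg (div_nonneg (Complex.normSq_nonneg _) hDp.le) (Complex.normSq_nonneg _)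
  have : cL g (fun y => Real.log (gG g y)) x =
      (g x 1 1 * pd 0 (pdb 0 (fun y => ((Real.log (gG g y) : ℝ) : ℂ))) x
      - g x 1 0 * pd 0 (pdb 1 (fun y => ((Real.log (gG g y) : ℝ) : ℂ))) x
      - g x 0 1 * pd 1 (pdb 0 (fun y => ((Real.log (gG g y) : ℝ) : ℂ))) x
      + g x 0 0 * pd 1 (pdb 1 (fun y => ((Real.log (gG g y) : ℝ) : ℂ))) x).re := rfl
  rw [this]
  linarith

/-- `Δ log (G/D) ≥ -a`, times `D`. -/
theorem bochner' (H : Hyp M g a a₁ b₁ a₂ b₂) (hx : x ∈ M) :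
    - a * gD g x ≤ cL g (fun y => Real.log (gG g y / gD g y)) x := by
  have h := H.kahler
  have hM := H.isOpen
  have hGp := gG_pos h hx
  have hDp := gD_pos h hx
  have sG : ContDiffOn ℝ ∞ (fun y => ((Real.log (gG g y) : ℝ) : ℂ)) M :=
    Boch_coe ((gG_smooth h).log fun y hy => (gG_pos h hy).ne')
  have sD : ContDiffOn ℝ ∞ (fun y => ((Real.log (gD g y) : ℝ) : ℂ)) M := Boch_coe (gpsi_smooth h)
  have e : ∀ i j, pd i (pdb j (fun y => ((Real.log (gG g y / gD g y) : ℝ) : ℂ))) x =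
      pd i (pdb j (fun y => ((Real.log (gG g y) : ℝ) : ℂ))) x - gT g i j x := by
    intro i j
    have e1 : pd i (pdb j (fun y => ((Real.log (gG g y / gD g y) : ℝ) : ℂ))) x =
        pd i (pdb j (fun y => ((Real.log (gG g y) : ℝ) : ℂ) - ((Real.log (gD g y) : ℝ) : ℂ))) x := by
      refine Boch_congr2 hM (fun y hy => ?_) hx i j
      rw [Real.log_div (gG_pos h hy).ne' (gD_pos h hy).ne']
      push_cast
      rfl
    rw [e1, Boch_sub2 hM sG sD hx i j]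
    rfl
  have key : cL g (fun y => Real.log (gG g y / gD g y)) x =
      cL g (fun y => Real.log (gG g y)) x
        - (g x 1 1 * gT g 0 0 x - g x 1 0 * gT g 0 1 x - g x 0 1 * gT g 1 0 x
          + g x 0 0 * gT g 1 1 x).re := by
    unfold cL
    rw [e 0 0, e 0 1, e 1 0, e 1 1, ← Complex.sub_re]
    congr 1
    ring
  have h1 := bochner hM h hx
  have h2 := trace_le H hx
  rw [key]
  have h3 : gG g x * (- a * gD g x) ≤ gG g x * (cL g (fun y => Real.log (gG g y)) x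
        - (g x 1 1 * gT g 0 0 x - g x 1 0 * gT g 0 1 x - g x 0 1 * gT g 1 0 x
          + g x 0 0 * gT g 1 1 x).re) := by
    rw [mul_sub]
    linarith
  exact le_of_mul_le_mul_left h3 hGp

private theorem Boch_int {f : ℂ × ℂ → ℂ} (hc : HasCompactSupport f) {p q : ℂ × ℂ → ℂ}
    (hs : tsupport f ⊆ M) (hp : ContinuousOn p M) (hq : ContinuousOn q M)
    (hps : Function.support p ⊆ tsupport f) : Integrable (fun x => p x * q x) volume := by
  have h1 : IntegrableOn (fun x => p x * q x) (tsupport f) volume := by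
    apply ContinuousOn.integrableOn_compact hc
    exact (hp.mul hq).mono hs
  rw [← integrableOn_iff_integrable_of_support_subset (s := tsupport f)]
  · exact h1
  · intro y hy
    apply hps
    rw [Function.mem_support] at hy ⊢
    exact fun h0 => hy (by simp [h0])

private theorem Boch_conjv (u : ℂ × ℂ → ℝ) (i : Fin 2) (y : ℂ × ℂ) :
    pdb i (fun y => ((u y : ℝ) : ℂ)) y = conj (pd i (fun y => ((u y : ℝ) : ℂ)) y) := by
  have h1 := wdb_conj (e := ex i) (e' := ey i) (f := fun y => ((u y : ℝ) : ℂ)) (x := y)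
  simp only [Complex.conj_ofReal] at h1
  exact h1

/-- Divergence form: `∫ φ D Δ v = - ∫ c(∂φ, ∂v)` for `φ` of compact support in `M`. Uses the Kähler
condition: `∂₀ g_{1\bar j} = ∂₁ g_{0\bar j}`. -/
theorem ibp_cL (hM : IsOpen M) (h : IsKahler M g) {φ v : ℂ × ℂ → ℝ} (hφ : ContDiff ℝ 1 φ)
    (hc : HasCompactSupport φ) (hs : tsupport φ ⊆ M) (hv : ContDiffOn ℝ ∞ v M) :
    ∫ x, φ x * cL g v x = - ∫ x, (cform (g x) (fun i => pd i (fun y => ((φ y : ℝ) : ℂ)) x)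
      (fun i => pd i (fun y => ((v y : ℝ) : ℂ)) x)).re := by
  have s : ∀ i j, ContDiffOn ℝ ∞ (fun y => g y i j) M := h.smooth
  obtain ⟨f, hf⟩ : ∃ f : ℂ × ℂ → ℂ, f = fun y => ((φ y : ℝ) : ℂ) := ⟨_, rfl⟩
  obtain ⟨V, hV⟩ : ∃ V : Fin 2 → ℂ × ℂ → ℂ, V = fun j => pdb j (fun y => ((v y : ℝ) : ℂ)) :=
    ⟨_, rfl⟩
  have sV : ∀ j, ContDiffOn ℝ ∞ (V j) M := by
    intro j
    rw [hV]
    exact contDiffOn_wdb hM (Boch_coe hv)
  obtain ⟨P, hP⟩ : ∃ P : ℂ × ℂ → ℂ, P = fun y => g y 1 1 * V 0 y - g y 1 0 * V 1 y := ⟨_, rfl⟩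
  obtain ⟨Q, hQ⟩ : ∃ Q : ℂ × ℂ → ℂ, Q = fun y => g y 0 0 * V 1 y - g y 0 1 * V 0 y := ⟨_, rfl⟩
  have sP : ContDiffOn ℝ ∞ P M := by
    rw [hP]
    exact ((s 1 1).mul (sV 0)).sub ((s 1 0).mul (sV 1))
  have sQ : ContDiffOn ℝ ∞ Q M := by
    rw [hQ]
    exact ((s 0 0).mul (sV 1)).sub ((s 0 1).mul (sV 0))
  have f1 : ContDiff ℝ 1 f := by
    rw [hf]
    exact Complex.ofRealCLM.contDiff.comp hφ
  have fsupp : Function.support f = Function.support φ := by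
    rw [hf]
    ext y
    simp [Function.mem_support]
  have ftsupp : tsupport f = tsupport φ := by
    unfold tsupport
    rw [fsupp]
  have fc : HasCompactSupport f := by
    unfold HasCompactSupport
    rw [ftsupp]
    exact hc
  have fs : tsupport f ⊆ M := by
    rw [ftsupp]
    exact hs
  -- the expression is a divergence
  have dP : ∀ y ∈ M, pd 0 P y = pd 0 (fun y => g y 1 1) y * V 0 y + g y 1 1 * pd 0 (V 0) y
      - (pd 0 (fun y => g y 1 0) y * V 1 y + g y 1 0 * pd 0 (V 1) y) := by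
    intro y hy
    have e1 : pd 0 P y = pd 0 (fun y => g y 1 1 * V 0 y) y - pd 0 (fun y => g y 1 0 * V 1 y) y := by
      rw [hP]
      exact wd_sub (Boch_diff hM ((s 1 1).mul (sV 0)) hy) (Boch_diff hM ((s 1 0).mul (sV 1)) hy)
    have e2 : pd 0 (fun y => g y 1 1 * V 0 y) y =
        pd 0 (fun y => g y 1 1) y * V 0 y + g y 1 1 * pd 0 (V 0) y :=
      wd_mul (Boch_diff hM (s 1 1) hy) (Boch_diff hM (sV 0) hy)
    have e3 : pd 0 (fun y => g y 1 0 * V 1 y) y =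
        pd 0 (fun y => g y 1 0) y * V 1 y + g y 1 0 * pd 0 (V 1) y :=
      wd_mul (Boch_diff hM (s 1 0) hy) (Boch_diff hM (sV 1) hy)
    rw [e1, e2, e3]
  have dQ : ∀ y ∈ M, pd 1 Q y = pd 1 (fun y => g y 0 0) y * V 1 y + g y 0 0 * pd 1 (V 1) y
      - (pd 1 (fun y => g y 0 1) y * V 0 y + g y 0 1 * pd 1 (V 0) y) := by
    intro y hy
    have e1 : pd 1 Q y = pd 1 (fun y => g y 0 0 * V 1 y) y - pd 1 (fun y => g y 0 1 * V 0 y) y := by
      rw [hQ]
      exact wd_sub (Boch_diff hM ((s 0 0).mul (sV 1)) hy) (Boch_diff hM ((s 0 1).mul (sV 0)) hy)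
    have e2 : pd 1 (fun y => g y 0 0 * V 1 y) y =
        pd 1 (fun y => g y 0 0) y * V 1 y + g y 0 0 * pd 1 (V 1) y :=
      wd_mul (Boch_diff hM (s 0 0) hy) (Boch_diff hM (sV 1) hy)
    have e3 : pd 1 (fun y => g y 0 1 * V 0 y) y =
        pd 1 (fun y => g y 0 1) y * V 0 y + g y 0 1 * pd 1 (V 0) y :=
      wd_mul (Boch_diff hM (s 0 1) hy) (Boch_diff hM (sV 0) hy)
    rw [e1, e2, e3]
  have i1 : Integrable (fun y => f y * pd 0 P y) volume :=
    Boch_int fc fs f1.continuous.continuousOn (contDiffOn_wd hM sP).continuousOn subset_closure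
  have i2 : Integrable (fun y => f y * pd 1 Q y) volume :=
    Boch_int fc fs f1.continuous.continuousOn (contDiffOn_wd hM sQ).continuousOn subset_closure
  have cpd : ∀ i, Continuous (pd i f) := by
    intro i
    have h1 : ∀ w, Continuous (fun y => fderiv ℝ f y w) := fun w =>
      (f1.continuous_fderiv (by simp)).clm_apply continuous_const
    exact ((h1 _).sub (continuous_const.mul (h1 _))).div_const 2
  have spd : ∀ i, Function.support (pd i f) ⊆ tsupport f := fun i =>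
    subset_closure.trans tsupport_wd_subset
  have j1 : Integrable (fun y => pd 0 f y * P y) volume :=
    Boch_int fc fs (cpd 0).continuousOn sP.continuousOn (spd 0)
  have j2 : Integrable (fun y => pd 1 f y * Q y) volume :=
    Boch_int fc fs (cpd 1).continuousOn sQ.continuousOn (spd 1)
  have hHaar : (volume : Measure (ℂ × ℂ)).IsAddHaarMeasure :=
    Measure.prod.instIsAddHaarMeasure _ _
  have k1 : ∫ y, f y * pd 0 P y = - ∫ y, pd 0 f y * P y :=
    ibp_wd volume hM f1 fc fs (sP.of_le (by exact_mod_cast le_top))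
  have k2 : ∫ y, f y * pd 1 Q y = - ∫ y, pd 1 f y * Q y :=
    ibp_wd volume hM f1 fc fs (sQ.of_le (by exact_mod_cast le_top))
  have L : ∀ y, φ y * cL g v y = (f y * pd 0 P y + f y * pd 1 Q y).re := by
    intro y
    by_cases hy : y ∈ M
    · have c1 : pd 0 (fun y => g y 1 1) y = pd 1 (fun y => g y 0 1) y := h.closed y hy 0 1 1
      have c2 : pd 0 (fun y => g y 1 0) y = pd 1 (fun y => g y 0 0) y := h.closed y hy 0 1 0
      have e1 : cL g v y = (pd 0 P y + pd 1 Q y).re := by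
        rw [dP y hy, dQ y hy, c1, c2, hV]
        unfold cL
        congr 1
        ring
      rw [e1, ← mul_add, hf]
      simp only [Complex.re_ofReal_mul]
    · have h0 : φ y = 0 := by
        by_contra h1
        exact hy (hs (subset_closure h1))
      rw [hf]
      simp [h0]
  have R : ∀ y, (cform (g y) (fun i => pd i (fun y => ((φ y : ℝ) : ℂ)) y)
      (fun i => pd i (fun y => ((v y : ℝ) : ℂ)) y)).re = (pd 0 f y * P y + pd 1 f y * Q y).re := by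
    intro y
    rw [hP, hQ, hV, hf]
    simp only [Boch_conjv v]
    unfold cform
    congr 1
    ring
  simp only [L, R]
  have m1 : ∫ y, (f y * pd 0 P y + f y * pd 1 Q y).re =
      (∫ y, (f y * pd 0 P y + f y * pd 1 Q y)).re := integral_re (i1.add i2)
  have m2 : ∫ y, (pd 0 f y * P y + pd 1 f y * Q y).re =
      (∫ y, (pd 0 f y * P y + pd 1 f y * Q y)).re := integral_re (j1.add j2)
  rw [m1, m2, integral_add i1 i2, integral_add j1 j2, k1, k2, ← Complex.neg_re]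
  congr 1
  ring

end KQ
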