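import Pool.Agent.Lib_MP_3ea2ac_kq.PD

/-! Almost every slice carries slice data. -/

open MeasureTheory Complex Set Topology Filter
open scoped ComplexConjugate ContDiff ComplexOrder

namespace KQ

variable {M : Set (ℂ × ℂ)} {D E G : ℂ × ℂ → ℝ} {a τ : ℝ} {t₁ t₂ : ℂ → ℝ} {a₁ b₁ a₂ b₂ : ℂ}
  {η : ℕ → ℂ × ℂ → ℝ}

private theorem SlAE_contDiff_mk (z : ℂ) : ContDiff ℝ ∞ (fun w : ℂ => ((z, w) : ℂ × ℂ)) :=
  contDiff_const.prodMk contDiff_id

private theorem SlAE_cont_mk (z : ℂ) : Continuous (fun w : ℂ => ((z, w) : ℂ × ℂ)) :=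
  continuous_const.prodMk continuous_id

private theorem SlAE_isOpen (hM : IsOpen M) (z : ℂ) : IsOpen (MZ M z) :=
  hM.preimage (SlAE_cont_mk z)

private theorem SlAE_mapsTo (z : ℂ) : MapsTo (fun w : ℂ => ((z, w) : ℂ × ℂ)) (MZ M z) M :=
  fun _ hw => hw

private theorem SlAE_slice_smooth {f : ℂ × ℂ → ℝ} (hf : ContDiffOn ℝ ∞ f M) (z : ℂ) :
    ContDiffOn ℝ ∞ (fun w => f (z, w)) (MZ M z) :=
  hf.comp (SlAE_contDiff_mk z).contDiffOn (SlAE_mapsTo z)

private theorem SlAE_slice_cont {f : ℂ × ℂ → ℝ} (hf : ContinuousOn f M) (z : ℂ) :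
    ContinuousOn (fun w => f (z, w)) (MZ M z) :=
  hf.comp (SlAE_cont_mk z).continuousOn (SlAE_mapsTo z)

private theorem SlAE_logsmooth (hD : ContDiffOn ℝ ∞ D M) (hpos : ∀ x ∈ M, 0 < D x) :
    ContDiffOn ℝ ∞ (fun x => Real.log (D x)) M :=
  hD.log (fun x hx => (hpos x hx).ne')

/-- `lev` of the slice of `log D` is `T_{11}`. -/
theorem lev_slice (hM : IsOpen M) (hD : ContDiffOn ℝ ∞ D M) (hpos : ∀ x ∈ M, 0 < D x) {z w : ℂ}
    (h : (z, w) ∈ M) :
    ((lev (fun w' => Real.log (D (z, w'))) w : ℝ) : ℂ) = TT D 1 1 (z, w) := by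
  have hs : ContDiffOn ℝ ∞ (fun w' => Real.log (D (z, w'))) (MZ M z) :=
    SlAE_slice_smooth (SlAE_logsmooth hD hpos) z
  have hw : w ∈ MZ M z := h
  have hF : ContDiffOn ℝ ∞ (fun y => ((Real.log (D y) : ℝ) : ℂ)) M :=
    Complex.ofRealCLM.contDiff.comp_contDiffOn (SlAE_logsmooth hD hpos)
  have e1 := lev_coe (SlAE_isOpen hM z) hs hw
  have e2 := pd_pdb_one_slice (F := (fun y => ((Real.log (D y) : ℝ) : ℂ))) hM hF h
  have e3 : TT D 1 1 (z, w) = pd 1 (pdb 1 (fun y => ((Real.log (D y) : ℝ) : ℂ))) (z, w) := by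
    rw [TT]
  rw [e1, e3]
  exact e2

private theorem SlAE_fderiv {f : ℂ × ℂ → ℝ} (hf : ContDiff ℝ ∞ f) (z w v : ℂ) :
    fderiv ℝ (fun w' => f (z, w')) w v = fderiv ℝ f (z, w) (0, v) := by
  have h1 : HasFDerivAt f (fderiv ℝ f (z, w)) (z, w) :=
    (hf.differentiable (by simp)).differentiableAt.hasFDerivAt
  have h2 : HasFDerivAt (fun w' : ℂ => ((z, w') : ℂ × ℂ))
      ((0 : ℂ →L[ℝ] ℂ).prod (ContinuousLinearMap.id ℝ ℂ)) w :=
    (hasFDerivAt_const z w).prodMk (hasFDerivAt_id w)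
  have h3 := h1.comp w h2
  have h4 : fderiv ℝ (fun w' => f (z, w')) w
      = (fderiv ℝ f (z, w)).comp ((0 : ℂ →L[ℝ] ℂ).prod (ContinuousLinearMap.id ℝ ℂ)) :=
    h3.fderiv
  rw [h4]
  simp

private theorem SlAE_levb (P : PlaneData M D E G a τ t₁ t₂ a₁ b₁ a₂ b₂ η) {z w : ℂ}
    (h : (z, w) ∈ M) :
    0 ≤ lev (fun w' => Real.log (D (z, w'))) w ∧
      lev (fun w' => Real.log (D (z, w'))) w ≤ a * G (z, w) := by
  have h1 := lev_slice P.isOpen P.Dsmooth P.Dpos h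
  have h2 := P.T11 (z, w) h
  rw [← h1, Complex.ofReal_re] at h2
  exact h2

private theorem SlAE_int (hM : IsOpen M) (hv : IntegrableOn D M) :
    ∀ᵐ z : ℂ, IntegrableOn (fun w => D (z, w)) (MZ M z) := by
  have h1 : Integrable (M.indicator D) (volume : Measure (ℂ × ℂ)) :=
    (integrable_indicator_iff hM.measurableSet).2 hv
  have h2 : ∀ᵐ z : ℂ, Integrable (fun w => M.indicator D (z, w)) :=
    Integrable.prod_right_ae (μ := (volume : Measure ℂ)) (ν := (volume : Measure ℂ)) h1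
  filter_upwards [h2] with z hz
  have h3 : (fun w => M.indicator D (z, w))
      = (MZ M z).indicator (fun w => D (z, w)) := by
    funext w
    by_cases hw : (z, w) ∈ M
    · rw [indicator_of_mem hw, indicator_of_mem (show w ∈ MZ M z from hw)]
    · rw [indicator_of_notMem hw, indicator_of_notMem (show w ∉ MZ M z from hw)]
  rw [h3] at hz
  exact (integrable_indicator_iff (SlAE_isOpen hM z).measurableSet).1 hz

theorem PlaneData.slice_ae (P : PlaneData M D E G a τ t₁ t₂ a₁ b₁ a₂ b₂ η) :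
    ∀ᵐ z : ℂ, (MZ M z).Nonempty →
      SliceData (MZ M z) (fun w => D (z, w)) (fun w => G (z, w)) a (τ * t₁ z)
        (fun k w => η k (z, w)) := by
  filter_upwards [SlAE_int P.isOpen P.integrable] with z hz hne
  refine ⟨SlAE_isOpen P.isOpen z, hne, P.a_nonneg, mul_nonneg P.τ_nonneg (P.t₁nonneg z),
    ?_, ?_, ?_, ?_, ?_, ?_, ?_, hz, ?_, ?_, ?_, ?_, ?_, ?_, ?_⟩
  · intro w hw
    exact P.Dpos (z, w) hw
  · exact SlAE_slice_smooth P.Dsmooth z
  · exact SlAE_slice_cont P.Gcont z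
  · intro w hw
    exact P.Gnonneg (z, w) hw
  · intro w hw
    exact P.GleD (z, w) hw
  · intro w hw
    exact (SlAE_levb P (show (z, w) ∈ M from hw)).1
  · intro w hw
    exact (SlAE_levb P (show (z, w) ∈ M from hw)).2
  · intro k
    exact (P.ηsmooth k).comp (SlAE_contDiff_mk z)
  · intro k
    have hcl : IsClosedEmbedding (fun w : ℂ => ((z, w) : ℂ × ℂ)) := by
      refine IsClosedEmbedding.of_continuous_injective_isClosedMap (SlAE_cont_mk z) ?_ ?_
      · intro x y hxy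
        exact (Prod.mk.inj hxy).2
      · intro C hC
        have : (fun w : ℂ => ((z, w) : ℂ × ℂ)) '' C = ({z} : Set ℂ) ×ˢ C := by
          ext ⟨x, y⟩
          simp [Prod.ext_iff, and_comm, eq_comm]
        rw [this]
        exact isClosed_singleton.prod hC
    exact (P.ηcpt k).comp_isClosedEmbedding hcl
  · intro k
    have h1 : tsupport (fun w : ℂ => η k (z, w))
        ⊆ (fun w : ℂ => ((z, w) : ℂ × ℂ)) ⁻¹' tsupport (η k) :=
      tsupport_comp_subset_preimage (η k) (SlAE_cont_mk z)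
    intro w hw
    exact P.ηsub k (h1 hw)
  · intro k w
    exact P.ηnonneg k _
  · intro k w
    exact P.ηle_one k _
  · intro K hK1 hK2
    have h1 : IsCompact ((fun w : ℂ => ((z, w) : ℂ × ℂ)) '' K) := hK1.image (SlAE_cont_mk z)
    have h2 : (fun w : ℂ => ((z, w) : ℂ × ℂ)) '' K ⊆ M := by
      rintro _ ⟨w, hw, rfl⟩
      exact hK2 hw
    filter_upwards [P.ηone _ h1 h2] with k hk w hw
    exact hk _ ⟨w, hw, rfl⟩
  · intro k w hw v
    have h1 := P.ηgrad₂ k (z, w) hw v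
    rw [SlAE_fderiv (P.ηsmooth k)]
    exact h1

end KQ
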