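import Pool.Agent.Lib_MP_3ea2ac_kq.W

/-! Weyl's lemma for `∂̄`. -/

open MeasureTheory Complex Set Topology Filter
open scoped ComplexConjugate ContDiff ComplexOrder Convolution

namespace KQ

/-- The convolution with a real kernel. -/
private noncomputable def weylC (k : ℂ → ℝ) (S : ℂ → ℂ) : ℂ → ℂ :=
  k ⋆[ContinuousLinearMap.lsmul ℝ ℝ, volume] S

private theorem weylC_apply (k : ℂ → ℝ) (S : ℂ → ℂ) (z : ℂ) :
    weylC k S z = ∫ t, k t • S (z - t) := rfl

private theorem weylC_contDiff {k : ℂ → ℝ} (hk : ContDiff ℝ ∞ k) (hc : HasCompactSupport k)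
    {S : ℂ → ℂ} (hS : LocallyIntegrable S) : ContDiff ℝ ∞ (weylC k S) :=
  hc.contDiff_convolution_left _ hk hS

private theorem weylC_fderiv {k : ℂ → ℝ} (hk : ContDiff ℝ ∞ k) (hc : HasCompactSupport k)
    {S : ℂ → ℂ} (hS : LocallyIntegrable S) (z v : ℂ) :
    Integrable (fun u => ((fderiv ℝ k (z - u) v : ℝ) : ℂ) * S u) ∧
    fderiv ℝ (weylC k S) z v = ∫ u, ((fderiv ℝ k (z - u) v : ℝ) : ℂ) * S u := by
  have h1 := hc.hasFDerivAt_convolution_left (ContinuousLinearMap.lsmul ℝ ℝ)
    (hk.of_le (by exact_mod_cast le_top)) hS z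
  have hcd : Continuous (fderiv ℝ k) := hk.continuous_fderiv (by simp)
  have hex := (hc.fderiv ℝ).convolutionExists_left
    ((ContinuousLinearMap.lsmul ℝ ℝ : ℝ →L[ℝ] ℂ →L[ℝ] ℂ).precompL ℂ) hcd hS z
  have h2 : fderiv ℝ (weylC k S) z v = ∫ t, (fderiv ℝ k t v) • S (z - t) := by
    rw [weylC, h1.fderiv, convolution_def, ContinuousLinearMap.integral_apply hex]
    rfl
  have h3 : Integrable (fun t => (fderiv ℝ k t v) • S (z - t)) := by
    have := hex.apply_continuousLinearMap v
    exact this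
  have h4 : (fun t => (fderiv ℝ k t v) • S (z - t)) =
      fun t => (fun u => ((fderiv ℝ k (z - u) v : ℝ) : ℂ) * S u) (z - t) := by
    funext t
    simp [sub_sub_cancel]
  rw [h4] at h3
  refine ⟨?_, ?_⟩
  · have h5 := h3.comp_sub_left z
    simpa [sub_sub_cancel] using h5
  · rw [h2, h4, integral_sub_left_eq_self (fun u => ((fderiv ℝ k (z - u) v : ℝ) : ℂ) * S u)]

private theorem weylC_dwb {k : ℂ → ℝ} (hk : ContDiff ℝ ∞ k) (hc : HasCompactSupport k)
    {S : ℂ → ℂ} (hS : LocallyIntegrable S) (z : ℂ) :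
    dwb (weylC k S) z = - ∫ u, dwb (fun u => ((k (z - u) : ℝ) : ℂ)) u * S u := by
  obtain ⟨i1, e1⟩ := weylC_fderiv hk hc hS z 1
  obtain ⟨i2, e2⟩ := weylC_fderiv hk hc hS z I
  have h1 : ∀ u v : ℂ, fderiv ℝ (fun u => ((k (z - u) : ℝ) : ℂ)) u v =
      -((fderiv ℝ k (z - u) v : ℝ) : ℂ) := by
    intro u v
    have h2 : HasFDerivAt k (fderiv ℝ k (z - u)) (z - u) :=
      ((hk.differentiable (by simp)) _).hasFDerivAt
    have h3 : HasFDerivAt (fun u : ℂ => z - u) (-(ContinuousLinearMap.id ℝ ℂ)) u := by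
      simpa using (hasFDerivAt_id (𝕜 := ℝ) u).const_sub z
    have h4 := Complex.ofRealCLM.hasFDerivAt.comp u (h2.comp u h3)
    have h5 : HasFDerivAt (fun u => ((k (z - u) : ℝ) : ℂ))
      (Complex.ofRealCLM.comp ((fderiv ℝ k (z - u)).comp (-(ContinuousLinearMap.id ℝ ℂ)))) u := h4
    rw [h5.fderiv]
    simp
  have h2 : ∀ u, dwb (fun u => ((k (z - u) : ℝ) : ℂ)) u * S u =
      -((((fderiv ℝ k (z - u) 1 : ℝ) : ℂ) * S u + I * (((fderiv ℝ k (z - u) I : ℝ) : ℂ) * S u)) / 2) := by
    intro u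
    show wdb 1 I (fun u => ((k (z - u) : ℝ) : ℂ)) u * S u = _
    unfold wdb
    rw [h1, h1]
    ring
  simp_rw [h2]
  rw [integral_neg, neg_neg, integral_div, integral_add i1 (i2.const_mul I), integral_const_mul,
    ← e1, ← e2]
  rfl

/-- A mollification of a weak solution is holomorphic. -/
private theorem weylC_holo {Ω : Set ℂ} {S : ℂ → ℂ}
    (h : ∀ θ : ℂ → ℂ, ContDiff ℝ ∞ θ → HasCompactSupport θ → tsupport θ ⊆ Ω →
      ∫ z, dwb θ z * S z = 0) {z0 : ℂ} {r : ℝ}
    (hB : Metric.closedBall z0 (3 * r) ⊆ Ω)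
    (hS : LocallyIntegrable ((Metric.closedBall z0 (3 * r)).indicator S))
    {k : ℂ → ℝ} (hk : ContDiff ℝ ∞ k) (hsupp : ∀ w : ℂ, r ≤ ‖w‖ → k w = 0) {z : ℂ}
    (hz : z ∈ Metric.ball z0 (2 * r)) :
    DifferentiableAt ℂ (weylC k ((Metric.closedBall z0 (3 * r)).indicator S)) z := by
  have hc : HasCompactSupport k := by
    refine HasCompactSupport.intro (isCompact_closedBall (0 : ℂ) r) fun w hw => hsupp w ?_
    rw [Metric.mem_closedBall, dist_zero_right, not_le] at hw
    exact hw.le
  refine differentiableAt_of_dwb ((weylC_contDiff hk hc hS).differentiable (by simp) z) ?_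
  rw [weylC_dwb hk hc hS z, neg_eq_zero]
  have hcz : ContDiff ℝ ∞ (fun u => ((k (z - u) : ℝ) : ℂ)) :=
    Complex.ofRealCLM.contDiff.comp (hk.comp (contDiff_const.sub contDiff_id))
  have hts : tsupport (fun u => ((k (z - u) : ℝ) : ℂ)) ⊆ Metric.closedBall z r := by
    refine closure_minimal ?_ Metric.isClosed_closedBall
    intro u hu
    by_contra hn
    apply hu
    have : r ≤ ‖z - u‖ := by
      rw [Metric.mem_closedBall, dist_eq_norm, not_le, norm_sub_rev] at hn
      exact hn.le
    simp [hsupp _ this]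
  have hball : Metric.closedBall z r ⊆ Metric.closedBall z0 (3 * r) := by
    refine Metric.closedBall_subset_closedBall' ?_
    have := Metric.mem_ball.1 hz
    linarith
  have hcomp : HasCompactSupport (fun u => ((k (z - u) : ℝ) : ℂ)) :=
    (isCompact_closedBall z r).of_isClosed_subset (isClosed_tsupport _) hts
  have h1 := h _ hcz hcomp (hts.trans (hball.trans hB))
  rw [← h1]
  refine integral_congr_ae (Eventually.of_forall fun u => ?_)
  show dwb (fun u => ((k (z - u) : ℝ) : ℂ)) u * (Metric.closedBall z0 (3 * r)).indicator S u =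
    dwb (fun u => ((k (z - u) : ℝ) : ℂ)) u * S u
  by_cases hu : u ∈ Metric.closedBall z0 (3 * r)
  · rw [indicator_of_mem hu]
  · have h2 : dwb (fun u => ((k (z - u) : ℝ) : ℂ)) u = 0 := by
      by_contra hne
      exact hu (hball (hts (tsupport_wdb_subset (subset_tsupport _ hne))))
    rw [h2, zero_mul, zero_mul]

/-- Mean value over circles, integrated against a radial kernel. -/
private theorem weyl_mean {k : ℂ → ℝ} (hk : Continuous k) (hrad : ∀ w e : ℂ, ‖e‖ = 1 → k (e * w) = k w)
    {ε : ℝ} (hsupp : ∀ w : ℂ, ε ≤ ‖w‖ → k w = 0) {f : ℂ → ℂ} (hf : Continuous f) {z : ℂ}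
    (hd : ∀ w : ℂ, ‖w‖ ≤ ε → DifferentiableAt ℂ f (z - w)) :
    ∫ w, k w • f (z - w) = ((∫ w : ℂ, k w : ℝ) : ℂ) * f z := by
  -- rotation
  have hrot : ∀ α : ℝ, ∫ w, k w • f (z - w) = ∫ w, k w • f (z - circleMap 0 1 α * w) := by
    intro α
    have h1 : ‖(circleMap 0 1 α : ℂ)‖ = 1 := by simp
    let e : Circle := ⟨circleMap 0 1 α, by simp [Submonoid.unitSphere]⟩
    have h2 := (rotation e).measurePreserving.integral_comp
      (rotation e).toHomeomorph.measurableEmbedding (fun w => k w • f (z - w))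
    rw [← h2]
    refine integral_congr_ae (Eventually.of_forall fun w => ?_)
    show k (rotation e w) • f (z - rotation e w) = k w • f (z - circleMap 0 1 α * w)
    have h3 : rotation e w = circleMap 0 1 α * w := by
      rw [rotation_apply]
    rw [h3, hrad _ _ h1]
  have hcs : ∀ w : ℂ, w ∉ Metric.closedBall (0 : ℂ) ε → k w = 0 := by
    intro w hw
    rw [Metric.mem_closedBall, dist_zero_right, not_le] at hw
    exact hsupp w hw.le
  -- Fubini
  have hcont : Continuous (fun p : ℝ × ℂ => k p.2 • f (z - circleMap 0 1 p.1 * p.2)) := by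
    refine (hk.comp continuous_snd).smul (hf.comp (continuous_const.sub ?_))
    exact ((continuous_circleMap 0 1).comp continuous_fst).mul continuous_snd
  have hint : Integrable (fun p : ℝ × ℂ => k p.2 • f (z - circleMap 0 1 p.1 * p.2))
      ((volume.restrict (Ioc 0 (2 * Real.pi))).prod volume) := by
    have h1 : IntegrableOn (fun p : ℝ × ℂ => k p.2 • f (z - circleMap 0 1 p.1 * p.2))
      (Icc 0 (2 * Real.pi) ×ˢ Metric.closedBall (0 : ℂ) ε) (volume.prod volume) :=
      hcont.continuousOn.integrableOn_compact (isCompact_Icc.prod (isCompact_closedBall _ _))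
    have h2 : IntegrableOn (fun p : ℝ × ℂ => k p.2 • f (z - circleMap 0 1 p.1 * p.2))
      (Ioc 0 (2 * Real.pi) ×ˢ univ) (volume.prod volume) := by
      refine h1.of_forall_sdiff_eq_zero (measurableSet_Ioc.prod MeasurableSet.univ) ?_
      rintro ⟨α, w⟩ ⟨⟨hα, _⟩, hnot⟩
      have : w ∉ Metric.closedBall (0 : ℂ) ε := fun hw => hnot ⟨Ioc_subset_Icc_self hα, hw⟩
      simp [hcs w this]
    have h3 : (volume.restrict (Ioc 0 (2 * Real.pi))).prod (volume : Measure ℂ) =
        (volume.prod volume).restrict (Ioc 0 (2 * Real.pi) ×ˢ univ) := by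
      rw [← Measure.prod_restrict, Measure.restrict_univ]
    rw [h3]
    exact h2
  have hmean : ∀ w : ℂ, ∫ α in (0 : ℝ)..(2 * Real.pi), k w • f (z - circleMap 0 1 α * w) =
      (2 * Real.pi : ℝ) • (k w • f z) := by
    intro w
    by_cases hw : ε ≤ ‖w‖
    · simp [hsupp w hw]
    · have hw' : ‖w‖ ≤ ε := (not_le.1 hw).le
      rw [intervalIntegral.integral_smul, smul_comm]
      congr 1
      have hdc : DiffContOnCl ℂ (fun ζ : ℂ => f (z - ζ * w)) (Metric.ball 0 |1|) := by
        refine DifferentiableOn.diffContOnCl ?_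
        intro ζ hζ
        have hζ' : ‖ζ‖ ≤ 1 := by
          have := Metric.closure_ball_subset_closedBall hζ
          simpa using this
        have h5 : ‖ζ * w‖ ≤ ε := by
          rw [norm_mul]
          calc ‖ζ‖ * ‖w‖ ≤ 1 * ‖w‖ := by gcongr
            _ ≤ ε := by linarith
        have h6 := hd _ h5
        have h7 : DifferentiableAt ℂ (fun ζ : ℂ => z - ζ * w) ζ := by fun_prop
        exact (DifferentiableAt.comp ζ h6 h7).differentiableWithinAt
      have h8 := hdc.circleAverage
      rw [Real.circleAverage_def] at h8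
      simp only [zero_mul, sub_zero] at h8
      rw [← h8, smul_smul, mul_inv_cancel₀ (by positivity), one_smul]
  have h1 : ∫ α in (0 : ℝ)..(2 * Real.pi), ∫ w, k w • f (z - circleMap 0 1 α * w) =
      (2 * Real.pi : ℝ) • ∫ w, k w • f z := by
    rw [intervalIntegral.integral_of_le Real.two_pi_pos.le, integral_integral_swap hint, ← integral_smul]
    refine integral_congr_ae (Eventually.of_forall fun w => ?_)
    show ∫ α in Ioc 0 (2 * Real.pi), k w • f (z - circleMap 0 1 α * w) =
      (2 * Real.pi : ℝ) • (k w • f z)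
    rw [← hmean w, intervalIntegral.integral_of_le Real.two_pi_pos.le]
  simp_rw [← hrot] at h1
  rw [intervalIntegral.integral_const, sub_zero] at h1
  have h2 := smul_right_injective ℂ (r := (2 * Real.pi : ℝ)) (by positivity) h1
  rw [h2, integral_smul_const, Complex.real_smul]

/-- Two real kernels commute. -/
private theorem weylC_comm {k φ : ℂ → ℝ} (hk : Continuous k) (hkc : HasCompactSupport k)
    (hφ : Continuous φ) (hφc : HasCompactSupport φ) {S : ℂ → ℂ} (hS : Integrable S) (z : ℂ) :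
    weylC k (weylC φ S) z = weylC φ (weylC k S) z := by
  have hφi : Integrable φ := hφ.integrable_of_hasCompactSupport hφc
  have hint : Integrable (fun p : ℂ × ℂ => k p.1 • φ p.2 • S (z - p.1 - p.2)) (volume.prod volume) := by
    have h1 := hφi.convolution_integrand (ContinuousLinearMap.lsmul ℝ ℝ : ℝ →L[ℝ] ℂ →L[ℝ] ℂ) hS
    have hmp : MeasurePreserving (fun p : ℂ × ℂ => (z - p.1, p.2)) (volume.prod volume) (volume.prod volume) :=
      (volume.measurePreserving_sub_left z).prod (MeasurePreserving.id volume)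
    have h2 := hmp.integrable_comp_of_integrable h1
    obtain ⟨C, hC⟩ := hkc.exists_bound_of_continuous hk
    have h3 : Integrable (fun p : ℂ × ℂ => φ p.2 • S (z - p.1 - p.2)) (volume.prod volume) := h2
    exact h3.bdd_smul (φ := fun p : ℂ × ℂ => k p.1) C (hk.comp continuous_fst).aestronglyMeasurable
      (Eventually.of_forall fun p => hC p.1)
  have e1 : weylC k (weylC φ S) z = ∫ t, ∫ s, k t • φ s • S (z - t - s) := by
    rw [weylC_apply]
    refine integral_congr_ae (Eventually.of_forall fun t => ?_)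
    show k t • weylC φ S (z - t) = ∫ s, k t • φ s • S (z - t - s)
    rw [weylC_apply, integral_smul]
  have e2 : weylC φ (weylC k S) z = ∫ s, ∫ t, k t • φ s • S (z - t - s) := by
    rw [weylC_apply]
    refine integral_congr_ae (Eventually.of_forall fun s => ?_)
    show φ s • weylC k S (z - s) = ∫ t, k t • φ s • S (z - t - s)
    rw [weylC_apply, ← integral_smul]
    refine integral_congr_ae (Eventually.of_forall fun t => ?_)
    show φ s • k t • S (z - s - t) = k t • φ s • S (z - t - s)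
    rw [smul_comm, sub_right_comm]
  rw [e1, e2, integral_integral_swap hint]

/-- The radial kernel. -/
private noncomputable def weylK (r : ℝ) (w : ℂ) : ℝ := Real.smoothTransition (1 - ‖w‖ ^ 2 / r ^ 2)

private theorem weylK_contDiff (r : ℝ) : ContDiff ℝ ∞ (weylK r) := by
  unfold weylK
  exact Real.smoothTransition.contDiff.comp (contDiff_const.sub ((contDiff_norm_sq ℝ).div_const _))

private theorem weylK_rad (r : ℝ) (w e : ℂ) (he : ‖e‖ = 1) : weylK r (e * w) = weylK r w := by
  unfold weylK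
  rw [norm_mul, he, one_mul]

private theorem weylK_supp {r : ℝ} (hr : 0 < r) (w : ℂ) (hw : r ≤ ‖w‖) : weylK r w = 0 := by
  unfold weylK
  apply Real.smoothTransition.zero_of_nonpos
  rw [sub_nonpos, one_le_div (by positivity)]
  gcongr

private theorem weylK_nonneg (r : ℝ) (w : ℂ) : 0 ≤ weylK r w := Real.smoothTransition.nonneg _

private theorem weylK_compact {r : ℝ} (hr : 0 < r) : HasCompactSupport (weylK r) := by
  refine HasCompactSupport.intro (isCompact_closedBall (0 : ℂ) r) fun w hw => weylK_supp hr w ?_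
  rw [Metric.mem_closedBall, dist_zero_right, not_le] at hw
  exact hw.le

private theorem weylK_integral_pos {r : ℝ} (hr : 0 < r) : 0 < ∫ w : ℂ, weylK r w := by
  refine (weylK_contDiff r).continuous.integral_pos_of_hasCompactSupport_nonneg_nonzero
    (weylK_compact hr) (weylK_nonneg r) (x := 0) ?_
  simp [weylK]

private theorem weyl_local {Ω : Set ℂ} (hΩ : IsOpen Ω) {S : ℂ → ℂ} (hS : LocallyIntegrableOn S Ω)
    (h : ∀ θ : ℂ → ℂ, ContDiff ℝ ∞ θ → HasCompactSupport θ → tsupport θ ⊆ Ω →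
      ∫ z, dwb θ z * S z = 0) {z0 : ℂ} (hz0 : z0 ∈ Ω) :
    ∃ r > 0, ∃ F : ℂ → ℂ, DifferentiableOn ℂ F (Metric.ball z0 r) ∧
      ∀ᵐ z, z ∈ Metric.ball z0 r → S z = F z := by
  obtain ⟨R, hR, hRΩ⟩ := Metric.nhds_basis_closedBall.mem_iff.1 (hΩ.mem_nhds hz0)
  obtain ⟨r, hr, hB⟩ : ∃ r : ℝ, 0 < r ∧ Metric.closedBall z0 (3 * r) ⊆ Ω :=
    ⟨R / 3, by positivity, by rwa [mul_div_cancel₀ R (by norm_num : (3 : ℝ) ≠ 0)]⟩
  set S1 := (Metric.closedBall z0 (3 * r)).indicator S with hS1
  have hS1i : Integrable S1 := by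
    rw [hS1, integrable_indicator_iff Metric.isClosed_closedBall.measurableSet]
    exact hS.integrableOn_compact_subset hB (isCompact_closedBall _ _)
  have hS1l : LocallyIntegrable S1 := hS1i.locallyIntegrable
  have hkc := weylK_compact hr
  have hkp := weylK_integral_pos hr
  set c : ℝ := ∫ w : ℂ, weylK r w with hc
  refine ⟨r, hr, fun z => ((c : ℂ))⁻¹ * weylC (weylK r) S1 z, ?_, ?_⟩
  · intro z hz
    have h1 := weylC_holo h hB hS1l (weylK_contDiff r) (weylK_supp hr)
      (Metric.ball_subset_ball (by linarith) hz)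
    exact (h1.const_mul _).differentiableWithinAt
  · -- bumps
    let φ : ℕ → ContDiffBump (0 : ℂ) := fun n =>
      ⟨r / (2 * (n + 1)), r / (n + 1), by positivity, by
        apply div_lt_div_of_pos_left hr (by positivity)
        have : (0 : ℝ) < n + 1 := by positivity
        linarith⟩
    have hφ0 : Tendsto (fun n => (φ n).rOut) atTop (𝓝 0) := by
      have h1 : Tendsto (fun n : ℕ => r * (1 / ((n : ℝ) + 1))) atTop (𝓝 (r * 0)) :=
        tendsto_one_div_add_atTop_nhds_zero_nat.const_mul r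
      rw [mul_zero] at h1
      refine h1.congr fun n => ?_
      show r * (1 / ((n : ℝ) + 1)) = r / (n + 1)
      ring
    have hφK : ∀ᶠ n in atTop, (φ n).rOut ≤ 2 * (φ n).rIn := by
      refine Eventually.of_forall fun n => ?_
      show r / (n + 1) ≤ 2 * (r / (2 * (n + 1)))
      apply le_of_eq
      have : (0 : ℝ) < n + 1 := by positivity
      field_simp
    have hφs : ∀ n, ∀ w : ℂ, r ≤ ‖w‖ → (φ n).normed volume w = 0 := by
      intro n w hw
      have h1 : w ∉ Function.support ((φ n).normed volume) := by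
        rw [ContDiffBump.support_normed_eq, Metric.mem_ball, dist_zero_right, not_lt]
        refine le_trans ?_ hw
        show r / (n + 1) ≤ r
        apply div_le_self hr.le
        have : (0 : ℝ) ≤ n := by positivity
        linarith
      simpa using h1
    have hφc : ∀ n, ContDiff ℝ ∞ ((φ n).normed volume) := fun n => (φ n).contDiff_normed
    have hφh : ∀ n, HasCompactSupport ((φ n).normed volume) := fun n => (φ n).hasCompactSupport_normed
    have hae := ContDiffBump.ae_convolution_tendsto_right_of_locallyIntegrable (μ := volume) hφ0 hφK hS1l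
    filter_upwards [hae] with z hz hzr
    have hz1 : S1 z = S z := by
      rw [hS1, indicator_of_mem]
      exact Metric.ball_subset_closedBall (Metric.ball_subset_ball (by linarith) hzr)
    rw [hz1] at hz
    -- the mean value property of the mollifications
    have hkey : ∀ n, weylC (weylK r) (weylC ((φ n).normed volume) S1) z =
        (c : ℂ) * weylC ((φ n).normed volume) S1 z := by
      intro n
      rw [weylC_apply, hc]
      apply weyl_mean (weylK_contDiff r).continuous (weylK_rad r) (weylK_supp hr)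
        (weylC_contDiff (hφc n) (hφh n) hS1l).continuous
      intro w hw
      apply weylC_holo h hB hS1l (hφc n) (hφs n)
      rw [Metric.mem_ball, dist_eq_norm] at hzr ⊢
      calc ‖z - w - z0‖ = ‖(z - z0) - w‖ := by congr 1; ring
        _ ≤ ‖z - z0‖ + ‖w‖ := norm_sub_le _ _
        _ < 2 * r := by linarith
    have hlim2 : Tendsto (fun n => weylC ((φ n).normed volume) (weylC (weylK r) S1) z) atTop
        (𝓝 (weylC (weylK r) S1 z)) :=
      ContDiffBump.convolution_tendsto_right_of_continuous hφ0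
        (weylC_contDiff (weylK_contDiff r) hkc hS1l).continuous z
    have hlim3 : Tendsto (fun n => (c : ℂ) * weylC ((φ n).normed volume) S1 z) atTop
        (𝓝 (weylC (weylK r) S1 z)) := by
      refine hlim2.congr fun n => ?_
      rw [← hkey n, weylC_comm (weylK_contDiff r).continuous hkc (hφc n).continuous (hφh n) hS1i z]
    have hlim4 : Tendsto (fun n => (c : ℂ) * weylC ((φ n).normed volume) S1 z) atTop
        (𝓝 ((c : ℂ) * S z)) := Tendsto.const_mul _ hz
    have h5 := tendsto_nhds_unique hlim3 hlim4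
    have hc0 : (c : ℂ) ≠ 0 := by exact_mod_cast hkp.ne'
    show S z = ((c : ℂ))⁻¹ * weylC (weylK r) S1 z
    rw [h5, inv_mul_cancel_left₀ hc0]

theorem weyl {Ω : Set ℂ} (hΩ : IsOpen Ω) {S : ℂ → ℂ} (hS : LocallyIntegrableOn S Ω)
    (h : ∀ θ : ℂ → ℂ, ContDiff ℝ ∞ θ → HasCompactSupport θ → tsupport θ ⊆ Ω →
      ∫ z, dwb θ z * S z = 0) :
    ∃ F : ℂ → ℂ, DifferentiableOn ℂ F Ω ∧ ∀ᵐ z, z ∈ Ω → S z = F z := by
  classical
  have hloc : ∀ z0 : ℂ, ∃ r : ℝ, ∃ F : ℂ → ℂ, z0 ∈ Ω → (0 < r ∧ DifferentiableOn ℂ F (Metric.ball z0 r) ∧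
      ∀ᵐ z, z ∈ Metric.ball z0 r → S z = F z) := by
    intro z0
    by_cases hz0 : z0 ∈ Ω
    · obtain ⟨r, hr, F, hF, hF'⟩ := weyl_local hΩ hS h hz0
      exact ⟨r, F, fun _ => ⟨hr, hF, hF'⟩⟩
    · exact ⟨1, 0, fun h => absurd h hz0⟩
  choose r F hrF using hloc
  -- agreement
  have hagree : ∀ z0 ∈ Ω, ∀ z ∈ Ω, z ∈ Metric.ball z0 (r z0) → F z z = F z0 z := by
    intro z0 hz0 z hz hzz
    obtain ⟨hr0, hd0, ha0⟩ := hrF z0 hz0
    obtain ⟨hr1, hd1, ha1⟩ := hrF z hz
    set U := Metric.ball z (r z) ∩ Metric.ball z0 (r z0) with hU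
    have hUo : IsOpen U := Metric.isOpen_ball.inter Metric.isOpen_ball
    have hae : F z =ᵐ[volume.restrict U] F z0 := by
      rw [Filter.EventuallyEq, ae_restrict_iff' hUo.measurableSet]
      filter_upwards [ha0, ha1] with w h0 h1 hw
      rw [← h0 hw.2, ← h1 hw.1]
    have hzU : z ∈ U := ⟨Metric.mem_ball_self hr1, hzz⟩
    exact Measure.eqOn_open_of_ae_eq hae hUo (hd1.continuousOn.mono inter_subset_left)
      (hd0.continuousOn.mono inter_subset_right) hzU
  refine ⟨fun z => F z z, ?_, ?_⟩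
  · intro z0 hz0
    obtain ⟨hr0, hd0, ha0⟩ := hrF z0 hz0
    have h1 : DifferentiableAt ℂ (F z0) z0 :=
      hd0.differentiableAt (Metric.ball_mem_nhds z0 hr0)
    refine DifferentiableAt.differentiableWithinAt (h1.congr_of_eventuallyEq ?_)
    filter_upwards [Metric.ball_mem_nhds z0 hr0, hΩ.mem_nhds hz0] with z hz hzΩ
    exact hagree z0 hz0 z hzΩ hz
  · have hnull : volume {z | z ∈ Ω ∧ S z ≠ F z z} = 0 := by
      refine measure_null_of_locally_null _ fun z0 hz0 => ?_
      obtain ⟨hr0, hd0, ha0⟩ := hrF z0 hz0.1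
      refine ⟨{z | z ∈ Ω ∧ S z ≠ F z z} ∩ Metric.ball z0 (r z0), ?_, ?_⟩
      · exact inter_mem self_mem_nhdsWithin (mem_nhdsWithin_of_mem_nhds (Metric.ball_mem_nhds z0 hr0))
      · refine measure_mono_null ?_ ha0
        rintro z ⟨⟨hzΩ, hne⟩, hzb⟩ hcon
        apply hne
        rw [hcon hzb, hagree z0 hz0.1 z hzΩ hzb]
    have h2 : ∀ᵐ z, ¬ (z ∈ Ω ∧ S z ≠ F z z) := by
      rw [ae_iff]
      simpa using hnull
    filter_upwards [h2] with z hz hzΩ
    by_contra hne
    exact hz ⟨hzΩ, hne⟩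

end KQ
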