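import Pool.Agent.Lib_MP_3ea2ac_kq.AD
import Pool.Agent.Lib_MP_3ea2ac_kq.Hol
import Pool.Agent.Lib_MP_3ea2ac_kq.Res
import Pool.Agent.Lib_MP_3ea2ac_kq.SlAE
import Pool.Agent.Lib_MP_3ea2ac_kq.Weyl
import Pool.Agent.Lib_MP_3ea2ac_kq.Test

/-! Charts exist. -/

open MeasureTheory Complex Set Topology Filter
open scoped ComplexConjugate ContDiff ComplexOrder

namespace KQ

variable {M : Set (ℂ × ℂ)} {D E G : ℂ × ℂ → ℝ} {a τ : ℝ} {t₁ t₂ : ℂ → ℝ} {a₁ b₁ a₂ b₂ : ℂ}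
  {η : ℕ → ℂ × ℂ → ℝ}

/-- the power sums of the complement of a slice -/
private noncomputable def chexS (M : Set (ℂ × ℂ)) (w₁ : ℂ) (k : ℕ) (z : ℂ) : ℂ :=
  ∑ᶠ (p : ℂ) (_ : p ∈ (MZ M z)ᶜ), ((p - w₁) ^ k)⁻¹

private theorem chex_eq (P : PlaneData M D E G a τ t₁ t₂ a₁ b₁ a₂ b₂ η) {w₁ : ℂ} {s : ℝ}
    (hs : 0 < s) {k : ℕ} (hk : 1 ≤ k) {U : Set ℂ}
    (hUs : ∀ z ∈ U, ∀ w ∈ Metric.closedBall w₁ s, (z, w) ∈ M) {f : ℂ → ℂ} (hf : ContDiff ℝ ∞ f) {C₀ : ℝ}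
    (hb : ∀ w, ‖f w‖ ≤ C₀ / (1 + ‖w‖)) (hb' : ∀ w, ‖fderiv ℝ f w‖ ≤ C₀ / (1 + ‖w‖) ^ 2)
    (hz : ∀ w, w ∉ Metric.closedBall w₁ s → dwb f w = 0)
    (hv : ∀ w, w ∉ Metric.closedBall w₁ s → f w = ((w - w₁) ^ k)⁻¹) :
    ∀ᵐ z : ℂ, z ∈ U → (Real.pi : ℂ) * chexS M w₁ k z = Lam M D f z := by
  filter_upwards [P.slice_ae] with z hz1 hzU
  have hmem : ∀ w ∈ Metric.closedBall w₁ s, w ∈ MZ M z := fun w hw => hUs z hzU w hw
  have hne : (MZ M z).Nonempty := ⟨w₁, hmem w₁ (Metric.mem_closedBall_self hs.le)⟩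
  have sd := hz1 hne
  have hcs : HasCompactSupport (dwb f) := HasCompactSupport.intro (isCompact_closedBall w₁ s) (fun w hw => hz w hw)
  have h2 : ∃ p q, p ∉ MZ M z ∧ q ∉ MZ M z ∧ p ≠ q :=
    ⟨a₂, b₂, fun h => (P.omit₂ _ h).1 rfl, fun h => (P.omit₂ _ h).2 rfl, P.ne₂⟩
  have hres := sd.residue h2 hf hb hb' hcs
  have hsum : chexS M w₁ k z = ∑ p ∈ sd.finite.toFinset, f p := by
    unfold chexS
    rw [finsum_mem_eq_finite_toFinset_sum _ sd.finite]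
    refine Finset.sum_congr rfl fun p hp => ?_
    rw [Set.Finite.mem_toFinset] at hp
    rw [hv p (fun h => hp (hmem p h))]
  rw [hsum, hres]
  unfold Lam
  congr 1
  have hmeas : MeasurableSet (MZ M z) := sd.isOpen.measurableSet
  refine setIntegral_congr_fun hmeas fun w hw => ?_
  show f w * (lev (fun x => Real.log (D (z, x))) w : ℂ) = f w * TT D 1 1 (z, w)
  rw [lev_slice P.isOpen P.Dsmooth P.Dpos hw]

private theorem chex_weyl (P : PlaneData M D E G a τ t₁ t₂ a₁ b₁ a₂ b₂ η) (w₁ : ℂ)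
    {k : ℕ} (hk : 1 ≤ k) :
    ∃ F : ℂ → ℂ, DifferentiableOn ℂ F (MW M w₁) ∧ ∀ᵐ z, z ∈ MW M w₁ → chexS M w₁ k z = F z := by
  have hopen : IsOpen (MW M w₁) := by
    have : MW M w₁ = (fun z : ℂ => (z, w₁)) ⁻¹' M := rfl
    rw [this]
    exact P.isOpen.preimage (by fun_prop)
  have hpi : (Real.pi : ℂ) ≠ 0 := by exact_mod_cast Real.pi_ne_zero
  -- tubes
  have htube : ∀ K : Set ℂ, IsCompact K → K ⊆ MW M w₁ → ∃ (U : Set ℂ) (s : ℝ), IsOpen U ∧ K ⊆ U ∧ 0 < s ∧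
      ∀ z ∈ U, ∀ w ∈ Metric.closedBall w₁ s, (z, w) ∈ M := by
    intro K hK hKM
    obtain ⟨U, V, hU, hV, hKU, hwV, hUV⟩ := generalized_tube_lemma hK (isCompact_singleton (x := w₁)) P.isOpen (by
      rintro ⟨z, w⟩ ⟨h1, h2⟩
      rw [mem_singleton_iff] at h2
      simp only at h1 h2
      rw [h2]
      exact hKM h1)
    obtain ⟨r, hr, hball⟩ := Metric.isOpen_iff.1 hV w₁ (hwV rfl)
    refine ⟨U, r / 2, hU, hKU, by positivity, ?_⟩
    intro z hz w hw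
    refine hUV ⟨hz, hball ?_⟩
    exact Metric.closedBall_subset_ball (by linarith) hw
  refine weyl hopen ?_ ?_
  · -- local integrability
    intro z₀ hz₀
    obtain ⟨U, s, hU, hKU, hs, hUs⟩ := htube {z₀} isCompact_singleton (by simpa using hz₀)
    obtain ⟨f, hf, ⟨C₀, hb, hb'⟩, hz, hv⟩ := exists_test w₁ hs hk
    have hC : ∀ w, ‖f w‖ ≤ C₀ := by
      intro w
      refine (hb w).trans (div_le_self ?_ ?_)
      · have := (norm_nonneg (f 0)).trans (hb 0)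
        simpa using this
      · have := norm_nonneg w
        linarith
    have hloc := P.lam_locInt hU hs hUs hf hC hz
    have heq := chex_eq P hs hk hUs hf hb hb' hz hv
    have h1 : IntegrableAtFilter (Lam M D f) (𝓝[U] z₀) := hloc z₀ (hKU rfl)
    have h2 : 𝓝[U] z₀ = 𝓝 z₀ := hU.nhdsWithin_eq (hKU rfl)
    rw [h2] at h1
    obtain ⟨t, ht, hint⟩ := h1
    refine ⟨t ∩ U, ?_, ?_⟩
    · exact mem_nhdsWithin_of_mem_nhds (inter_mem ht (hU.mem_nhds (hKU rfl)))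
    · have h3 : IntegrableOn (fun z => (Real.pi : ℂ)⁻¹ * Lam M D f z) (t ∩ U) :=
        (hint.mono_set inter_subset_left).const_mul _
      refine h3.congr ?_
      have h4 : ∀ᵐ z ∂(volume.restrict (t ∩ U)), z ∈ U := by
        have h5 : ∀ᵐ z ∂(volume.restrict (t ∩ U)), z ∈ t ∩ U ∨ True := Eventually.of_forall fun _ => Or.inr trivial
        have h6 : ∀ᵐ z ∂(volume.restrict U), z ∈ U := ae_restrict_mem hU.measurableSet
        exact ae_mono (Measure.restrict_mono inter_subset_right le_rfl) h6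
      filter_upwards [h4, ae_restrict_of_ae heq] with z hz1 hz2
      rw [← hz2 hz1, inv_mul_cancel_left₀ hpi]
  · intro θ hθ hθc hθs
    obtain ⟨U, s, hU, hKU, hs, hUs⟩ := htube (tsupport θ) hθc hθs
    obtain ⟨f, hf, ⟨C₀, hb, hb'⟩, hz, hv⟩ := exists_test w₁ hs hk
    have hC : ∀ w, ‖f w‖ ≤ C₀ := by
      intro w
      refine (hb w).trans (div_le_self ?_ ?_)
      · have := (norm_nonneg (f 0)).trans (hb 0)
        simpa using this
      · have := norm_nonneg w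
        linarith
    have heq := chex_eq P hs hk hUs hf hb hb' hz hv
    have h1 := P.lam_weak hU hs hUs hf hC hz hθ hθc hKU
    have h2 : ∫ z, dwb θ z * chexS M w₁ k z = ∫ z, (Real.pi : ℂ)⁻¹ * (dwb θ z * Lam M D f z) := by
      refine integral_congr_ae ?_
      filter_upwards [heq] with z hz1
      by_cases hzU : z ∈ U
      · rw [← hz1 hzU]
        field_simp
      · have h3 : dwb θ z = 0 := by
          have h4 : z ∉ tsupport (dwb θ) := fun h => hzU (hKU (tsupport_wdb_subset h))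
          exact image_eq_zero_of_notMem_tsupport h4
        rw [h3]; simp
    rw [h2, integral_const_mul, h1, mul_zero]

theorem PlaneData.charts (P : PlaneData M D E G a τ t₁ t₂ a₁ b₁ a₂ b₂ η) :
    ∀ᵐ w₁ : ℂ, (MW M w₁).Nonempty → ∃ m c, Chart M w₁ m c := by
  filter_upwards [P.swap.slice_ae] with w₁ hw₁ hne
  have hopen : IsOpen (MW M w₁) := by
    have : MW M w₁ = (fun z : ℂ => (z, w₁)) ⁻¹' M := rfl
    rw [this]
    exact P.isOpen.preimage (by fun_prop)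
  have hfin : ((MW M w₁)ᶜ).Finite := (hw₁ hne).finite
  have hconn : IsPreconnected (MW M w₁) := by
    have h1 := hfin.countable.isConnected_compl_of_one_lt_rank (by
      rw [Complex.rank_real_complex]
      exact Cardinal.one_lt_two)
    rw [compl_compl] at h1
    exact h1.isPreconnected
  have hex : ∀ k : ℕ, ∃ F : ℂ → ℂ, 1 ≤ k → DifferentiableOn ℂ F (MW M w₁) ∧
      ∀ᵐ z, z ∈ MW M w₁ → chexS M w₁ k z = F z := by
    intro k
    by_cases hk : 1 ≤ k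
    · obtain ⟨F, h1, h2⟩ := chex_weyl P w₁ hk
      exact ⟨F, fun _ => ⟨h1, h2⟩⟩
    · exact ⟨fun _ => 0, fun h => absurd h hk⟩
  choose F hF using hex
  have hA : ∀ᵐ z, z ∈ MW M w₁ → ((MZ M z)ᶜ).Finite ∧ w₁ ∉ (MZ M z)ᶜ := by
    filter_upwards [P.slice_ae] with z hz hzM
    have h1 : w₁ ∈ MZ M z := hzM
    exact ⟨(hz ⟨w₁, h1⟩).finite, fun h => h h1⟩
  obtain ⟨m, c, hc1, hc2, hc3⟩ := newton_poly hopen hconn hne (fun z => (MZ M z)ᶜ) w₁ hA F
    (fun k hk => (hF k hk).1) (fun k hk => by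
      filter_upwards [(hF k hk).2] with z hz hzM
      exact (hz hzM).symm)
  refine ⟨m, c, hfin, hc1, hc2, ?_⟩
  filter_upwards [hA, hc3] with z h1 h2 hzM
  exact ⟨(h1 hzM).1, h2 hzM⟩

end KQ
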