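import Pool.Agent.Lib_MP_3ea2ac_kq.PD
import Pool.Agent.Lib_MP_3ea2ac_kq.LogP

/-! The double null lemma. -/

open MeasureTheory Complex Set Topology Filter
open scoped ComplexConjugate ContDiff ComplexOrder

namespace KQ

variable {M : Set (ℂ × ℂ)} {D E G : ℂ × ℂ → ℝ} {a τ : ℝ} {t₁ t₂ : ℂ → ℝ} {a₁ b₁ a₂ b₂ : ℂ}
  {η : ℕ → ℂ × ℂ → ℝ}

private theorem DN_escape (P : PlaneData M D E G a τ t₁ t₂ a₁ b₁ a₂ b₂ η) {x y : ℂ × ℂ}
    (hx : x ∈ M) (hy : y ∉ M) {C : ℝ}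
    (hseg : ∀ t : ℝ, 0 ≤ t → t < 1 → x + t • (y - x) ∈ M →
      2 * (E (x + t • (y - x)) * ‖(y - x).1‖ ^ 2 + G (x + t • (y - x)) * ‖(y - x).2‖ ^ 2) ≤ C) :
    False := by
  set p : ℝ → ℂ × ℂ := fun t => x + t • (y - x) with hp
  have hpc : Continuous p := by rw [hp]; fun_prop
  set Z : Set ℝ := {t | 0 ≤ t ∧ p t ∉ M} with hZ
  have hZc : IsClosed Z := by
    have h1 : Z = Ici 0 ∩ (p ⁻¹' M)ᶜ := by ext t; simp [hZ]
    rw [h1]
    exact isClosed_Ici.inter (P.isOpen.preimage hpc).isClosed_compl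
  have hp1 : p 1 = y := by simp [hp]
  have hp0 : p 0 = x := by simp [hp]
  have h1Z : (1 : ℝ) ∈ Z := ⟨zero_le_one, by rw [hp1]; exact hy⟩
  have hZb : BddBelow Z := ⟨0, fun t ht => ht.1⟩
  set t₀ : ℝ := sInf Z with ht₀
  have htZ : t₀ ∈ Z := hZc.csInf_mem ⟨1, h1Z⟩ hZb
  have ht1 : t₀ ≤ 1 := csInf_le hZb h1Z
  have ht0 : 0 < t₀ := by
    rcases htZ.1.lt_or_eq with h | h
    · exact h
    · exact absurd hx (by rw [← hp0, h]; exact htZ.2)
  have hin : ∀ t, 0 ≤ t → t < t₀ → p t ∈ M := by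
    intro t h0 h1
    by_contra h2
    exact absurd (csInf_le hZb (show t ∈ Z from ⟨h0, h2⟩)) (not_le.2 h1)
  -- the gradient in an arbitrary direction
  have hgrad : ∀ (k : ℕ) (q : ℂ × ℂ), q ∈ M → ∀ v : ℂ × ℂ, (fderiv ℝ (η k) q v) ^ 2 ≤
      2 * (E q * ‖v.1‖ ^ 2 + G q * ‖v.2‖ ^ 2) / ((k : ℝ) + 1) ^ 2 := by
    intro k q hq v
    have h1 := P.ηgrad₁ k q hq v.1
    have h2 := P.ηgrad₂ k q hq v.2
    have h3 : fderiv ℝ (η k) q v = fderiv ℝ (η k) q (v.1, 0) + fderiv ℝ (η k) q (0, v.2) := by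
      rw [← map_add]; simp
    rw [h3]
    have h4 : (fderiv ℝ (η k) q (v.1, 0) + fderiv ℝ (η k) q (0, v.2)) ^ 2 ≤
        2 * (fderiv ℝ (η k) q (v.1, 0)) ^ 2 + 2 * (fderiv ℝ (η k) q (0, v.2)) ^ 2 := by
      nlinarith [sq_nonneg (fderiv ℝ (η k) q (v.1, 0) - fderiv ℝ (η k) q (0, v.2))]
    have h5 : 2 * (E q * ‖v.1‖ ^ 2 + G q * ‖v.2‖ ^ 2) / ((k : ℝ) + 1) ^ 2 =
        2 * (E q * ‖v.1‖ ^ 2 / ((k : ℝ) + 1) ^ 2) + 2 * (G q * ‖v.2‖ ^ 2 / ((k : ℝ) + 1) ^ 2) := by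
      ring
    rw [h5]
    linarith
  have hC : 0 ≤ C := by
    have h1 := hseg 0 le_rfl zero_lt_one (by simpa using hx)
    simp only [zero_smul, add_zero] at h1
    have h2 := P.Enonneg x hx
    have h3 := P.Gnonneg x hx
    refine le_trans ?_ h1
    positivity
  -- the derivative of the cutoffs along the segment
  have hder : ∀ k : ℕ, ∀ t, 0 < t → t < t₀ →
      HasDerivAt (fun s => η k (p s)) (fderiv ℝ (η k) (p t) (y - x)) t := by
    intro k t _ _
    have h1 : HasDerivAt p (y - x) t := by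
      have := ((hasDerivAt_id t).smul_const (y - x)).const_add x
      rw [one_smul] at this
      exact this
    exact (((P.ηsmooth k).differentiable (by simp) (p t)).hasFDerivAt).comp_hasDerivAt t h1
  have hbound : ∀ k : ℕ, (η k x - η k (p t₀)) ^ 2 ≤ C / ((k : ℝ) + 1) ^ 2 := by
    intro k
    obtain ⟨c, hc, hc'⟩ := exists_hasDerivAt_eq_slope (fun s => η k (p s))
      (fun t => fderiv ℝ (η k) (p t) (y - x)) ht0
      (((P.ηsmooth k).continuous.comp hpc).continuousOn)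
      (fun t ht => hder k t ht.1 ht.2)
    have h1 := hgrad k (p c) (hin c hc.1.le hc.2) (y - x)
    have h2 := hseg c hc.1.le (hc.2.trans_le ht1) (hin c hc.1.le hc.2)
    have h3 : (η k (p t₀) - η k (p 0)) = (fderiv ℝ (η k) (p c) (y - x)) * t₀ := by
      rw [hc', sub_zero]
      field_simp
    have h4 : (η k x - η k (p t₀)) ^ 2 = (fderiv ℝ (η k) (p c) (y - x)) ^ 2 * t₀ ^ 2 := by
      rw [hp0] at h3
      rw [← mul_pow, ← h3]; ring
    have h5 : t₀ ^ 2 ≤ 1 := by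
      have : t₀ ^ 2 ≤ 1 ^ 2 := by gcongr
      simpa using this
    rw [h4]
    calc (fderiv ℝ (η k) (p c) (y - x)) ^ 2 * t₀ ^ 2
        ≤ (fderiv ℝ (η k) (p c) (y - x)) ^ 2 * 1 := by gcongr
      _ ≤ 2 * (E (p c) * ‖(y - x).1‖ ^ 2 + G (p c) * ‖(y - x).2‖ ^ 2) / ((k : ℝ) + 1) ^ 2 := by
        rw [mul_one]; exact h1
      _ ≤ C / ((k : ℝ) + 1) ^ 2 := by gcongr
  have hlim : Tendsto (fun k : ℕ => C / ((k : ℝ) + 1) ^ 2) atTop (𝓝 0) := by
    have h1 : Tendsto (fun k : ℕ => 1 / ((k : ℝ) + 1)) atTop (𝓝 0) :=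
      tendsto_one_div_add_atTop_nhds_zero_nat
    have h2 := (h1.pow 2).const_mul C
    simp only [ne_eq, OfNat.ofNat_ne_zero, not_false_eq_true, zero_pow, mul_zero] at h2
    refine h2.congr fun k => ?_
    rw [div_pow, one_pow]; ring
  have hone : ∀ᶠ k : ℕ in atTop, (1 : ℝ) ≤ C / ((k : ℝ) + 1) ^ 2 := by
    filter_upwards [P.ηone {x} isCompact_singleton (by simpa using hx)] with k hk
    have h1 := hbound k
    have h2 : η k (p t₀) = 0 :=
      image_eq_zero_of_notMem_tsupport fun h => htZ.2 (P.ηsub k h)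
    rw [hk x rfl, h2] at h1
    simpa using h1
  have := ge_of_tendsto hlim hone
  linarith

/-- No segment in `M` with an end point outside `M` along which `E` and `G` are bounded: use the
cutoffs, `1 = |η(x) - η(y)| ≤ C/(k+1)`. -/
theorem PlaneData.no_escape (P : PlaneData M D E G a τ t₁ t₂ a₁ b₁ a₂ b₂ η) {x y : ℂ × ℂ}
    (hx : x ∈ M) (hy : y ∉ M) {C : ℝ}
    (hseg : ∀ t : ℝ, 0 ≤ t → t < 1 → x + t • (y - x) ∈ M ∧
      E (x + t • (y - x)) ≤ C ∧ G (x + t • (y - x)) ≤ C) :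
    False := by
  refine DN_escape P hx hy (C := 2 * (C * ‖(y - x).1‖ ^ 2 + C * ‖(y - x).2‖ ^ 2)) ?_
  intro t h0 h1 _
  obtain ⟨-, h2, h3⟩ := hseg t h0 h1
  gcongr

/-- The exponential of a function with nonnegative Levi form. -/
private theorem DN_lev_exp {S : Set ℂ} (hS : IsOpen S) {v : ℂ → ℝ} (hv : ContDiffOn ℝ ∞ v S)
    {w : ℂ} (hw : w ∈ S) (h : 0 ≤ lev v w) : 0 ≤ lev (fun x => Real.exp (v x)) w := by
  have hvd : ∀ x ∈ S, DifferentiableAt ℝ v x := fun x hx =>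
    (hv.contDiffAt (hS.mem_nhds hx)).differentiableAt (by simp)
  have hvC : ContDiffOn ℝ ∞ (fun y => ((v y : ℝ) : ℂ)) S := ofRealCLM.contDiff.comp_contDiffOn hv
  have h1 : dwb (fun x => ((Real.exp (v x) : ℝ) : ℂ)) =ᶠ[𝓝 w]
      fun x => ((Real.exp (v x) : ℝ) : ℂ) * dwb (fun y => ((v y : ℝ) : ℂ)) x := by
    filter_upwards [hS.mem_nhds hw] with x hx
    exact wdb_ofReal_comp (hvd x hx) (Real.hasDerivAt_exp (v x))
  have h2 : DifferentiableAt ℝ (dwb (fun y => ((v y : ℝ) : ℂ))) w :=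
    ((contDiffOn_wdb hS hvC).contDiffAt (hS.mem_nhds hw)).differentiableAt (by simp)
  have h3 : DifferentiableAt ℝ (fun x => ((Real.exp (v x) : ℝ) : ℂ)) w :=
    ofRealCLM.differentiableAt.comp w ((hvd w hw).exp)
  have h4 : dwb (fun y => ((v y : ℝ) : ℂ)) w = conj (dw (fun y => ((v y : ℝ) : ℂ)) w) := by
    have := wdb_conj (e := (1 : ℂ)) (e' := I) (f := fun y : ℂ => ((v y : ℝ) : ℂ)) (x := w)
    simpa using this
  have h5 : dw (dwb (fun x => ((Real.exp (v x) : ℝ) : ℂ))) w =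
      ((Real.exp (v w) : ℝ) : ℂ) * (dw (fun y => ((v y : ℝ) : ℂ)) w *
        conj (dw (fun y => ((v y : ℝ) : ℂ)) w)) +
      ((Real.exp (v w) : ℝ) : ℂ) * dw (dwb (fun y => ((v y : ℝ) : ℂ))) w := by
    rw [dw, wd_congr h1, wd_mul h3 h2, h4,
      wd_ofReal_comp (hvd w hw) (Real.hasDerivAt_exp (v w))]
    ring
  rw [lev, h5, add_re, Complex.re_ofReal_mul, Complex.re_ofReal_mul, Complex.mul_conj,
    Complex.ofReal_re]
  have h6 : 0 ≤ (dw (dwb (fun y => ((v y : ℝ) : ℂ))) w).re := h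
  have h7 := Complex.normSq_nonneg (dw (fun y => ((v y : ℝ) : ℂ)) w)
  have h8 := Real.exp_pos (v w)
  positivity

private theorem DN_isOpen_MZ (hM : IsOpen M) (z : ℂ) : IsOpen (MZ M z) :=
  hM.preimage (by fun_prop : Continuous fun w : ℂ => (z, w))

private theorem DN_contDiffOn_slice {F : ℂ × ℂ → ℝ} (hF : ContDiffOn ℝ ∞ F M) (z : ℂ) :
    ContDiffOn ℝ ∞ (fun w => F (z, w)) (MZ M z) :=
  hF.comp (contDiff_const.prodMk contDiff_id).contDiffOn fun w hw => hw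

/-- The density is subharmonic on the vertical slices. -/
private theorem DN_lev (P : PlaneData M D E G a τ t₁ t₂ a₁ b₁ a₂ b₂ η) {z w : ℂ}
    (h : (z, w) ∈ M) : 0 ≤ lev (fun w' => D (z, w')) w := by
  have hS := DN_isOpen_MZ P.isOpen z
  have hlog : ContDiffOn ℝ ∞ (fun x => Real.log (D x)) M :=
    P.Dsmooth.log fun x hx => (P.Dpos x hx).ne'
  have hv : ContDiffOn ℝ ∞ (fun w' => Real.log (D (z, w'))) (MZ M z) :=
    DN_contDiffOn_slice hlog z
  have h1 : 0 ≤ lev (fun w' => Real.log (D (z, w'))) w := by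
    have h2 := (P.T11 _ h).1
    have h3 : ContDiffOn ℝ ∞ (fun x => ((Real.log (D x) : ℝ) : ℂ)) M :=
      ofRealCLM.contDiff.comp_contDiffOn hlog
    have h4 := pd_pdb_one_slice P.isOpen h3 h
    rw [lev, h4]
    exact h2
  have h5 := DN_lev_exp hS hv (show w ∈ MZ M z from h) h1
  have h6 : ∀ᶠ w' in 𝓝 w, ((Real.exp (Real.log (D (z, w'))) : ℝ) : ℂ) = ((D (z, w') : ℝ) : ℂ) := by
    filter_upwards [hS.mem_nhds h] with w' hw'
    rw [Real.exp_log (P.Dpos _ hw')]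
  have h7 : dwb (fun w' => ((Real.exp (Real.log (D (z, w'))) : ℝ) : ℂ)) =ᶠ[𝓝 w]
      dwb (fun w' => ((D (z, w') : ℝ) : ℂ)) := by
    filter_upwards [h6.eventually_nhds] with w' hw'
    exact wdb_congr hw'
  have h8 : lev (fun w' => Real.exp (Real.log (D (z, w')))) w
      = lev (fun w' => D (z, w')) w := by
    rw [lev, lev, dw, wd_congr h7]
  rw [← h8]
  exact h5

/-- Mean value inequality on a vertical slice. -/
private theorem DN_mean {C₀ : ℝ} (hC₀ : ∀ (S : Set ℂ), IsOpen S → ∀ h : ℂ → ℝ, ContDiffOn ℝ ∞ h S →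
    (∀ w ∈ S, 0 ≤ h w) → (∀ w ∈ S, 0 ≤ lev h w) → ∀ w r, 0 < r → Metric.closedBall w r ⊆ S →
    h w ≤ C₀ / r ^ 2 * ∫ y in Metric.closedBall w r, h y)
    (P : PlaneData M D E G a τ t₁ t₂ a₁ b₁ a₂ b₂ η) {z w : ℂ} {s : ℝ} (hs : 0 < s)
    (hb : ∀ y ∈ Metric.closedBall w s, (z, y) ∈ M) :
    D (z, w) ≤ C₀ / s ^ 2 * ∫ y in Metric.closedBall w s, M.indicator D (z, y) := by
  have h1 := hC₀ (MZ M z) (DN_isOpen_MZ P.isOpen z) (fun y => D (z, y))
    (DN_contDiffOn_slice P.Dsmooth z) (fun y hy => (P.Dpos _ hy).le)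
    (fun y hy => DN_lev P hy) w s hs hb
  refine h1.trans_eq ?_
  congr 1
  refine setIntegral_congr_fun measurableSet_closedBall fun y hy => ?_
  exact (indicator_of_mem (hb y hy) D).symm

theorem PlaneData.dnull (P : PlaneData M D E G a τ t₁ t₂ a₁ b₁ a₂ b₂ η)
    (z₀ w₀ : ℂ) (h : (z₀, w₀) ∉ M) (r : ℝ) (hr : 0 < r)
    (h1 : ∀ᵐ z : ℂ, z ∈ Metric.ball z₀ r → ∀ w ∈ Metric.ball w₀ r, (z, w) ∈ M)
    (h2 : ∀ᵐ w : ℂ, w ∈ Metric.ball w₀ r → ∀ z ∈ Metric.ball z₀ r, (z, w) ∈ M) : False := by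
  obtain ⟨C₀, hC₀0, hC₀⟩ := submean
  have hs : 0 < r / 4 := by positivity
  set s : ℝ := r / 4 with hsd
  set B : ℝ := C₀ / s ^ 2 with hB
  have hB0 : 0 < B := by rw [hB]; positivity
  set f : ℂ × ℂ → ℝ := M.indicator D with hf
  have hf0 : ∀ x, 0 ≤ f x := fun x => indicator_nonneg (fun y hy => (P.Dpos y hy).le) x
  have hfi : Integrable f := by
    rw [hf, integrable_indicator_iff P.isOpen.measurableSet]
    exact P.integrable
  have hfi' : Integrable f ((volume : Measure ℂ).prod volume) := hfi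
  set J : ℂ → ℝ := fun y => ∫ x, f (x, y) with hJ
  have hJi : Integrable J := hfi'.integral_prod_right
  have hJ0 : ∀ y, 0 ≤ J y := fun y => integral_nonneg fun x => hf0 _
  have hsl : ∀ᵐ y : ℂ, Integrable (fun x => f (x, y)) := hfi'.prod_left_ae
  have hSw := P.swap
  -- the bound on good slices
  have hgood : ∀ z ∈ Metric.ball z₀ (r / 2), ∀ w ∈ Metric.ball w₀ (r / 2),
      (∀ w ∈ Metric.ball w₀ r, (z, w) ∈ M) → D (z, w) ≤ B * ∫ y, B * J y := by
    intro z hz w hw hzw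
    have hb1 : Metric.closedBall w s ⊆ Metric.ball w₀ r := by
      intro y hy
      rw [Metric.mem_ball] at hw ⊢
      rw [Metric.mem_closedBall] at hy
      have := dist_triangle y w w₀
      rw [hsd] at hy
      linarith
    have hb2 : Metric.closedBall z s ⊆ Metric.ball z₀ r := by
      intro y hy
      rw [Metric.mem_ball] at hz ⊢
      rw [Metric.mem_closedBall] at hy
      have := dist_triangle y z z₀
      rw [hsd] at hy
      linarith
    have h3 := DN_mean hC₀ P hs (z := z) (w := w) (fun y hy => hzw y (hb1 hy))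
    refine h3.trans (mul_le_mul_of_nonneg_left ?_ hB0.le)
    have h4 : ∫ y in Metric.closedBall w s, f (z, y) ≤ ∫ y in Metric.closedBall w s, B * J y := by
      refine integral_mono_of_nonneg (Eventually.of_forall fun y => hf0 _)
        ((hJi.const_mul B).integrableOn) ?_
      rw [EventuallyLE, ae_restrict_iff' measurableSet_closedBall]
      filter_upwards [h2, hsl] with y hy1 hy2 hy3
      have h5 := hy1 (hb1 hy3)
      have h6 := DN_mean hC₀ hSw hs (z := y) (w := z) (fun x hx => h5 x (hb2 hx))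
      have h7 : f (z, y) = D (z, y) :=
        indicator_of_mem (h5 z (hb2 (Metric.mem_closedBall_self hs.le))) _
      have h8 : ∀ x, (Prod.swap ⁻¹' M).indicator (D ∘ Prod.swap) (y, x) = f (x, y) := by
        intro x
        by_cases hx : (x, y) ∈ M
        · rw [hf, indicator_of_mem hx, indicator_of_mem (show (y, x) ∈ Prod.swap ⁻¹' M from hx)]
          rfl
        · rw [hf, indicator_of_notMem hx,
            indicator_of_notMem (show (y, x) ∉ Prod.swap ⁻¹' M from hx)]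
      simp only [h8] at h6
      rw [h7]
      refine h6.trans (mul_le_mul_of_nonneg_left ?_ hB0.le)
      exact setIntegral_le_integral hy2 (Eventually.of_forall fun x => hf0 _)
    refine h4.trans ?_
    exact setIntegral_le_integral (hJi.const_mul B)
      (Eventually.of_forall fun y => mul_nonneg hB0.le (hJ0 y))
  set C₁ : ℝ := B * ∫ y, B * J y with hC₁
  have hdense : Dense {z : ℂ | z ∈ Metric.ball z₀ r → ∀ w ∈ Metric.ball w₀ r, (z, w) ∈ M} :=
    Measure.dense_of_ae h1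
  have hall : ∀ z ∈ Metric.ball z₀ (r / 2), (z, w₀) ∈ M → D (z, w₀) ≤ C₁ := by
    intro z hz hzM
    have hcont : Tendsto (fun z' => D (z', w₀)) (𝓝 z) (𝓝 (D (z, w₀))) := by
      have h3 : ContinuousAt D (z, w₀) :=
        P.Dsmooth.continuousOn.continuousAt (P.isOpen.mem_nhds hzM)
      exact h3.tendsto.comp ((continuous_id.prodMk continuous_const).tendsto' z (z, w₀) rfl)
    have hfr : ∃ᶠ z' in 𝓝 z, z' ∈ {z : ℂ | z ∈ Metric.ball z₀ r → ∀ w ∈ Metric.ball w₀ r, (z, w) ∈ M} :=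
      mem_closure_iff_frequently.1 (hdense z)
    refine le_of_tendsto_of_frequently hcont ?_
    refine (hfr.and_eventually (Metric.isOpen_ball.mem_nhds hz)).mono ?_
    rintro z' ⟨h3, h4⟩
    exact hgood z' h4 w₀ (Metric.mem_ball_self (by positivity))
      (h3 (Metric.ball_subset_ball (by linarith) h4))
  -- a good point near the centre
  obtain ⟨z, hz, hz'⟩ := hdense.exists_mem_open Metric.isOpen_ball
    ⟨z₀, Metric.mem_ball_self (show 0 < r / 2 by positivity)⟩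
  have hzM : (z, w₀) ∈ M :=
    hz (Metric.ball_subset_ball (by linarith) hz') w₀ (Metric.mem_ball_self hr)
  have ht := P.t₂nonneg w₀
  have hτ := P.τ_nonneg
  refine DN_escape P hzM h (C := 2 * (τ * t₂ w₀ * C₁ * ‖z₀ - z‖ ^ 2)) ?_
  intro t ht0 ht1 hM
  have e1 : (z₀, w₀) - (z, w₀) = (z₀ - z, (0 : ℂ)) := by simp
  have e2 : (z, w₀) + t • ((z₀, w₀) - (z, w₀)) = (z + t • (z₀ - z), w₀) := by simp
  rw [e2] at hM ⊢
  rw [e1]
  have hball : z + t • (z₀ - z) ∈ Metric.ball z₀ (r / 2) := by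
    have h3 := (convex_ball z₀ (r / 2)).add_smul_sub_mem hz'
      (Metric.mem_ball_self (show 0 < r / 2 by positivity)) (t := t) ⟨ht0, ht1.le⟩
    exact h3
  have h3 := P.EleD _ hM
  have h4 := hall _ hball hM
  have h5 : E (z + t • (z₀ - z), w₀) ≤ τ * t₂ w₀ * C₁ :=
    h3.trans (mul_le_mul_of_nonneg_left h4 (by positivity))
  simp only [norm_zero, ne_eq, OfNat.ofNat_ne_zero, not_false_eq_true, zero_pow, mul_zero,
    add_zero]
  gcongr

end KQ
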