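import Mathlib

/-!
# Complete Kähler metrics of finite volume on domains of `ℂ × ℂ` (MP_3ea2ac_ag)

Definitions used in the statement of the result: Wirtinger derivatives, Kähler metrics on an open
subset of `ℂ × ℂ`, their Ricci form, length of curves, completeness.
-/

open MeasureTheory Complex Set
open scoped ComplexConjugate ContDiff ComplexOrder

namespace KQ

/-- Wirtinger derivative attached to two real directions `e, e'` (where `e' = i e`):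
`(∂_e f - i ∂_{e'} f) / 2`. -/
noncomputable def wd {E : Type*} [NormedAddCommGroup E] [NormedSpace ℝ E] (e e' : E)
    (f : E → ℂ) (x : E) : ℂ :=
  (fderiv ℝ f x e - I * fderiv ℝ f x e') / 2

/-- Conjugate Wirtinger derivative attached to two real directions `e, e'` (where `e' = i e`):
`(∂_e f + i ∂_{e'} f) / 2`. -/
noncomputable def wdb {E : Type*} [NormedAddCommGroup E] [NormedSpace ℝ E] (e e' : E)
    (f : E → ℂ) (x : E) : ℂ :=
  (fderiv ℝ f x e + I * fderiv ℝ f x e') / 2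

/-- The coordinate vectors `∂/∂x₀, ∂/∂x₁` of `ℂ × ℂ`. -/
def ex (i : Fin 2) : ℂ × ℂ := if i = 0 then (1, 0) else (0, 1)

/-- The coordinate vectors `∂/∂y₀, ∂/∂y₁` of `ℂ × ℂ`. -/
def ey (i : Fin 2) : ℂ × ℂ := if i = 0 then (I, 0) else (0, I)

/-- `∂f/∂z_i` for a function on `ℂ × ℂ`. -/
noncomputable def pd (i : Fin 2) (f : ℂ × ℂ → ℂ) : ℂ × ℂ → ℂ := wd (ex i) (ey i) f

/-- `∂f/∂\bar z_i` for a function on `ℂ × ℂ`. -/
noncomputable def pdb (i : Fin 2) (f : ℂ × ℂ → ℂ) : ℂ × ℂ → ℂ := wdb (ex i) (ey i) f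

/-- A Kähler metric `g = ∑ g_{i\bar j} dz_i d\bar z_j` on the open set `M ⊆ ℂ × ℂ`: the entries are
smooth, the matrix is hermitian and positive definite, and `dω = 0`, that is
`∂_i g_{j\bar k} = ∂_j g_{i\bar k}`. -/
structure IsKahler (M : Set (ℂ × ℂ)) (g : ℂ × ℂ → Matrix (Fin 2) (Fin 2) ℂ) : Prop where
  smooth : ∀ i j, ContDiffOn ℝ ∞ (fun x => g x i j) M
  posDef : ∀ x ∈ M, (g x).PosDef
  closed : ∀ x ∈ M, ∀ i j k, pd i (fun y => g y j k) x = pd j (fun y => g y i k) x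

/-- The `i`-th coordinate of a vector of `ℂ × ℂ`. -/
def cd (v : ℂ × ℂ) (i : Fin 2) : ℂ := if i = 0 then v.1 else v.2

/-- The hermitian form `H(v,v) = ∑ H_{i\bar j} v_i \bar v_j`. -/
noncomputable def hq (H : Matrix (Fin 2) (Fin 2) ℂ) (v : ℂ × ℂ) : ℝ :=
  (∑ i, ∑ j, H i j * cd v i * conj (cd v j)).re

/-- The Ricci form `Ric_{i\bar j} = - ∂_i ∂_{\bar j} log det g`. -/
noncomputable def ric (g : ℂ × ℂ → Matrix (Fin 2) (Fin 2) ℂ) (x : ℂ × ℂ) :
    Matrix (Fin 2) (Fin 2) ℂ :=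
  fun i j => - pd i (pdb j (fun y => ((Real.log (g y).det.re : ℝ) : ℂ))) x

/-- Length of the curve `γ : [0,1] → M` for the metric `g`. -/
noncomputable def len (g : ℂ × ℂ → Matrix (Fin 2) (Fin 2) ℂ) (γ : ℝ → ℂ × ℂ) : ℝ :=
  ∫ t in (0 : ℝ)..1, Real.sqrt (hq (g (γ t)) (deriv γ t))

/-- `Joined M g x y L`: there is a piecewise `C¹` curve in `M` from `x` to `y` of `g`-length `L`. -/
inductive Joined (M : Set (ℂ × ℂ)) (g : ℂ × ℂ → Matrix (Fin 2) (Fin 2) ℂ) (x : ℂ × ℂ) :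
    ℂ × ℂ → ℝ → Prop
  | refl : Joined M g x x 0
  | step (y : ℂ × ℂ) (L : ℝ) (γ : ℝ → ℂ × ℂ) : Joined M g x y L → ContDiff ℝ 1 γ → γ 0 = y →
      (∀ t ∈ Icc (0 : ℝ) 1, γ t ∈ M) → Joined M g x (γ 1) (L + len g γ)

/-- Completeness (in the form of Hopf and Rinow): the balls of the distance of `g` are relatively
compact in `M`. -/
def IsComplete (M : Set (ℂ × ℂ)) (g : ℂ × ℂ → Matrix (Fin 2) (Fin 2) ℂ) : Prop :=
  ∀ x ∈ M, ∀ R : ℝ, ∃ K : Set (ℂ × ℂ), IsCompact K ∧ K ⊆ M ∧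
    ∀ y L, Joined M g x y L → L ≤ R → y ∈ K

end KQ
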