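import Pool.Agent.Lib_MP_3ea2ac_kq.Setup

/-! Linear algebra of 2×2 hermitian matrices: cofactor form, bounds for `T = -Ric`, gradient of the
cutoffs. -/

open MeasureTheory Complex Set Topology Filter
open scoped ComplexConjugate ContDiff ComplexOrder

namespace KQ

variable {M : Set (ℂ × ℂ)} {g : ℂ × ℂ → Matrix (Fin 2) (Fin 2) ℂ} {a : ℝ} {a₁ b₁ a₂ b₂ : ℂ}
  {x : ℂ × ℂ} {η : ℕ → ℂ × ℂ → ℝ}

/-- Cofactor form `∑ c^{i\bar j} p_i \bar q_j`, `c = det H · H⁻¹` (transposed). -/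
noncomputable def cform (H : Matrix (Fin 2) (Fin 2) ℂ) (p q : Fin 2 → ℂ) : ℂ :=
  H 1 1 * p 0 * conj (q 0) - H 1 0 * p 0 * conj (q 1) - H 0 1 * p 1 * conj (q 0)
    + H 0 0 * p 1 * conj (q 1)

private theorem Lin_hq (H : Matrix (Fin 2) (Fin 2) ℂ) (v : ℂ × ℂ) :
    hq H v = (H 0 0 * v.1 * conj v.1 + H 0 1 * v.1 * conj v.2 + H 1 0 * v.2 * conj v.1
      + H 1 1 * v.2 * conj v.2).re := by
  simp only [hq, Fin.sum_univ_two, cd, Fin.isValue, if_true, one_ne_zero, if_false]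
  ring_nf

private theorem Lin_herm (h : IsKahler M g) (hx : x ∈ M) (i j : Fin 2) :
    conj (g x j i) = g x i j :=
  (h.posDef x hx).1.apply i j

theorem g00 (h : IsKahler M g) (hx : x ∈ M) : g x 0 0 = (gE g x : ℂ) :=
  (Complex.conj_eq_iff_re.mp (Lin_herm h hx 0 0)).symm

theorem g11 (h : IsKahler M g) (hx : x ∈ M) : g x 1 1 = (gG g x : ℂ) :=
  (Complex.conj_eq_iff_re.mp (Lin_herm h hx 1 1)).symm

theorem g10 (h : IsKahler M g) (hx : x ∈ M) : g x 1 0 = conj (g x 0 1) :=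
  (Lin_herm h hx 1 0).symm

theorem gE_pos (h : IsKahler M g) (hx : x ∈ M) : 0 < gE g x :=
  (Complex.lt_def.mp (h.posDef x hx).diag_pos).1

theorem gG_pos (h : IsKahler M g) (hx : x ∈ M) : 0 < gG g x :=
  (Complex.lt_def.mp (h.posDef x hx).diag_pos).1

theorem gD_pos (h : IsKahler M g) (hx : x ∈ M) : 0 < gD g x :=
  (Complex.lt_def.mp (h.posDef x hx).det_pos).1

theorem gD_eq (h : IsKahler M g) (hx : x ∈ M) :
    gD g x = gE g x * gG g x - Complex.normSq (g x 0 1) := by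
  unfold gD
  rw [Matrix.det_fin_two, g00 h hx, g11 h hx, g10 h hx, Complex.mul_conj, ← Complex.ofReal_mul,
    ← Complex.ofReal_sub, Complex.ofReal_re]

theorem gE_smooth (h : IsKahler M g) : ContDiffOn ℝ ∞ (gE g) M :=
  Complex.reCLM.contDiff.comp_contDiffOn (h.smooth 0 0)

theorem gG_smooth (h : IsKahler M g) : ContDiffOn ℝ ∞ (gG g) M :=
  Complex.reCLM.contDiff.comp_contDiffOn (h.smooth 1 1)

theorem gD_smooth (h : IsKahler M g) : ContDiffOn ℝ ∞ (gD g) M := by
  have h1 : ContDiffOn ℝ ∞ (fun x => g x 0 0 * g x 1 1 - g x 0 1 * g x 1 0) M :=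
    ((h.smooth 0 0).mul (h.smooth 1 1)).sub ((h.smooth 0 1).mul (h.smooth 1 0))
  have h2 : gD g = fun x => (g x 0 0 * g x 1 1 - g x 0 1 * g x 1 0).re := by
    funext y
    unfold gD
    rw [Matrix.det_fin_two]
  rw [h2]
  exact Complex.reCLM.contDiff.comp_contDiffOn h1

theorem gpsi_smooth (h : IsKahler M g) : ContDiffOn ℝ ∞ (fun x => Real.log (gD g x)) M :=
  (gD_smooth h).log fun _ hx => (gD_pos h hx).ne'

theorem hq_snd (h : IsKahler M g) (hx : x ∈ M) (w : ℂ) : hq (g x) (0, w) = gG g x * ‖w‖ ^ 2 := by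
  rw [Lin_hq, g11 h hx]
  simp only [mul_zero, map_zero, zero_mul, zero_add]
  rw [mul_assoc, Complex.mul_conj, ← Complex.ofReal_mul, Complex.ofReal_re,
    Complex.normSq_eq_norm_sq]

theorem hq_fst (h : IsKahler M g) (hx : x ∈ M) (z : ℂ) : hq (g x) (z, 0) = gE g x * ‖z‖ ^ 2 := by
  rw [Lin_hq, g00 h hx]
  simp only [mul_zero, map_zero, zero_mul, add_zero]
  rw [mul_assoc, Complex.mul_conj, ← Complex.ofReal_mul, Complex.ofReal_re,
    Complex.normSq_eq_norm_sq]

theorem hq_nonneg (h : IsKahler M g) (hx : x ∈ M) (v : ℂ × ℂ) : 0 ≤ hq (g x) v := by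
  have hE := gE_pos h hx
  have hD := gD_pos h hx
  have hDe := gD_eq h hx
  have key : gE g x * hq (g x) v =
      Complex.normSq (gE g x * v.1 + conj (g x 0 1) * v.2) + gD g x * Complex.normSq v.2 := by
    rw [Lin_hq, g00 h hx, g11 h hx, g10 h hx, hDe]
    simp only [Complex.normSq_apply, Complex.add_re, Complex.add_im, Complex.mul_re,
      Complex.mul_im, Complex.conj_re, Complex.conj_im, Complex.ofReal_re, Complex.ofReal_im]
    ring
  have h1 : 0 ≤ gE g x * hq (g x) v := by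
    rw [key]
    have := Complex.normSq_nonneg (gE g x * v.1 + conj (g x 0 1) * v.2)
    have := mul_nonneg hD.le (Complex.normSq_nonneg v.2)
    linarith
  exact nonneg_of_mul_nonneg_right h1 hE

/-- `E ≤ (E G / D) …`: the determinant is at most the product of the diagonal. -/
theorem gD_le (h : IsKahler M g) (hx : x ∈ M) : gD g x ≤ gE g x * gG g x := by
  rw [gD_eq h hx]
  have := Complex.normSq_nonneg (g x 0 1)
  linarith

private theorem Lin_cself (h : IsKahler M g) (hx : x ∈ M) (p : Fin 2 → ℂ) :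
    cform (g x) p p = ((hq (g x) (p 1, - p 0) : ℝ) : ℂ) := by
  rw [Lin_hq]
  unfold cform
  rw [g00 h hx, g11 h hx, g10 h hx]
  apply Complex.ext
  · simp only [Complex.add_re, Complex.sub_re, Complex.add_im, Complex.mul_re, Complex.neg_re,
      Complex.neg_im, map_neg,
      Complex.mul_im, Complex.conj_re, Complex.conj_im, Complex.ofReal_re, Complex.ofReal_im]
    ring
  · simp only [Complex.add_re, Complex.sub_re, Complex.add_im, Complex.mul_re, Complex.sub_im,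
      Complex.mul_im, Complex.conj_re, Complex.conj_im, Complex.ofReal_re, Complex.ofReal_im]
    ring

/-- The cofactor form is a positive hermitian form. -/
theorem cform_self (h : IsKahler M g) (hx : x ∈ M) (p : Fin 2 → ℂ) :
    0 ≤ (cform (g x) p p).re ∧ (cform (g x) p p).im = 0 := by
  rw [Lin_cself h hx p, Complex.ofReal_re, Complex.ofReal_im]
  exact ⟨hq_nonneg h hx _, rfl⟩

theorem cform_cs (h : IsKahler M g) (hx : x ∈ M) (p q : Fin 2 → ℂ) :
    ‖cform (g x) p q‖ ^ 2 ≤ (cform (g x) p p).re * (cform (g x) q q).re := by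
  have hD := gD_pos h hx
  have key : (cform (g x) p p).re * (cform (g x) q q).re - Complex.normSq (cform (g x) p q) =
      gD g x * Complex.normSq (p 0 * q 1 - p 1 * q 0) := by
    rw [gD_eq h hx]
    unfold cform
    rw [g00 h hx, g11 h hx, g10 h hx]
    simp only [Complex.normSq_apply, Complex.add_re, Complex.sub_re, Complex.add_im,
      Complex.mul_re, Complex.sub_im, Complex.mul_im, Complex.conj_re, Complex.conj_im,
      Complex.ofReal_re, Complex.ofReal_im]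
    ring
  have h1 := mul_nonneg hD.le (Complex.normSq_nonneg (p 0 * q 1 - p 1 * q 0))
  rw [← Complex.normSq_eq_norm_sq]
  linarith

/-- The derivative of a real function in terms of `pd`. -/
private theorem Lin_fderiv {u : ℂ × ℂ → ℝ} (hu : DifferentiableAt ℝ u x) (v : ℂ × ℂ) :
    fderiv ℝ u x v = 2 * (pd 0 (fun y => ((u y : ℝ) : ℂ)) x * v.1
      + pd 1 (fun y => ((u y : ℝ) : ℂ)) x * v.2).re := by
  have hv : v = v.1.re • ex 0 + v.1.im • ey 0 + (v.2.re • ex 1 + v.2.im • ey 1) := by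
    simp only [ex, ey, if_true, Fin.isValue, one_ne_zero, if_false]
    apply Prod.ext
    · apply Complex.ext <;> simp
    · apply Complex.ext <;> simp
  have h0 : pd 0 (fun y => ((u y : ℝ) : ℂ)) x =
      ((fderiv ℝ u x (ex 0) : ℝ) - I * (fderiv ℝ u x (ey 0) : ℝ)) / 2 := wd_ofReal hu
  have h1 : pd 1 (fun y => ((u y : ℝ) : ℂ)) x =
      ((fderiv ℝ u x (ex 1) : ℝ) - I * (fderiv ℝ u x (ey 1) : ℝ)) / 2 := wd_ofReal hu
  rw [h0, h1]
  conv_lhs => rw [hv]
  rw [map_add, map_add, map_add, map_smul, map_smul, map_smul, map_smul]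
  simp only [smul_eq_mul, Complex.add_re, Complex.mul_re, Complex.div_re, Complex.sub_re,
    Complex.ofReal_re, Complex.ofReal_im, Complex.I_re, Complex.I_im, Complex.sub_im,
    Complex.mul_im, Complex.div_im, Complex.normSq_apply, Complex.re_ofNat, Complex.im_ofNat]
  ring

/-- The cutoffs in terms of the cofactor form. -/
theorem cform_cutoff (h : IsKahler M g) (hη : Cutoffs M g η) (hx : x ∈ M) (k : ℕ) :
    (cform (g x) (fun i => pd i (fun y => ((η k y : ℝ) : ℂ)) x)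
      (fun i => pd i (fun y => ((η k y : ℝ) : ℂ)) x)).re ≤ gD g x / ((k : ℝ) + 1) ^ 2 := by
  obtain ⟨p, hp⟩ : ∃ p : Fin 2 → ℂ, p = fun i => pd i (fun y => ((η k y : ℝ) : ℂ)) x := ⟨_, rfl⟩
  rw [← hp]
  have hd : DifferentiableAt ℝ (η k) x := (hη.smooth k).differentiable (by simp) x
  have hD := gD_pos h hx
  have hk : (0 : ℝ) < ((k : ℝ) + 1) ^ 2 := by positivity
  have h0 := (cform_self h hx p).1
  let v : ℂ × ℂ := ((gG g x : ℂ) * conj (p 0) - conj (g x 0 1) * conj (p 1),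
    - g x 0 1 * conj (p 0) + (gE g x : ℂ) * conj (p 1))
  have h1 : fderiv ℝ (η k) x v = 2 * (cform (g x) p p).re := by
    rw [Lin_fderiv hd v]
    have e0 : pd 0 (fun y => ((η k y : ℝ) : ℂ)) x = p 0 := by rw [hp]
    have e1 : pd 1 (fun y => ((η k y : ℝ) : ℂ)) x = p 1 := by rw [hp]
    rw [e0, e1]
    congr 2
    unfold cform
    rw [g00 h hx, g11 h hx, g10 h hx]
    show p 0 * ((gG g x : ℂ) * conj (p 0) - conj (g x 0 1) * conj (p 1))
      + p 1 * (- g x 0 1 * conj (p 0) + (gE g x : ℂ) * conj (p 1)) = _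
    ring
  have h2 : hq (g x) v = gD g x * (cform (g x) p p).re := by
    rw [Lin_hq, gD_eq h hx]
    unfold cform
    rw [g00 h hx, g11 h hx, g10 h hx]
    simp only [v, Complex.normSq_apply, Complex.add_re, Complex.sub_re, Complex.add_im,
      Complex.mul_re, Complex.sub_im, Complex.mul_im, Complex.conj_re, Complex.conj_im,
      Complex.ofReal_re, Complex.ofReal_im, Complex.neg_re, Complex.neg_im]
    ring
  have h3 := hη.grad k x hx v
  rw [h1, h2] at h3
  rw [le_div_iff₀ hk] at h3 ⊢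
  rcases h0.eq_or_lt with h4 | h4
  · rw [← h4, zero_mul]
    exact hD.le
  · have h5 : (cform (g x) p p).re * (4 * (cform (g x) p p).re * ((k : ℝ) + 1) ^ 2) ≤
        (cform (g x) p p).re * gD g x := by nlinarith
    have h6 := le_of_mul_le_mul_left h5 h4
    nlinarith

private theorem Lin_ric (v : ℂ × ℂ) :
    hq (ric g x) v = - hq (fun i j => gT g i j x) v := by
  have e : ∀ i j, ric g x i j = - gT g i j x := fun i j => rfl
  rw [Lin_hq, Lin_hq, e, e, e, e]
  simp only [neg_mul, Complex.add_re, Complex.neg_re]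
  ring

private theorem Lin_T (H : Hyp M g a a₁ b₁ a₂ b₂) (hx : x ∈ M) (v : ℂ × ℂ) :
    0 ≤ hq (fun i j => gT g i j x) v ∧ hq (fun i j => gT g i j x) v ≤ a * hq (g x) v := by
  have h1 := H.ricci x hx v
  rw [Lin_ric] at h1
  constructor <;> linarith [h1.1, h1.2]

theorem a_nonneg (H : Hyp M g a a₁ b₁ a₂ b₂) : 0 ≤ a := by
  obtain ⟨x, hx⟩ := H.conn.nonempty
  have h1 := Lin_T H hx (0, 1)
  have h2 := hq_snd H.kahler hx 1
  rw [norm_one, one_pow, mul_one] at h2
  have h3 := gG_pos H.kahler hx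
  rw [h2] at h1
  have h4 : 0 ≤ a * gG g x := h1.1.trans h1.2
  exact nonneg_of_mul_nonneg_left h4 h3

private theorem Lin_coe (H : Hyp M g a a₁ b₁ a₂ b₂) :
    ContDiffOn ℝ ∞ (fun y => ((Real.log (gD g y) : ℝ) : ℂ)) M :=
  Complex.ofRealCLM.contDiff.comp_contDiffOn (gpsi_smooth H.kahler)

theorem gT_11 (H : Hyp M g a a₁ b₁ a₂ b₂) (hx : x ∈ M) :
    (gT g 1 1 x).im = 0 ∧ 0 ≤ (gT g 1 1 x).re ∧ (gT g 1 1 x).re ≤ a * gG g x := by
  have h1 := Lin_T H hx (0, 1)
  have h2 := hq_snd H.kahler hx 1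
  rw [norm_one, one_pow, mul_one] at h2
  rw [h2, Lin_hq] at h1
  simp only [mul_zero, map_zero, zero_mul, zero_add, map_one, mul_one] at h1
  exact ⟨wd_wdb_real H.isOpen (gpsi_smooth H.kahler) hx, h1⟩

theorem gT_00 (H : Hyp M g a a₁ b₁ a₂ b₂) (hx : x ∈ M) :
    (gT g 0 0 x).im = 0 ∧ 0 ≤ (gT g 0 0 x).re ∧ (gT g 0 0 x).re ≤ a * gE g x := by
  have h1 := Lin_T H hx (1, 0)
  have h2 := hq_fst H.kahler hx 1
  rw [norm_one, one_pow, mul_one] at h2
  rw [h2, Lin_hq] at h1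
  simp only [mul_zero, map_zero, zero_mul, add_zero, map_one, mul_one] at h1
  exact ⟨wd_wdb_real H.isOpen (gpsi_smooth H.kahler) hx, h1⟩

/-- For a real function `∂̄ u` is the conjugate of `∂ u`. -/
private theorem Lin_conj (u : ℂ × ℂ → ℝ) (i : Fin 2) (y : ℂ × ℂ) :
    pdb i (fun y => ((u y : ℝ) : ℂ)) y = conj (pd i (fun y => ((u y : ℝ) : ℂ)) y) := by
  have h1 := wdb_conj (e := ex i) (e' := ey i) (f := fun y => ((u y : ℝ) : ℂ)) (x := y)
  simp only [Complex.conj_ofReal] at h1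
  exact h1

theorem gT_10 (H : Hyp M g a a₁ b₁ a₂ b₂) (hx : x ∈ M) : gT g 1 0 x = conj (gT g 0 1 x) := by
  have h1 : conj (gT g 0 1 x) =
      wdb (ex 0) (ey 0) (fun y => conj (pdb 1 (fun y => ((Real.log (gD g y) : ℝ) : ℂ)) y)) x :=
    (wdb_conj (e := ex 0) (e' := ey 0)
      (f := pdb 1 (fun y => ((Real.log (gD g y) : ℝ) : ℂ))) (x := x)).symm
  have h2 : (fun y => conj (pdb 1 (fun y => ((Real.log (gD g y) : ℝ) : ℂ)) y)) =
      wd (ex 1) (ey 1) (fun y => ((Real.log (gD g y) : ℝ) : ℂ)) := by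
    funext y
    rw [Lin_conj (fun y => Real.log (gD g y)) 1 y, Complex.conj_conj]
    rfl
  rw [h1, h2]
  exact wd_wdb_comm H.isOpen (Lin_coe H) hx

/-- `tr_g T - T_{11}/G ≤ a`, multiplied by `G D`. -/
theorem trace_le (H : Hyp M g a a₁ b₁ a₂ b₂) (hx : x ∈ M) :
    gG g x * (g x 1 1 * gT g 0 0 x - g x 1 0 * gT g 0 1 x - g x 0 1 * gT g 1 0 x
      + g x 0 0 * gT g 1 1 x).re - gD g x * (gT g 1 1 x).re ≤ a * gG g x * gD g x := by
  have h1 := (Lin_T H hx ((gG g x : ℂ), - g x 0 1)).2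
  have h2 : hq (g x) ((gG g x : ℂ), - g x 0 1) = gG g x * gD g x := by
    rw [Lin_hq, gD_eq H.kahler hx, g00 H.kahler hx, g11 H.kahler hx, g10 H.kahler hx]
    simp only [Complex.normSq_apply, Complex.add_re, Complex.add_im, map_neg,
      Complex.mul_re, Complex.mul_im, Complex.conj_re, Complex.conj_im,
      Complex.ofReal_re, Complex.ofReal_im, Complex.neg_re, Complex.neg_im]
    ring
  have h3 : hq (fun i j => gT g i j x) ((gG g x : ℂ), - g x 0 1) =
      gG g x * (g x 1 1 * gT g 0 0 x - g x 1 0 * gT g 0 1 x - g x 0 1 * gT g 1 0 x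
      + g x 0 0 * gT g 1 1 x).re - gD g x * (gT g 1 1 x).re := by
    have i1 := (gT_11 H hx).1
    have i0 := (gT_00 H hx).1
    rw [Lin_hq, gD_eq H.kahler hx, g00 H.kahler hx, g11 H.kahler hx, g10 H.kahler hx]
    simp only [Complex.normSq_apply, Complex.add_re, Complex.add_im, map_neg, Complex.sub_re,
      Complex.mul_re, Complex.mul_im, Complex.conj_re, Complex.conj_im,
      Complex.ofReal_re, Complex.ofReal_im, Complex.neg_re, Complex.neg_im, i0, i1]
    ring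
  rw [h2, h3] at h1
  linarith

/-- The error term of the holomorphy argument. -/
theorem err_bound (H : Hyp M g a a₁ b₁ a₂ b₂) (hη : Cutoffs M g η) (hx : x ∈ M) (k : ℕ) :
    ‖pdb 1 (fun y => ((η k y : ℝ) : ℂ)) x * gT g 1 0 x
      - pdb 0 (fun y => ((η k y : ℝ) : ℂ)) x * gT g 1 1 x‖
      ≤ a / ((k : ℝ) + 1) * Real.sqrt (gG g x * gD g x) := by
  obtain ⟨p, hp⟩ : ∃ p : Fin 2 → ℂ, p = fun i => pd i (fun y => ((η k y : ℝ) : ℂ)) x := ⟨_, rfl⟩
  have hcut := cform_cutoff H.kahler hη hx k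
  rw [← hp] at hcut
  have e0 : pdb 0 (fun y => ((η k y : ℝ) : ℂ)) x = conj (p 0) := by
    rw [hp]
    exact Lin_conj (η k) 0 x
  have e1 : pdb 1 (fun y => ((η k y : ℝ) : ℂ)) x = conj (p 1) := by
    rw [hp]
    exact Lin_conj (η k) 1 x
  obtain ⟨i1, n1, u1⟩ := gT_11 H hx
  have r1 : gT g 1 1 x = ((gT g 1 1 x).re : ℂ) := by
    apply Complex.ext
    · rw [Complex.ofReal_re]
    · rw [Complex.ofReal_im, i1]
  have hG := gG_pos H.kahler hx
  have hD := gD_pos H.kahler hx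
  have ha := a_nonneg H
  have hk : (0 : ℝ) < (k : ℝ) + 1 := by positivity
  obtain ⟨c, hc⟩ : ∃ c : ℂ, c = gT g 0 1 x * p 1 - gT g 1 1 x * p 0 := ⟨_, rfl⟩
  have hc' : pdb 1 (fun y => ((η k y : ℝ) : ℂ)) x * gT g 1 0 x
      - pdb 0 (fun y => ((η k y : ℝ) : ℂ)) x * gT g 1 1 x = conj c := by
    rw [e0, e1, gT_10 H hx, hc, map_sub, map_mul, map_mul, r1, Complex.conj_ofReal]
    ring
  rw [hc', Complex.norm_conj]
  -- the Cauchy-Schwarz inequality for `T`
  have hq1 : hq (g x) (p 1, - p 0) = (cform (g x) p p).re := by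
    rw [Lin_cself H.kahler hx p, Complex.ofReal_re]
  have hw := Lin_T H hx (p 1, - p 0)
  obtain ⟨t0, ht0⟩ : ∃ t0 : ℝ, t0 = hq (fun i j => gT g i j x) (p 1, - p 0) := ⟨_, rfl⟩
  rw [← ht0, hq1] at hw
  have hquad : ∀ t : ℝ, 0 ≤ (Complex.normSq c * (gT g 1 1 x).re) * (t * t)
      + 2 * Complex.normSq c * t + t0 := by
    intro t
    have h1 := (Lin_T H hx (p 1, - p 0 + (t : ℂ) * c)).1
    have h2 : hq (fun i j => gT g i j x) (p 1, - p 0 + (t : ℂ) * c) =
        (Complex.normSq c * (gT g 1 1 x).re) * (t * t) + 2 * Complex.normSq c * t + t0 := by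
      rw [ht0, Lin_hq, Lin_hq, gT_10 H hx, hc, r1]
      simp only [Complex.normSq_apply, Complex.add_re, Complex.add_im, map_neg, Complex.sub_re,
        Complex.sub_im, map_add, map_mul, map_sub, Complex.conj_ofReal,
        Complex.mul_re, Complex.mul_im, Complex.conj_re, Complex.conj_im,
        Complex.ofReal_re, Complex.ofReal_im, Complex.neg_re, Complex.neg_im]
      ring
    rwa [h2] at h1
  have hdis := discrim_le_zero hquad
  unfold discrim at hdis
  have hcs : Complex.normSq c ≤ (gT g 1 1 x).re * t0 := by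
    rcases (Complex.normSq_nonneg c).eq_or_lt with h4 | h4
    · rw [← h4]
      exact mul_nonneg n1 hw.1
    · have h5 : Complex.normSq c * Complex.normSq c ≤
          Complex.normSq c * ((gT g 1 1 x).re * t0) := by nlinarith
      exact le_of_mul_le_mul_left h5 h4
  have hfin : ‖c‖ ^ 2 ≤ (a / ((k : ℝ) + 1) * Real.sqrt (gG g x * gD g x)) ^ 2 := by
    rw [← Complex.normSq_eq_norm_sq, mul_pow, Real.sq_sqrt (mul_nonneg hG.le hD.le), div_pow]
    have h6 : (gT g 1 1 x).re * t0 ≤ (a * gG g x) * (a * (gD g x / ((k : ℝ) + 1) ^ 2)) :=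
      mul_le_mul u1 (hw.2.trans (mul_le_mul_of_nonneg_left hcut ha)) hw.1
        (mul_nonneg ha hG.le)
    have h7 : (a * gG g x) * (a * (gD g x / ((k : ℝ) + 1) ^ 2)) =
        a ^ 2 / ((k : ℝ) + 1) ^ 2 * (gG g x * gD g x) := by ring
    rw [← h7]
    exact hcs.trans h6
  have hnn : 0 ≤ a / ((k : ℝ) + 1) * Real.sqrt (gG g x * gD g x) :=
    mul_nonneg (div_nonneg ha hk.le) (Real.sqrt_nonneg _)
  exact (abs_le_of_sq_le_sq' hfin hnn).2

end KQ
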