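import Pool.Agent.Lib_MP_3ea2ac_kq.Setup

/-! Exchange of the coordinates. -/

open MeasureTheory Complex Set Topology Filter
open scoped ComplexConjugate ContDiff ComplexOrder

namespace KQ

variable {M : Set (ℂ × ℂ)} {g : ℂ × ℂ → Matrix (Fin 2) (Fin 2) ℂ} {a : ℝ} {a₁ b₁ a₂ b₂ : ℂ}

private theorem ex_swap (i : Fin 2) : (ex i).swap = ex (1 - i) := by
  fin_cases i <;> simp [ex]

private theorem ey_swap (i : Fin 2) : (ey i).swap = ey (1 - i) := by
  fin_cases i <;> simp [ey]

private theorem cd_swap (v : ℂ × ℂ) (i : Fin 2) : cd v.swap i = cd v (1 - i) := by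
  fin_cases i <;> simp [cd]

private theorem fderiv_swap (f : ℂ × ℂ → ℂ) (x v : ℂ × ℂ) :
    fderiv ℝ (fun y => f y.swap) x v = fderiv ℝ f x.swap v.swap := by
  have h := (ContinuousLinearEquiv.prodComm ℝ ℂ ℂ).comp_right_fderiv (f := f) (x := x)
  have e : (fun y : ℂ × ℂ => f y.swap) = f ∘ (ContinuousLinearEquiv.prodComm ℝ ℂ ℂ) := rfl
  rw [e, h]
  rfl

private theorem pd_swap (f : ℂ × ℂ → ℂ) (i : Fin 2) (x : ℂ × ℂ) :
    pd i (fun y => f y.swap) x = pd (1 - i) f x.swap := by
  simp only [pd, wd, fderiv_swap, ex_swap, ey_swap]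

private theorem pdb_swap (f : ℂ × ℂ → ℂ) (i : Fin 2) (x : ℂ × ℂ) :
    pdb i (fun y => f y.swap) x = pdb (1 - i) f x.swap := by
  simp only [pdb, wdb, fderiv_swap, ex_swap, ey_swap]

private theorem swapg_eq (g : ℂ × ℂ → Matrix (Fin 2) (Fin 2) ℂ) (x : ℂ × ℂ) :
    swapg g x = (g x.swap).submatrix (fun i => 1 - i) (fun i => 1 - i) := rfl

private theorem det_swapg (g : ℂ × ℂ → Matrix (Fin 2) (Fin 2) ℂ) (x : ℂ × ℂ) :
    (swapg g x).det = (g x.swap).det := by
  rw [Matrix.det_fin_two, Matrix.det_fin_two]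
  simp only [swapg]
  have h0 : (1 : Fin 2) - 0 = 1 := rfl
  have h1 : (1 : Fin 2) - 1 = 0 := rfl
  rw [h0, h1]
  ring

private theorem hq_sub (H : Matrix (Fin 2) (Fin 2) ℂ) (v : ℂ × ℂ) :
    hq (fun i j => H (1 - i) (1 - j)) v = hq H v.swap := by
  have h0 : (1 : Fin 2) - 0 = 1 := rfl
  have h1 : (1 : Fin 2) - 1 = 0 := rfl
  simp only [hq, Fin.sum_univ_two, cd_swap, h0, h1]
  congr 1
  ring

private theorem ric_swapg (x : ℂ × ℂ) :
    ric (swapg g) x = fun i j => ric g x.swap (1 - i) (1 - j) := by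
  funext i j
  simp only [ric]
  congr 1
  have e1 : (fun y => ((Real.log (swapg g y).det.re : ℝ) : ℂ)) =
      fun y : ℂ × ℂ => (fun z : ℂ × ℂ => ((Real.log (g z).det.re : ℝ) : ℂ)) y.swap := by
    funext y
    rw [det_swapg]
  rw [e1]
  have e2 : pdb j (fun y : ℂ × ℂ => (fun z : ℂ × ℂ => ((Real.log (g z).det.re : ℝ) : ℂ)) y.swap) =
      fun y : ℂ × ℂ => pdb (1 - j) (fun z : ℂ × ℂ => ((Real.log (g z).det.re : ℝ) : ℂ)) y.swap := by
    funext y
    exact pdb_swap (fun z : ℂ × ℂ => ((Real.log (g z).det.re : ℝ) : ℂ)) j y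
  rw [e2]
  exact pd_swap (pdb (1 - j) fun z : ℂ × ℂ => ((Real.log (g z).det.re : ℝ) : ℂ)) i x

private theorem joined_swap {x y : ℂ × ℂ} {L : ℝ}
    (h : Joined (Prod.swap ⁻¹' M) (swapg g) x y L) : Joined M g x.swap y.swap L := by
  induction h with
  | refl => exact Joined.refl
  | step y L γ _ hγ h0 hM ih =>
    have hs : ContDiff ℝ 1 fun t => (γ t).swap :=
      (ContinuousLinearEquiv.prodComm ℝ ℂ ℂ).contDiff.comp hγ
    have hlen : len (swapg g) γ = len g fun t => (γ t).swap := by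
      unfold len
      refine intervalIntegral.integral_congr fun t _ => ?_
      have hd : deriv (fun t => (γ t).swap) t = (deriv γ t).swap := by
        have h1 : HasDerivAt γ (deriv γ t) t :=
          (hγ.differentiable (by norm_num)).differentiableAt.hasDerivAt
        have h2 := ((ContinuousLinearEquiv.prodComm ℝ ℂ ℂ).hasFDerivAt
          (x := γ t)).comp_hasDerivAt t h1
        exact h2.deriv
      simp only
      rw [hd]
      congr 1
      exact hq_sub _ _
    rw [hlen]
    exact Joined.step y.swap L (fun t => (γ t).swap) ih hs (by simp [h0]) fun t ht => hM t ht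

theorem Hyp.swap (H : Hyp M g a a₁ b₁ a₂ b₂) :
    Hyp (Prod.swap ⁻¹' M) (swapg g) a a₂ b₂ a₁ b₁ where
  isOpen := H.isOpen.preimage continuous_swap
  conn := by
    rw [← image_swap_eq_preimage_swap]
    exact H.conn.image _ continuous_swap.continuousOn
  ne₁ := H.ne₂
  ne₂ := H.ne₁
  omit₁ := fun x hx => H.omit₂ x.swap hx
  omit₂ := fun x hx => H.omit₁ x.swap hx
  kahler := by
    refine ⟨fun i j => ?_, fun x hx => ?_, fun x hx i j k => ?_⟩
    · exact (H.kahler.smooth (1 - i) (1 - j)).comp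
        (ContinuousLinearEquiv.prodComm ℝ ℂ ℂ).contDiff.contDiffOn fun x hx => hx
    · rw [swapg_eq]
      exact (H.kahler.posDef x.swap hx).submatrix fun i j hij => by
        simpa using hij
    · have h := H.kahler.closed x.swap hx (1 - i) (1 - j) (1 - k)
      rw [← pd_swap, ← pd_swap] at h
      exact h
  complete := by
    intro x hx R
    obtain ⟨K, hK, hKM, h⟩ := H.complete x.swap hx R
    refine ⟨Prod.swap '' K, hK.image continuous_swap, ?_, fun y L hJ hL => ?_⟩
    · rintro _ ⟨z, hz, rfl⟩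
      rw [mem_preimage, Prod.swap_swap]
      exact hKM hz
    · exact ⟨y.swap, h _ L (joined_swap hJ) hL, Prod.swap_swap y⟩
  ricci := by
    intro x hx v
    have h := H.ricci x.swap hx v.swap
    have e1 : hq (ric (swapg g) x) v = hq (ric g x.swap) v.swap := by
      rw [ric_swapg]
      exact hq_sub _ _
    have e2 : hq (swapg g x) v = hq (g x.swap) v.swap := hq_sub _ _
    rw [e1, e2]
    exact h
  volume := by
    have e : gD (swapg g) = gD g ∘ Prod.swap := by
      funext x
      simp only [gD, Function.comp, det_swapg]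
    rw [e]
    exact ((Measure.measurePreserving_swap (μ := (MeasureTheory.volume : Measure ℂ))
      (ν := (MeasureTheory.volume : Measure ℂ))).integrableOn_comp_preimage
      MeasurableEquiv.prodComm.measurableEmbedding).2 H.volume

theorem gG_swapg (x : ℂ × ℂ) : gG (swapg g) x = gE g x.swap := by
  simp [gG, gE, swapg]

theorem gD_swapg (x : ℂ × ℂ) : gD (swapg g) x = gD g x.swap := by
  simp only [gD, det_swapg]

end KQ
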