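import Pool.Agent.Lib_MP_3ea2ac_kq.Alg4
import Pool.Agent.Lib_MP_3ea2ac_kq.ChEx
import Pool.Agent.Lib_MP_3ea2ac_kq.DN
import Pool.Agent.Lib_MP_3ea2ac_kq.Cut
import Pool.Agent.Lib_MP_3ea2ac_kq.Schw
import Pool.Agent.Lib_MP_3ea2ac_kq.Swap

/-! Assembly. -/

open MeasureTheory Complex Set Topology Filter
open scoped ComplexConjugate ContDiff ComplexOrder

namespace KQ

variable {M : Set (ℂ × ℂ)} {D E G : ℂ × ℂ → ℝ} {a τ : ℝ} {t₁ t₂ : ℂ → ℝ} {a₁ b₁ a₂ b₂ : ℂ}
  {η : ℕ → ℂ × ℂ → ℝ} {g : ℂ × ℂ → Matrix (Fin 2) (Fin 2) ℂ}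

theorem PlaneData.algData (P : PlaneData M D E G a τ t₁ t₂ a₁ b₁ a₂ b₂ η) (hne : M.Nonempty) :
    AlgData M :=
  ⟨P.isOpen, hne, P.charts, P.swap.charts, P.dnull⟩

/-! ### Exchange of the coordinates -/

private theorem Main_fderiv {X : Type*} [NormedAddCommGroup X] [NormedSpace ℝ X] (f : ℂ × ℂ → X)
    (x e : ℂ × ℂ) : fderiv ℝ (f ∘ Prod.swap) x e = fderiv ℝ f x.swap e.swap := by
  have h := (ContinuousLinearEquiv.prodComm ℝ ℂ ℂ).comp_right_fderiv (f := f) (x := x)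
  have h2 : (f ∘ (ContinuousLinearEquiv.prodComm ℝ ℂ ℂ : ℂ × ℂ → ℂ × ℂ)) = f ∘ Prod.swap := rfl
  rw [h2] at h
  rw [h]
  rfl

private theorem Main_pd (f : ℂ × ℂ → ℂ) (i : Fin 2) :
    pd i (f ∘ Prod.swap) = pd (1 - i) f ∘ Prod.swap := by
  funext x
  fin_cases i <;> simp [pd, wd, ex, ey, Main_fderiv]

private theorem Main_pdb (f : ℂ × ℂ → ℂ) (i : Fin 2) :
    pdb i (f ∘ Prod.swap) = pdb (1 - i) f ∘ Prod.swap := by
  funext x
  fin_cases i <;> simp [pdb, wdb, ex, ey, Main_fderiv]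

private theorem Main_gT (g : ℂ × ℂ → Matrix (Fin 2) (Fin 2) ℂ) (i j : Fin 2) (x : ℂ × ℂ) :
    gT (swapg g) i j x = gT g (1 - i) (1 - j) x.swap := by
  have h1 : (fun y : ℂ × ℂ => ((Real.log (gD (swapg g) y) : ℝ) : ℂ)) =
      (fun y => ((Real.log (gD g y) : ℝ) : ℂ)) ∘ Prod.swap := by
    funext y
    simp only [Function.comp_apply, gD_swapg]
  simp only [gT]
  rw [h1, Main_pdb, Main_pd]
  rfl

private theorem Main_hq (g : ℂ × ℂ → Matrix (Fin 2) (Fin 2) ℂ) (x v : ℂ × ℂ) :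
    hq (swapg g x) v = hq (g x.swap) v.swap := by
  simp only [hq, swapg, cd, Fin.sum_univ_two]
  congr 1
  simp
  ring

private theorem Main_cutoffs (hη : Cutoffs M g η) :
    Cutoffs (Prod.swap ⁻¹' M) (swapg g) (fun k => η k ∘ Prod.swap) := by
  have hsm : ContDiff ℝ ∞ (Prod.swap : ℂ × ℂ → ℂ × ℂ) := contDiff_snd.prodMk contDiff_fst
  exact
  { smooth := fun k => (hη.smooth k).comp hsm
    cpt := fun k => (hη.cpt k).comp_homeomorph (Homeomorph.prodComm ℂ ℂ)
    sub := fun k => by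
      have h1 : tsupport (η k ∘ Prod.swap) = Prod.swap ⁻¹' tsupport (η k) :=
        tsupport_comp_eq_preimage (η k) (Homeomorph.prodComm ℂ ℂ)
      rw [h1]
      exact preimage_mono (hη.sub k)
    nonneg := fun k x => hη.nonneg k x.swap
    le_one := fun k x => hη.le_one k x.swap
    one := fun K hK hKM => by
      have h1 : IsCompact (Prod.swap '' K) := hK.image continuous_swap
      have h2 : Prod.swap '' K ⊆ M := by
        rintro _ ⟨y, hy, rfl⟩
        exact hKM hy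
      filter_upwards [hη.one _ h1 h2] with k hk x hx
      exact hk x.swap (mem_image_of_mem _ hx)
    grad := fun k x hx v => by
      rw [Main_fderiv, Main_hq]
      exact hη.grad k x.swap hx v.swap }

private theorem Main_rho_nonneg (p q : ℂ) (w : ℂ) : 0 ≤ rhoPQ p q (1 / 5) w := by
  unfold rhoPQ rho
  positivity

private theorem Main_t_cont {p q : ℂ} (hpq : p ≠ q) (a : ℝ) :
    ContinuousOn (fun z => 1600 * a / rhoPQ p q (1 / 5) z) ({p, q}ᶜ : Set ℂ) := by
  refine continuousOn_const.div (rhoPQ_smooth hpq).continuousOn ?_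
  intro z hz
  have hzp : z ≠ p := fun h => hz (by simp [h])
  have hzq : z ≠ q := fun h => hz (by simp [h])
  exact (rhoPQ_pos hpq hzp hzq).ne'

private theorem Main_le {r G D a : ℝ} (hr : 0 < r) (h : r * G ≤ 1600 * a * D) :
    G ≤ 1 * (1600 * a / r) * D := by
  rw [one_mul, div_mul_eq_mul_div, le_div_iff₀ hr]
  linarith

/-- The plane data of `M ⊆ ℂ × ℂ` itself. -/
theorem Hyp.planeData (H : Hyp M g a a₁ b₁ a₂ b₂) :
    ∃ η, PlaneData M (gD g) (gE g) (gG g) a 1 (fun z => 1600 * a / rhoPQ a₁ b₁ (1 / 5) z)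
      (fun w => 1600 * a / rhoPQ a₂ b₂ (1 / 5) w) a₁ b₁ a₂ b₂ η := by
  obtain ⟨η, hη⟩ := exists_cutoffs H.isOpen H.conn H.kahler H.complete
  have ha := a_nonneg H
  have hη' := Main_cutoffs hη
  have H' := H.swap
  have e01 : (1 : Fin 2) - 0 = 1 := rfl
  have e11 : (1 : Fin 2) - 1 = 0 := rfl
  refine ⟨η, ?_⟩
  exact
  { isOpen := H.isOpen
    a_nonneg := ha
    τ_nonneg := zero_le_one
    ne₁ := H.ne₁
    ne₂ := H.ne₂
    omit₁ := H.omit₁
    omit₂ := H.omit₂
    t₁cont := Main_t_cont H.ne₁ a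
    t₂cont := Main_t_cont H.ne₂ a
    t₁nonneg := fun z => div_nonneg (by positivity) (Main_rho_nonneg _ _ _)
    t₂nonneg := fun z => div_nonneg (by positivity) (Main_rho_nonneg _ _ _)
    Dpos := fun x hx => gD_pos H.kahler hx
    Dsmooth := gD_smooth H.kahler
    Econt := (gE_smooth H.kahler).continuousOn
    Gcont := (gG_smooth H.kahler).continuousOn
    Enonneg := fun x hx => (gE_pos H.kahler hx).le
    Gnonneg := fun x hx => (gG_pos H.kahler hx).le
    GleD := fun x hx =>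
      Main_le (rhoPQ_pos H.ne₁ (H.omit₁ x hx).1 (H.omit₁ x hx).2) (schwarz H hη hx)
    EleD := fun x hx => by
      have hx' : x.swap ∈ Prod.swap ⁻¹' M := hx
      have h1 := schwarz H' hη' hx'
      rw [gG_swapg, gD_swapg, Prod.swap_swap] at h1
      exact Main_le (rhoPQ_pos H.ne₂ (H.omit₂ x hx).1 (H.omit₂ x hx).2) h1
    T11 := fun x hx => (gT_11 H hx).2
    T00 := fun x hx => (gT_00 H hx).2
    integrable := H.volume
    ηsmooth := hη.smooth
    ηcpt := hη.cpt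
    ηsub := hη.sub
    ηnonneg := hη.nonneg
    ηle_one := hη.le_one
    ηone := hη.one
    ηgrad₁ := fun k x hx v => by
      rw [← hq_fst H.kahler hx v]
      exact hη.grad k x hx (v, 0)
    ηgrad₂ := fun k x hx v => by
      rw [← hq_snd H.kahler hx v]
      exact hη.grad k x hx (0, v)
    err₁ := fun k x hx => by
      rw [one_mul]
      exact err_bound H hη hx k
    err₂ := fun k x hx => by
      have hx' : x.swap ∈ Prod.swap ⁻¹' M := hx
      have h1 := err_bound H' hη' hx' k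
      have h2 : (fun y => (((η k ∘ Prod.swap) y : ℝ) : ℂ)) = (fun y => ((η k y : ℝ) : ℂ)) ∘ Prod.swap := rfl
      rw [h2, Main_pdb, Main_pdb, Main_gT, Main_gT, gG_swapg, gD_swapg, Prod.swap_swap, e01, e11] at h1
      simp only [Function.comp_apply, Prod.swap_swap] at h1
      rw [one_mul]
      exact h1 }

theorem Hyp.algData (H : Hyp M g a a₁ b₁ a₂ b₂) : AlgData M := by
  obtain ⟨η, P⟩ := H.planeData
  exact P.algData H.conn.nonempty

end KQ
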