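import Mathlib

/-! From power sums to the polynomial with the given zeros. -/

open MeasureTheory Complex Set Topology Filter

namespace KQ

/-- `Q(z,w) = ∑_{j ≤ m} c_j(z) (w-w₁)^j`. -/
noncomputable def Qp (m : ℕ) (c : ℕ → ℂ → ℂ) (w₁ z w : ℂ) : ℂ :=
  ∑ j ∈ Finset.range (m + 1), c j z * (w - w₁) ^ j

open PowerSeries in
private theorem Newt_geom (x : ℂ) :
    (1 - C x * X : PowerSeries ℂ) * (PowerSeries.mk fun k => x ^ k) = 1 := by
  ext n
  rw [sub_mul, one_mul, map_sub, mul_assoc, coeff_C_mul]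
  cases n with
  | zero => simp
  | succ n =>
    rw [mul_comm X, coeff_succ_mul_X, coeff_mk, coeff_mk, pow_succ, coeff_one]
    simp only [Nat.succ_ne_zero, if_false]
    ring

open PowerSeries in
private theorem Newt_deriv (s : Finset ℂ) (x : ℂ → ℂ) :
    derivative ℂ (∏ p ∈ s, (1 - C (x p) * X : PowerSeries ℂ)) =
      -((∏ p ∈ s, (1 - C (x p) * X : PowerSeries ℂ)) * PowerSeries.mk fun k => ∑ p ∈ s, x p ^ (k + 1)) := by
  classical
  induction s using Finset.induction_on with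
  | empty =>
    simp only [Finset.prod_empty, Finset.sum_empty, one_mul]
    rw [derivative_one]
    ext n
    simp
  | insert p s hp ih =>
    rw [Finset.prod_insert hp, Derivation.leibniz, ih]
    have h1 : derivative ℂ (1 - C (x p) * X : PowerSeries ℂ) = -C (x p) := by
      rw [map_sub, derivative_one, Derivation.leibniz, derivative_C, derivative_X]
      simp
    have h2 : (PowerSeries.mk fun k => ∑ q ∈ insert p s, x q ^ (k + 1) : PowerSeries ℂ) =
        C (x p) * (PowerSeries.mk fun k => x p ^ k) + PowerSeries.mk fun k => ∑ q ∈ s, x q ^ (k + 1) := by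
      ext n
      rw [map_add, coeff_C_mul, coeff_mk, coeff_mk, coeff_mk, Finset.sum_insert hp, pow_succ']
    rw [h1, h2, smul_eq_mul, smul_eq_mul]
    have h3 := Newt_geom (x p)
    generalize (PowerSeries.mk fun k => x p ^ k : PowerSeries ℂ) = G at *
    generalize (PowerSeries.mk fun k => ∑ q ∈ s, x q ^ (k + 1) : PowerSeries ℂ) = S at *
    generalize (∏ q ∈ s, (1 - C (x q) * X : PowerSeries ℂ)) = P at *
    linear_combination (C (x p) * P) * h3

/-- the polynomial `∏ (1 - x_p t)` -/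
private noncomputable def Newt_P (s : Finset ℂ) (x : ℂ → ℂ) : Polynomial ℂ :=
  ∏ p ∈ s, (1 - Polynomial.C (x p) * Polynomial.X)

private theorem Newt_coe (s : Finset ℂ) (x : ℂ → ℂ) :
    ((Newt_P s x : Polynomial ℂ) : PowerSeries ℂ) = ∏ p ∈ s, (1 - PowerSeries.C (x p) * PowerSeries.X) := by
  unfold Newt_P
  rw [← Polynomial.coeToPowerSeries.ringHom_apply, map_prod]
  refine Finset.prod_congr rfl fun p _ => ?_
  rw [Polynomial.coeToPowerSeries.ringHom_apply]
  simp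

private theorem Newt_rec (s : Finset ℂ) (x : ℂ → ℂ) (k : ℕ) :
    ((k : ℂ) + 1) * (Newt_P s x).coeff (k + 1) =
      -∑ i ∈ Finset.range (k + 1), (Newt_P s x).coeff i * ∑ p ∈ s, x p ^ (k - i + 1) := by
  have h := congrArg (PowerSeries.coeff k) (Newt_deriv s x)
  rw [← Newt_coe, PowerSeries.coeff_derivative, map_neg, PowerSeries.coeff_mul,
    Finset.Nat.sum_antidiagonal_eq_sum_range_succ_mk] at h
  simp only [Polynomial.coeff_coe, PowerSeries.coeff_mk] at h
  rw [mul_comm, h]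

private theorem Newt_coeff_zero (s : Finset ℂ) (x : ℂ → ℂ) : (Newt_P s x).coeff 0 = 1 := by
  unfold Newt_P
  rw [Polynomial.coeff_zero_eq_eval_zero, Polynomial.eval_prod]
  simp

private theorem Newt_natDegree (s : Finset ℂ) (x : ℂ → ℂ) : (Newt_P s x).natDegree ≤ s.card := by
  unfold Newt_P
  refine (Polynomial.natDegree_prod_le _ _).trans ?_
  calc ∑ p ∈ s, (1 - Polynomial.C (x p) * Polynomial.X : Polynomial ℂ).natDegree ≤ ∑ p ∈ s, 1 := by
        refine Finset.sum_le_sum fun p _ => ?_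
        refine (Polynomial.natDegree_sub_le _ _).trans ?_
        rw [Polynomial.natDegree_one]
        refine max_le (Nat.zero_le _) ?_
        exact (Polynomial.natDegree_C_mul_le _ _).trans Polynomial.natDegree_X_le
    _ = s.card := by simp

/-- the coefficients by Newton's identities -/
private noncomputable def Newt_c (F : ℕ → ℂ → ℂ) : ℕ → ℂ → ℂ
  | 0 => fun _ => 1
  | (k + 1) => fun z => -(1 / ((k : ℂ) + 1)) * ∑ i : Fin (k + 1), Newt_c F i z * F (k - i + 1) z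
decreasing_by exact i.2

private theorem Newt_c_succ (F : ℕ → ℂ → ℂ) (k : ℕ) (z : ℂ) : Newt_c F (k + 1) z =
    -(1 / ((k : ℂ) + 1)) * ∑ i ∈ Finset.range (k + 1), Newt_c F i z * F (k - i + 1) z := by
  rw [Newt_c]
  show -(1 / ((k : ℂ) + 1)) * ∑ i : Fin (k + 1), Newt_c F i z * F (k - i + 1) z = _
  rw [Fin.sum_univ_eq_sum_range (fun i => Newt_c F i z * F (k - i + 1) z) (k + 1)]

private theorem Newt_c_diff {Ω : Set ℂ} (F : ℕ → ℂ → ℂ) (hF : ∀ k, 1 ≤ k → DifferentiableOn ℂ (F k) Ω) (j : ℕ) :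
    DifferentiableOn ℂ (Newt_c F j) Ω := by
  induction j using Nat.strong_induction_on with
  | _ j ih =>
    cases j with
    | zero =>
      have h1 : Newt_c F 0 = fun _ => 1 := by
        rw [Newt_c]
      rw [h1]
      exact differentiableOn_const 1
    | succ k =>
      have h1 : Newt_c F (k + 1) = fun z => -(1 / ((k : ℂ) + 1)) *
          ∑ i ∈ Finset.range (k + 1), Newt_c F i z * F (k - i + 1) z := by
        funext z
        exact Newt_c_succ F k z
      rw [h1]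
      refine DifferentiableOn.const_mul ?_ _
      refine DifferentiableOn.fun_sum fun i hi => ?_
      exact (ih i (Finset.mem_range.1 hi)).mul (hF _ (by omega))

private theorem Newt_c_eq (F : ℕ → ℂ → ℂ) (s : Finset ℂ) (x : ℂ → ℂ) (z : ℂ)
    (h : ∀ k, 1 ≤ k → F k z = ∑ p ∈ s, x p ^ k) (j : ℕ) : Newt_c F j z = (Newt_P s x).coeff j := by
  induction j using Nat.strong_induction_on with
  | _ j ih =>
    cases j with
    | zero =>
      rw [Newt_coeff_zero, Newt_c]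
    | succ k =>
      have h1 := Newt_rec s x k
      have h2 : ∑ i ∈ Finset.range (k + 1), Newt_c F i z * F (k - i + 1) z =
          ∑ i ∈ Finset.range (k + 1), (Newt_P s x).coeff i * ∑ p ∈ s, x p ^ (k - i + 1) := by
        refine Finset.sum_congr rfl fun i hi => ?_
        rw [ih i (Finset.mem_range.1 hi), h _ (by omega)]
      rw [Newt_c_succ, h2]
      have h3 : ((k : ℂ) + 1) ≠ 0 := by exact_mod_cast Nat.succ_ne_zero k
      field_simp
      linear_combination -h1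

private theorem Newt_ident {Ω : Set ℂ} (hΩ : IsOpen Ω) (hc : IsPreconnected Ω) {f : ℂ → ℂ}
    (hf : DifferentiableOn ℂ f Ω) {T : Set ℂ} (hT : T ⊆ Ω) (hT0 : volume T ≠ 0) (h : ∀ z ∈ T, f z = 0) :
    ∀ z ∈ Ω, f z = 0 := by
  rcases (hf.analyticOnNhd hΩ).eqOn_zero_or_eventually_ne_zero_of_preconnected hc with h1 | h1
  · exact h1
  · exfalso
    have h2 : ∀ᵐ z ∂(volume.restrict Ω), f z ≠ 0 := ae_restrict_le_codiscreteWithin hΩ.measurableSet h1
    rw [ae_restrict_iff' hΩ.measurableSet] at h2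
    apply hT0
    refine measure_mono_null ?_ (ae_iff.1 h2)
    intro z hz
    simp only [Set.mem_ofPred_eq, not_forall, not_not]
    exact ⟨hT hz, h z hz⟩

theorem newton_poly {Ω : Set ℂ} (hΩ : IsOpen Ω) (hc : IsPreconnected Ω) (hne : Ω.Nonempty)
    (A : ℂ → Set ℂ) (w₁ : ℂ) (hA : ∀ᵐ z, z ∈ Ω → (A z).Finite ∧ w₁ ∉ A z)
    (F : ℕ → ℂ → ℂ) (hF : ∀ k, 1 ≤ k → DifferentiableOn ℂ (F k) Ω)
    (hFA : ∀ k, 1 ≤ k → ∀ᵐ z, z ∈ Ω → F k z = ∑ᶠ (p : ℂ) (_ : p ∈ A z), ((p - w₁) ^ k)⁻¹) :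
    ∃ (m : ℕ) (c : ℕ → ℂ → ℂ), (∀ j, DifferentiableOn ℂ (c j) Ω) ∧ (∀ z ∈ Ω, c 0 z = 1) ∧
      ∀ᵐ z, z ∈ Ω → ∀ w, Qp m c w₁ z w = ∏ᶠ (p : ℂ) (_ : p ∈ A z), (1 - (w - w₁) / (p - w₁)) := by
  classical
  let x : ℂ → ℂ := fun p => (p - w₁)⁻¹
  -- the good points
  let G : ℂ → Prop := fun z => ∃ s : Finset ℂ, (s : Set ℂ) = A z ∧ ∀ k, 1 ≤ k → F k z = ∑ p ∈ s, x p ^ k
  have hG : ∀ᵐ z, z ∈ Ω → G z := by
    have h1 : ∀ᵐ z, ∀ k, 1 ≤ k → z ∈ Ω → F k z = ∑ᶠ (p : ℂ) (_ : p ∈ A z), ((p - w₁) ^ k)⁻¹ := by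
      rw [ae_all_iff]
      intro k
      by_cases hk : 1 ≤ k
      · filter_upwards [hFA k hk] with z hz _ hzΩ
        exact hz hzΩ
      · exact Eventually.of_forall fun z h => absurd h hk
    filter_upwards [hA, h1] with z hz1 hz2 hzΩ
    obtain ⟨hfin, -⟩ := hz1 hzΩ
    refine ⟨hfin.toFinset, hfin.coe_toFinset, fun k hk => ?_⟩
    rw [hz2 k hk hzΩ, finsum_mem_eq_finite_toFinset_sum _ hfin]
    refine Finset.sum_congr rfl fun p _ => ?_
    show ((p - w₁) ^ k)⁻¹ = ((p - w₁)⁻¹) ^ k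
    rw [inv_pow]
  -- the level sets
  let T : ℕ → Set ℂ := fun m => {z | z ∈ Ω ∧ ∃ s : Finset ℂ, (s : Set ℂ) = A z ∧
    (∀ k, 1 ≤ k → F k z = ∑ p ∈ s, x p ^ k) ∧ s.card ≤ m}
  have hTm : ∃ m, volume (T m) ≠ 0 := by
    by_contra hcon
    push Not at hcon
    have h1 : volume (⋃ m, T m) = 0 := measure_iUnion_null hcon
    have h2 : volume Ω = 0 := by
      have h3 : Ω ⊆ (⋃ m, T m) ∪ {z | ¬ (z ∈ Ω → G z)} := by
        intro z hz
        by_cases hg : G z
        · obtain ⟨s, hs1, hs2⟩ := hg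
          exact Or.inl (Set.mem_iUnion.2 ⟨s.card, hz, s, hs1, hs2, le_rfl⟩)
        · exact Or.inr fun h => hg (h hz)
      refine measure_mono_null h3 (measure_union_null h1 ?_)
      exact ae_iff.1 hG
    exact (hΩ.measure_pos volume hne).ne' h2
  obtain ⟨m, hm⟩ := hTm
  have hzero : ∀ j, m < j → ∀ z ∈ Ω, Newt_c F j z = 0 := by
    intro j hj
    refine Newt_ident hΩ hc (Newt_c_diff F hF j) (fun z hz => hz.1) hm ?_
    rintro z ⟨_, s, _, hs2, hs3⟩
    rw [Newt_c_eq F s x z hs2 j]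
    exact Polynomial.coeff_eq_zero_of_natDegree_lt (lt_of_le_of_lt ((Newt_natDegree s x).trans hs3) hj)
  refine ⟨m, Newt_c F, Newt_c_diff F hF, fun z _ => by rw [Newt_c], ?_⟩
  filter_upwards [hG] with z hz hzΩ w
  obtain ⟨s, hs1, hs2⟩ := hz hzΩ
  have hcoef : ∀ j, Newt_c F j z = (Newt_P s x).coeff j := Newt_c_eq F s x z hs2
  have hdeg : (Newt_P s x).natDegree ≤ m := by
    rw [Polynomial.natDegree_le_iff_coeff_eq_zero]
    intro j hj
    rw [← hcoef]
    exact hzero j hj z hzΩ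
  have h1 : (Newt_P s x).eval (w - w₁) = ∑ j ∈ Finset.range (m + 1), Newt_c F j z * (w - w₁) ^ j := by
    rw [Polynomial.eval_eq_sum_range' (Nat.lt_succ_of_le hdeg)]
    exact Finset.sum_congr rfl fun j _ => by rw [hcoef]
  have h2 : (Newt_P s x).eval (w - w₁) = ∏ p ∈ s, (1 - (w - w₁) / (p - w₁)) := by
    unfold Newt_P
    rw [Polynomial.eval_prod]
    refine Finset.prod_congr rfl fun p _ => ?_
    simp only [Polynomial.eval_sub, Polynomial.eval_one, Polynomial.eval_mul, Polynomial.eval_C, Polynomial.eval_X]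
    show 1 - (p - w₁)⁻¹ * (w - w₁) = _
    rw [div_eq_mul_inv, mul_comm (w - w₁)]
  unfold Qp
  rw [← h1, h2, ← hs1, finprod_mem_coe_finset]

end KQ
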