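import Pool.Agent.Lib_MP_3ea2ac_kq.SD

open MeasureTheory Complex Set Topology Filter
open scoped ComplexConjugate ContDiff ComplexOrder

namespace KQ

variable {S : Set ℂ} {D G : ℂ → ℝ} {a C : ℝ} {η : ℕ → ℂ → ℝ}

/-- the integral over a slice of a derivative of a test function vanishes -/
private theorem SD1_int_zero (sd : SliceData S D G a C η) {ψ : ℂ → ℝ} (hψ : ContDiff ℝ 1 ψ)
    (hc : HasCompactSupport ψ) (h1 : ∀ t, |ψ t| ≤ 1) (v : ℂ) :
    ∫ t in S, fderiv ℝ ψ t v = 0 := by
  have hdψ : Continuous (fun t => fderiv ℝ ψ t v) :=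
    (hψ.continuous_fderiv one_ne_zero).clm_apply continuous_const
  have hdc : HasCompactSupport (fun t => fderiv ℝ ψ t v) := by
    refine HasCompactSupport.of_support_subset_isCompact hc ?_
    intro t ht
    by_contra h
    apply ht
    have h2 : ψ =ᶠ[𝓝 t] 0 := notMem_tsupport_iff_eventuallyEq.1 h
    have h3 : fderiv ℝ ψ t = 0 := by
      rw [h2.fderiv_eq]
      simp
    show fderiv ℝ ψ t v = 0
    rw [h3]
    rfl
  have hi : Integrable (fun t => fderiv ℝ ψ t v) := hdψ.integrable_of_hasCompactSupport hdc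
  have L1 : Tendsto (fun k => ∫ t, η k t * fderiv ℝ ψ t v) atTop
      (𝓝 (∫ t in S, fderiv ℝ ψ t v)) := by
    rw [← integral_indicator sd.isOpen.measurableSet]
    refine tendsto_integral_of_dominated_convergence (fun t => ‖fderiv ℝ ψ t v‖) ?_ hi.norm ?_ ?_
    · intro k
      exact ((sd.ηsmooth k).continuous.mul hdψ).aestronglyMeasurable
    · intro k
      refine Eventually.of_forall fun t => ?_
      rw [norm_mul]
      refine mul_le_of_le_one_left (norm_nonneg _) ?_
      rw [Real.norm_eq_abs, abs_of_nonneg (sd.ηnonneg k t)]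
      exact sd.ηle_one k t
    · refine Eventually.of_forall fun t => ?_
      by_cases ht : t ∈ S
      · rw [indicator_of_mem ht]
        have h2 := sd.ηone {t} isCompact_singleton (singleton_subset_iff.2 ht)
        refine tendsto_const_nhds.congr' ?_
        filter_upwards [h2] with k hk
        rw [hk t rfl, one_mul]
      · rw [indicator_of_notMem ht]
        refine tendsto_const_nhds.congr' ?_
        refine Eventually.of_forall fun k => ?_
        have h2 : η k t = 0 := image_eq_zero_of_notMem_tsupport (fun h => ht (sd.ηsub k h))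
        show (0 : ℝ) = η k t * fderiv ℝ ψ t v
        rw [h2, zero_mul]
  have L2 : Tendsto (fun k => ∫ t, η k t * fderiv ℝ ψ t v) atTop (𝓝 0) := by
    have hM : Integrable (S.indicator (fun t => (1 + C * D t) * ‖v‖ * |ψ t|)) := by
      rw [integrable_indicator_iff sd.isOpen.measurableSet]
      have i1 : IntegrableOn (fun t => |ψ t|) S :=
        ((hψ.continuous.integrable_of_hasCompactSupport hc).abs).integrableOn
      have i2 : IntegrableOn (fun t => D t * |ψ t|) S := by
        refine Integrable.mono' sd.integrable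
          (sd.integrable.aestronglyMeasurable.mul
            hψ.continuous.abs.aestronglyMeasurable) ?_
        refine (ae_restrict_iff' sd.isOpen.measurableSet).2 (Eventually.of_forall fun t ht => ?_)
        rw [norm_mul, Real.norm_eq_abs, Real.norm_eq_abs, abs_abs, abs_of_pos (sd.Dpos t ht)]
        exact mul_le_of_le_one_right (sd.Dpos t ht).le (h1 t)
      have i3 := (i1.const_mul ‖v‖).add (i2.const_mul (C * ‖v‖))
      refine i3.congr (Eventually.of_forall fun t => ?_)
      simp only [Pi.add_apply]
      ring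
    have hb : ∀ k : ℕ, ‖∫ t, η k t * fderiv ℝ ψ t v‖ ≤
        (∫ t, S.indicator (fun t => (1 + C * D t) * ‖v‖ * |ψ t|) t) * (1 / ((k : ℝ) + 1)) := by
      intro k
      have hη1 : ContDiff ℝ 1 (η k) := (sd.ηsmooth k).of_le (by simp)
      have hdη : Continuous (fun t => fderiv ℝ (η k) t v) :=
        (hη1.continuous_fderiv one_ne_zero).clm_apply continuous_const
      have c1 : Integrable (fun t => fderiv ℝ (η k) t v * ψ t) :=
        (hdη.mul hψ.continuous).integrable_of_hasCompactSupport hc.mul_left
      have c2 : Integrable (fun t => η k t * fderiv ℝ ψ t v) :=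
        (hη1.continuous.mul hdψ).integrable_of_hasCompactSupport hdc.mul_left
      have c3 : Integrable (fun t => η k t * ψ t) :=
        (hη1.continuous.mul hψ.continuous).integrable_of_hasCompactSupport hc.mul_left
      have ibp := integral_mul_fderiv_eq_neg_fderiv_mul_of_integrable (μ := volume) c1 c2 c3
        (fun x _ => (hη1.differentiable one_ne_zero) x)
        (fun x _ => (hψ.differentiable one_ne_zero) x)
      rw [ibp, norm_neg, ← integral_mul_const]
      refine (norm_integral_le_integral_norm _).trans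
        (integral_mono c1.norm (hM.mul_const _) fun t => ?_)
      show ‖fderiv ℝ (η k) t v * ψ t‖ ≤
        S.indicator (fun t => (1 + C * D t) * ‖v‖ * |ψ t|) t * (1 / ((k : ℝ) + 1))
      have hk : (0 : ℝ) < (k : ℝ) + 1 := by positivity
      by_cases ht : t ∈ S
      · rw [indicator_of_mem ht, norm_mul, Real.norm_eq_abs, Real.norm_eq_abs]
        have hCD : 0 ≤ C * D t := mul_nonneg sd.C_nonneg (sd.Dpos t ht).le
        have e1 : |fderiv ℝ (η k) t v| ≤ (1 + C * D t) * ‖v‖ / ((k : ℝ) + 1) := by
          apply abs_le_of_sq_le_sq _ (by positivity)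
          refine (sd.ηgrad k t ht v).trans ?_
          rw [div_pow]
          apply div_le_div_of_nonneg_right _ (by positivity)
          rw [mul_pow]
          apply mul_le_mul_of_nonneg_right _ (by positivity)
          have := sd.GleD t ht
          nlinarith
        calc |fderiv ℝ (η k) t v| * |ψ t| ≤ (1 + C * D t) * ‖v‖ / ((k : ℝ) + 1) * |ψ t| :=
              mul_le_mul_of_nonneg_right e1 (abs_nonneg _)
          _ = (1 + C * D t) * ‖v‖ * |ψ t| * (1 / ((k : ℝ) + 1)) := by ring
      · rw [indicator_of_notMem ht]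
        have h2 : η k =ᶠ[𝓝 t] 0 :=
          notMem_tsupport_iff_eventuallyEq.1 (fun h => ht (sd.ηsub k h))
        have h3 : fderiv ℝ (η k) t = 0 := by
          rw [h2.fderiv_eq]
          simp
        rw [h3]
        simp
    refine squeeze_zero_norm hb ?_
    have := (tendsto_one_div_add_atTop_nhds_zero_nat (𝕜 := ℝ)).const_mul
      (∫ t, S.indicator (fun t => (1 + C * D t) * ‖v‖ * |ψ t|) t)
    simpa using this
  exact tendsto_nhds_unique L1 L2

/-- The complement of a slice is a null set. Proof: for a smooth `χ` of compact support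
`∫_S D_v χ = lim ∫ η_k D_v χ = - lim ∫ χ D_v η_k = 0`, since `|D_v η_k| ≤ √G/(k+1)` and
`√G` is integrable on bounded sets (`G ≤ C D`). So `y ↦ ∫_S χ(y - t) dt` is constant; for a bump
`χ` of small support it is one at a point of `S`, hence everywhere. -/
theorem SliceData.compl_null (sd : SliceData S D G a C η) : volume Sᶜ = 0 := by
  obtain ⟨x₀, hx₀⟩ := sd.nonempty
  obtain ⟨r, hr, hball⟩ := Metric.isOpen_iff.1 sd.isOpen x₀ hx₀
  let χ : ContDiffBump (0 : ℂ) := ⟨r / 4, r / 2, by positivity, by linarith⟩
  have hχ : ContDiff ℝ 1 (χ : ℂ → ℝ) := χ.contDiff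
  have hχc : HasCompactSupport (χ : ℂ → ℝ) := χ.hasCompactSupport
  set f : ℂ → ℝ := S.indicator (fun _ => (1 : ℝ)) with hf
  have hfl : LocallyIntegrable f volume :=
    (locallyIntegrable_const (1 : ℝ)).indicator sd.isOpen.measurableSet
  -- the convolution has derivative zero
  have hder : ∀ x : ℂ, HasFDerivAt
      (convolution f (χ : ℂ → ℝ) (ContinuousLinearMap.lsmul ℝ ℝ) volume) (0 : ℂ →L[ℝ] ℝ) x := by
    intro x
    have h1 := hχc.hasFDerivAt_convolution_right (ContinuousLinearMap.lsmul ℝ ℝ) hfl hχ x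
    suffices h0 : convolution f (fderiv ℝ (χ : ℂ → ℝ))
        (ContinuousLinearMap.precompR ℂ (ContinuousLinearMap.lsmul ℝ ℝ)) volume x = 0 by
      rw [h0] at h1
      exact h1
    have hcd : Continuous (fun t => fderiv ℝ (χ : ℂ → ℝ) (x - t)) :=
      (hχ.continuous_fderiv one_ne_zero).comp (continuous_const.sub continuous_id)
    have hcs : HasCompactSupport (fun t => fderiv ℝ (χ : ℂ → ℝ) (x - t)) := by
      have h2 : HasCompactSupport (fderiv ℝ (χ : ℂ → ℝ)) := hχc.fderiv (𝕜 := ℝ)
      exact h2.comp_homeomorph (Homeomorph.subLeft x)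
    have hint : Integrable (fun t => f t • fderiv ℝ (χ : ℂ → ℝ) (x - t)) := by
      have h3 : (fun t => f t • fderiv ℝ (χ : ℂ → ℝ) (x - t)) =
          S.indicator (fun t => fderiv ℝ (χ : ℂ → ℝ) (x - t)) := by
        funext t
        by_cases ht : t ∈ S
        · simp [hf, ht]
        · simp [hf, ht]
      rw [h3]
      exact (hcd.integrable_of_hasCompactSupport hcs).indicator sd.isOpen.measurableSet
    have h4 : convolution f (fderiv ℝ (χ : ℂ → ℝ))
        (ContinuousLinearMap.precompR ℂ (ContinuousLinearMap.lsmul ℝ ℝ)) volume x =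
        ∫ t, f t • fderiv ℝ (χ : ℂ → ℝ) (x - t) := by
      rw [convolution_def]
      rfl
    rw [h4]
    ext v
    · rw [ContinuousLinearMap.integral_apply hint]
      have hψ : ContDiff ℝ 1 (fun t => (χ : ℂ → ℝ) (x - t)) :=
        hχ.comp (contDiff_const.sub contDiff_id)
      have hψc : HasCompactSupport (fun t => (χ : ℂ → ℝ) (x - t)) :=
        hχc.comp_homeomorph (Homeomorph.subLeft x)
      have h5 := SD1_int_zero sd hψ hψc (fun t => by
        rw [abs_of_nonneg (χ.nonneg)]; exact χ.le_one) v
      have h6 : ∀ t, fderiv ℝ (fun t => (χ : ℂ → ℝ) (x - t)) t v =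
          -(fderiv ℝ (χ : ℂ → ℝ) (x - t) v) := by
        intro t
        have h7 : HasFDerivAt (fun t : ℂ => x - t) (-(ContinuousLinearMap.id ℝ ℂ)) t := by
          simpa using (hasFDerivAt_id (𝕜 := ℝ) t).const_sub x
        have h8 := ((hχ.differentiable one_ne_zero) (x - t)).hasFDerivAt.comp t h7
        have h9 : fderiv ℝ (fun t => (χ : ℂ → ℝ) (x - t)) t =
            (fderiv ℝ (χ : ℂ → ℝ) (x - t)).comp (-(ContinuousLinearMap.id ℝ ℂ)) := h8.fderiv
        rw [h9]
        simp
      have h10 : ∫ t, (f t • fderiv ℝ (χ : ℂ → ℝ) (x - t)) v =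
          ∫ t in S, fderiv ℝ (χ : ℂ → ℝ) (x - t) v := by
        rw [← integral_indicator sd.isOpen.measurableSet]
        refine integral_congr_ae (Eventually.of_forall fun t => ?_)
        by_cases ht : t ∈ S
        · simp [hf, ht]
        · simp [hf, ht]
      rw [h10]
      simp only [h6, integral_neg, neg_eq_zero] at h5
      rw [h5]
      rfl
  have hconst : ∀ x y, convolution f (χ : ℂ → ℝ) (ContinuousLinearMap.lsmul ℝ ℝ) volume x =
      convolution f (χ : ℂ → ℝ) (ContinuousLinearMap.lsmul ℝ ℝ) volume y :=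
    is_const_of_fderiv_eq_zero (fun x => (hder x).differentiableAt) fun x => (hder x).fderiv
  have hcv : ∀ y, convolution f (χ : ℂ → ℝ) (ContinuousLinearMap.lsmul ℝ ℝ) volume y =
      ∫ t in S, (χ : ℂ → ℝ) (y - t) := by
    intro y
    rw [convolution_def, ← integral_indicator sd.isOpen.measurableSet]
    refine integral_congr_ae (Eventually.of_forall fun t => ?_)
    by_cases ht : t ∈ S
    · simp [hf, ht]
    · simp [hf, ht]
  have hiy : ∀ y : ℂ, Integrable (fun t => (χ : ℂ → ℝ) (y - t)) := fun y =>
    (hχ.continuous.comp (continuous_const.sub continuous_id)).integrable_of_hasCompactSupport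
      (hχc.comp_homeomorph (Homeomorph.subLeft y))
  have htot : ∀ y : ℂ, ∫ t, (χ : ℂ → ℝ) (y - t) = ∫ t, (χ : ℂ → ℝ) t := fun y =>
    integral_sub_left_eq_self (χ : ℂ → ℝ) volume y
  have hx : ∫ t in Sᶜ, (χ : ℂ → ℝ) (x₀ - t) = 0 := by
    refine setIntegral_eq_zero_of_forall_eq_zero fun t ht => ?_
    apply χ.zero_of_le_dist
    show r / 2 ≤ dist (x₀ - t) 0
    by_contra hcon
    push Not at hcon
    apply ht
    apply hball
    rw [Metric.mem_ball, dist_comm, dist_eq_norm]
    rw [dist_zero_right] at hcon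
    linarith
  have hall : ∀ y : ℂ, ∫ t in Sᶜ, (χ : ℂ → ℝ) (y - t) = 0 := by
    intro y
    have e1 := integral_add_compl sd.isOpen.measurableSet (hiy y)
    have e2 := integral_add_compl sd.isOpen.measurableSet (hiy x₀)
    rw [htot] at e1 e2
    have e3 := hconst x₀ y
    rw [hcv, hcv] at e3
    linarith
  refine measure_null_of_locally_null _ fun y hy => ?_
  refine ⟨Sᶜ ∩ Metric.ball y (r / 2), ?_, ?_⟩
  · exact inter_mem_nhdsWithin _ (Metric.ball_mem_nhds y (by positivity))
  · have h1 := (setIntegral_eq_zero_iff_of_nonneg_ae (μ := volume) (s := Sᶜ)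
      (f := fun t => (χ : ℂ → ℝ) (y - t))
      (Eventually.of_forall fun t => χ.nonneg) (hiy y).integrableOn).1 (hall y)
    have h2 : ∀ᵐ t ∂(volume.restrict Sᶜ), t ∉ Metric.ball y (r / 2) := by
      filter_upwards [h1] with t ht hm
      have h3 : 0 < (χ : ℂ → ℝ) (y - t) := by
        apply χ.pos_of_mem_ball
        show y - t ∈ Metric.ball (0 : ℂ) (r / 2)
        rw [Metric.mem_ball, dist_zero_right, ← dist_eq_norm, dist_comm]
        exact hm
      exact h3.ne' ht
    have h4 : volume.restrict Sᶜ (Metric.ball y (r / 2)) = 0 := by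
      rw [ae_iff] at h2
      have h5 : {t | ¬ t ∉ Metric.ball y (r / 2)} = Metric.ball y (r / 2) := by
        ext t
        exact not_not
      rw [h5] at h2
      exact h2
    rw [Measure.restrict_apply Metric.isOpen_ball.measurableSet] at h4
    rwa [inter_comm]

end KQ
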