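import Pool.Agent.Lib_MP_3ea2ac_kq.SD
import Pool.Agent.Lib_MP_3ea2ac_kq.Core

open MeasureTheory Complex Set Topology Filter
open scoped ComplexConjugate ContDiff ComplexOrder

namespace KQ

variable {S : Set ℂ} {D G : ℂ → ℝ} {a C : ℝ} {η : ℕ → ℂ → ℝ}

private theorem SD2_lev_sub (hS : IsOpen S) {u v f : ℂ → ℝ} (hu : ContDiffOn ℝ ∞ u S)
    (hv : ContDiffOn ℝ ∞ v S) (hf : ∀ x ∈ S, f x = u x - v x) {w : ℂ} (hw : w ∈ S) :
    lev f w = lev u w - lev v w := by
  have hcu : ContDiffOn ℝ ∞ (fun x => ((u x : ℝ) : ℂ)) S := ofRealCLM.contDiff.comp_contDiffOn hu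
  have hcv : ContDiffOn ℝ ∞ (fun x => ((v x : ℝ) : ℂ)) S := ofRealCLM.contDiff.comp_contDiffOn hv
  have hdu : ∀ x ∈ S, DifferentiableAt ℝ (fun x => ((u x : ℝ) : ℂ)) x := fun x hx =>
    (hcu.contDiffAt (hS.mem_nhds hx)).differentiableAt (by norm_num)
  have hdv : ∀ x ∈ S, DifferentiableAt ℝ (fun x => ((v x : ℝ) : ℂ)) x := fun x hx =>
    (hcv.contDiffAt (hS.mem_nhds hx)).differentiableAt (by norm_num)
  have hbu : DifferentiableAt ℝ (dwb (fun x => ((u x : ℝ) : ℂ))) w :=
    ((contDiffOn_wdb hS hcu).contDiffAt (hS.mem_nhds hw)).differentiableAt (by norm_num)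
  have hbv : DifferentiableAt ℝ (dwb (fun x => ((v x : ℝ) : ℂ))) w :=
    ((contDiffOn_wdb hS hcv).contDiffAt (hS.mem_nhds hw)).differentiableAt (by norm_num)
  have h1 : dwb (fun x => ((f x : ℝ) : ℂ)) =ᶠ[𝓝 w]
      fun x => dwb (fun x => ((u x : ℝ) : ℂ)) x - dwb (fun x => ((v x : ℝ) : ℂ)) x := by
    filter_upwards [hS.mem_nhds hw] with x hx
    have h2 : (fun x => ((f x : ℝ) : ℂ)) =ᶠ[𝓝 x] fun x => ((u x : ℝ) : ℂ) - ((v x : ℝ) : ℂ) := by
      filter_upwards [hS.mem_nhds hx] with y hy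
      rw [hf y hy]; push_cast; ring
    exact (wdb_congr h2).trans (wdb_sub (hdu x hx) (hdv x hx))
  unfold lev
  have h3 : dw (dwb (fun x => ((f x : ℝ) : ℂ))) w =
      dw (dwb (fun x => ((u x : ℝ) : ℂ))) w - dw (dwb (fun x => ((v x : ℝ) : ℂ))) w :=
    (wd_congr h1).trans (wd_sub hbu hbv)
  rw [h3, sub_re]

private theorem SD2_hasDerivAt (t : ℝ) :
    HasDerivAt (fun t : ℝ => (max t 0) ^ 2) (2 * max t 0) t := by
  rcases lt_trichotomy t 0 with h | h | h
  · have h1 : (fun t : ℝ => (max t 0) ^ 2) =ᶠ[𝓝 t] fun _ => 0 := by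
      filter_upwards [gt_mem_nhds h] with y hy
      rw [max_eq_right hy.le]; norm_num
    rw [max_eq_right h.le, mul_zero]
    exact (hasDerivAt_const t (0 : ℝ)).congr_of_eventuallyEq h1
  · subst h
    rw [max_self, mul_zero]
    rw [hasDerivAt_iff_isLittleO_nhds_zero]
    have h2 : (fun h : ℝ => h ^ 2) =o[𝓝 0] fun h : ℝ => h := by
      have := (Asymptotics.isLittleO_pow_pow (𝕜 := ℝ) (m := 1) (n := 2) (by norm_num))
      simpa using this
    refine Asymptotics.IsBigO.trans_isLittleO ?_ h2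
    refine Asymptotics.IsBigO.of_bound 1 (Eventually.of_forall fun y => ?_)
    simp only [zero_add, max_self, smul_zero, sub_zero, one_mul, Real.norm_eq_abs]
    have e1 : |(max y 0) ^ 2 - (0 : ℝ) ^ 2| = (max y 0) ^ 2 := by
      rw [zero_pow two_ne_zero, sub_zero, abs_of_nonneg (sq_nonneg _)]
    have e2 : |y ^ 2| = y ^ 2 := abs_of_nonneg (sq_nonneg y)
    rw [e1, e2]
    rcases le_total y 0 with hy | hy
    · rw [max_eq_right hy]; nlinarith [sq_nonneg y]
    · rw [max_eq_left hy]
  · have h1 : (fun t : ℝ => (max t 0) ^ 2) =ᶠ[𝓝 t] fun t => t ^ 2 := by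
      filter_upwards [lt_mem_nhds h] with y hy
      rw [max_eq_left (le_of_lt hy)]
    rw [max_eq_left h.le]
    have := (hasDerivAt_pow 2 t)
    refine HasDerivAt.congr_of_eventuallyEq ?_ h1
    simpa using this

private theorem SD2_contDiff : ContDiff ℝ 1 (fun t : ℝ => (max t 0) ^ 2) := by
  rw [contDiff_one_iff_deriv]
  refine ⟨fun t => (SD2_hasDerivAt t).differentiableAt, ?_⟩
  have h : deriv (fun t : ℝ => (max t 0) ^ 2) = fun t => 2 * max t 0 := by
    funext t
    exact (SD2_hasDerivAt t).deriv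
  rw [h]
  fun_prop

private theorem SD2_alg {e P F e1 e2 v1 v2 : ℝ} (hP : 0 ≤ P) (hPF : P ≤ F) :
    -(((6 * e ^ 5 * e1 * P ^ 2 + e ^ 6 * (2 * P * (F * v1))) * v1 +
      (6 * e ^ 5 * e2 * P ^ 2 + e ^ 6 * (2 * P * (F * v2))) * v2) / 4) ≤
      9 / 8 * (e ^ 4 * P ^ 2) * (e1 ^ 2 + e2 ^ 2) := by
  have h1 : 0 ≤ e ^ 6 * P * (F - P) * (v1 ^ 2 + v2 ^ 2) := by
    have : 0 ≤ F - P := by linarith
    positivity
  have h2 : 0 ≤ e ^ 4 * P ^ 2 * ((2 * e * v1 + 3 * e1) ^ 2 + (2 * e * v2 + 3 * e2) ^ 2) := by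
    positivity
  nlinarith [h1, h2]

private theorem SD2_integrable {X : Type*} [NormedAddCommGroup X] {f : ℂ → X} {K : Set ℂ}
    (hK : IsCompact K) (hf : ContinuousOn f K) (h0 : ∀ x, x ∉ K → f x = 0) : Integrable f :=
  (hf.integrableOn_compact hK).integrable_of_forall_notMem_eq_zero h0

/-- Integral Schwarz lemma on a slice. `F = ρ_{pq}/D`, `v = log F`,
`lev v ≥ κρ - aG ≥ κ D (F - a')`, `a' = aC/κ`, `κ = s²/64`; test with `η⁶ (F-a')₊²`, apply `core`. -/
theorem SliceData.schwarz (sd : SliceData S D G a C η) {p q : ℂ} (hp : p ∉ S) (hq : q ∉ S)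
    (hpq : p ≠ q) {s : ℝ} (hs : 0 < s) (hs' : s ≤ 1 / 5) {w : ℂ} (hw : w ∈ S) :
    s ^ 2 / 64 * rhoPQ p q s w ≤ a * C * D w := by
  have hS := sd.isOpen
  set κ : ℝ := s ^ 2 / 64 with hκ
  have hκ0 : 0 < κ := by rw [hκ]; positivity
  set ρ : ℂ → ℝ := rhoPQ p q s with hρ
  have hSp : ∀ x ∈ S, x ≠ p ∧ x ≠ q := fun x hx =>
    ⟨fun h => hp (h ▸ hx), fun h => hq (h ▸ hx)⟩
  have hSsub : S ⊆ ({p, q}ᶜ : Set ℂ) := by
    intro x hx
    simp only [mem_compl_iff, mem_insert_iff, mem_singleton_iff, not_or]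
    exact hSp x hx
  have hρpos : ∀ x ∈ S, 0 < ρ x := fun x hx => rhoPQ_pos hpq (hSp x hx).1 (hSp x hx).2
  have hρs : ContDiffOn ℝ ∞ ρ S := (rhoPQ_smooth hpq).mono hSsub
  have hDs := sd.Dsmooth
  have hDpos := sd.Dpos
  set F : ℂ → ℝ := fun x => ρ x / D x with hF
  have hFs : ContDiffOn ℝ ∞ F S := hρs.div hDs fun x hx => (hDpos x hx).ne'
  have hFpos : ∀ x ∈ S, 0 < F x := fun x hx => div_pos (hρpos x hx) (hDpos x hx)
  set v : ℂ → ℝ := fun x => Real.log (F x) with hv
  have hvs : ContDiffOn ℝ ∞ v S := hFs.log fun x hx => (hFpos x hx).ne'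
  set a' : ℝ := a * C / κ with ha'
  have ha'0 : 0 ≤ a' := by
    have := sd.a_nonneg
    have := sd.C_nonneg
    rw [ha']; positivity
  -- the differential inequality
  have hlev : ∀ x ∈ S, κ * (D x * (F x - a')) ≤ lev v x := by
    intro x hx
    have h1 : lev v x = lev (fun x => Real.log (ρ x)) x - lev (fun x => Real.log (D x)) x := by
      apply SD2_lev_sub hS (hρs.log fun x hx => (hρpos x hx).ne')
        (hDs.log fun x hx => (hDpos x hx).ne') _ hx
      intro y hy
      simp only [hv, hF]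
      rw [Real.log_div (hρpos y hy).ne' (hDpos y hy).ne']
    have h2 := rhoPQ_curv hpq hs hs' (hSp x hx).1 (hSp x hx).2
    have h3 := sd.lev_le x hx
    have h4 := sd.GleD x hx
    have h5 : a * G x ≤ a * (C * D x) := mul_le_mul_of_nonneg_left h4 sd.a_nonneg
    have h6 : κ * (D x * (F x - a')) = κ * ρ x - a * C * D x := by
      simp only [hF, ha']
      have := (hDpos x hx).ne'
      field_simp
    rw [h6, h1]
    have h7 : κ * ρ x ≤ lev (fun x => Real.log (ρ x)) x := h2
    linarith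
  have hP0 : ∀ x, 0 ≤ max (F x - a') 0 := fun x => le_max_right _ _
  have key : ∀ x ∈ S, F x ≤ a' := by
    apply core (volume : Measure ℂ) hS hFs.continuousOn hDs.continuousOn hDpos sd.integrable
      (fun k => (sd.ηsmooth k).continuous) sd.ηcpt sd.ηsub sd.ηnonneg sd.ηle_one sd.ηone hκ0
      (C := 9 / 4 * C) (by have := sd.C_nonneg; positivity)
    intro k
    set e : ℂ → ℝ := η k with he
    have hes0 : ∀ x, x ∉ tsupport e → e x = 0 := fun x hx => image_eq_zero_of_notMem_tsupport hx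
    have hes : ContDiff ℝ ∞ e := sd.ηsmooth k
    have hK : IsCompact (tsupport e) := sd.ηcpt k
    have hKS : tsupport e ⊆ S := sd.ηsub k
    set φ : ℂ → ℝ := fun x => e x ^ 6 * (max (F x - a') 0) ^ 2 with hφ
    have hFd : ∀ x ∈ S, DifferentiableAt ℝ F x := fun x hx =>
      (hFs.contDiffAt (hS.mem_nhds hx)).differentiableAt (by norm_num)
    have hvd : ∀ x ∈ S, DifferentiableAt ℝ v x := fun x hx =>
      (hvs.contDiffAt (hS.mem_nhds hx)).differentiableAt (by norm_num)
    have hed : ∀ x, DifferentiableAt ℝ e x := fun x =>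
      (hes.contDiffAt (x := x)).differentiableAt (by norm_num)
    have hφ0 : ∀ x, x ∉ tsupport e → φ =ᶠ[𝓝 x] fun _ => 0 := by
      intro x hx
      have h1 : e =ᶠ[𝓝 x] 0 := notMem_tsupport_iff_eventuallyEq.1 hx
      filter_upwards [h1] with y hy
      simp only [hφ, hy]
      simp
    have hφs : ContDiff ℝ 1 φ := by
      rw [contDiff_iff_contDiffAt]
      intro x
      by_cases hx : x ∈ S
      · have h1 : ContDiffAt ℝ 1 e x := (hes.contDiffAt (x := x)).of_le (by exact_mod_cast le_top)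
        have h2 : ContDiffAt ℝ 1 F x := (hFs.contDiffAt (hS.mem_nhds hx)).of_le (by exact_mod_cast le_top)
        have h3 : ContDiffAt ℝ 1 (fun x => F x - a') x := h2.sub contDiffAt_const
        have h4 : ContDiffAt ℝ 1 (fun x => (max (F x - a') 0) ^ 2) x :=
          ContDiffAt.comp (g := fun t : ℝ => (max t 0) ^ 2) (f := fun x => F x - a') x
            SD2_contDiff.contDiffAt h3
        exact (h1.pow 6).mul h4
      · have hx' : x ∉ tsupport e := fun h => hx (hKS h)
        exact contDiffAt_const.congr_of_eventuallyEq (hφ0 x hx')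
    have hφts : tsupport φ ⊆ tsupport e := by
      intro x hx
      by_contra h
      exact (notMem_tsupport_iff_eventuallyEq.2 (hφ0 x h)) hx
    have hφc : HasCompactSupport φ := hK.of_isClosed_subset (isClosed_tsupport _) hφts
    -- complex versions
    set φc : ℂ → ℂ := fun x => ((φ x : ℝ) : ℂ) with hφc'
    set vc : ℂ → ℂ := fun x => ((v x : ℝ) : ℂ) with hvc
    have hφcs : ContDiff ℝ 1 φc := ofRealCLM.contDiff.comp hφs
    have hφcc : HasCompactSupport φc := hφc.comp_left (g := fun x : ℝ => (x : ℂ)) ofReal_zero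
    have hφct : tsupport φc ⊆ tsupport e :=
      (closure_mono (fun x hx => by
        simp only [hφc', Function.mem_support, ne_eq, ofReal_eq_zero] at hx
        exact hx)).trans hφts
    have hvcs : ContDiffOn ℝ ∞ vc S := ofRealCLM.contDiff.comp_contDiffOn hvs
    have hdv : ContDiffOn ℝ ∞ (dwb vc) S := contDiffOn_wdb hS hvcs
    have hddv : ContDiffOn ℝ ∞ (dw (dwb vc)) S := contDiffOn_wd hS hdv
    have hibp := ibp_wd (e := (1 : ℂ)) (e' := I) (volume : Measure ℂ) hS hφcs hφcc
      (hφct.trans hKS) (hdv.of_le (by exact_mod_cast le_top))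
    have hdφ0 : ∀ x, x ∉ tsupport e → dw φc x = 0 := by
      intro x hx
      have h1 : φc =ᶠ[𝓝 x] fun _ => 0 := by
        filter_upwards [hφ0 x hx] with y hy
        simp only [hφc', hy, ofReal_zero]
      rw [dw, wd_congr h1, wd_const]
    have hdφcont : Continuous (dw φc) := by
      have h1 : Continuous (fderiv ℝ φc) := hφcs.continuous_fderiv (by norm_num)
      show Continuous fun x => wd (1 : ℂ) I φc x
      simp only [wd]
      fun_prop
    -- integrability
    have hi1 : Integrable (fun x => φc x * dw (dwb vc) x) := by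
      apply SD2_integrable hK
      · exact (hφcs.continuous.continuousOn).mul (hddv.continuousOn.mono hKS)
      · intro x hx
        have h1 : φ x = 0 := (hφ0 x hx).self_of_nhds
        simp only [hφc', h1, ofReal_zero, zero_mul]
    have hi2 : Integrable (fun x => dw φc x * dwb vc x) := by
      apply SD2_integrable hK
      · exact hdφcont.continuousOn.mul (hdv.continuousOn.mono hKS)
      · intro x hx
        rw [hdφ0 x hx, zero_mul]
    have hPc : ContinuousOn (fun x => max (F x - a') 0) S :=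
      (hFs.continuousOn.sub continuousOn_const).sup continuousOn_const
    have hec : Continuous e := hes.continuous
    have hi3 : Integrable (fun x => e x ^ 6 * (max (F x - a') 0) ^ 3 * D x) := by
      apply SD2_integrable hK
      · exact (((hec.pow 6).continuousOn).mul ((hPc.mono hKS).pow 3)).mul (hDs.continuousOn.mono hKS)
      · intro x hx
        rw [hes0 x hx]; ring
    have hi4 : Integrable (fun x => e x ^ 4 * (max (F x - a') 0) ^ 2 * D x) := by
      apply SD2_integrable hK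
      · exact (((hec.pow 4).continuousOn).mul ((hPc.mono hKS).pow 2)).mul (hDs.continuousOn.mono hKS)
      · intro x hx
        rw [hes0 x hx]; ring
    have hi1r : Integrable (fun x => (φc x * dw (dwb vc) x).re) := hi1.re
    have hi2r : Integrable (fun x => (dw φc x * dwb vc x).re) := hi2.re
    have hre : ∫ x, (φc x * dw (dwb vc) x).re = - ∫ x, (dw φc x * dwb vc x).re := by
      have h1 : ∫ x, (φc x * dw (dwb vc) x).re = (∫ x, φc x * dw (dwb vc) x).re := integral_re hi1
      have h2 : ∫ x, (dw φc x * dwb vc x).re = (∫ x, dw φc x * dwb vc x).re := integral_re hi2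
      rw [h1, h2, hibp, neg_re]
    -- lower bound
    have hlow : κ * ∫ x, e x ^ 6 * (max (F x - a') 0) ^ 3 * D x ≤ ∫ x, (φc x * dw (dwb vc) x).re := by
      rw [← integral_const_mul]
      apply integral_mono (hi3.const_mul κ) hi1r
      intro x
      by_cases hx : x ∈ S
      · simp only [hφc', re_ofReal_mul]
        have h1 : lev v x = (dw (dwb vc) x).re := rfl
        rw [← h1]
        have h2 := hlev x hx
        have h3 : 0 ≤ φ x := by simp only [hφ]; have := sd.ηnonneg k x; positivity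
        have h4 : κ * (e x ^ 6 * (max (F x - a') 0) ^ 3 * D x) = φ x * (κ * (D x * (F x - a'))) := by
          simp only [hφ]
          rcases le_total (F x - a') 0 with h | h
          · rw [max_eq_right h]; ring
          · rw [max_eq_left h]; ring
        rw [h4]
        exact mul_le_mul_of_nonneg_left h2 h3
      · have hx' : x ∉ tsupport e := fun h => hx (hKS h)
        have h1 : φ x = 0 := (hφ0 x hx').self_of_nhds
        have h2 : e x = 0 := hes0 x hx'
        simp only [hφc', h1, h2, ofReal_zero, zero_mul, zero_re]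
        simp
    have hup : - ∫ x, (dw φc x * dwb vc x).re ≤
        9 / 4 * C / ((k : ℝ) + 1) ^ 2 * ∫ x, e x ^ 4 * (max (F x - a') 0) ^ 2 * D x := by
      rw [← integral_neg, ← integral_const_mul]
      apply integral_mono hi2r.neg (hi4.const_mul _)
      intro x
      show -(dw φc x * dwb vc x).re ≤ _
      by_cases hx : x ∈ S
      · have h1 : dw φc x = ((fderiv ℝ φ x 1 : ℝ) - I * (fderiv ℝ φ x I : ℝ)) / 2 :=
          wd_ofReal (hφs.differentiable (by norm_num) x)
        have h2 : dwb vc x = ((fderiv ℝ v x 1 : ℝ) + I * (fderiv ℝ v x I : ℝ)) / 2 :=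
          wdb_ofReal (hvd x hx)
        have h3 : (dw φc x * dwb vc x).re =
            (fderiv ℝ φ x 1 * fderiv ℝ v x 1 + fderiv ℝ φ x I * fderiv ℝ v x I) / 4 := by
          rw [h1, h2]
          have : ((fderiv ℝ φ x 1 : ℝ) - I * (fderiv ℝ φ x I : ℝ)) / 2 *
              (((fderiv ℝ v x 1 : ℝ) + I * (fderiv ℝ v x I : ℝ)) / 2) =
              (((fderiv ℝ φ x 1 * fderiv ℝ v x 1 + fderiv ℝ φ x I * fderiv ℝ v x I) / 4 : ℝ) : ℂ) +
              (((fderiv ℝ φ x 1 * fderiv ℝ v x I - fderiv ℝ φ x I * fderiv ℝ v x 1) / 4 : ℝ) : ℂ) * I := by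
            push_cast
            linear_combination (-(fderiv ℝ φ x I : ℂ) * (fderiv ℝ v x I : ℂ) / 4) * I_sq
          rw [this, add_re, ofReal_re, re_ofReal_mul, I_re, mul_zero, add_zero]
        have h4 : ∀ u : ℂ, fderiv ℝ v x u = (F x)⁻¹ * fderiv ℝ F x u := by
          intro u
          have := (hFd x hx).hasFDerivAt.log (hFpos x hx).ne'
          rw [show v = fun x => Real.log (F x) from rfl, this.fderiv]
          simp
        have h4' : ∀ u : ℂ, fderiv ℝ F x u = F x * fderiv ℝ v x u := by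
          intro u
          rw [h4 u, ← mul_assoc, mul_inv_cancel₀ (hFpos x hx).ne', one_mul]
        have h5 : ∀ u : ℂ, fderiv ℝ φ x u = 6 * e x ^ 5 * fderiv ℝ e x u * (max (F x - a') 0) ^ 2 +
            e x ^ 6 * (2 * max (F x - a') 0 * (F x * fderiv ℝ v x u)) := by
          intro u
          have hd1 : HasFDerivAt e (fderiv ℝ e x) x := (hed x).hasFDerivAt
          have hd2 : HasFDerivAt (fun x => F x - a') (fderiv ℝ F x) x :=
            (hFd x hx).hasFDerivAt.sub_const a'
          have hd3 : HasFDerivAt (fun x => (max (F x - a') 0) ^ 2)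
              ((2 * max (F x - a') 0) • fderiv ℝ F x) x :=
            HasDerivAt.comp_hasFDerivAt (h₂ := fun t : ℝ => (max t 0) ^ 2) x
              (SD2_hasDerivAt (F x - a')) hd2
          have hd4 := (hd1.pow 6).mul hd3
          have hd5 : HasFDerivAt φ _ x := hd4
          rw [hd5.fderiv]
          simp only [add_apply, smul_apply, smul_eq_mul]
          rw [h4' u]
          push_cast
          ring
        have hF1 : max (F x - a') 0 ≤ F x := max_le (by linarith) (hFpos x hx).le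
        have h6 := SD2_alg (e := e x) (P := max (F x - a') 0) (F := F x) (e1 := fderiv ℝ e x 1)
          (e2 := fderiv ℝ e x I) (v1 := fderiv ℝ v x 1) (v2 := fderiv ℝ v x I) (hP0 x) hF1
        rw [h3, h5 1, h5 I]
        refine h6.trans ?_
        have h7 := sd.ηgrad k x hx 1
        have h8 := sd.ηgrad k x hx I
        rw [norm_one, one_pow, mul_one] at h7
        rw [norm_I, one_pow, mul_one] at h8
        have h9 := sd.GleD x hx
        have hk : (0 : ℝ) < ((k : ℝ) + 1) ^ 2 := by positivity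
        have h10 : (fderiv ℝ e x 1) ^ 2 + (fderiv ℝ e x I) ^ 2 ≤ 2 * (C * D x / ((k : ℝ) + 1) ^ 2) := by
          have : G x / ((k : ℝ) + 1) ^ 2 ≤ C * D x / ((k : ℝ) + 1) ^ 2 := by gcongr
          linarith
        calc 9 / 8 * (e x ^ 4 * (max (F x - a') 0) ^ 2) * ((fderiv ℝ e x 1) ^ 2 + (fderiv ℝ e x I) ^ 2)
            ≤ 9 / 8 * (e x ^ 4 * (max (F x - a') 0) ^ 2) * (2 * (C * D x / ((k : ℝ) + 1) ^ 2)) := by
              gcongr
          _ = 9 / 4 * C / ((k : ℝ) + 1) ^ 2 * (e x ^ 4 * (max (F x - a') 0) ^ 2 * D x) := by ring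
      · have hx' : x ∉ tsupport e := fun h => hx (hKS h)
        have h2 : e x = 0 := hes0 x hx'
        show -(dw φc x * dwb vc x).re ≤
          9 / 4 * C / ((k : ℝ) + 1) ^ 2 * (e x ^ 4 * (max (F x - a') 0) ^ 2 * D x)
        rw [hdφ0 x hx', zero_mul, zero_re, neg_zero, h2]
        simp
    have hz1 : ∫ x in S, e x ^ 6 * (max (F x - a') 0) ^ 3 * D x =
        ∫ x, e x ^ 6 * (max (F x - a') 0) ^ 3 * D x := by
      apply setIntegral_eq_integral_of_forall_compl_eq_zero
      intro x hx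
      rw [hes0 x (fun h => hx (hKS h))]; ring
    have hz2 : ∫ x in S, e x ^ 4 * (max (F x - a') 0) ^ 2 * D x =
        ∫ x, e x ^ 4 * (max (F x - a') 0) ^ 2 * D x := by
      apply setIntegral_eq_integral_of_forall_compl_eq_zero
      intro x hx
      rw [hes0 x (fun h => hx (hKS h))]; ring
    rw [hz1, hz2]
    calc κ * ∫ x, e x ^ 6 * (max (F x - a') 0) ^ 3 * D x ≤ ∫ x, (φc x * dw (dwb vc) x).re := hlow
      _ = - ∫ x, (dw φc x * dwb vc x).re := hre
      _ ≤ _ := hup
  have h1 := key w hw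
  have h2 : F w ≤ a * C / κ := h1
  rw [le_div_iff₀ hκ0] at h2
  simp only [hF] at h2
  rw [div_mul_eq_mul_div, div_le_iff₀ (hDpos w hw)] at h2
  linarith

end KQ
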