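import Pool.Agent.Lib_MP_3ea2ac_kq.SD1
import Pool.Agent.Lib_MP_3ea2ac_kq.SD2

open MeasureTheory Complex Set Topology Filter
open scoped ComplexConjugate ContDiff ComplexOrder

namespace KQ

variable {S : Set ℂ} {D G : ℂ → ℝ} {a C : ℝ} {η : ℕ → ℂ → ℝ}

/-- The mass of a ball around a point of the complement. -/
private theorem SD3_ball (sd : SliceData S D G a C η) {p q : ℂ} (hp : p ∉ S) (hq : q ∉ S)
    (hpq : p ≠ q) :
    Real.pi / 6400 ≤ ∫ w in S ∩ Metric.ball p (‖q - p‖ / 2), a * C * D w := by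
  have hd : 0 < ‖q - p‖ := norm_pos_iff.2 (sub_ne_zero.2 hpq.symm)
  have hSm : MeasurableSet S := sd.isOpen.measurableSet
  have hvol : volume.real (S ∩ Metric.ball p (‖q - p‖ / 2)) = Real.pi * (‖q - p‖ / 2) ^ 2 := by
    have h1 : volume (S ∩ Metric.ball p (‖q - p‖ / 2)) = volume (Metric.ball p (‖q - p‖ / 2)) := by
      apply measure_congr
      have h2 : (S : Set ℂ) =ᵐ[volume] (univ : Set ℂ) := by
        rw [ae_eq_univ]; exact sd.compl_null
      have := h2.inter (ae_eq_refl (Metric.ball p (‖q - p‖ / 2) : Set ℂ))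
      simpa using this
    rw [measureReal_def, h1, Complex.volume_ball]
    rw [ENNReal.toReal_mul, ENNReal.toReal_pow, ENNReal.toReal_ofReal (by positivity)]
    rw [ENNReal.coe_toReal, NNReal.coe_real_pi]
    ring
  have hfin : volume (S ∩ Metric.ball p (‖q - p‖ / 2)) ≠ ⊤ :=
    ((measure_mono inter_subset_right).trans_lt measure_ball_lt_top).ne
  have hlow : ∀ w ∈ S ∩ Metric.ball p (‖q - p‖ / 2), 1 / 1600 * (1 / ‖q - p‖ ^ 2) ≤ a * C * D w := by
    intro w hw
    have hwp : w ≠ p := fun h => hp (h ▸ hw.1)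
    have h1 := sd.schwarz hp hq hpq (s := 1 / 5) (by norm_num) le_rfl hw.1
    have h2 : ‖w - p‖ ≤ ‖q - p‖ / 2 := by
      have := hw.2
      rw [Metric.mem_ball, dist_eq_norm] at this
      exact this.le
    have h3 := rhoPQ_near hpq (s := 1 / 5) (by norm_num) le_rfl hwp h2
    have h4 : ((1 : ℝ) / 5) ^ 2 / 64 = 1 / 1600 := by norm_num
    rw [h4] at h1
    linarith
  have hintS : IntegrableOn (fun w => a * C * D w) S := sd.integrable.const_mul (a * C)
  have hint : IntegrableOn (fun w => a * C * D w) (S ∩ Metric.ball p (‖q - p‖ / 2)) :=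
    hintS.mono_set inter_subset_left
  have h5 : ∫ w in S ∩ Metric.ball p (‖q - p‖ / 2), (1 / 1600 * (1 / ‖q - p‖ ^ 2) : ℝ) ≤
      ∫ w in S ∩ Metric.ball p (‖q - p‖ / 2), a * C * D w := by
    apply setIntegral_mono_on _ hint (hSm.inter measurableSet_ball) hlow
    exact integrableOn_const hfin
  refine le_trans ?_ h5
  rw [setIntegral_const, hvol, smul_eq_mul]
  apply le_of_eq
  field_simp
  norm_num

/-- The complement of a slice is finite. For `m ≥ 2` points `p_i ∉ S` take `q_i` the nearest other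
point of the list, `d_i = |p_i - q_i|`: the balls `B(p_i, d_i/2)` are disjoint, and on
`B(p_i,d_i/2) ∖ {p_i}` one has `D ≥ c ρ_{p_i q_i} ≥ c / d_i²` (`schwarz`, `rhoPQ_near`), so
`∫_S D ≥ m c π/4` (`compl_null`). -/
theorem SliceData.finite (sd : SliceData S D G a C η) : (Sᶜ).Finite := by
  classical
  by_contra hinf
  have hinf' : (Sᶜ).Infinite := hinf
  have hSm : MeasurableSet S := sd.isOpen.measurableSet
  have hint : IntegrableOn (fun w => a * C * D w) S := sd.integrable.const_mul (a * C)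
  have hnn : 0 ≤ᵐ[volume.restrict S] fun w => a * C * D w := by
    refine (ae_restrict_iff' hSm).2 (Eventually.of_forall fun w hw => ?_)
    have h1 := sd.a_nonneg
    have h2 := sd.C_nonneg
    have h3 := (sd.Dpos w hw).le
    show 0 ≤ a * C * D w
    positivity
  obtain ⟨m, hm⟩ := exists_nat_gt ((∫ w in S, a * C * D w) / (Real.pi / 6400))
  obtain ⟨P, hP, hPc⟩ := hinf'.exists_subset_card_eq (m + 2)
  -- the nearest other point
  have hq : ∀ p ∈ P, ∃ q ∈ P, q ≠ p ∧ ∀ r ∈ P, r ≠ p → ‖q - p‖ ≤ ‖r - p‖ := by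
    intro p hp
    have hne : (P.erase p).Nonempty := by
      rw [← Finset.card_pos, Finset.card_erase_of_mem hp, hPc]
      omega
    obtain ⟨q, hq, hmin⟩ := Finset.exists_min_image (P.erase p) (fun r => ‖r - p‖) hne
    exact ⟨q, (Finset.mem_erase.1 hq).2, (Finset.mem_erase.1 hq).1, fun r hr hrp =>
      hmin r (Finset.mem_erase.2 ⟨hrp, hr⟩)⟩
  choose! q hqP hqne hqmin using hq
  have hdisj : Set.Pairwise (↑P) (Function.onFun Disjoint fun p =>
      S ∩ Metric.ball p (‖q p - p‖ / 2)) := by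
    intro p hp p' hp' hne
    apply Disjoint.mono inter_subset_right inter_subset_right
    apply Metric.ball_disjoint_ball
    have h1 := hqmin p hp p' hp' hne.symm
    have h2 := hqmin p' hp' p hp hne
    rw [dist_eq_norm]
    rw [norm_sub_rev p' p] at h1
    linarith
  have hsum : ∑ p ∈ P, ∫ w in S ∩ Metric.ball p (‖q p - p‖ / 2), a * C * D w ≤
      ∫ w in S, a * C * D w := by
    rw [← integral_biUnion_finset P (fun p _ => hSm.inter measurableSet_ball) hdisj
      (fun p _ => hint.mono_set inter_subset_left)]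
    apply setIntegral_mono_set hint hnn
    apply Filter.Eventually.of_forall
    intro w hw
    have hw' : w ∈ ⋃ i ∈ P, S ∩ Metric.ball i (‖q i - i‖ / 2) := hw
    simp only [mem_iUnion] at hw'
    obtain ⟨i, _, hi⟩ := hw'
    exact hi.1
  have hlow : ∑ p ∈ P, Real.pi / 6400 ≤
      ∑ p ∈ P, ∫ w in S ∩ Metric.ball p (‖q p - p‖ / 2), a * C * D w :=
    Finset.sum_le_sum fun p hp => SD3_ball sd (hP hp) (hP (hqP p hp)) (hqne p hp).symm
  rw [Finset.sum_const, hPc, nsmul_eq_mul] at hlow
  have hpi : 0 < Real.pi / 6400 := by positivity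
  rw [div_lt_iff₀ hpi] at hm
  push_cast at hlow
  nlinarith

end KQ
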